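import Pool.Agent.Full.X3.Split
import Pool.Agent.Full.Loc1.PotS

/-!
# The main part and the corridor

`Part T g g₀ φ c d b t ω S`: the gluings `g` and `g₀` of the region `T` agree on the main part `S = 1`,
the rest `S = 0` lies strictly inside a channel of `g`, and `S` is constant along the strands.  Then the
strands of `g` in the main part are strands of `g₀`, with the same holonomies, and the strands of `g` with
`S = 0` are strands of the plane rectangle `box c d b t`.  `czw_part` is the corresponding product formula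
for the weight of a configuration; `Pot.part` is the case of a domain with two blocked dead ends, where `g`
closes the row and `g₀` does not.
-/

set_option autoImplicit false

namespace Full.X3
open Full Function Relation Finset Loc1

noncomputable section

/-- the chart of a channel on half edges -/
def hp {τ : Type*} (φ : ℤ × ℤ → τ) (p : Half (ℤ × ℤ)) : Half τ := (φ p.1, p.2)

variable {τ : Type*} [DecidableEq τ]

/-! ### transport of holonomies -/

section trans

variable {σ : Type*} [DecidableEq σ] {g : Half τ → Half τ} {g' : Half σ → Half σ} {ω : Finset τ}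
  {ω' : Finset σ} {Φ : Half σ → Half τ} {A : Set (Half σ)} {q : Half τ → ℤ} {q' : Half σ → ℤ}

theorem zn_tr (h : Tr (mate ω) g (mate ω') g' Φ A) (ht : ∀ x ∈ A, tr ω (Φ x) = tr ω' x)
    (hq : ∀ x ∈ A, q (Φ x) = q' x) {x : Half σ} (hx : x ∈ A) (n : ℕ) :
    zn q g ω n (Φ x) = zn q' g' ω' n x := by
  unfold zn
  refine Finset.sum_congr rfl fun k _ => ?_
  have h1 := h.iter_mem hx k
  rw [h.miter hx k, h.iter hx k, ht _ (h.ms _ h1), hq _ (h.ms _ h1), hq _ h1]

theorem zh_tr (h : Tr (mate ω) g (mate ω') g' Φ A) (ht : ∀ x ∈ A, tr ω (Φ x) = tr ω' x)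
    (hq : ∀ x ∈ A, q (Φ x) = q' x) {x : Half σ} (hx : x ∈ A) :
    zh q g ω (Φ x) = zh q' g' ω' x := by
  unfold zh
  rw [h.hl_eq hx, zn_tr h ht hq hx]

theorem zl_tr (h : Tr (mate ω) g (mate ω') g' Φ A) (ht : ∀ x ∈ A, tr ω (Φ x) = tr ω' x)
    (hq : ∀ x ∈ A, q (Φ x) = q' x) {x : Half σ} (hx : x ∈ A) :
    zl q g ω (Φ x) = zl q' g' ω' x := by
  unfold zl
  rw [h.period hx, zn_tr h ht hq hx]

theorem closed_tr (h : Tr (mate ω) g (mate ω') g' Φ A) {x : Half σ} (hx : x ∈ A) :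
    (∀ y, Conn (mate ω) g (Φ x) y → g y ≠ y) ↔ ∀ y, Conn (mate ω') g' x y → g' y ≠ y := by
  have key : ∀ y, Conn (mate ω') g' x y → y ∈ A := by
    intro y hy
    induction hy with
    | refl => exact hx
    | tail _ h2 ih =>
      rcases h2 with rfl | rfl
      · exact h.ms _ ih
      · exact h.gs _ ih
  constructor
  · intro h1 y hy h2
    have hyA := key y hy
    exact h1 (Φ y) ((h.conn_iff hx hyA).2 hy) ((h.fix_iff hyA).2 h2)
  · intro h1 y hy h2
    obtain ⟨y', hy', rfl, h3⟩ := h.conn hx hy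
    exact h1 y' h3 ((h.fix_iff hy').1 h2)

end trans

variable {T : Finset τ} {g g₀ : Half τ → Half τ} {φ : ℤ × ℤ → τ} {c d b t : ℤ}
  {ω : Finset τ} {S : Half τ → ZMod 2} {q q₀ : Half τ → ℤ} {z : Half τ}

/-- `g` and `g₀` agree on the main part `S = 1`; the rest `S = 0` is strictly inside a channel -/
structure Part (T : Finset τ) (g g₀ : Half τ → Half τ) (φ : ℤ × ℤ → τ) (c d b t : ℤ)
    (ω : Finset τ) (S : Half τ → ZMod 2) : Prop where
  chan : Channel T g φ c d b t
  mateS : ∀ x, S (mate ω x) = S x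
  gS : ∀ x, S (g x) = S x
  g₀S : ∀ x, S (g₀ x) = S x
  same : ∀ x, S x = 1 → g x = g₀ x
  cor : ∀ x, S x = 0 → ∃ p : Half (ℤ × ℤ), p.1 ∈ box c d b t ∧ x = hp φ p
  first : ∀ j v, b ≤ j → j < t → S (φ (c, j), v) = 1
  last : ∀ j v, b ≤ j → j < t → S (φ (d - 1, j), v) = 1

omit [DecidableEq τ] in
lemma S_cases (S : Half τ → ZMod 2) (x : Half τ) : S x = 0 ∨ S x = 1 := by
  generalize S x = a
  revert a
  decide

namespace Part
variable (h : Part T g g₀ φ c d b t ω S)
include h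

/-- the main part -/
theorem main : Tr (mate ω) g (mate ω) g₀ id {x | S x = 1} where
  inj := Set.injOn_id _
  ms x hx := by
    show S _ = 1
    rw [h.mateS]; exact hx
  gs x hx := by
    show S _ = 1
    rw [h.g₀S]; exact hx
  hm x _ := rfl
  hg x hx := h.same x hx

/-- the corridor -/
theorem corr (hG : Glu T g) : Tr (mate ω) g (mate (pre φ (box c d b t) ω))
    (plane.glue (box c d b t)) (hp φ) {p | p.1 ∈ box c d b t ∧ S (hp φ p) = 0} := by
  have hm : ∀ p : Half (ℤ × ℤ), p.1 ∈ box c d b t →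
      mate ω (hp φ p) = hp φ (mate (pre φ (box c d b t) ω) p) := by
    intro p h1
    unfold hp mate
    have h2 : p.1 ∈ pre φ (box c d b t) ω ↔ φ p.1 ∈ ω := by
      unfold pre
      rw [Finset.mem_filter]
      exact and_iff_right h1
    simp only [h2]
  have hg : ∀ p : Half (ℤ × ℤ), p.1 ∈ box c d b t → S (hp φ p) = 0 →
      g (hp φ p) = hp φ (plane.glue (box c d b t) p) := by
    rintro ⟨⟨i, j⟩, v⟩ h1 h2
    have h1' := mem_box.1 h1
    have h3 : i ≠ c := by
      rintro rfl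
      have := h.first j v h1'.2.1 h1'.2.2
      unfold hp at h2
      rw [this] at h2
      exact one_ne_zero h2
    have h4 : i ≠ d - 1 := by
      rintro rfl
      have := h.last j v h1'.2.1 h1'.2.2
      unfold hp at h2
      rw [this] at h2
      exact one_ne_zero h2
    rw [plane_glue]
    unfold hp
    cases v with
    | E =>
      have h5 : ((i, j) : ℤ × ℤ) + Dir.vec .E = (i + 1, j) := by simp [Dir.vec]
      rw [h5, if_pos ⟨h1, mem_box.2 (by omega)⟩]
      exact h.chan.east i j h1'.1.1 (by omega) h1'.2.1 h1'.2.2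
    | W =>
      have h5 : ((i, j) : ℤ × ℤ) + Dir.vec .W = (i - 1, j) := by simp [Dir.vec, sub_eq_add_neg]
      rw [h5, if_pos ⟨h1, mem_box.2 (by omega)⟩]
      exact h.chan.west hG (by omega) h1'.1.2 h1'.2.1 h1'.2.2
    | N =>
      have h5 : ((i, j) : ℤ × ℤ) + Dir.vec .N = (i, j + 1) := by simp [Dir.vec]
      rw [h5]
      by_cases h6 : j + 1 < t
      · rw [if_pos ⟨h1, mem_box.2 (by omega)⟩]
        exact h.chan.north i j h1'.1.1 h1'.1.2 h1'.2.1 h6
      · rw [if_neg (fun h7 => by have := mem_box.1 h7.2; omega)]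
        have h8 : j = t - 1 := by omega
        subst h8
        exact h.chan.ceil i h1'.1.1 h1'.1.2
    | S =>
      have h5 : ((i, j) : ℤ × ℤ) + Dir.vec .S = (i, j - 1) := by simp [Dir.vec, sub_eq_add_neg]
      rw [h5]
      by_cases h6 : b < j
      · rw [if_pos ⟨h1, mem_box.2 (by omega)⟩]
        exact h.chan.south hG h1'.1.1 h1'.1.2 h6 h1'.2.2
      · rw [if_neg (fun h7 => by have := mem_box.1 h7.2; omega)]
        have h8 : j = b := by omega
        subst h8
        exact h.chan.floor i h1'.1.1 h1'.1.2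
  refine ⟨?_, ?_, ?_, fun p hp' => hm p hp'.1, fun p hp' => hg p hp'.1 hp'.2⟩
  · rintro ⟨⟨i, j⟩, v⟩ h1 ⟨⟨i', j'⟩, v'⟩ h2 h3
    have a1 := mem_box.1 h1.1
    have a2 := mem_box.1 h2.1
    have a3 := h.chan.inj i j i' j' a1.1.1 a1.1.2 a1.2.1 a1.2.2 a2.1.1 a2.1.2 a2.2.1 a2.2.2
      (congrArg Prod.fst h3)
    have a4 : v = v' := congrArg Prod.snd h3
    rw [a3.1, a3.2, a4]
  · intro p hp'
    refine ⟨hp'.1, ?_⟩
    rw [← hm p hp'.1, h.mateS]
    exact hp'.2
  · intro p hp'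
    refine ⟨Surf.glue_mem hp'.1, ?_⟩
    rw [← hg p hp'.1 hp'.2, h.gS]
    exact hp'.2

/-! ### the main part -/

theorem bd_main {x : Half τ} (hx : S x = 1) : Bd T g x ↔ Bd T g₀ x := by
  unfold Bd
  rw [h.same x hx]

theorem other_main {x : Half τ} (hx : S x = 1) : other (mate ω) g x = other (mate ω) g₀ x :=
  h.main.other_eq hx

theorem S_conn {x y : Half τ} (hc : Conn (mate ω) g x y) : S y = S x := by
  induction hc with
  | refl => rfl
  | tail _ h2 ih =>
    rcases h2 with rfl | rfl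
    · rw [h.mateS, ih]
    · rw [h.gS, ih]

theorem S_conn₀ {x y : Half τ} (hc : Conn (mate ω) g₀ x y) : S y = S x := by
  induction hc with
  | refl => rfl
  | tail _ h2 ih =>
    rcases h2 with rfl | rfl
    · rw [h.mateS, ih]
    · rw [h.g₀S, ih]

theorem S_other (x : Half τ) : S (other (mate ω) g x) = S x := h.S_conn (Conn.iter _ _)

theorem S_other₀ (x : Half τ) : S (other (mate ω) g₀ x) = S x := h.S_conn₀ (Conn.iter _ _)

theorem zn_main (hq : ∀ x, S x = 1 → q x = q₀ x) {x : Half τ} (hx : S x = 1) (n : ℕ) :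
    zn q g ω n x = zn q₀ g₀ ω n x :=
  zn_tr h.main (fun _ _ => rfl) (fun x hx => hq x hx) hx n

theorem zh_main (hq : ∀ x, S x = 1 → q x = q₀ x) {x : Half τ} (hx : S x = 1) :
    zh q g ω x = zh q₀ g₀ ω x :=
  zh_tr h.main (fun _ _ => rfl) (fun x hx => hq x hx) hx

theorem zl_main (hq : ∀ x, S x = 1 → q x = q₀ x) {x : Half τ} (hx : S x = 1) :
    zl q g ω x = zl q₀ g₀ ω x :=
  zl_tr h.main (fun _ _ => rfl) (fun x hx => hq x hx) hx

theorem hl_main {x : Half τ} (hx : S x = 1) : hl (mate ω) g x = hl (mate ω) g₀ x :=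
  h.main.hl_eq hx

theorem iter_main {x : Half τ} (hx : S x = 1) (k : ℕ) :
    (g ∘ mate ω)^[k] x = (g₀ ∘ mate ω)^[k] x := h.main.iter hx k

theorem S_iter {x : Half τ} (k : ℕ) : S ((g ∘ mate ω)^[k] x) = S x := h.S_conn (Conn.iter k x)

theorem tn_main {x : Half τ} (hx : S x = 1) (n : ℕ) : tn g ω n x = tn g₀ ω n x := by
  unfold tn
  refine Finset.sum_congr rfl fun k _ => ?_
  rw [h.iter_main hx]

theorem ln_main {c c₀ : Half τ → ℤ} (hc : ∀ x, S x = 1 → c x = c₀ x) {x : Half τ} (hx : S x = 1)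
    (n : ℕ) : ln c g ω n x = ln c₀ g₀ ω n x := by
  unfold ln
  refine Finset.sum_congr rfl fun k _ => ?_
  have h1 : S (mate ω ((g ∘ mate ω)^[k] x)) = 1 := by
    rw [h.mateS, h.S_iter]
    exact hx
  rw [hc _ h1, h.iter_main hx]

theorem closed_main {x : Half τ} (hx : S x = 1) :
    (∀ y, Conn (mate ω) g x y → g y ≠ y) ↔ ∀ y, Conn (mate ω) g₀ x y → g₀ y ≠ y :=
  closed_tr h.main hx

theorem free_main (hz : S z = 1) {x : Half τ} (hx : S x = 1) :
    x ∈ free T g ω z ↔ x ∈ free T g₀ ω z := by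
  rw [mem_free, mem_free, h.bd_main hx, h.other_main hz]

omit h in
lemma tr_cor (p : Half (ℤ × ℤ)) (h1 : p.1 ∈ box c d b t) :
    tr ω (hp φ p) = tr (pre φ (box c d b t) ω) p := by
  unfold tr hp
  have h2 : p.1 ∈ pre φ (box c d b t) ω ↔ φ p.1 ∈ ω := by
    unfold pre
    rw [Finset.mem_filter]
    exact and_iff_right h1
  simp only [h2]

end Part

/-! ### the corridor -/

/-- the ends of the strands of the rectangle with `S = 0` -/
def corE (φ : ℤ × ℤ → τ) (c d b t : ℤ) (S : Half τ → ZMod 2) : Finset (Half (ℤ × ℤ)) :=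
  (ends (box c d b t) (plane.glue (box c d b t))).filter fun p => S (hp φ p) = 0

omit [DecidableEq τ] in
lemma mem_corE {p : Half (ℤ × ℤ)} : p ∈ corE φ c d b t S ↔
    Bd (box c d b t) (plane.glue (box c d b t)) p ∧ S (hp φ p) = 0 := by
  unfold corE
  rw [Finset.mem_filter, mem_ends]

namespace Part
variable (h : Part T g g₀ φ c d b t ω S)
include h

theorem zn_cor (hG : Glu T g) {p : Half (ℤ × ℤ)} (h1 : p.1 ∈ box c d b t) (h2 : S (hp φ p) = 0)
    (n : ℕ) : zn q g ω n (hp φ p) =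
      zn (fun p => q (hp φ p)) (plane.glue (box c d b t)) (pre φ (box c d b t) ω) n p :=
  zn_tr (h.corr hG) (fun p hp' => tr_cor p hp'.1) (fun _ _ => rfl) ⟨h1, h2⟩ n

theorem zh_cor (hG : Glu T g) {p : Half (ℤ × ℤ)} (h1 : p.1 ∈ box c d b t) (h2 : S (hp φ p) = 0) :
    zh q g ω (hp φ p) =
      zh (fun p => q (hp φ p)) (plane.glue (box c d b t)) (pre φ (box c d b t) ω) p :=
  zh_tr (h.corr hG) (fun p hp' => tr_cor p hp'.1) (fun _ _ => rfl) ⟨h1, h2⟩

theorem zl_cor (hG : Glu T g) {p : Half (ℤ × ℤ)} (h1 : p.1 ∈ box c d b t) (h2 : S (hp φ p) = 0) :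
    zl q g ω (hp φ p) =
      zl (fun p => q (hp φ p)) (plane.glue (box c d b t)) (pre φ (box c d b t) ω) p :=
  zl_tr (h.corr hG) (fun p hp' => tr_cor p hp'.1) (fun _ _ => rfl) ⟨h1, h2⟩

theorem other_cor (hG : Glu T g) {p : Half (ℤ × ℤ)} (h1 : p.1 ∈ box c d b t)
    (h2 : S (hp φ p) = 0) : other (mate ω) g (hp φ p) =
      hp φ (other (mate (pre φ (box c d b t) ω)) (plane.glue (box c d b t)) p) :=
  (h.corr hG).other_eq ⟨h1, h2⟩

theorem closed_cor (hG : Glu T g) {p : Half (ℤ × ℤ)} (h1 : p.1 ∈ box c d b t)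
    (h2 : S (hp φ p) = 0) : (∀ y, Conn (mate ω) g (hp φ p) y → g y ≠ y) ↔
      ∀ y, Conn (mate (pre φ (box c d b t) ω)) (plane.glue (box c d b t)) p y →
        plane.glue (box c d b t) y ≠ y :=
  closed_tr (h.corr hG) ⟨h1, h2⟩

theorem bd_cor (hG : Glu T g) {p : Half (ℤ × ℤ)} (h1 : p.1 ∈ box c d b t) (h2 : S (hp φ p) = 0) :
    Bd T g (hp φ p) ↔ Bd (box c d b t) (plane.glue (box c d b t)) p := by
  unfold Bd
  rw [(h.corr hG).fix_iff ⟨h1, h2⟩]
  obtain ⟨⟨i, j⟩, v⟩ := p
  have h3 := mem_box.1 h1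
  exact and_congr_left' (iff_of_true (h.chan.mem i j h3.1.1 h3.1.2 h3.2.1 h3.2.2) h1)

/-- every end with `S = 0` is an end of the corridor -/
theorem exists_cor (hG : Glu T g) {x : Half τ} (hx : Bd T g x) (h0 : S x = 0) :
    ∃ p ∈ corE φ c d b t S, x = hp φ p := by
  obtain ⟨p, h1, rfl⟩ := h.cor x h0
  exact ⟨p, mem_corE.2 ⟨(h.bd_cor hG h1 h0).1 hx, h0⟩, rfl⟩

/-- the ends of the corridor lie on its floor and on its ceiling -/
theorem corE_cases {p : Half (ℤ × ℤ)} (hp' : p ∈ corE φ c d b t S) :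
    ∃ i, c < i ∧ i + 1 < d ∧ (p = ((i, b), .S) ∨ p = ((i, t - 1), .N)) := by
  rw [mem_corE] at hp'
  obtain ⟨⟨h1, h2⟩, h3⟩ := hp'
  obtain ⟨⟨i, j⟩, v⟩ := p
  have h1' := mem_box.1 h1
  have h4 : i ≠ c := by
    rintro rfl
    have := h.first j v h1'.2.1 h1'.2.2
    unfold hp at h3
    rw [this] at h3
    exact one_ne_zero h3
  have h5 : i ≠ d - 1 := by
    rintro rfl
    have := h.last j v h1'.2.1 h1'.2.2
    unfold hp at h3
    rw [this] at h3
    exact one_ne_zero h3
  refine ⟨i, by omega, by omega, ?_⟩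
  rw [plane_glue] at h2
  cases v with
  | E =>
    have h6 : ((i, j) : ℤ × ℤ) + Dir.vec .E = (i + 1, j) := by simp [Dir.vec]
    rw [h6, if_pos ⟨h1, mem_box.2 (by omega)⟩] at h2
    exact absurd (congrArg Prod.snd h2) (by simp only [Dir.opp]; exact fun h9 => nomatch h9)
  | W =>
    have h6 : ((i, j) : ℤ × ℤ) + Dir.vec .W = (i - 1, j) := by simp [Dir.vec, sub_eq_add_neg]
    rw [h6, if_pos ⟨h1, mem_box.2 (by omega)⟩] at h2
    exact absurd (congrArg Prod.snd h2) (by simp only [Dir.opp]; exact fun h9 => nomatch h9)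
  | N =>
    right
    by_contra h7
    have h6 : ((i, j) : ℤ × ℤ) + Dir.vec .N = (i, j + 1) := by simp [Dir.vec]
    have h8 : j ≠ t - 1 := fun h9 => h7 (by rw [h9])
    rw [h6, if_pos ⟨h1, mem_box.2 (by omega)⟩] at h2
    exact absurd (congrArg Prod.snd h2) (by simp only [Dir.opp]; exact fun h9 => nomatch h9)
  | S =>
    left
    by_contra h7
    have h6 : ((i, j) : ℤ × ℤ) + Dir.vec .S = (i, j - 1) := by simp [Dir.vec, sub_eq_add_neg]
    have h8 : j ≠ b := fun h9 => h7 (by rw [h9])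
    rw [h6, if_pos ⟨h1, mem_box.2 (by omega)⟩] at h2
    exact absurd (congrArg Prod.snd h2) (by simp only [Dir.opp]; exact fun h9 => nomatch h9)

theorem other_mem_cor (hG : Glu T g) {p : Half (ℤ × ℤ)} (hp' : p ∈ corE φ c d b t S) :
    other (mate (pre φ (box c d b t) ω)) (plane.glue (box c d b t)) p ∈ corE φ c d b t S := by
  rw [mem_corE] at hp' ⊢
  exact ⟨(Surf.glu plane (box c d b t)).other_bd hp'.1,
    ((h.corr hG).other_mem ⟨hp'.1.1, hp'.2⟩).2⟩

end Part

/-! ### the weight of a configuration -/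

section weight

variable {ι : Type*} [LinearOrder ι] {o : Half τ → ι}

/-- one end of every strand of the main part which does not end in `z` -/
def mainA (T : Finset τ) (g₀ : Half τ → Half τ) (ω : Finset τ) (z : Half τ) (S : Half τ → ZMod 2)
    (o : Half τ → ι) : Finset (Half τ) :=
  (free T g₀ ω z).filter fun e => S e = 1 ∧ o e < o (other (mate ω) g₀ e)

/-- one end of every strand of the corridor -/
def corA (φ : ℤ × ℤ → τ) (c d b t : ℤ) (ω : Finset τ) (S : Half τ → ZMod 2)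
    (o : Half τ → ι) : Finset (Half (ℤ × ℤ)) :=
  (corE φ c d b t S).filter fun p => o (hp φ p) <
    o (hp φ (other (mate (pre φ (box c d b t) ω)) (plane.glue (box c d b t)) p))

namespace Part
variable (h : Part T g g₀ φ c d b t ω S)
include h

theorem arcs_main (hG : Glu T g) (hz : Bd T g z) (hzS : S z = 1) :
    (arcs T g ω (some z) o).filter (fun e => S e = 1) = mainA T g₀ ω z S o := by
  ext e
  unfold mainA
  rw [Finset.mem_filter, mem_arcs' hG hz, Finset.mem_filter]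
  constructor
  · rintro ⟨⟨h1, h2⟩, h3⟩
    rw [h.other_main h3] at h2
    exact ⟨(h.free_main hzS h3).1 h1, h3, h2⟩
  · rintro ⟨h1, h3, h2⟩
    rw [← h.other_main h3] at h2
    exact ⟨⟨(h.free_main hzS h3).2 h1, h2⟩, h3⟩

theorem arcs_cor (hG : Glu T g) (hz : Bd T g z) (hzS : S z = 1) :
    (arcs T g ω (some z) o).filter (fun e => ¬ S e = 1) = (corA φ c d b t ω S o).image (hp φ) := by
  ext e
  unfold corA
  rw [Finset.mem_filter, mem_arcs' hG hz, Finset.mem_image]
  constructor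
  · rintro ⟨⟨h1, h2⟩, h3⟩
    have h0 := (S_cases S e).resolve_right h3
    obtain ⟨p, h4, rfl⟩ := h.exists_cor hG (mem_free.1 h1).1 h0
    refine ⟨p, ?_, rfl⟩
    rw [Finset.mem_filter]
    refine ⟨h4, ?_⟩
    rw [← h.other_cor hG (mem_corE.1 h4).1.1 h0]
    exact h2
  · rintro ⟨p, h4, rfl⟩
    rw [Finset.mem_filter] at h4
    obtain ⟨h5, h6⟩ := h4
    have h7 := mem_corE.1 h5
    have h8 : ¬ S (hp φ p) = 1 := by rw [h7.2]; exact zero_ne_one
    refine ⟨⟨mem_free.2 ⟨(h.bd_cor hG h7.1.1 h7.2).2 h7.1, fun h9 => h8 (by rw [h9]; exact hzS),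
      fun h9 => h8 (by rw [h9, h.S_other]; exact hzS)⟩, ?_⟩, h8⟩
    rw [h.other_cor hG h7.1.1 h7.2]
    exact h6

theorem corA_inj (hG : Glu T g) :
    Set.InjOn (hp φ) (corA φ c d b t ω S o : Set (Half (ℤ × ℤ))) := by
  intro p hp1 p' hp2 h1
  unfold corA at hp1 hp2
  rw [Finset.coe_filter] at hp1 hp2
  have a1 := mem_corE.1 hp1.1
  have a2 := mem_corE.1 hp2.1
  exact (h.corr hG).inj ⟨a1.1.1, a1.2⟩ ⟨a2.1.1, a2.2⟩ h1

/-- the number of strands -/
theorem card_part (hG : Glu T g) (hz : Bd T g z) (hzS : S z = 1) :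
    (arcs T g ω (some z) o).card = (mainA T g₀ ω z S o).card + (corA φ c d b t ω S o).card := by
  classical
  rw [← Finset.card_filter_add_card_filter_not (s := arcs T g ω (some z) o) (fun e => S e = 1),
    h.arcs_main hG hz hzS, h.arcs_cor hG hz hzS, Finset.card_image_of_injOn (h.corA_inj hG)]

/-- closed strands have the factor one -/
theorem loops_one (hG : Glu T g) (hq : ∀ x, S x = 1 → q x = q₀ x)
    (hL1 : ∀ x : Half τ, x.1 ∈ T → S x = 1 → (∀ y, Conn (mate ω) g₀ x y → g₀ y ≠ y) →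
      cwt (zl q₀ g₀ ω x) = 1)
    (hL0 : ∀ p : Half (ℤ × ℤ), p.1 ∈ box c d b t → S (hp φ p) = 0 →
      (∀ y, Conn (mate (pre φ (box c d b t) ω)) (plane.glue (box c d b t)) p y →
        plane.glue (box c d b t) y ≠ y) →
      cwt (zl (fun p => q (hp φ p)) (plane.glue (box c d b t)) (pre φ (box c d b t) ω) p) = 1) :
    ∀ c ∈ loops T g ω, cwt (zl q g ω (Quot.out c)) = 1 := by
  classical
  intro c' hc
  unfold loops at hc
  rw [Finset.mem_filter] at hc
  obtain ⟨hc1, hc2⟩ := hc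
  have h2 := hG.two ω
  have hout : st (mate ω) g (Quot.out c') = c' := Quot.out_eq c'
  have hT : (Quot.out c' : Half τ).1 ∈ T := by
    unfold strands at hc1
    rw [Finset.mem_image] at hc1
    obtain ⟨x, hx, hxc⟩ := hc1
    have : Conn (mate ω) g x (Quot.out c') := h2.st_eq.1 (hxc.trans hout.symm)
    exact hG.conn_mem this (mem_hs.1 hx)
  have hcl : ∀ y, Conn (mate ω) g (Quot.out c') y → g y ≠ y := by
    intro y hy h3
    exact hc2 y (mem_ends.2 ⟨hG.conn_mem hy hT, h3⟩) ((Quot.sound hy).symm.trans hout)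
  rcases S_cases S (Quot.out c') with h3 | h3
  · obtain ⟨p, h4, h5⟩ := h.cor _ h3
    rw [h5] at h3 hcl ⊢
    rw [h.zl_cor hG h4 h3]
    exact hL0 p h4 h3 ((h.closed_cor hG h4 h3).1 hcl)
  · rw [h.zl_main hq h3]
    exact hL1 _ hT h3 ((h.closed_main h3).1 hcl)

/-- **the weight of a configuration is the product of the weights of the main part and of the
corridor** -/
theorem czw_part (hG : Glu T g) (hz : Bd T g z) (hzS : S z = 1)
    (hq : ∀ x, S x = 1 → q x = q₀ x)
    (hL1 : ∀ x : Half τ, x.1 ∈ T → S x = 1 → (∀ y, Conn (mate ω) g₀ x y → g₀ y ≠ y) →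
      cwt (zl q₀ g₀ ω x) = 1)
    (hL0 : ∀ p : Half (ℤ × ℤ), p.1 ∈ box c d b t → S (hp φ p) = 0 →
      (∀ y, Conn (mate (pre φ (box c d b t) ω)) (plane.glue (box c d b t)) p y →
        plane.glue (box c d b t) y ≠ y) →
      cwt (zl (fun p => q (hp φ p)) (plane.glue (box c d b t)) (pre φ (box c d b t) ω) p) = 1) :
    czw q T g z o ω =
      ((∏ e ∈ mainA T g₀ ω z S o, cwt (zh q₀ g₀ ω e)) * ue (kap * zh q₀ g₀ ω z)) *
      ∏ p ∈ corA φ c d b t ω S o,
        cwt (zh (fun p => q (hp φ p)) (plane.glue (box c d b t)) (pre φ (box c d b t) ω) p) := by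
  classical
  unfold czw
  rw [Finset.prod_eq_one (h.loops_one hG hq hL1 hL0), mul_one, h.zh_main hq hzS,
    ← Finset.prod_filter_mul_prod_filter_not (arcs T g ω (some z) o) (fun e => S e = 1),
    h.arcs_main hG hz hzS, h.arcs_cor hG hz hzS, Finset.prod_image (h.corA_inj hG)]
  have e1 : ∏ e ∈ mainA T g₀ ω z S o, cwt (zh q g ω e) =
      ∏ e ∈ mainA T g₀ ω z S o, cwt (zh q₀ g₀ ω e) := by
    refine Finset.prod_congr rfl fun e he => ?_
    unfold mainA at he
    rw [Finset.mem_filter] at he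
    rw [h.zh_main hq he.2.1]
  have e2 : ∏ p ∈ corA φ c d b t ω S o, cwt (zh q g ω (hp φ p)) =
      ∏ p ∈ corA φ c d b t ω S o,
        cwt (zh (fun p => q (hp φ p)) (plane.glue (box c d b t)) (pre φ (box c d b t) ω) p) := by
    refine Finset.prod_congr rfl fun p hp' => ?_
    unfold corA at hp'
    rw [Finset.mem_filter] at hp'
    have a1 := mem_corE.1 hp'.1
    rw [h.zh_cor hG a1.1.1 a1.2]
  rw [e1, e2]
  ring

/-- the same with normalised weights -/
theorem czw_part_norm (hG : Glu T g) (hz : Bd T g z) (hzS : S z = 1)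
    (hq : ∀ x, S x = 1 → q x = q₀ x)
    (hL1 : ∀ x : Half τ, x.1 ∈ T → S x = 1 → (∀ y, Conn (mate ω) g₀ x y → g₀ y ≠ y) →
      cwt (zl q₀ g₀ ω x) = 1)
    (hL0 : ∀ p : Half (ℤ × ℤ), p.1 ∈ box c d b t → S (hp φ p) = 0 →
      (∀ y, Conn (mate (pre φ (box c d b t) ω)) (plane.glue (box c d b t)) p y →
        plane.glue (box c d b t) y ≠ y) →
      cwt (zl (fun p => q (hp φ p)) (plane.glue (box c d b t)) (pre φ (box c d b t) ω) p) = 1)
    (M : Half τ → ℂ) (C : Half (ℤ × ℤ) → ℂ)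
    (hM : ∀ e ∈ mainA T g₀ ω z S o, cwt (zh q₀ g₀ ω e) = (Real.sqrt 3 : ℝ) * M e)
    (hC : ∀ p ∈ corA φ c d b t ω S o,
      cwt (zh (fun p => q (hp φ p)) (plane.glue (box c d b t)) (pre φ (box c d b t) ω) p) =
        (Real.sqrt 3 : ℝ) * C p) :
    czw q T g z o ω = ((Real.sqrt 3 : ℝ) : ℂ) ^ (arcs T g ω (some z) o).card *
      ((∏ e ∈ mainA T g₀ ω z S o, M e) * ue (kap * zh q₀ g₀ ω z)) *
      ∏ p ∈ corA φ c d b t ω S o, C p := by
  rw [h.czw_part hG hz hzS hq hL1 hL0, Finset.prod_congr rfl hM, Finset.prod_congr rfl hC,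
    Finset.prod_mul_distrib, Finset.prod_mul_distrib, Finset.prod_const, Finset.prod_const,
    h.card_part hG hz hzS, pow_add]
  ring

end Part

end weight

/-! ### the domain with a closed row -/

/-- the potential of two blocked dead ends gives a partition -/
theorem _root_.Full.Slab.Pot.part {D : Slab} {x y a c1 d1 c2 d2 : ℤ} {ω : Finset ZT}
    {S : Half ZT → ZMod 2} (hS : D.Pot x y a c1 d1 c2 d2 ω S) (hD : D.Good x y a)
    (h2 : d1 < D.l + a) (h3 : D.r - a < c2) :
    Part (D.T y) (D.gc x y) (D.go x y) (phC D.l D.r y) (-a) a D.b D.t ω S where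
  chan := Slab.corridor hD.dead (by have := hD.pos; omega) hD.xl hD.xr hD.yb hD.yt
  mateS := hS.mate
  gS := hS.gc
  g₀S := hS.go
  same := hS.same
  cor q hq := by
    obtain ⟨i, j, v, h1, h2, h3, h4, h5⟩ := hS.cor q hq
    exact ⟨((i, j), v), mem_box.2 ⟨⟨h1, h2⟩, h3, h4⟩, h5⟩
  first j v h1 h4 := by
    have ha := hD.pos
    rw [phC_neg (by omega)]
    exact hS.frontR _ _ _ (by omega) (by omega) h1 h4
  last j v h1 h4 := by
    have ha := hD.pos
    rw [phC_pos (by omega)]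
    exact hS.frontL _ _ _ (by omega) (by omega) h1 h4

end

end Full.X3
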