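import Pool.Agent.Full.Loc1.PotS
import Pool.Agent.Full.X3.Part

/-!
# The good event of the corridor

`GoodC D y a k ω`: blocking chains of the colour `0` in a box of the left dead end and in two boxes of the
right dead end, and a chain of the colour `1` in a third box of the right dead end.  `P_not_goodC`: its
probability; `GoodC.exists_part`: the potential.
-/

set_option autoImplicit false

namespace Full
open Full.X3 Function Finset Loc1 Pool.Agent.Helper69.RSW

namespace Slab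

/-- the good event: blocking chains in one box of the left and in three boxes of the right dead end -/
structure GoodC (D : Slab) (y a k : ℤ) (ω : Finset ZT) : Prop where
  left : ∃ Q, Block 0 (D.l + 1) (D.l + 1 + k) D.b D.t
    (pre (phL y) (box (D.l + 1) (D.l + 1 + k) D.b D.t) ω) Q
  right : ∃ Q, Block 0 (D.r - a + 1) (D.r - a + 1 + k) D.b D.t
    (pre (phR y) (box (D.r - a + 1) (D.r - a + 1 + k) D.b D.t) ω) Q
  mid : ∃ Q, Block 0 (D.r - a + 1 + k) (D.r - a + 1 + 2 * k) D.b D.t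
    (pre (phR y) (box (D.r - a + 1 + k) (D.r - a + 1 + 2 * k) D.b D.t) ω) Q
  mid' : ∃ Q, Block 1 (D.r - a + 1 + 2 * k) (D.r - a + 1 + 3 * k) D.b D.t
    (pre (phR y) (box (D.r - a + 1 + 2 * k) (D.r - a + 1 + 3 * k) D.b D.t) ω) Q

variable {D : Slab} {x y a k : ℤ} {ω : Finset ZT}

/-- a blocking chain in a box of the left part of the row -/
theorem no_blockL {c d e : ℤ} (A : ℕ) (he : e = 0 ∨ e = 1) (hbt : D.b < D.t)
    (hA : A * (D.t - D.b) ≤ d - c) (hc : D.l ≤ c) (hd : d ≤ D.r) :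
    P (D.T y) (fun ω => ¬ ∃ Q, Block e c d D.b D.t (pre (phL y) (box c d D.b D.t) ω) Q) ≤ thB ^ A := by
  refine no_block_prob (T := D.T y) (φ := phL y) A he hbt hA (fun p _ q _ h => ?_) ?_
  · have := phL_inj (i := p.1) (j := p.2) (i' := q.1) (j' := q.2) h
    exact Prod.ext this.1 this.2
  · rintro ⟨i, j⟩ hp
    rw [mem_box] at hp
    exact mem_phL (by omega) (by omega) hp.2.1 hp.2.2

/-- a blocking chain in a box of the right part of the row -/
theorem no_blockR {c d e : ℤ} (A : ℕ) (he : e = 0 ∨ e = 1) (hbt : D.b < D.t)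
    (hA : A * (D.t - D.b) ≤ d - c) (hc : D.l ≤ c) (hd : d ≤ D.r) :
    P (D.T y) (fun ω => ¬ ∃ Q, Block e c d D.b D.t (pre (phR y) (box c d D.b D.t) ω) Q) ≤ thB ^ A := by
  refine no_block_prob (T := D.T y) (φ := phR y) A he hbt hA (fun p _ q _ h => ?_) ?_
  · have := phR_inj (i := p.1) (j := p.2) (i' := q.1) (j' := q.2) h
    exact Prod.ext this.1 this.2
  · rintro ⟨i, j⟩ hp
    rw [mem_box] at hp
    exact mem_phR (by omega) (by omega) (by omega) hp.2.1 hp.2.2

/-- **the good event has a large probability** -/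
theorem P_not_goodC (hD : D.Good x y a) (A : ℕ) (hA : A * (D.t - D.b) ≤ k) (hk : 3 * k + 3 ≤ a) :
    P (D.T y) (fun ω => ¬ D.GoodC y a k ω) ≤ 4 * thB ^ A := by
  obtain ⟨h1, h2, h3, h4, h5, h6, h7⟩ := hD
  have hA0 : 0 ≤ (A : ℤ) * (D.t - D.b) := mul_nonneg (by positivity) (by omega)
  have p1 := no_blockL (D := D) (y := y) (c := D.l + 1) (d := D.l + 1 + k) (e := 0) A (Or.inl rfl) h3
    (by omega) (by omega) (by omega)
  have p2 := no_blockR (D := D) (y := y) (c := D.r - a + 1) (d := D.r - a + 1 + k) (e := 0) A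
    (Or.inl rfl) h3 (by omega) (by omega) (by omega)
  have p3 := no_blockR (D := D) (y := y) (c := D.r - a + 1 + k) (d := D.r - a + 1 + 2 * k) (e := 0) A
    (Or.inl rfl) h3 (by omega) (by omega) (by omega)
  have p4 := no_blockR (D := D) (y := y) (c := D.r - a + 1 + 2 * k) (d := D.r - a + 1 + 3 * k) (e := 1) A
    (Or.inr rfl) h3 (by omega) (by omega) (by omega)
  set A1 : Finset ZT → Prop := fun ω => ¬ ∃ Q, Block 0 (D.l + 1) (D.l + 1 + k) D.b D.t
    (pre (phL y) (box (D.l + 1) (D.l + 1 + k) D.b D.t) ω) Q with hA1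
  set A2 : Finset ZT → Prop := fun ω => ¬ ∃ Q, Block 0 (D.r - a + 1) (D.r - a + 1 + k) D.b D.t
    (pre (phR y) (box (D.r - a + 1) (D.r - a + 1 + k) D.b D.t) ω) Q with hA2
  set A3 : Finset ZT → Prop := fun ω => ¬ ∃ Q, Block 0 (D.r - a + 1 + k) (D.r - a + 1 + 2 * k) D.b D.t
    (pre (phR y) (box (D.r - a + 1 + k) (D.r - a + 1 + 2 * k) D.b D.t) ω) Q with hA3
  set A4 : Finset ZT → Prop := fun ω => ¬ ∃ Q,
    Block 1 (D.r - a + 1 + 2 * k) (D.r - a + 1 + 3 * k) D.b D.t
    (pre (phR y) (box (D.r - a + 1 + 2 * k) (D.r - a + 1 + 3 * k) D.b D.t) ω) Q with hA4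
  have hm : P (D.T y) (fun ω => ¬ D.GoodC y a k ω) ≤
      P (D.T y) (fun ω => (A1 ω ∨ A2 ω) ∨ (A3 ω ∨ A4 ω)) := by
    refine P_mono ?_
    intro ω _ hn
    by_contra hcon
    push Not at hcon
    obtain ⟨⟨g1, g2⟩, g3, g4⟩ := hcon
    exact hn ⟨not_not.1 g1, not_not.1 g2, not_not.1 g3, not_not.1 g4⟩
  have q1 := P_or_le (D.T y) (fun ω => A1 ω ∨ A2 ω) (fun ω => A3 ω ∨ A4 ω)
  have q2 := P_or_le (D.T y) A1 A2
  have q3 := P_or_le (D.T y) A3 A4
  linarith

/-- **the potential of the good event**: the left box and the right box next to the main part -/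
theorem GoodC.exists_pot (h : D.GoodC y a k ω) (hD : D.Good x y a) (hk : 1 ≤ k) (hak : 3 * k + 3 ≤ a) :
    ∃ S : Half ZT → ZMod 2,
      D.Pot x y a (D.l + 1) (D.l + 1 + k) (D.r - a + 1) (D.r - a + 1 + k) ω S := by
  obtain ⟨QL, hL⟩ := h.left
  obtain ⟨QR, hR⟩ := h.right
  obtain ⟨S, hS, -⟩ := Full.Slab.exists_pot hD (Or.inl rfl) (Or.inl rfl) hL hR (by omega) (by omega)
    (by omega) (by omega)
  exact ⟨S, hS⟩

/-- the partition of the good event -/
theorem GoodC.exists_part (h : D.GoodC y a k ω) (hD : D.Good x y a) (hk : 1 ≤ k)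
    (hak : 3 * k + 3 ≤ a) : ∃ S : Half ZT → ZMod 2,
      D.Pot x y a (D.l + 1) (D.l + 1 + k) (D.r - a + 1) (D.r - a + 1 + k) ω S ∧
      Full.X3.Part (D.T y) (D.gc x y) (D.go x y) (phC D.l D.r y) (-a) a D.b D.t ω S := by
  obtain ⟨S, hS⟩ := h.exists_pot hD hk hak
  exact ⟨S, hS, hS.part hD (by omega) (by omega)⟩

end Slab

end Full
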