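import Pool.Agent.Full.X3.LabOk

/-!
# Marks and charges

`MarksOk`: the three marks `E 0`, `E 1`, `E 2`, counterclockwise, numbered such that the part of the
boundary between `E 1` and `E 2` lies in the lower or in the upper part of the domain with the closed row.
`chgOf`: the charges `-1` at the left of `E 0` and of `E 1` and the trio of the right dead end.
-/

set_option autoImplicit false

namespace Full

/-- three marks; the part of the boundary between `E 1` and `E 2` is in the lower or in the upper part -/
structure MarksOk (D : Slab) (W : Lab) (a nL nU : ℤ) (E : Fin 3 → Half ZT) : Prop where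
  wall : ∀ i, D.IsW (E i)
  /-- not in the dead ends -/
  far : ∀ i, (a ≤ W.pos (E i) ∧ W.pos (E i) < nL - a) ∨
    (W.P + a ≤ W.pos (E i) ∧ W.pos (E i) < W.P + nU - a)
  lt : W.pos (E 1) < W.pos (E 2)
  side : W.pos (E 2) < W.P ∨ W.P < W.pos (E 1)
  cyc : W.pos (E 0) < W.pos (E 1) ∨ W.pos (E 2) < W.pos (E 0)

/-- the charges of the marks `E` and of the trio; `a` is the length of the dead ends, `k` of the boxes -/
def chgOf (W : Lab) (E : Fin 3 → Half ZT) (a k : ℤ) : Chg :=
  ⟨W.pos (E 0), W.pos (E 1), -a + 1 + k⟩

namespace Slab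

/-- the boundary half edges on the two sides of the row, for the domain with an end at the height `y` -/
def Side (D : Slab) (y : ℤ) (u : Half ZT) : Prop :=
  (∃ v, D.b ≤ v ∧ v < y ∧ (u = (.inl (D.l, v), .W) ∨ u = (.inl (D.r, v), .E))) ∨
  ∃ v, y ≤ v ∧ v < D.t ∧ (u = (.inr (D.l, v), .W) ∨ u = (.inr (D.r - 1, v), .E))

end Slab

end Full
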