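import Pool.Agent.Full.X3.Phase
import Pool.Agent.Full.Turn.Next

/-!
# Admissible labels of the walls of a domain with a closed row

`Lab.Ok W D a nL nU`: `W.pos` numbers the boundary half edges of the domain `(D.T y, D.go x y)`
counterclockwise, from the lower part of the left side on: the left side below `z` has the positions
`-1, -2, ...` downwards, the walls of the lower part `0, ..., nL - 1`, the right side
`nL, ..., W.P - 1`, the walls of the upper part `W.P, ..., W.P + nU - 1`, the left side above `z` the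
positions from `W.P + nU` on.  `W.th` is the lifted direction.  Both do not depend on `x`, `y`.
-/

set_option autoImplicit false

namespace Full
open Full.X3 Function Finset

/-- admissible labels; `a` is the length of the two dead ends -/
structure Lab.Ok (W : Lab) (D : Slab) (a nL nU : ℤ) : Prop where
  P_eq : W.P = nL + (D.t - D.b)
  lowW : ∀ v, D.b ≤ v → v < D.t → W.pos (.inl (D.l, v), .W) = D.b - 1 - v ∧
    W.th (.inl (D.l, v), .W) = -1
  upW : ∀ v, D.b ≤ v → v < D.t → W.pos (.inr (D.l, v), .W) = W.P + nU + (D.t - 1 - v) ∧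
    W.th (.inr (D.l, v), .W) = 3
  lowE : ∀ v, D.b ≤ v → v < D.t → W.pos (.inl (D.r, v), .E) = nL + (v - D.b) ∧
    W.th (.inl (D.r, v), .E) = 1
  upE : ∀ v, D.b ≤ v → v < D.t → W.pos (.inr (D.r - 1, v), .E) = nL + (v - D.b) ∧
    W.th (.inr (D.r - 1, v), .E) = 1
  /-- floor of the left dead end -/
  floorL : ∀ i, 0 ≤ i → i < a → D.IsW (.inl (D.l + i, D.b), .S) ∧
    W.pos (.inl (D.l + i, D.b), .S) = i ∧ W.th (.inl (D.l + i, D.b), .S) = 0
  /-- floor of the right dead end -/
  floorR : ∀ i, 0 ≤ i → i < a → D.IsW (.inl (D.r - i, D.b), .S) ∧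
    W.pos (.inl (D.r - i, D.b), .S) = nL - 1 - i ∧ W.th (.inl (D.r - i, D.b), .S) = 0
  /-- ceiling of the right dead end -/
  ceilR : ∀ i, 0 ≤ i → i < a → D.IsW (.inr (D.r - 1 - i, D.t - 1), .N) ∧
    W.pos (.inr (D.r - 1 - i, D.t - 1), .N) = W.P + i ∧
    W.th (.inr (D.r - 1 - i, D.t - 1), .N) = 2
  /-- ceiling of the left dead end -/
  ceilL : ∀ i, 0 ≤ i → i < a → D.IsW (.inr (D.l + i, D.t - 1), .N) ∧
    W.pos (.inr (D.l + i, D.t - 1), .N) = W.P + nU - 1 - i ∧
    W.th (.inr (D.l + i, D.t - 1), .N) = 2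
  /-- the walls of the lower part -/
  low : ∀ t d, D.IsW (.inl t, d) → 0 ≤ W.pos (.inl t, d) ∧ W.pos (.inl t, d) < nL
  /-- the walls of the upper part -/
  up : ∀ t d, D.IsW (.inr t, d) → W.P ≤ W.pos (.inr t, d) ∧ W.pos (.inr t, d) < W.P + nU
  inj : ∀ u v, D.IsW u → D.IsW v → W.pos u = W.pos v → u = v
  surj : ∀ p, (0 ≤ p ∧ p < nL) ∨ (W.P ≤ p ∧ p < W.P + nU) → ∃ u, D.IsW u ∧ W.pos u = p
  /-- the labels are the directions modulo four -/
  dir : ∀ u, D.IsW u → (4 : ℤ) ∣ W.th u - u.2.num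
  /-- one step along the boundary; the left side ends at the foot of the line -/
  step : ∀ x y, D.l < x → x < D.r → D.b < y → y < D.t → ∀ u, Bd (D.T y) (D.go x y) u →
    u ≠ Slab.z x y → u ≠ (.inr (D.l, y), .W) →
    W.pos (next (D.go x y) u) = W.pos u + 1 ∧
      W.th (next (D.go x y) u) = W.th u + Turn.bt (D.go x y) u

end Full
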