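import Pool.Agent.Full.X3.ThArc
import Pool.Agent.Full.X3.LabOk
import Pool.Agent.Full.Loc1.SlabCh

/-!
# The walls of a domain with a closed row

`isW_low`, `isW_up`: the walls `D.IsW` in terms of the two sheets with one row; `isW_gc`: they are the
boundary half edges of `(D.T y, D.gc x y)` other than `z`; `isW_go`: together with the four families of
sides at the ends of the row they are the boundary half edges of `(D.T y, D.go x y)` other than `z`.
-/

set_option autoImplicit false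

namespace Full.Slab
open Function Relation Full Full.Turn Full.X3

variable {D : Slab} {x y : ℤ}

lemma bd_iff_nb {τ : Type*} [DecidableEq τ] {S : Surf τ} {T : Finset τ} {t : τ} {d : Dir} :
    Bd T (S.glue T) (t, d) ↔ t ∈ T ∧ ∀ t' ∈ S.nb d t, t' ∉ T := by
  constructor
  · rintro ⟨h1, h2⟩
    refine ⟨h1, fun t' ht' h3 => ?_⟩
    rw [Surf.glue_of_mem ht' h1 h3] at h2
    exact Dir.opp_ne d (congrArg Prod.snd h2)
  · rintro ⟨h1, h2⟩
    exact ⟨h1, Surf.glue_wall h2⟩

/-- a tile next to `L` is not in the strip, except below a floor tile -/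
lemma L_nb {t : ℤ × ℤ} {d : Dir} (ht : t ∈ D.L) (h1 : D.l ≤ (t + d.vec).1) (h2 : (t + d.vec).1 ≤ D.r)
    (h3 : D.b ≤ (t + d.vec).2) (h4 : (t + d.vec).2 < D.t) : d = .N ∧ t.2 = D.b - 1 := by
  obtain ⟨i, j⟩ := t
  have hlr := D.hlr
  rw [mk_add] at h1 h2 h3 h4
  by_cases h5 : D.b ≤ j
  · exfalso
    refine D.hL i j ?_ ?_ h5 ?_ ht <;> cases d <;> simp only [Dir.vec] at h1 h2 h3 h4 <;> omega
  · cases d <;> simp only [Dir.vec] at h1 h2 h3 h4 ⊢
    · omega
    · exact ⟨trivial, by omega⟩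
    · omega
    · omega

lemma U_nb {t : ℤ × ℤ} {d : Dir} (ht : t ∈ D.U) (h1 : D.l ≤ (t + d.vec).1) (h2 : (t + d.vec).1 < D.r)
    (h3 : D.b ≤ (t + d.vec).2) (h4 : (t + d.vec).2 < D.t) : d = .S ∧ t.2 = D.t := by
  obtain ⟨i, j⟩ := t
  have hlr := D.hlr
  rw [mk_add] at h1 h2 h3 h4
  by_cases h5 : j < D.t
  · exfalso
    refine D.hU i j ?_ ?_ ?_ h5 ht <;> cases d <;> simp only [Dir.vec] at h1 h2 h3 h4 <;> omega
  · cases d <;> simp only [Dir.vec] at h1 h2 h3 h4 ⊢
    · omega
    · omega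
    · omega
    · exact ⟨trivial, by omega⟩

/-- walls of the lower sheet -/
lemma bd_TL (hb : D.b < y) (ht : y ≤ D.t) {t : ℤ × ℤ} {d : Dir} :
    Bd (D.TL y) (plane.glue (D.TL y)) (t, d) ↔ (t ∈ D.L ∧ t + d.vec ∉ D.L ∧
      ¬ ((D.l ≤ (t + d.vec).1 ∧ (t + d.vec).1 ≤ D.r) ∧ (t + d.vec).2 = D.b)) ∨
      (((D.l ≤ t.1 ∧ t.1 ≤ D.r) ∧ D.b ≤ t.2 ∧ t.2 < y) ∧
        ((d = .S ∧ t.2 = D.b ∧ t + d.vec ∉ D.L) ∨ (d = .E ∧ t.1 = D.r) ∨ (d = .W ∧ t.1 = D.l) ∨
          (d = .N ∧ t.2 = y - 1))) := by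
  obtain ⟨i, j⟩ := t
  have hlr := D.hlr
  rw [Shp.bd_plane, mk_add, mem_TL, mem_TL]
  constructor
  · rintro ⟨h1, h2⟩
    rw [not_or] at h2
    rcases h1 with h1 | h1
    · refine Or.inl ⟨h1, h2.1, fun h3 => h2.2 ?_⟩
      omega
    · refine Or.inr ⟨h1, ?_⟩
      cases d with
      | E =>
        refine Or.inr (Or.inl ⟨rfl, ?_⟩)
        have := h2.2
        simp only [Dir.vec, add_zero] at this
        omega
      | N =>
        refine Or.inr (Or.inr (Or.inr ⟨rfl, ?_⟩))
        have := h2.2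
        simp only [Dir.vec, add_zero] at this
        omega
      | W =>
        refine Or.inr (Or.inr (Or.inl ⟨rfl, ?_⟩))
        have := h2.2
        simp only [Dir.vec, add_zero] at this
        omega
      | S =>
        refine Or.inl ⟨rfl, ?_, h2.1⟩
        have := h2.2
        simp only [Dir.vec, add_zero] at this
        omega
  · rintro (⟨h1, h2, h3⟩ | ⟨h1, h2⟩)
    · refine ⟨Or.inl h1, ?_⟩
      rintro (h4 | h4)
      · exact h2 h4
      · obtain ⟨rfl, h5⟩ := L_nb (D := D) (d := d) h1 (by rw [mk_add]; exact h4.1.1)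
          (by rw [mk_add]; exact h4.1.2) (by rw [mk_add]; exact h4.2.1) (by rw [mk_add]; simp only; omega)
        apply h3
        simp only [Dir.vec, add_zero] at h4 h5 ⊢
        omega
    · refine ⟨Or.inr h1, ?_⟩
      rcases h2 with ⟨rfl, h2, h3⟩ | ⟨rfl, h2⟩ | ⟨rfl, h2⟩ | ⟨rfl, h2⟩
      · rintro (h4 | h4)
        · exact h3 h4
        · simp only [Dir.vec] at h4
          simp only at h2
          omega
      · simp only [Dir.vec, add_zero] at h1 h2 ⊢
        subst h2
        rintro (h4 | h4)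
        · exact D.hL _ _ (by omega) le_rfl (by omega) (by omega) h4
        · omega
      · simp only [Dir.vec, add_zero] at h1 h2 ⊢
        subst h2
        rintro (h4 | h4)
        · exact D.hL _ _ (by omega) (by omega) (by omega) (by omega) h4
        · omega
      · simp only [Dir.vec, add_zero] at h1 h2 ⊢
        subst h2
        rintro (h4 | h4)
        · exact D.hL _ _ (by omega) (by omega) (by omega) (by omega) h4
        · omega

/-- walls of the upper sheet -/
lemma bd_TU (hb : D.b ≤ y) (ht : y < D.t) {t : ℤ × ℤ} {d : Dir} :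
    Bd (D.TU y) (plane.glue (D.TU y)) (t, d) ↔ (t ∈ D.U ∧ t + d.vec ∉ D.U ∧
      ¬ ((D.l ≤ (t + d.vec).1 ∧ (t + d.vec).1 < D.r) ∧ (t + d.vec).2 = D.t - 1)) ∨
      (((D.l ≤ t.1 ∧ t.1 < D.r) ∧ y ≤ t.2 ∧ t.2 < D.t) ∧
        ((d = .N ∧ t.2 = D.t - 1 ∧ t + d.vec ∉ D.U) ∨ (d = .E ∧ t.1 = D.r - 1) ∨
          (d = .W ∧ t.1 = D.l) ∨ (d = .S ∧ t.2 = y))) := by
  obtain ⟨i, j⟩ := t
  have hlr := D.hlr
  rw [Shp.bd_plane, mk_add, mem_TU, mem_TU]
  constructor
  · rintro ⟨h1, h2⟩
    rw [not_or] at h2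
    rcases h1 with h1 | h1
    · refine Or.inl ⟨h1, h2.1, fun h3 => h2.2 ?_⟩
      omega
    · refine Or.inr ⟨h1, ?_⟩
      cases d with
      | E =>
        refine Or.inr (Or.inl ⟨rfl, ?_⟩)
        have := h2.2
        simp only [Dir.vec, add_zero] at this
        omega
      | S =>
        refine Or.inr (Or.inr (Or.inr ⟨rfl, ?_⟩))
        have := h2.2
        simp only [Dir.vec, add_zero] at this
        omega
      | W =>
        refine Or.inr (Or.inr (Or.inl ⟨rfl, ?_⟩))
        have := h2.2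
        simp only [Dir.vec, add_zero] at this
        omega
      | N =>
        refine Or.inl ⟨rfl, ?_, h2.1⟩
        have := h2.2
        simp only [Dir.vec, add_zero] at this
        omega
  · rintro (⟨h1, h2, h3⟩ | ⟨h1, h2⟩)
    · refine ⟨Or.inl h1, ?_⟩
      rintro (h4 | h4)
      · exact h2 h4
      · obtain ⟨rfl, h5⟩ := U_nb (D := D) (d := d) h1 (by rw [mk_add]; exact h4.1.1)
          (by rw [mk_add]; exact h4.1.2) (by rw [mk_add]; simp only; omega) (by rw [mk_add]; exact h4.2.2)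
        apply h3
        simp only [Dir.vec, add_zero] at h4 h5 ⊢
        omega
    · refine ⟨Or.inr h1, ?_⟩
      rcases h2 with ⟨rfl, h2, h3⟩ | ⟨rfl, h2⟩ | ⟨rfl, h2⟩ | ⟨rfl, h2⟩
      · rintro (h4 | h4)
        · exact h3 h4
        · simp only [Dir.vec] at h4
          simp only at h2
          omega
      · simp only [Dir.vec, add_zero] at h1 h2 ⊢
        subst h2
        rintro (h4 | h4)
        · exact D.hU _ _ (by omega) (by omega) (by omega) (by omega) h4
        · omega
      · simp only [Dir.vec, add_zero] at h1 h2 ⊢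
        subst h2
        rintro (h4 | h4)
        · exact D.hU _ _ (by omega) (by omega) (by omega) (by omega) h4
        · omega
      · simp only [Dir.vec, add_zero] at h1 h2 ⊢
        subst h2
        rintro (h4 | h4)
        · exact D.hU _ _ (by omega) (by omega) (by omega) (by omega) h4
        · omega

/-- the walls of the lower part -/
lemma isW_inl (hbt : D.b < D.t) {t : ℤ × ℤ} {d : Dir} : D.IsW (.inl t, d) ↔
    (t ∈ D.L ∧ t + d.vec ∉ D.L ∧
      ¬ ((D.l ≤ (t + d.vec).1 ∧ (t + d.vec).1 ≤ D.r) ∧ (t + d.vec).2 = D.b)) ∨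
      ((D.l ≤ t.1 ∧ t.1 ≤ D.r) ∧ t.2 = D.b ∧ d = .S ∧ t + d.vec ∉ D.L) := by
  show Bd (D.TL D.t) (plane.glue (D.TL D.t)) (t, d) ∧ (t ∈ D.L ∨ d = .S) ↔ _
  rw [bd_TL hbt le_rfl]
  have hLt : t ∈ D.L → ¬ ((D.l ≤ t.1 ∧ t.1 ≤ D.r) ∧ D.b ≤ t.2 ∧ t.2 < D.t) := by
    rintro h1 h2
    exact D.hL t.1 t.2 (by omega) (by omega) h2.2.1 h2.2.2.le h1
  constructor
  · rintro ⟨h1 | ⟨h1, h2⟩, h3⟩
    · exact Or.inl h1
    · rcases h3 with h3 | h3
      · exact absurd h1 (hLt h3)
      · subst h3
        rcases h2 with h2 | h2 | h2 | h2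
        · exact Or.inr ⟨h1.1, h2.2.1, rfl, h2.2.2⟩
        · exact absurd h2.1 (by decide)
        · exact absurd h2.1 (by decide)
        · exact absurd h2.1 (by decide)
  · rintro (h1 | ⟨h1, h2, rfl, h3⟩)
    · exact ⟨Or.inl h1, Or.inl h1.1⟩
    · exact ⟨Or.inr ⟨⟨h1, by omega, by omega⟩, Or.inl ⟨rfl, h2, h3⟩⟩, Or.inr rfl⟩

/-- the walls of the upper part -/
lemma isW_inr (hbt : D.b < D.t) {t : ℤ × ℤ} {d : Dir} : D.IsW (.inr t, d) ↔
    (t ∈ D.U ∧ t + d.vec ∉ D.U ∧
      ¬ ((D.l ≤ (t + d.vec).1 ∧ (t + d.vec).1 < D.r) ∧ (t + d.vec).2 = D.t - 1)) ∨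
      ((D.l ≤ t.1 ∧ t.1 < D.r) ∧ t.2 = D.t - 1 ∧ d = .N ∧ t + d.vec ∉ D.U) := by
  show Bd (D.TU D.b) (plane.glue (D.TU D.b)) (t, d) ∧ (t ∈ D.U ∨ d = .N) ↔ _
  rw [bd_TU le_rfl hbt]
  have hUt : t ∈ D.U → ¬ ((D.l ≤ t.1 ∧ t.1 < D.r) ∧ D.b ≤ t.2 ∧ t.2 < D.t) := by
    rintro h1 h2
    exact D.hU t.1 t.2 (by omega) (by omega) (by omega) h2.2.2 h1
  constructor
  · rintro ⟨h1 | ⟨h1, h2⟩, h3⟩
    · exact Or.inl h1
    · rcases h3 with h3 | h3
      · exact absurd h1 (hUt h3)
      · subst h3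
        rcases h2 with h2 | h2 | h2 | h2
        · exact Or.inr ⟨h1.1, h2.2.1, rfl, h2.2.2⟩
        · exact absurd h2.1 (by decide)
        · exact absurd h2.1 (by decide)
        · exact absurd h2.1 (by decide)
  · rintro (h1 | ⟨h1, h2, rfl, h3⟩)
    · exact ⟨Or.inl h1, Or.inl h1.1⟩
    · exact ⟨Or.inr ⟨⟨h1, by omega, by omega⟩, Or.inl ⟨rfl, h2, h3⟩⟩, Or.inr rfl⟩

/-- the walls of the lower sheet: walls of the lower part and the sides of the strip -/
lemma bd_TL_iff (hbt : D.b < D.t) (hb : D.b < y) (ht : y ≤ D.t) {t : ℤ × ℤ} {d : Dir} :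
    Bd (D.TL y) (plane.glue (D.TL y)) (t, d) ↔ D.IsW (.inl t, d) ∨
      (((D.l ≤ t.1 ∧ t.1 ≤ D.r) ∧ D.b ≤ t.2 ∧ t.2 < y) ∧
        ((d = .E ∧ t.1 = D.r) ∨ (d = .W ∧ t.1 = D.l) ∨ (d = .N ∧ t.2 = y - 1))) := by
  rw [bd_TL hb ht, isW_inl hbt]
  constructor
  · rintro (h | ⟨h1, h | h⟩)
    · exact Or.inl (Or.inl h)
    · exact Or.inl (Or.inr ⟨h1.1, h.2.1, h.1, h.2.2⟩)
    · exact Or.inr ⟨h1, h⟩
  · rintro ((h | h) | ⟨h1, h⟩)
    · exact Or.inl h
    · exact Or.inr ⟨⟨h.1, by omega, by omega⟩, Or.inl ⟨h.2.2.1, h.2.1, h.2.2.2⟩⟩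
    · exact Or.inr ⟨h1, Or.inr h⟩

lemma bd_TU_iff (hbt : D.b < D.t) (hb : D.b ≤ y) (ht : y < D.t) {t : ℤ × ℤ} {d : Dir} :
    Bd (D.TU y) (plane.glue (D.TU y)) (t, d) ↔ D.IsW (.inr t, d) ∨
      (((D.l ≤ t.1 ∧ t.1 < D.r) ∧ y ≤ t.2 ∧ t.2 < D.t) ∧
        ((d = .E ∧ t.1 = D.r - 1) ∨ (d = .W ∧ t.1 = D.l) ∨ (d = .S ∧ t.2 = y))) := by
  rw [bd_TU hb ht, isW_inr hbt]
  constructor
  · rintro (h | ⟨h1, h | h⟩)
    · exact Or.inl (Or.inl h)
    · exact Or.inl (Or.inr ⟨h1.1, h.2.1, h.1, h.2.2⟩)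
    · exact Or.inr ⟨h1, h⟩
  · rintro ((h | h) | ⟨h1, h⟩)
    · exact Or.inl h
    · exact Or.inr ⟨⟨h.1, by omega, by omega⟩, Or.inl ⟨h.2.2.1, h.2.1, h.2.2.2⟩⟩
    · exact Or.inr ⟨h1, Or.inr h⟩

/-- the four families of sides at the ends of the open row -/
def RowSide (D : Slab) (y : ℤ) (u : Half ZT) : Prop :=
  (∃ v, D.b ≤ v ∧ v < y ∧ (u = (.inl (D.l, v), .W) ∨ u = (.inl (D.r, v), .E))) ∨
    ∃ v, y ≤ v ∧ v < D.t ∧ (u = (.inr (D.l, v), .W) ∨ u = (.inr (D.r - 1, v), .E))

lemma IsW.notLineN (hb : D.b < y) (ht : y ≤ D.t) {u : Half (ℤ × ℤ)}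
    (hu : D.IsW (hm Sum.inl u)) : ¬ D.LineN y u := by
  obtain ⟨⟨i, j⟩, d⟩ := u
  rintro ⟨h1, h2, h3, h4⟩
  simp only at h1 h2 h3 h4
  subst h1
  have h5 : D.IsW (.inl (i, j), .N) := hu
  exact not_isW_low h3 h4 (by omega) (by omega) (by decide) h5

lemma IsW.notLineS (hb : D.b ≤ y) (ht : y < D.t) {u : Half (ℤ × ℤ)}
    (hu : D.IsW (hm Sum.inr u)) : ¬ D.LineS y u := by
  obtain ⟨⟨i, j⟩, d⟩ := u
  rintro ⟨h1, h2, h3, h4⟩
  simp only at h1 h2 h3 h4
  subst h1
  have h5 : D.IsW (.inr (i, j), .S) := hu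
  exact not_isW_up h3 h4 (by omega) (by omega) (by decide) h5

/-- **the boundary half edges of the open domain** -/
theorem isW_go (hl : D.l ≤ x) (hr : x ≤ D.r) (hb : D.b < y) (ht : y < D.t) {u : Half ZT} :
    Bd (D.T y) (D.go x y) u ∧ u ≠ z x y ↔ D.IsW u ∨ D.RowSide y u := by
  have hlr := D.hlr
  have hbt : D.b < D.t := by omega
  obtain ⟨t | t, d⟩ := u
  · have hz : ∀ {i j : ℤ}, D.LineN y ((i, j), d) → (Bd (D.T y) (D.go x y) (.inl (i, j), d) ↔
        (Sum.inl (i, j), d) = z x y) := by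
      rintro i j ⟨h1, h2, h3, h4⟩
      simp only at h1 h2 h3 h4
      subst h1 h2
      constructor
      · rintro ⟨-, h5⟩
        rcases lt_trichotomy i x with h6 | rfl | h6
        · rw [go_left hb ht hr h3 h6] at h5
          exact absurd (congrArg Prod.fst h5) (by simp)
        · rfl
        · rw [go_right hb ht hl h6 h4] at h5
          exact absurd (congrArg Prod.fst h5) (by simp)
      · intro h5
        rw [h5]
        refine ⟨?_, go_z hl hr⟩
        show (Sum.inl (x, y - 1) : ZT) ∈ D.T y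
        exact inl_mem.2 (mem_TL_row hb hl hr)
    by_cases hN : D.LineN y (t, d)
    · constructor
      · rintro ⟨h1, h2⟩
        exact absurd ((hz (i := t.1) (j := t.2) hN).1 h1) h2
      · rintro (h1 | h1)
        · exact absurd hN (IsW.notLineN hb ht.le h1)
        · exfalso
          obtain ⟨h2, -, -, -⟩ := hN
          simp only at h2
          subst h2
          rcases h1 with ⟨v, -, -, h | h⟩ | ⟨v, -, -, h | h⟩ <;>
            exact Dir.noConfusion (congrArg Prod.snd h)
    · have h1 : Bd (D.T y) (D.go x y) (.inl t, d) ↔ Bd (D.TL y) (plane.glue (D.TL y)) (t, d) := by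
        have h2 := go_low (x := x) hb.le ht.le hN
        constructor
        · rintro ⟨h3, h4⟩
          refine ⟨inl_mem.1 h3, hm_inj (ι := (Sum.inl : ℤ × ℤ → ZT)) Sum.inl_injective ?_⟩
          rw [← h2]
          exact h4
        · rintro ⟨h3, h4⟩
          refine ⟨inl_mem.2 h3, ?_⟩
          rw [h4] at h2
          exact h2
      rw [h1, bd_TL_iff hbt hb ht.le]
      constructor
      · rintro ⟨h2 | ⟨h2, h3⟩, h4⟩
        · exact Or.inl h2
        · rcases h3 with ⟨rfl, h3⟩ | ⟨rfl, h3⟩ | ⟨rfl, h3⟩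
          · exact Or.inr (Or.inl ⟨t.2, by omega, by omega, Or.inr (by rw [← h3])⟩)
          · exact Or.inr (Or.inl ⟨t.2, by omega, by omega, Or.inl (by rw [← h3])⟩)
          · exact absurd ⟨rfl, h3, h2.1.1, h2.1.2⟩ hN
      · intro h2
        refine ⟨?_, ?_⟩
        · rcases h2 with h2 | h2
          · exact Or.inl h2
          · right
            rcases h2 with ⟨v, h3, h4, h | h⟩ | ⟨v, h3, h4, h | h⟩
            · have e1 : (Sum.inl t : ZT) = Sum.inl (D.l, v) := congrArg Prod.fst h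
              have e2 : d = .W := congrArg Prod.snd h
              have e3 : t = (D.l, v) := Sum.inl.inj e1
              subst e2 e3
              refine ⟨?_, Or.inr (Or.inl ⟨rfl, rfl⟩)⟩
              simp only
              omega
            · have e1 : (Sum.inl t : ZT) = Sum.inl (D.r, v) := congrArg Prod.fst h
              have e2 : d = .E := congrArg Prod.snd h
              have e3 : t = (D.r, v) := Sum.inl.inj e1
              subst e2 e3
              refine ⟨?_, Or.inl ⟨rfl, rfl⟩⟩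
              simp only
              omega
            · exact absurd (congrArg Prod.fst h) (by simp)
            · exact absurd (congrArg Prod.fst h) (by simp)
        · intro h3
          have e1 : (Sum.inl t : ZT) = Sum.inl (x, y - 1) := congrArg Prod.fst h3
          have e2 : d = .N := congrArg Prod.snd h3
          have e3 : t = (x, y - 1) := Sum.inl.inj e1
          subst e2 e3
          exact hN ⟨rfl, rfl, hl, hr⟩
  · have hzz : ((Sum.inr t, d) : Half ZT) ≠ z x y := fun h =>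
      absurd (congrArg Prod.fst h) (by simp [z])
    by_cases hS : D.LineS y (t, d)
    · constructor
      · rintro ⟨⟨-, h1⟩, -⟩
        exfalso
        obtain ⟨h2, h3, h4, h5⟩ := hS
        obtain ⟨i, j⟩ := t
        simp only at h2 h3 h4 h5
        subst h2 h3
        by_cases h6 : i < x
        · have h7 := go_left (D := D) hb ht hr h4 h6
          have h8 : D.go x j (.inr (i, j), .S) = (.inl (i, j - 1), .N) := by
            rw [← h7]
            exact glu_go.inv _
          rw [h8] at h1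
          exact absurd (congrArg Prod.fst h1) (by simp)
        · have h7 := go_right (D := D) hb ht hl (i := i + 1) (by omega) (by omega)
          rw [add_sub_cancel_right] at h7
          have h8 : D.go x j (.inr (i, j), .S) = (.inl (i + 1, j - 1), .N) := by
            rw [← h7]
            exact glu_go.inv _
          rw [h8] at h1
          exact absurd (congrArg Prod.fst h1) (by simp)
      · rintro (h1 | h1)
        · exact absurd hS (IsW.notLineS hb.le ht h1)
        · exfalso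
          obtain ⟨h2, -, -, -⟩ := hS
          simp only at h2
          subst h2
          rcases h1 with ⟨v, -, -, h | h⟩ | ⟨v, -, -, h | h⟩ <;>
            exact Dir.noConfusion (congrArg Prod.snd h)
    · have h1 : Bd (D.T y) (D.go x y) (.inr t, d) ↔ Bd (D.TU y) (plane.glue (D.TU y)) (t, d) := by
        have h2 := go_up (x := x) hb.le ht.le hS
        constructor
        · rintro ⟨h3, h4⟩
          refine ⟨inr_mem.1 h3, hm_inj (ι := (Sum.inr : ℤ × ℤ → ZT)) Sum.inr_injective ?_⟩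
          rw [← h2]
          exact h4
        · rintro ⟨h3, h4⟩
          refine ⟨inr_mem.2 h3, ?_⟩
          rw [h4] at h2
          exact h2
      rw [h1, bd_TU_iff hbt hb.le ht]
      constructor
      · rintro ⟨h2 | ⟨h2, h3⟩, h4⟩
        · exact Or.inl h2
        · rcases h3 with ⟨rfl, h3⟩ | ⟨rfl, h3⟩ | ⟨rfl, h3⟩
          · exact Or.inr (Or.inr ⟨t.2, by omega, by omega, Or.inr (by rw [← h3])⟩)
          · exact Or.inr (Or.inr ⟨t.2, by omega, by omega, Or.inl (by rw [← h3])⟩)
          · exact absurd ⟨rfl, h3, h2.1.1, h2.1.2⟩ hS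
      · intro h2
        refine ⟨?_, hzz⟩
        rcases h2 with h2 | h2
        · exact Or.inl h2
        · right
          rcases h2 with ⟨v, h3, h4, h | h⟩ | ⟨v, h3, h4, h | h⟩
          · exact absurd (congrArg Prod.fst h) (by simp)
          · exact absurd (congrArg Prod.fst h) (by simp)
          · have e1 : (Sum.inr t : ZT) = Sum.inr (D.l, v) := congrArg Prod.fst h
            have e2 : d = .W := congrArg Prod.snd h
            have e3 : t = (D.l, v) := Sum.inr.inj e1
            subst e2 e3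
            refine ⟨?_, Or.inr (Or.inl ⟨rfl, rfl⟩)⟩
            simp only
            omega
          · have e1 : (Sum.inr t : ZT) = Sum.inr (D.r - 1, v) := congrArg Prod.fst h
            have e2 : d = .E := congrArg Prod.snd h
            have e3 : t = (D.r - 1, v) := Sum.inr.inj e1
            subst e2 e3
            refine ⟨?_, Or.inl ⟨rfl, rfl⟩⟩
            simp only
            omega


/-! ### the closed row -/

lemma notL_strip {i j : ℤ} (h1 : D.l ≤ i) (h2 : i ≤ D.r) (h3 : D.b ≤ j) (h4 : j ≤ D.t) : (i, j) ∉ D.L :=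
  D.hL i j (by omega) (by omega) h3 h4

lemma notU_strip {i j : ℤ} (h1 : D.l ≤ i) (h2 : i < D.r) (h3 : D.b ≤ j) (h4 : j < D.t) : (i, j) ∉ D.U :=
  D.hU i j (by omega) (by omega) (by omega) h4

/-- neighbours of the tiles of the lower part -/
lemma nb_L (hb : D.b < y) (ht : y ≤ D.t) {i j : ℤ} (h : (i, j) ∈ D.L) (d : Dir) :
    (zsurf D.l D.r x y D.b D.t).nb d (.inl (i, j)) = some (.inl ((i, j) + d.vec)) := by
  have hlr := D.hlr
  have h0 : ¬ ((D.l - 1 ≤ i ∧ i ≤ D.r + 1) ∧ D.b ≤ j ∧ j ≤ D.t) := fun h1 =>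
    D.hL i j h1.1.1 h1.1.2 h1.2.1 h1.2.2 h
  rw [mk_add]
  cases d with
  | E =>
    show (if D.b ≤ j ∧ j < y then (if i = D.r then some (Sum.inl (D.l, j)) else if i = D.l - 1 then none
      else some (Sum.inl (i + 1, j))) else some (Sum.inl (i + 1, j))) = some (Sum.inl (i + 1, j + 0))
    rw [add_zero]
    split_ifs
    · omega
    · omega
    · rfl
    · rfl
  | N =>
    rw [zs_N_low (by omega)]
    simp [Dir.vec]
  | W =>
    show (if D.b ≤ j ∧ j < y then (if i = D.l then some (Sum.inl (D.r, j)) else if i = D.r + 1 then none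
      else some (Sum.inl (i - 1, j))) else some (Sum.inl (i - 1, j))) = some (Sum.inl (i + -1, j + 0))
    rw [add_zero, ← sub_eq_add_neg]
    split_ifs
    · omega
    · omega
    · rfl
    · rfl
  | S =>
    rw [zs_S_low (by omega)]
    simp [Dir.vec, sub_eq_add_neg]

/-- neighbours of the tiles of the upper part -/
lemma nb_U (hb : D.b ≤ y) (ht : y < D.t) {i j : ℤ} (h : (i, j) ∈ D.U) (d : Dir) :
    (zsurf D.l D.r x y D.b D.t).nb d (.inr (i, j)) = some (.inr ((i, j) + d.vec)) := by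
  have hlr := D.hlr
  have h0 : ¬ ((D.l - 1 ≤ i ∧ i ≤ D.r) ∧ D.b - 1 ≤ j ∧ j < D.t) := fun h1 =>
    D.hU i j h1.1.1 h1.1.2 h1.2.1 h1.2.2 h
  rw [mk_add]
  cases d with
  | E =>
    show (if y ≤ j ∧ j < D.t then (if i = D.r - 1 then some (Sum.inr (D.l, j)) else if i = D.l - 1 then none
      else some (Sum.inr (i + 1, j))) else some (Sum.inr (i + 1, j))) = some (Sum.inr (i + 1, j + 0))
    rw [add_zero]
    split_ifs
    · omega
    · omega
    · rfl
    · rfl
  | N =>
    rw [zs_N_up (by omega)]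
    simp [Dir.vec]
  | W =>
    show (if y ≤ j ∧ j < D.t then (if i = D.l then some (Sum.inr (D.r - 1, j)) else if i = D.r then none
      else some (Sum.inr (i - 1, j))) else some (Sum.inr (i - 1, j))) = some (Sum.inr (i + -1, j + 0))
    rw [add_zero, ← sub_eq_add_neg]
    split_ifs
    · omega
    · omega
    · rfl
    · rfl
  | S =>
    rw [zs_S_up (by omega)]
    simp [Dir.vec, sub_eq_add_neg]

lemma bd_gc_inl (hl : D.l ≤ x) (hr : x ≤ D.r) (hb : D.b < y) (ht : y < D.t) {t : ℤ × ℤ} {d : Dir} :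
    Bd (D.T y) (D.gc x y) (.inl t, d) ∧ (Sum.inl t, d) ≠ z x y ↔ D.IsW (.inl t, d) := by
  obtain ⟨i, j⟩ := t
  have hlr := D.hlr
  have hbt : D.b < D.t := by omega
  show Bd (D.T y) ((zsurf D.l D.r x y D.b D.t).glue (D.T y)) _ ∧ _ ↔ _
  rw [bd_iff_nb]
  by_cases hL : (i, j) ∈ D.L
  · rw [nb_L hb ht.le hL]
    have h1 : (Sum.inl (i, j) : ZT) ∈ D.T y ∧ (∀ t' ∈ some (Sum.inl ((i, j) + d.vec) : ZT), t' ∉ D.T y) ↔
        Bd (D.TL y) (plane.glue (D.TL y)) ((i, j), d) := by
      rw [Shp.bd_plane, inl_mem]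
      refine and_congr_right fun _ => ?_
      constructor
      · intro h2 h3
        exact h2 _ rfl (inl_mem.2 h3)
      · intro h2 t' ht' h3
        rw [Option.mem_some_iff] at ht'
        rw [← ht'] at h3
        exact h2 (inl_mem.1 h3)
    rw [h1, bd_TL_iff hbt hb ht.le]
    have h2 : ¬ ((D.l ≤ i ∧ i ≤ D.r) ∧ D.b ≤ j ∧ j < y) := fun h3 =>
      notL_strip h3.1.1 h3.1.2 h3.2.1 (by omega) hL
    constructor
    · rintro ⟨h3 | h3, -⟩
      · exact h3
      · exact absurd h3.1 h2
    · intro h3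
      refine ⟨Or.inl h3, fun h4 => ?_⟩
      have e1 : (Sum.inl (i, j) : ZT) = Sum.inl (x, y - 1) := congrArg Prod.fst h4
      obtain ⟨rfl, rfl⟩ := Prod.mk.inj (Sum.inl.inj e1)
      exact h2 ⟨⟨hl, hr⟩, by omega, by omega⟩
  · by_cases hB : (D.l ≤ i ∧ i ≤ D.r) ∧ D.b ≤ j ∧ j < y
    · obtain ⟨⟨b1, b2⟩, b3, b4⟩ := hB
      have key : ∀ {t' : ZT}, t' ∈ (zsurf D.l D.r x y D.b D.t).nb d (.inl (i, j)) → t' ∈ D.T y →
          d ≠ .S → (((Sum.inl (i, j) : ZT) ∈ D.T y ∧
            ∀ t' ∈ (zsurf D.l D.r x y D.b D.t).nb d (.inl (i, j)), t' ∉ D.T y) ∧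
            ((Sum.inl (i, j), d) : Half ZT) ≠ z x y ↔ D.IsW (.inl (i, j), d)) := by
        intro t' h1 h2 h3
        constructor
        · rintro ⟨⟨-, h4⟩, -⟩
          exact absurd h2 (h4 _ h1)
        · intro h4
          exact absurd h4 (not_isW_low b1 b2 b3 (by omega) h3)
      cases d with
      | E =>
        by_cases h1 : i = D.r
        · subst h1
          exact key (t' := .inl (D.l, j)) (zs_E_low_end ⟨b3, b4⟩) (mem_low.2 (Or.inr (by omega)))
            (by decide)
        · exact key (t' := .inl (i + 1, j)) (zs_E_low h1 (by omega)) (mem_low.2 (Or.inr (by omega)))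
            (by decide)
      | W =>
        by_cases h1 : i = D.l
        · refine key (t' := .inl (D.r, j)) ?_ (mem_low.2 (Or.inr (by omega))) (by decide)
          rw [h1]
          exact Surf.mem_nb.1 (zs_E_low_end (x := x) (t := D.t) ⟨b3, b4⟩ :
            (zsurf D.l D.r x y D.b D.t).nb .E (.inl (D.r, j)) = some (.inl (D.l, j)))
        · refine key (t' := .inl (i - 1, j)) ?_ (mem_low.2 (Or.inr (by omega))) (by decide)
          refine Surf.mem_nb.1 (?_ : (zsurf D.l D.r x y D.b D.t).nb .E (.inl (i - 1, j)) =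
            some (.inl (i, j)))
          rw [zs_E_low (by omega) (by omega), sub_add_cancel]
      | N =>
        by_cases h1 : j = y - 1
        · subst h1
          rcases lt_trichotomy i x with h2 | rfl | h2
          · exact key (t' := .inr (i, y)) (zs_N_left b1 h2 (by omega)) (mem_up.2 (Or.inr (by omega)))
              (by decide)
          · constructor
            · rintro ⟨-, h3⟩
              exact absurd rfl h3
            · intro h4
              exact absurd h4 (not_isW_low b1 b2 b3 (by omega) (by decide))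
          · exact key (t' := .inr (i - 1, y)) (zs_N_right (by omega) h2 b2)
              (mem_up.2 (Or.inr (by omega))) (by decide)
        · exact key (t' := .inl (i, j + 1)) (zs_N_low (by omega)) (mem_low.2 (Or.inr (by omega)))
            (by decide)
      | S =>
        rw [zs_S_low (by omega)]
        have h0 : ((Sum.inl (i, j), Dir.S) : Half ZT) ≠ z x y := fun h => Dir.noConfusion (congrArg Prod.snd h)
        have h1 : (Sum.inl (i, j) : ZT) ∈ D.T y ∧ (∀ t' ∈ some (Sum.inl (i, j - 1) : ZT), t' ∉ D.T y) ↔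
            Bd (D.TL y) (plane.glue (D.TL y)) ((i, j), .S) := by
          rw [Shp.bd_plane, inl_mem, mk_add]
          refine and_congr_right fun _ => ?_
          simp only [Dir.vec, add_zero, ← sub_eq_add_neg]
          constructor
          · intro h2 h3
            exact h2 _ rfl (inl_mem.2 h3)
          · intro h2 t' ht' h3
            rw [Option.mem_some_iff] at ht'
            rw [← ht'] at h3
            exact h2 (inl_mem.1 h3)
        rw [h1, bd_TL_iff hbt hb ht.le]
        constructor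
        · rintro ⟨h3 | ⟨-, h3⟩, -⟩
          · exact h3
          · rcases h3 with h3 | h3 | h3 <;> exact absurd h3.1 (by decide)
        · intro h3
          exact ⟨Or.inl h3, h0⟩
    · constructor
      · rintro ⟨⟨h1, -⟩, -⟩
        rcases mem_low.1 h1 with h2 | h2
        · exact absurd h2 hL
        · exact absurd h2 hB
      · intro h1
        rcases (isW_inl hbt).1 h1 with h2 | ⟨h2, h3, rfl, h4⟩
        · exact absurd h2.1 hL
        · exact absurd ⟨h2, by simp only at h3 ⊢; omega⟩ hB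

lemma bd_gc_inr (hl : D.l ≤ x) (hr : x ≤ D.r) (hb : D.b < y) (ht : y < D.t) {t : ℤ × ℤ} {d : Dir} :
    Bd (D.T y) (D.gc x y) (.inr t, d) ↔ D.IsW (.inr t, d) := by
  obtain ⟨i, j⟩ := t
  have hlr := D.hlr
  have hbt : D.b < D.t := by omega
  show Bd (D.T y) ((zsurf D.l D.r x y D.b D.t).glue (D.T y)) _ ↔ _
  rw [bd_iff_nb]
  by_cases hU : (i, j) ∈ D.U
  · rw [nb_U hb.le ht hU]
    have h1 : (Sum.inr (i, j) : ZT) ∈ D.T y ∧ (∀ t' ∈ some (Sum.inr ((i, j) + d.vec) : ZT), t' ∉ D.T y) ↔
        Bd (D.TU y) (plane.glue (D.TU y)) ((i, j), d) := by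
      rw [Shp.bd_plane, inr_mem]
      refine and_congr_right fun _ => ?_
      constructor
      · intro h2 h3
        exact h2 _ rfl (inr_mem.2 h3)
      · intro h2 t' ht' h3
        rw [Option.mem_some_iff] at ht'
        rw [← ht'] at h3
        exact h2 (inr_mem.1 h3)
    rw [h1, bd_TU_iff hbt hb.le ht]
    have h2 : ¬ ((D.l ≤ i ∧ i < D.r) ∧ y ≤ j ∧ j < D.t) := fun h3 =>
      notU_strip h3.1.1 h3.1.2 (by omega) h3.2.2 hU
    constructor
    · rintro (h3 | h3)
      · exact h3
      · exact absurd h3.1 h2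
    · intro h3
      exact Or.inl h3
  · by_cases hB : (D.l ≤ i ∧ i < D.r) ∧ y ≤ j ∧ j < D.t
    · obtain ⟨⟨b1, b2⟩, b3, b4⟩ := hB
      have key : ∀ {t' : ZT}, t' ∈ (zsurf D.l D.r x y D.b D.t).nb d (.inr (i, j)) → t' ∈ D.T y →
          d ≠ .N → (((Sum.inr (i, j) : ZT) ∈ D.T y ∧
            ∀ t' ∈ (zsurf D.l D.r x y D.b D.t).nb d (.inr (i, j)), t' ∉ D.T y) ↔
            D.IsW (.inr (i, j), d)) := by
        intro t' h1 h2 h3
        constructor
        · rintro ⟨-, h4⟩
          exact absurd h2 (h4 _ h1)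
        · intro h4
          exact absurd h4 (not_isW_up b1 b2 (by omega) b4 h3)
      cases d with
      | E =>
        by_cases h1 : i = D.r - 1
        · subst h1
          exact key (t' := .inr (D.l, j)) (zs_E_up_end ⟨b3, b4⟩) (mem_up.2 (Or.inr (by omega)))
            (by decide)
        · exact key (t' := .inr (i + 1, j)) (zs_E_up h1 (by omega)) (mem_up.2 (Or.inr (by omega)))
            (by decide)
      | W =>
        by_cases h1 : i = D.l
        · refine key (t' := .inr (D.r - 1, j)) ?_ (mem_up.2 (Or.inr (by omega))) (by decide)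
          rw [h1]
          exact Surf.mem_nb.1 (zs_E_up_end (x := x) (b := D.b) ⟨b3, b4⟩ :
            (zsurf D.l D.r x y D.b D.t).nb .E (.inr (D.r - 1, j)) = some (.inr (D.l, j)))
        · refine key (t' := .inr (i - 1, j)) ?_ (mem_up.2 (Or.inr (by omega))) (by decide)
          refine Surf.mem_nb.1 (?_ : (zsurf D.l D.r x y D.b D.t).nb .E (.inr (i - 1, j)) =
            some (.inr (i, j)))
          rw [zs_E_up (by omega) (by omega), sub_add_cancel]
      | S =>
        by_cases h1 : j = y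
        · subst h1
          by_cases h2 : i < x
          · exact key (t' := .inl (i, j - 1)) (zs_S_left b1 b2 h2) (mem_low.2 (Or.inr (by omega)))
              (by decide)
          · exact key (t' := .inl (i + 1, j - 1)) (zs_S_right b1 b2 (by omega))
              (mem_low.2 (Or.inr (by omega))) (by decide)
        · exact key (t' := .inr (i, j - 1)) (zs_S_up (by omega)) (mem_up.2 (Or.inr (by omega)))
            (by decide)
      | N =>
        rw [zs_N_up (by omega)]
        have h1 : (Sum.inr (i, j) : ZT) ∈ D.T y ∧ (∀ t' ∈ some (Sum.inr (i, j + 1) : ZT), t' ∉ D.T y) ↔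
            Bd (D.TU y) (plane.glue (D.TU y)) ((i, j), .N) := by
          rw [Shp.bd_plane, inr_mem, mk_add]
          refine and_congr_right fun _ => ?_
          simp only [Dir.vec, add_zero]
          constructor
          · intro h2 h3
            exact h2 _ rfl (inr_mem.2 h3)
          · intro h2 t' ht' h3
            rw [Option.mem_some_iff] at ht'
            rw [← ht'] at h3
            exact h2 (inr_mem.1 h3)
        rw [h1, bd_TU_iff hbt hb.le ht]
        constructor
        · rintro (h3 | ⟨-, h3⟩)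
          · exact h3
          · rcases h3 with h3 | h3 | h3 <;> exact absurd h3.1 (by decide)
        · intro h3
          exact Or.inl h3
    · constructor
      · rintro ⟨h1, -⟩
        rcases mem_up.1 h1 with h2 | h2
        · exact absurd h2 hU
        · exact absurd h2 hB
      · intro h1
        rcases (isW_inr hbt).1 h1 with h2 | ⟨h2, h3, rfl, h4⟩
        · exact absurd h2.1 hU
        · exact absurd ⟨h2, by simp only at h3 ⊢; omega⟩ hB

/-- **the boundary half edges of the domain with the closed row** -/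
theorem isW_gc (hl : D.l ≤ x) (hr : x ≤ D.r) (hb : D.b < y) (ht : y < D.t) {u : Half ZT} :
    Bd (D.T y) (D.gc x y) u ∧ u ≠ z x y ↔ D.IsW u := by
  obtain ⟨t | t, d⟩ := u
  · exact bd_gc_inl hl hr hb ht
  · rw [bd_gc_inr hl hr hb ht, and_iff_left]
    exact fun h => absurd (congrArg Prod.fst h) (by simp [z])

end Full.Slab
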