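import Pool.Agent.Full.X3.Amp
import Pool.Agent.Full.X3.Marks
import Pool.Agent.Full.X3.GoodC
import Pool.Agent.Full.Def.SCz
import Pool.Agent.Full.Def.Shape
import Pool.Agent.Full.Disc.Next
import Pool.Agent.Full.Loop.GoChain

/-!
# The statements of X3b and X2b

Definitions only.  `Slab.Rdy`: the geometric hypotheses common to X3b (`AmpGood`, the exact value on the good event) and
X2b (`AmpSq`, the second moment).
-/

set_option autoImplicit false

namespace Full
open Full.X3 Function Finset Loc1

namespace Slab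

/-- **the geometric hypotheses** of X3b and X2b: dead ends of length `a`, `z = (x, y)` between them, the domain is
simply connected relative to `z` and connected, the sheets are connected without holes, one boundary cycle besides `z`,
labels, marks, a closed wall with the ends `z` and `E i`; boxes of length `k` larger than three times the height of
the row -/
structure Rdy (D : Slab) (W : Lab) (a nL nU k : ℤ) (E : Fin 3 → Half ZT) (x y : ℤ) : Prop where
  good : D.Good x y a
  yb : D.b < y
  yt : y < D.t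
  hk : 1 ≤ k
  hkt : 3 * (D.t - D.b) + 1 ≤ k
  hak : 4 * k + 4 ≤ a
  go : GoOk D x y
  scz : SCz (D.T y) (D.go x y) (z x y)
  conn : ∀ t ∈ D.T y, ∀ u ∈ D.T y, TConn (D.T y) (D.go x y) t u
  nz : next (D.go x y) (z x y) = z x y
  cyc : ∀ u v, Bd (D.T y) (D.go x y) u → Bd (D.T y) (D.go x y) v → u ≠ z x y → v ≠ z x y →
    ∃ i, (next (D.go x y))^[i] u = v
  isW_gc : ∀ u, Bd (D.T y) (D.gc x y) u ∧ u ≠ z x y ↔ D.IsW u
  ok : W.Ok D a nL nU
  marks : MarksOk D W a nL nU E
  wall : ∃ w, Full.IsW (D.T y) (D.go x y) ({z x y} ∪ Set.range E) w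

/-- the amplitude of the marks `E` -/
noncomputable def ampE (D : Slab) (W : Lab) (a nL nU k : ℤ) (E : Fin 3 → Half ZT) (x y : ℤ)
    (ω : Finset ZT) : ℂ :=
  D.amp W (chgOf W E a k) nL nU (Icc (W.pos (E 1)) (W.pos (E 2))) (-a + 2 + 3 * k) x y ω

open Classical in
/-- the constant of X3b -/
noncomputable def cE (W : Lab) (E : Fin 3 → Half ZT) : ℂ :=
  Complex.exp (Complex.I * (Real.pi / 3 * (if W.pos (E 0) < W.pos (E 1) then 0 else 1))) *
    (Complex.exp (-(Complex.I * (Real.pi / 3))) / (Complex.exp (2 * Real.pi * Complex.I / 3) - 1))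

end Slab

/-- **X3b**: on the good event the amplitude is the value of the exit of `z` -/
def AmpGood : Prop := ∀ (D : Slab) (W : Lab) (a nL nU k : ℤ) (E : Fin 3 → Half ZT) (x y : ℤ),
  D.Rdy W a nL nU k E x y → ∀ w, Full.IsW (D.T y) (D.go x y) ({Slab.z x y} ∪ Set.range E) w →
    ∀ ω ⊆ D.T y, D.GoodC y a k ω →
      D.ampE W a nL nU k E x y ω = Slab.cE W E * (val E (other (mate ω) w (Slab.z x y)) - 1)

open Full.Perc in
/-- **X2b**: the second moment of the amplitude is bounded, uniformly in everything -/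
def AmpSq : Prop := ∃ B : ℝ, ∀ (D : Slab) (W : Lab) (a nL nU k : ℤ) (E : Fin 3 → Half ZT) (x y : ℤ),
  D.Rdy W a nL nU k E x y → Ex (D.T y) (fun ω => ‖D.ampE W a nL nU k E x y ω‖ ^ 2) ≤ B

end Full
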