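import Pool.Agent.Full.X3.Main

/-!
# X3b

`ampGood : AmpGood`.
-/

set_option autoImplicit false

namespace Full

/-- **X3b**: on the good event the amplitude is the value of the exit of `z` -/
theorem ampGood : AmpGood := by
  intro D W a nL nU k E x y R w hw ω _ hG
  have h1 := R.hak
  have h2 := R.hk
  exact Slab.amp_good R.good R.go R.hk (by omega) R.ok R.marks hw hG

end Full
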