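import Pool.Agent.Full.X3.ThLab
import Pool.Agent.Full.Geo.GoOk
import Pool.Agent.Full.Asm.S1Geo

/-!
# The labels of the walls of the rows of a shape

`Shape.sheets` : the two sheets of the slab of a room satisfy `Slab.Sheets`; `Full.labStat : LabStat`.
-/

set_option autoImplicit false

open Function Relation

namespace Full
open Full.Turn Full.X3

namespace Shape
variable {S : Shape} {n : ℕ} {s : S.Q × Bool → ℕ}

/-- **the sheets of the slab of a room** -/
theorem sheets (hS : S.Ok) (hs : S.Small n s) {q : S.Q} {a : ℤ} (ha : 1 ≤ a)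
    (hD : (S.zslab hS hs.two (tree hS) q).DeadEnd a) (har : S.fl n s q + a ≤ S.fr n s q) :
    (S.zslab hS hs.two (tree hS) q).Sheets a := by
  have hft := fb_lt_ft (n := n) hS hs.1 q
  have hlr := fl_lt_fr hS hs.two q
  refine ⟨ha, har, ?_, hD, ?_, ?_, ?_, ?_⟩
  · show S.fb n q < S.ft n q
    omega
  · exact plane_sc (noHole_low hS hs q (y := S.fb n q + 1) (by omega))
  · intro t ht
    exact low_conn' hS hs.two (y := S.fb n q + 1) (by omega) (by omega)
      (Finset.mem_union_right _ (mem_box.2 ⟨⟨le_rfl, by show S.fl n s q < _; omega⟩, le_rfl, by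
        show S.fb n q < _; omega⟩)) ht
  · exact plane_sc (noHole_up hS hs.two q (y := S.ft n q - 1) (by omega))
  · intro t ht
    exact up_conn' hS hs.two (y := S.ft n q - 1) (by omega) (by omega)
      (Finset.mem_union_right _ (mem_box.2 ⟨⟨by show S.fl n s q ≤ S.fr n s q - 1; omega, by
        show S.fr n s q - 1 < _; omega⟩, by show S.ft n q - 1 ≤ S.ft n q - 1; omega, by
        show S.ft n q - 1 < _; omega⟩)) ht

end Shape

/-- **the labels of the walls of the rows** -/
theorem labStat : LabStat := by
  intro S hS n s hs r a ha hD hw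
  have H := Shape.sheets hS hs (by omega) hD (by omega)
  refine ⟨_, _, _, H.ok, fun x y hin u => ?_⟩
  exact Slab.isW_gc (D := S.zslab hS hs.two (Shape.tree hS) (.inl r)) hin.1.1.le hin.1.2.le hin.2.1
    hin.2.2

end Full
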