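import Pool.Agent.Full.Net.Walk
import Pool.Agent.Full.Turn.Hol

/-!
# Networks with unit phases

`phF φ z` is the factor with the phase `φ x` of every half edge `x`, except the pinned end `z`, whose
arrow enters the region.  `hol` is the holonomy of a walk: the quarter turns count `2 K`, a half edge
counts `φ` when it is left and `-φ` when it is entered.  `net_hol`: the network is the average over the
configurations of the product of `2 cos (hol e)` over the open strands, `2 cos` of the holonomy over the
closed strands and `exp (i hol z)` for the strand of `z`.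
-/

set_option autoImplicit false

namespace Full.X3
open Full Function Relation Finset

noncomputable section

variable {τ : Type*} [DecidableEq τ]

/-- one step of the walk which enters a tile through `x` -/
def hstep (K : ℝ) (φ : Half τ → ℝ) (ω : Finset τ) (x : Half τ) : ℝ :=
  2 * K * tr ω (mate ω x) + φ (mate ω x) - φ x

/-- holonomy of a walk of `n` steps -/
def holn (K : ℝ) (φ : Half τ → ℝ) (g : Half τ → Half τ) (ω : Finset τ) (n : ℕ) (x : Half τ) : ℝ :=
  ∑ k ∈ range n, hstep K φ ω ((g ∘ mate ω)^[k] x)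

/-- holonomy of the strand of an end -/
def hol (K : ℝ) (φ : Half τ → ℝ) (g : Half τ → Half τ) (ω : Finset τ) (e : Half τ) : ℝ :=
  holn K φ g ω (hl (mate ω) g e) e

/-- the unit phase -/
def ue (r : ℝ) : ℂ := Complex.exp (Complex.I * r)

lemma ue_add (a b : ℝ) : ue (a + b) = ue a * ue b := by
  unfold ue
  rw [← Complex.exp_add]
  congr 1
  push_cast
  ring

@[simp] lemma ue_zero : ue 0 = 1 := by
  unfold ue
  simp

lemma ue_sum {ι : Type*} (s : Finset ι) (f : ι → ℝ) : ue (∑ k ∈ s, f k) = ∏ k ∈ s, ue (f k) := by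
  classical
  induction s using Finset.induction_on with
  | empty => simp
  | insert a s ha ih => rw [Finset.sum_insert ha, Finset.prod_insert ha, ue_add, ih]

lemma ue_cos (r : ℝ) : ue r + ue (-r) = 2 * Complex.cos r := by
  unfold ue
  rw [Complex.cos]
  have e1 : Complex.I * (r : ℂ) = (r : ℂ) * Complex.I := by ring
  have e2 : Complex.I * ((-r : ℝ) : ℂ) = -(r : ℂ) * Complex.I := by push_cast; ring
  rw [e1, e2]
  ring

lemma norm_ue (r : ℝ) : ‖ue r‖ = 1 := by
  unfold ue
  rw [mul_comm]
  exact Complex.norm_exp_ofReal_mul_I r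

/-- the factor with the phases `φ`; the arrow at `z` is pinned: it enters -/
def phF (φ : Half τ → ℝ) (z : Option (Half τ)) (x : Half τ) (b : Bool) : ℂ :=
  if z = some x then (if b then 0 else 1) else ue (sgn b * φ x)

variable {T : Finset τ} {g : Half τ → Half τ}

lemma EF_step (K : ℝ) (φ : Half τ → ℝ) (z : Option (Half τ)) (ω : Finset τ) {x : Half τ}
    (h1 : z ≠ some x) (h2 : z ≠ some (mate ω x)) :
    EF K (phF φ z) ω x false * EF K (phF φ z) ω (mate ω x) true = ue (hstep K φ ω x) := by
  unfold EF phF hstep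
  rw [if_neg h1, if_neg h2, tr_mate]
  have e : ∀ n : ℤ, ph K n = ue (K * n) := fun n => by
    unfold ph ue
    push_cast
    rfl
  rw [e, e, ← ue_add, ← ue_add, ← ue_add]
  congr 1
  simp only [sgn_true, sgn_false]
  push_cast
  ring

lemma EF_step' (K : ℝ) (φ : Half τ → ℝ) (z : Option (Half τ)) (ω : Finset τ) {x : Half τ}
    (h1 : z ≠ some x) (h2 : z ≠ some (mate ω x)) :
    EF K (phF φ z) ω x true * EF K (phF φ z) ω (mate ω x) false = ue (-hstep K φ ω x) := by
  unfold EF phF hstep
  rw [if_neg h1, if_neg h2, tr_mate]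
  have e : ∀ n : ℤ, ph K n = ue (K * n) := fun n => by
    unfold ph ue
    push_cast
    rfl
  rw [e, e, ← ue_add, ← ue_add, ← ue_add]
  congr 1
  simp only [sgn_true, sgn_false]
  push_cast
  ring

/-- the first step of the pinned strand -/
lemma EF_stepz (K : ℝ) (φ : Half τ → ℝ) {z : Half τ} (hz : φ z = 0) (ω : Finset τ) :
    EF K (phF φ (some z)) ω z false * EF K (phF φ (some z)) ω (mate ω z) true =
      ue (hstep K φ ω z) := by
  have h2 : (some z : Option (Half τ)) ≠ some (mate ω z) := fun h =>
    mate_ne ω z (Option.some.inj h).symm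
  unfold EF phF hstep
  rw [if_pos rfl, if_neg h2, tr_mate, hz]
  have e : ∀ n : ℤ, ph K n = ue (K * n) := fun n => by
    unfold ph ue
    push_cast
    rfl
  rw [e, e]
  simp only [sgn_true, sgn_false, Bool.false_eq_true, if_false, mul_one]
  rw [← ue_add, ← ue_add]
  congr 1
  push_cast
  ring

/-- the ends of the strands -/
def ends (T : Finset τ) (g : Half τ → Half τ) : Finset (Half τ) := by
  classical
  exact (hs T).filter fun x => g x = x

lemma mem_ends {x : Half τ} : x ∈ ends T g ↔ Bd T g x := by
  unfold ends Bd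
  rw [Finset.mem_filter, mem_hs]

/-- interior points of an open strand are not ends -/
lemma open_int (hG : Glu T g) (ω : Finset τ) {e : Half τ} (he : Bd T g e) {k : ℕ}
    (hk : k < hl (mate ω) g e) : ((g ∘ mate ω)^[k] e = e ∧ k = 0 ∨
      g ((g ∘ mate ω)^[k] e) ≠ (g ∘ mate ω)^[k] e) ∧
      (mate ω ((g ∘ mate ω)^[k] e) = other (mate ω) g e ∧ k + 1 = hl (mate ω) g e ∨
      g (mate ω ((g ∘ mate ω)^[k] e)) ≠ mate ω ((g ∘ mate ω)^[k] e)) := by
  have h := hG.two ω
  have hp := hG.periodic ω e
  constructor
  · rcases Nat.eq_zero_or_pos k with rfl | hk0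
    · exact Or.inl ⟨rfl, rfl⟩
    · right
      obtain ⟨k, rfl⟩ : ∃ j, k = j + 1 := ⟨k - 1, by omega⟩
      have h1 := h.open_ne he.2 hp hk
      rw [iterate_succ_apply']
      show g (g (mate ω _)) ≠ g (mate ω _)
      rw [h.g_inv]
      exact h1.symm
  · by_cases hk1 : k + 1 = hl (mate ω) g e
    · left
      refine ⟨?_, hk1⟩
      rw [← (h.open_last he.2 hp).2, ← hk1]
      rfl
    · exact Or.inr (h.open_ne he.2 hp (by omega))

/-- the factor of an open strand which does not end in `z` -/
theorem sw_hol (hG : Glu T g) (K : ℝ) (φ : Half τ → ℝ) (z : Option (Half τ)) (hz : ∀ x, z = some x → g x = x)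
    (ω : Finset τ) {s : Half τ → Bool}
    (hs' : Ori (mate ω) g s) {e : Half τ} (he : Bd T g e) (h1 : z ≠ some e)
    (h2 : z ≠ some (other (mate ω) g e)) :
    sw (mate ω) g (hs T) (EF K (phF φ z) ω) s (st (mate ω) g e) =
      2 * Complex.cos (hol K φ g ω e) := by
  rw [sw_open (fun x hx => mate_hs ω hx) (fun x hx => mem_hs.2 (hG.mem x (mem_hs.1 hx)))
    (fun x _ => ⟨hs'.1 x, hs'.2 x⟩) (hG.two ω) (EF K (phF φ z) ω) (mem_hs.2 he.1) he.2
    (hG.periodic ω e)]
  have key : ∀ k < hl (mate ω) g e, z ≠ some ((g ∘ mate ω)^[k] e) ∧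
      z ≠ some (mate ω ((g ∘ mate ω)^[k] e)) := by
    intro k hk
    obtain ⟨a, b⟩ := open_int hG ω he hk
    refine ⟨fun h => ?_, fun h => ?_⟩
    · rcases a with a | a
      · rw [a.1] at h
        exact h1 h
      · exact a (hz _ h)
    · rcases b with b | b
      · rw [b.1] at h
        exact h2 h
      · exact b (hz _ h)
  rw [← ue_cos]
  congr 1
  · unfold hol holn
    rw [ue_sum]
    refine Finset.prod_congr rfl fun k hk => ?_
    have := key k (Finset.mem_range.1 hk)
    exact EF_step K φ z ω this.1 this.2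
  · unfold hol holn
    rw [← Finset.sum_neg_distrib, ue_sum]
    refine Finset.prod_congr rfl fun k hk => ?_
    have := key k (Finset.mem_range.1 hk)
    exact EF_step' K φ z ω this.1 this.2

/-- the factor of the pinned strand -/
theorem sw_holz (hG : Glu T g) (K : ℝ) (φ : Half τ → ℝ) {z : Half τ} (hz : Bd T g z)
    (hφ : φ z = 0) (ω : Finset τ) {s : Half τ → Bool} (hs' : Ori (mate ω) g s) :
    sw (mate ω) g (hs T) (EF K (phF φ (some z)) ω) s (st (mate ω) g z) =
      ue (hol K φ g ω z) := by
  rw [sw_open (fun x hx => mate_hs ω hx) (fun x hx => mem_hs.2 (hG.mem x (mem_hs.1 hx)))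
    (fun x _ => ⟨hs'.1 x, hs'.2 x⟩) (hG.two ω) (EF K (phF φ (some z)) ω) (mem_hs.2 hz.1) hz.2
    (hG.periodic ω z)]
  have hpos := ((hG.two ω).open_last hz.2 (hG.periodic ω z)).1
  have e0 : ∏ k ∈ range (hl (mate ω) g z), (EF K (phF φ (some z)) ω ((g ∘ mate ω)^[k] z) true *
      EF K (phF φ (some z)) ω (mate ω ((g ∘ mate ω)^[k] z)) false) = 0 := by
    refine Finset.prod_eq_zero (Finset.mem_range.2 hpos) ?_
    have : EF K (phF φ (some z)) ω ((g ∘ mate ω)^[0] z) true = 0 := by
      unfold EF phF
      simp
    rw [this, zero_mul]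
  rw [e0, add_zero]
  unfold hol holn
  rw [ue_sum]
  refine Finset.prod_congr rfl fun k hk => ?_
  have hk := Finset.mem_range.1 hk
  obtain ⟨a, b⟩ := open_int hG ω hz hk
  rcases Nat.eq_zero_or_pos k with rfl | hk0
  · exact EF_stepz K φ hφ ω
  · refine EF_step K φ (some z) ω ?_ ?_
    · intro h
      rcases a with a | a
      · omega
      · rw [← Option.some.inj h] at a
        exact a hz.2
    · intro h
      rcases b with b | b
      · have := hG.other_ne (ω := ω) hz
        rw [← b.1, ← Option.some.inj h] at this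
        exact this rfl
      · rw [← Option.some.inj h] at b
        exact b hz.2

/-- the factor of a closed strand -/
theorem sw_holc (hG : Glu T g) (K : ℝ) (φ : Half τ → ℝ) (z : Option (Half τ))
    (hz : ∀ x, z = some x → g x = x) (ω : Finset τ) {s : Half τ → Bool}
    (hs' : Ori (mate ω) g s) {x : Half τ} (hx : x.1 ∈ T)
    (hc : ∀ y, Conn (mate ω) g x y → g y ≠ y) :
    sw (mate ω) g (hs T) (EF K (phF φ z) ω) s (st (mate ω) g x) =
      2 * Complex.cos (holn K φ g ω (minimalPeriod (g ∘ mate ω) x) x) := by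
  have c1 : ∀ k, Conn (mate ω) g x ((g ∘ mate ω)^[k] x) := fun k => Conn.iter k x
  have c2 : ∀ k, Conn (mate ω) g x (mate ω ((g ∘ mate ω)^[k] x)) := fun k =>
    (c1 k).trans (Conn.m_step _)
  rw [sw_closed (fun x hx => mate_hs ω hx) (fun x hx => mem_hs.2 (hG.mem x (mem_hs.1 hx)))
    (fun x _ => ⟨hs'.1 x, hs'.2 x⟩) (hG.two ω) (EF K (phF φ z) ω) (mem_hs.2 hx)
    (hG.periodic ω x) (fun k => hc _ (c2 k))]
  have key : ∀ k, z ≠ some ((g ∘ mate ω)^[k] x) ∧ z ≠ some (mate ω ((g ∘ mate ω)^[k] x)) :=
    fun k => ⟨fun h => hc _ (c1 k) (hz _ h), fun h => hc _ (c2 k) (hz _ h)⟩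
  rw [← ue_cos]
  congr 1
  · unfold holn
    rw [ue_sum]
    exact Finset.prod_congr rfl fun k _ => EF_step K φ z ω (key k).1 (key k).2
  · unfold holn
    rw [← Finset.sum_neg_distrib, ue_sum]
    exact Finset.prod_congr rfl fun k _ => EF_step' K φ z ω (key k).1 (key k).2

/-- the holonomy of the reversed strand -/
theorem hol_other (hG : Glu T g) (K : ℝ) (φ : Half τ → ℝ) (ω : Finset τ)
    {e : Half τ} (he : Bd T g e) : hol K φ g ω (other (mate ω) g e) = -hol K φ g ω e := by
  have h := hG.two ω
  have hp := hG.periodic ω e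
  have h0 := h.even he.2 hp
  have hper : minimalPeriod (g ∘ mate ω) (other (mate ω) g e) = minimalPeriod (g ∘ mate ω) e := by
    unfold other
    exact minimalPeriod_apply_iterate hp _
  have hl' : hl (mate ω) g (other (mate ω) g e) = hl (mate ω) g e := by
    unfold hl
    rw [hper]
  unfold hol holn
  rw [hl', ← Finset.sum_neg_distrib]
  set n := hl (mate ω) g e with hn
  have hn' : minimalPeriod (g ∘ mate ω) e = 2 * n := by
    rw [hn]
    unfold hl
    omega
  rw [← Finset.sum_range_reflect]
  refine Finset.sum_congr rfl fun k hk => ?_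
  have hk := Finset.mem_range.1 hk
  -- the point `n - 1 - k` of the reversed strand is the partner of the point `k`
  have e1 : (g ∘ mate ω)^[n - 1 - k] (other (mate ω) g e) = mate ω ((g ∘ mate ω)^[k] e) := by
    have e2 : other (mate ω) g e = (g ∘ mate ω)^[n] e := rfl
    rw [e2, ← iterate_add_apply, h.m_iter he.2 (by omega), hn']
    congr 1
    omega
  rw [e1]
  unfold hstep
  rw [mate_mate, tr_mate]
  push_cast
  ring

/-! ### splitting into turning, links and end phases -/

/-- the holonomies of the tiles -/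
def ha (K : ℝ) (ω : Finset τ) (x : Half τ) : ℝ := 2 * K * tr ω (mate ω x)

/-- the holonomies of the links -/
def hb (φ : Half τ → ℝ) (g : Half τ → Half τ) (x : Half τ) : ℝ := φ x - φ (g x)

lemma holD (hG : Glu T g) (K : ℝ) (φ : Half τ → ℝ) (ω : Finset τ) :
    HolD (mate ω) g (ha K ω) (hb φ g) where
  ha x := by
    unfold ha
    rw [mate_mate, ← mate_mate ω x, tr_mate, mate_mate]
    push_cast
    ring
  hb x := by
    unfold hb
    rw [hG.inv]
    ring
  h0 x hx := by
    unfold hb
    rw [hx, sub_self]

lemma holn_eq (K : ℝ) (φ : Half τ → ℝ) (ω : Finset τ) (n : ℕ) (x : Half τ) :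
    holn K φ g ω n x = hsum (mate ω) g (ha K ω) (hb φ g) n x + φ ((g ∘ mate ω)^[n] x) - φ x := by
  induction n with
  | zero => simp [holn, hsum_zero]
  | succ n ih =>
    unfold holn at ih ⊢
    rw [Finset.sum_range_succ, ih, hsum_succ, iterate_succ_apply']
    unfold hstep ha hb
    rw [comp_apply]
    ring

/-- **the holonomy of an open strand** -/
theorem hol_eq (K : ℝ) (φ : Half τ → ℝ) (ω : Finset τ) (e : Half τ) :
    hol K φ g ω e = Full.hol (mate ω) g (ha K ω) (hb φ g) e + φ (other (mate ω) g e) - φ e :=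
  holn_eq K φ ω _ e

/-- the holonomy of a closed strand -/
theorem holc_eq (K : ℝ) (φ : Half τ → ℝ) (ω : Finset τ) (x : Half τ) :
    holn K φ g ω (minimalPeriod (g ∘ mate ω) x) x = lhol (mate ω) g (ha K ω) (hb φ g) x := by
  rw [holn_eq, iterate_minimalPeriod]
  unfold lhol
  ring

/-- holonomies under a homomorphism -/
theorem hsum_hom {α G G' : Type*} [AddCommGroup G] [AddCommGroup G'] {m g : α → α} (θ : G →+ G')
    (a b : α → G) (n : ℕ) (x : α) :
    hsum m g (fun x => θ (a x)) (fun x => θ (b x)) n x = θ (hsum m g a b n x) := by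
  unfold hsum
  rw [map_sum]
  simp only [map_add]

section total

variable {ι : Type*} [LinearOrder ι]

/-- one end of every open strand which does not end in `z` -/
def arcs (T : Finset τ) (g : Half τ → Half τ) (ω : Finset τ) (z : Option (Half τ))
    (o : Half τ → ι) : Finset (Half τ) := by
  classical
  exact (ends T g).filter fun e => z ≠ some e ∧ z ≠ some (other (mate ω) g e) ∧
    o e < o (other (mate ω) g e)

lemma mem_arcs {ω : Finset τ} {z : Option (Half τ)} {o : Half τ → ι} {e : Half τ} :
    e ∈ arcs T g ω z o ↔ Bd T g e ∧ z ≠ some e ∧ z ≠ some (other (mate ω) g e) ∧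
      o e < o (other (mate ω) g e) := by
  unfold arcs
  rw [Finset.mem_filter, mem_ends]

/-- the closed strands -/
def loops (T : Finset τ) (g : Half τ → Half τ) (ω : Finset τ) : Finset (St (mate ω) g) := by
  classical
  exact (strands T g ω).filter fun c => ∀ e ∈ ends T g, st (mate ω) g e ≠ c

/-- the factor of a closed strand -/
def lpw (K : ℝ) (φ : Half τ → ℝ) (g : Half τ → Half τ) (ω : Finset τ) (c : St (mate ω) g) : ℂ :=
  2 * Complex.cos (holn K φ g ω (minimalPeriod (g ∘ mate ω) (Quot.out c)) (Quot.out c))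

/-- the factor of the strand of the pinned end -/
def zw (K : ℝ) (φ : Half τ → ℝ) (g : Half τ → Half τ) (ω : Finset τ) : Option (Half τ) → ℂ
  | none => 1
  | some z => ue (hol K φ g ω z)

/-- the weight of a configuration -/
def cw (K : ℝ) (φ : Half τ → ℝ) (T : Finset τ) (g : Half τ → Half τ) (z : Option (Half τ))
    (o : Half τ → ι) (ω : Finset τ) : ℂ :=
  (∏ e ∈ arcs T g ω z o, 2 * Complex.cos (hol K φ g ω e)) *
    (∏ c ∈ loops T g ω, lpw K φ g ω c) * zw K φ g ω z

/-- **the expansion of a network with unit phases** -/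
theorem net_hol (hG : Glu T g) (K : ℝ) (φ : Half τ → ℝ) (z : Option (Half τ))
    (hz : ∀ x, z = some x → Bd T g x ∧ φ x = 0) {o : Half τ → ι}
    (ho : ∀ x, Bd T g x → ∀ y, Bd T g y → o x = o y → x = y) :
    net T g K (phF φ z) = (1 / 2) ^ T.card * ∑ ω ∈ T.powerset, cw K φ T g z o ω := by
  classical
  choose s hs' using fun ω => (hG.two ω).exists_ori
  rw [net_eq hG K (phF φ z) s hs']
  congr 1
  refine Finset.sum_congr rfl fun ω _ => ?_
  have h2 := hG.two ω
  have hz' : ∀ x, z = some x → g x = x := fun x hx => (hz x hx).1.2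
  -- the open strands
  set op : Finset (St (mate ω) g) := (ends T g).image (st (mate ω) g) with hop
  have hsub : op ⊆ strands T g ω := by
    intro c hc
    rw [hop, Finset.mem_image] at hc
    obtain ⟨e, he, rfl⟩ := hc
    unfold strands
    exact Finset.mem_image_of_mem _ (mem_hs.2 (mem_ends.1 he).1)
  have hlp : strands T g ω \ op = loops T g ω := by
    ext c
    unfold loops
    rw [Finset.mem_sdiff, Finset.mem_filter, hop, Finset.mem_image]
    refine and_congr_right fun _ => ?_
    constructor
    · intro h e he hc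
      exact h ⟨e, he, hc⟩
    · rintro h ⟨e, he, hc⟩
      exact h e he hc
  rw [← Finset.prod_sdiff hsub, hlp]
  -- the closed strands
  have e1 : ∏ c ∈ loops T g ω, sw (mate ω) g (hs T) (EF K (phF φ z) ω) (s ω) c =
      ∏ c ∈ loops T g ω, lpw K φ g ω c := by
    refine Finset.prod_congr rfl fun c hc => ?_
    unfold loops at hc
    rw [Finset.mem_filter] at hc
    obtain ⟨hc1, hc2⟩ := hc
    have hout : st (mate ω) g (Quot.out c) = c := Quot.out_eq c
    have hcl : ∀ y, Conn (mate ω) g (Quot.out c) y → y.1 ∈ T → g y ≠ y := by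
      intro y hy hyT h3
      exact hc2 y (mem_ends.2 ⟨hyT, h3⟩) ((Quot.sound hy).symm.trans hout)
    have hT : (Quot.out c : Half τ).1 ∈ T := by
      unfold strands at hc1
      rw [Finset.mem_image] at hc1
      obtain ⟨x, hx, hxc⟩ := hc1
      have : Conn (mate ω) g x (Quot.out c) := h2.st_eq.1 (hxc.trans hout.symm)
      exact hG.conn_mem this (mem_hs.1 hx)
    have := sw_holc hG K φ z hz' ω (hs' ω) hT (fun y hy => hcl y hy (hG.conn_mem hy hT))
    rw [hout] at this
    exact this
  rw [e1]
  -- the open strands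
  have e2 : ∏ c ∈ op, sw (mate ω) g (hs T) (EF K (phF φ z) ω) (s ω) c =
      (∏ e ∈ arcs T g ω z o, 2 * Complex.cos (hol K φ g ω e)) * zw K φ g ω z := by
    -- strands which do not end in `z`
    set A := arcs T g ω z o with hA
    have hinj : ∀ x ∈ A, ∀ y ∈ A, st (mate ω) g x = st (mate ω) g y → x = y := by
      intro x hx y hy hxy
      rw [hA, mem_arcs] at hx hy
      have := (hG.conn_iff hx.1 hy.1).1 (h2.st_eq.1 hxy)
      rcases this with h3 | h3
      · exact h3.symm
      · exfalso
        have h4 := hy.2.2.2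
        rw [h3, hG.other_other hx.1] at h4
        exact lt_asymm h4 hx.2.2.2
    have hprod : ∏ e ∈ A, 2 * Complex.cos (hol K φ g ω e) =
        ∏ c ∈ A.image (st (mate ω) g), sw (mate ω) g (hs T) (EF K (phF φ z) ω) (s ω) c := by
      rw [Finset.prod_image hinj]
      refine Finset.prod_congr rfl fun e he => ?_
      rw [hA, mem_arcs] at he
      exact (sw_hol hG K φ z hz' ω (hs' ω) he.1 he.2.1 he.2.2.1).symm
    have hst : ∀ e, Bd T g e → (z ≠ some e ∧ z ≠ some (other (mate ω) g e)) →
        st (mate ω) g e ∈ A.image (st (mate ω) g) := by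
      intro e he h3
      rw [Finset.mem_image]
      have hne : o e ≠ o (other (mate ω) g e) := fun h4 =>
        hG.other_ne he (ho _ he _ (hG.other_bd he) h4).symm
      rcases lt_or_gt_of_ne hne with h4 | h4
      · exact ⟨e, by rw [hA, mem_arcs]; exact ⟨he, h3.1, h3.2, h4⟩, rfl⟩
      · refine ⟨other (mate ω) g e, ?_, ?_⟩
        · rw [hA, mem_arcs]
          refine ⟨hG.other_bd he, h3.2, ?_, ?_⟩
          · rw [hG.other_other he]; exact h3.1
          · rw [hG.other_other he]; exact h4
        · exact h2.st_eq.2 (h2.symm (Conn.iter _ _))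
    rw [hprod]
    cases hzz : z with
    | none =>
      have : op = A.image (st (mate ω) g) := by
        refine Finset.Subset.antisymm (fun c hc => ?_) (Finset.image_subset_image fun e he => ?_)
        · rw [hop, Finset.mem_image] at hc
          obtain ⟨e, he, rfl⟩ := hc
          exact hst e (mem_ends.1 he) (by rw [hzz]; exact ⟨by simp, by simp⟩)
        · rw [hA, mem_arcs] at he
          exact mem_ends.2 he.1
      rw [this]
      simp only [zw, mul_one]
    | some w =>
      obtain ⟨hw, hφ⟩ := hz w hzz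
      have hnot : st (mate ω) g w ∉ A.image (st (mate ω) g) := by
        intro h3
        rw [Finset.mem_image] at h3
        obtain ⟨e, he, h4⟩ := h3
        rw [hA, mem_arcs] at he
        rcases (hG.conn_iff he.1 hw).1 (h2.st_eq.1 h4) with h5 | h5
        · exact he.2.1 (by rw [hzz, h5])
        · exact he.2.2.1 (by rw [hzz, h5])
      have : op = insert (st (mate ω) g w) (A.image (st (mate ω) g)) := by
        refine Finset.Subset.antisymm (fun c hc => ?_) (fun c hc => ?_)
        · rw [hop, Finset.mem_image] at hc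
          obtain ⟨e, he, rfl⟩ := hc
          have he := mem_ends.1 he
          rw [Finset.mem_insert]
          by_cases h3 : w = e
          · exact Or.inl (by rw [h3])
          · by_cases h4 : w = other (mate ω) g e
            · left
              rw [h4]
              exact h2.st_eq.2 (Conn.iter _ _)
            · right
              refine hst e he ⟨?_, ?_⟩
              · rw [hzz]; exact fun h => h3 (Option.some.inj h)
              · rw [hzz]; exact fun h => h4 (Option.some.inj h)
        · rw [Finset.mem_insert] at hc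
          rw [hop]
          rcases hc with rfl | hc
          · exact Finset.mem_image_of_mem _ (mem_ends.2 hw)
          · rw [Finset.mem_image] at hc
            obtain ⟨e, he, rfl⟩ := hc
            rw [hA, mem_arcs] at he
            exact Finset.mem_image_of_mem _ (mem_ends.2 he.1)
      rw [this, Finset.prod_insert hnot, mul_comm]
      congr 1
      exact sw_holz hG K φ hw hφ ω (hs' ω)
  rw [e2]
  unfold cw
  ring

end total

end

end Full.X3
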