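import Pool.Agent.Full.X3.ThNx
import Pool.Agent.Full.Norm.Half
import Pool.Agent.Full.Norm.PhLaw
import Pool.Agent.Full.Norm.Charge

/-!
# The laws of the phases of the two halves of a slab

`phLaw_up`, `phLaw_low`: `Cap.PhLaw` for the upper half and for the reflected lower half, for the phases
`qC W C s` with an arbitrary cumulative charge `C` and an arbitrary seam charge `s`.
-/

set_option autoImplicit false

namespace Full.Norm
open Finset Function Full.X3 Full.Turn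

lemma kap_eq : kap = -(2 * K0) := by
  unfold kap K0
  ring

namespace Cap
variable {E : Cap}

/-- away from the seam the neighbours are those of the plane -/
lemma nb_eq {t : ℤ × ℤ} {d : Dir} (ht : t ∈ E.R) (h : ¬ E.Seam (t, d)) :
    (cyl E.l E.r E.y E.t).nb d t = some (t + d.vec) := by
  obtain ⟨i, j⟩ := t
  have hlr := E.hlr
  have hbox : E.y ≤ j ∧ j < E.t → i = E.l - 1 ∨ i = E.r ∨ (E.l ≤ i ∧ i < E.r) →
      E.l ≤ i ∧ i < E.r := by
    intro h1 h2
    rcases mem_R.1 ht with h3 | h3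
    · exact absurd h3 (E.hU i j (by omega) (by omega) (by omega) (by omega))
    · exact h3.1
  cases d with
  | N => rw [cyl_N, Slab.addN]
  | S => rw [cyl_S, Slab.addS]
  | E =>
    rw [Slab.addE]
    refine cyl_E ?_
    by_cases h1 : E.y ≤ j ∧ j < E.t
    · refine Or.inr ⟨fun h2 => h ⟨j, h1.1, h1.2, Or.inr (by rw [h2])⟩, fun h2 => ?_⟩
      have := hbox h1 (Or.inl h2)
      omega
    · exact Or.inl h1
  | W =>
    rw [Slab.addW]
    refine cyl_W ?_
    by_cases h1 : E.y ≤ j ∧ j < E.t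
    · refine Or.inr ⟨fun h2 => h ⟨j, h1.1, h1.2, Or.inl (by rw [h2])⟩, fun h2 => ?_⟩
      have := hbox h1 (Or.inr (Or.inl h2))
      omega
    · exact Or.inl h1

/-- away from the seam the gluing is the gluing of the plane -/
theorem g_eq {v : Half (ℤ × ℤ)} (hv : v.1 ∈ E.R) (h : ¬ E.Seam v) : E.g v = plane.glue E.R v := by
  obtain ⟨t, d⟩ := v
  by_cases h1 : t + d.vec ∈ E.R
  · rw [glue_nb (nb_eq hv h) hv h1, Shp.glue_pos hv h1]
  · rw [glue_wall (nb_eq hv h) h1, Shp.glue_neg h1]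

lemma g_seamW {j : ℤ} (h1 : E.y ≤ j) (h2 : j < E.t) : E.g ((E.l, j), .W) = ((E.r - 1, j), .E) := by
  have hlr := E.hlr
  exact glue_nb (cyl_W_end ⟨h1, h2⟩) (strip_mem le_rfl (by omega) h1 h2)
    (strip_mem (by omega) (by omega) h1 h2)

lemma g_seamE {j : ℤ} (h1 : E.y ≤ j) (h2 : j < E.t) : E.g ((E.r - 1, j), .E) = ((E.l, j), .W) := by
  have := glu_g (D := E).inv ((E.l, j), .W)
  rw [g_seamW h1 h2] at this
  exact this

lemma Seam.ne {x : Half (ℤ × ℤ)} (h : E.Seam x) : E.g x ≠ x := by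
  obtain ⟨j, h1, h2, rfl | rfl⟩ := h
  · rw [g_seamW h1 h2]
    exact fun h3 => Dir.noConfusion (congrArg Prod.snd h3)
  · rw [g_seamE h1 h2]
    exact fun h3 => Dir.noConfusion (congrArg Prod.snd h3)

lemma Seam.g {x : Half (ℤ × ℤ)} (h : E.Seam x) : E.Seam (E.g x) := by
  obtain ⟨j, h1, h2, rfl | rfl⟩ := h
  · rw [g_seamW h1 h2]
    exact ⟨j, h1, h2, Or.inr rfl⟩
  · rw [g_seamE h1 h2]
    exact ⟨j, h1, h2, Or.inl rfl⟩

/-- the walls of a cap -/
lemma bd_iff {x : Half (ℤ × ℤ)} : Bd E.R E.g x ↔ Bd E.R (plane.glue E.R) x ∧ ¬ E.Seam x := by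
  constructor
  · rintro ⟨h1, h2⟩
    have h3 : ¬ E.Seam x := fun h => h.ne h2
    refine ⟨⟨h1, ?_⟩, h3⟩
    rw [← g_eq h1 h3]
    exact h2
  · rintro ⟨⟨h1, h2⟩, h3⟩
    refine ⟨h1, ?_⟩
    rw [g_eq h1 h3]
    exact h2

/-- the next wall end across the seam -/
theorem next_seam (h1 : Bd E.R E.g ((E.l, E.t - 1), .N)) (h2 : Bd E.R E.g ((E.r - 1, E.t - 1), .N)) :
    next E.g ((E.l, E.t - 1), .N) = ((E.r - 1, E.t - 1), .N) ∧
      Turn.bt E.g ((E.l, E.t - 1), .N) = 0 := by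
  have hyt := E.hyt
  have r1 : (rot E.g)^[1] ((E.l, E.t - 1), .N) = ((E.l, E.t - 1), .W) := by
    show rho (E.g _) = _
    rw [h1.2]
    rfl
  have e1 : E.g ((E.l, E.t - 1), .W) = ((E.r - 1, E.t - 1), .E) := g_seamW (by omega) (by omega)
  have r2 : (rot E.g)^[2] ((E.l, E.t - 1), .N) = ((E.r - 1, E.t - 1), .N) := by
    rw [iterate_succ_apply', r1]
    show rho (E.g _) = _
    rw [e1]
    rfl
  obtain ⟨b, n⟩ := bt_of (g := E.g) (x := ((E.l, E.t - 1), .N)) (k := 2) (by norm_num) (by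
    rw [r2]; exact h2.2) (fun j h3 h4 => by
      obtain rfl : j = 1 := by omega
      rw [r1, e1]
      exact fun h => Dir.noConfusion (congrArg Prod.snd h))
  rw [b, n, r2]
  exact ⟨rfl, by norm_num⟩

/-- the law of the phases, from the values at the walls and at the seam -/
theorem PhLaw.of {φ : Half (ℤ × ℤ) → ℝ} {q : Half (ℤ × ℤ) → ℤ} {ψ : ℝ}
    (h0 : ∀ x, x.1 ∈ E.R → ¬ E.Seam x → ¬ (Bd E.R E.g x ∧ x ∉ E.C) → φ x = 0)
    (hs : ∀ j, E.y ≤ j → j < E.t → φ ((E.l, j), .W) = φ ((E.r - 1, j), .E) + ψ)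
    (hw : ∀ x, Bd E.R E.g x → x ∉ E.C → φ (next E.g x) - φ x =
      -(2 * K0 * Turn.bt E.g x - 8 * K0 * q x) - (if x = ((E.l, E.t - 1), .N) then ψ else 0)) :
    E.PhLaw φ q ψ where
  gl := fun x hx hs => by
    have h1 : x.1 ∈ E.R := by
      by_contra h
      exact hx (glu_g.out x h)
    have e : E.g (E.g x) = x := glu_g.inv x
    rw [h0 x h1 hs fun h => hx h.1.2, h0 (E.g x) (glu_g.mem x h1) (fun h => ?_) fun h => ?_]
    · have h5 := h.g
      rw [e] at h5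
      exact hs h5
    · have h5 := h.1.2
      rw [e] at h5
      exact hx h5.symm
  seam := hs
  cut := fun x hx => h0 x (bd_C hx).1 (fun h => h.ne (bd_C hx).2) fun h => h.2 hx
  wall := hw

end Cap

section slab
variable {D : Slab} {W : Lab} {a nL nU y s : ℤ} {C : ℤ → ℤ}

/-! ### the upper half -/

lemma seamU_iff {hb : D.b ≤ y} {ht : y < D.t} {x : Half (ℤ × ℤ)} :
    (upCap D y hb ht).Seam x ↔ D.SeamU y x := Iff.rfl

/-- the walls of the upper half -/
lemma bd_upCap (hb : D.b ≤ y) (ht : y < D.t) {x : Half (ℤ × ℤ)} :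
    Bd (upCap D y hb ht).R (upCap D y hb ht).g x ∧ x ∉ (upCap D y hb ht).C ↔
      D.IsW (hm Sum.inr x) := by
  obtain ⟨⟨i, j⟩, d⟩ := x
  have hlr := D.hlr
  rw [Cap.bd_iff, seamU_iff, Cap.mem_C]
  have e : Bd (upCap D y hb ht).R (plane.glue (upCap D y hb ht).R) ((i, j), d) ↔
      Bd (D.TU y) (plane.glue (D.TU y)) ((i, j), d) := Iff.rfl
  rw [e, Slab.bd_TU_iff (by omega) hb ht]
  show ((_ ∨ ((D.l ≤ i ∧ i < D.r) ∧ y ≤ j ∧ j < D.t) ∧ _) ∧ _) ∧
    ¬ ((D.l ≤ i ∧ i < D.r) ∧ j = y ∧ d = .S) ↔ _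
  constructor
  · rintro ⟨⟨h1 | ⟨h1, h2⟩, h3⟩, h4⟩
    · exact h1
    · exfalso
      rcases h2 with ⟨h5, h6⟩ | ⟨h5, h6⟩ | ⟨h5, h6⟩
      · exact h3 ⟨j, h1.2.1, h1.2.2, Or.inr (by
          have h7 : i = D.r - 1 := h6
          rw [h5, h7])⟩
      · exact h3 ⟨j, h1.2.1, h1.2.2, Or.inl (by
          have h7 : i = D.l := h6
          rw [h5, h7])⟩
      · exact h4 ⟨h1.1, h6, h5⟩
  · intro h
    have h' : D.IsW (Sum.inr (i, j), d) := h
    refine ⟨⟨Or.inl h', ?_⟩, ?_⟩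
    · intro h1
      obtain ⟨⟨h2, h3⟩, ⟨h4, h5⟩ | ⟨h4, h5⟩⟩ := h1.cases
      · simp only at h2 h3 h4
        exact Slab.not_isW_up (D := D) (d := d) (by omega) (by omega) (by omega) h3
          (by rw [h5]; decide) h'
      · simp only at h2 h3 h4
        exact Slab.not_isW_up (D := D) (d := d) (by omega) (by omega) (by omega) h3
          (by rw [h5]; decide) h'
    · rintro ⟨h1, h2, h3⟩
      exact Slab.not_isW_up (D := D) (d := d) h1.1 h1.2 (by omega) (by omega) (by rw [h3]; decide) h'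

/-- the phases vanish at the glued sides away from the seam -/
lemma qC_up_zero (hb : D.b ≤ y) {x : Half (ℤ × ℤ)} (hx : x.1 ∈ D.TU y)
    (h1 : ¬ D.SeamU y x) (h2 : ¬ D.IsW (hm Sum.inr x)) : D.qC W C s (hm Sum.inr x) = 0 := by
  obtain ⟨⟨i, j⟩, d⟩ := x
  unfold Slab.qC
  rw [if_neg h2]
  cases d with
  | E => rfl
  | N => rfl
  | S => rfl
  | W =>
    show (if i = D.l ∧ D.b ≤ j ∧ j < D.t then 4 * (s - 1) else 0) = 0
    rw [if_neg]
    rintro ⟨h3, h4, h5⟩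
    have hlr := D.hlr
    rcases Slab.mem_TU.1 hx with h6 | h6
    · exact D.hU i j (by omega) (by omega) (by omega) h5 h6
    · exact h1 ⟨j, h6.2.1, h5, Or.inl (by rw [h3])⟩


/-- the next wall end of the upper half -/
lemma next_upCap (hD : (D.l, D.t) ∉ D.U) (hbt : D.b < D.t) (hb : D.b ≤ y) (ht : y < D.t)
    {x : Half (ℤ × ℤ)} (hw : D.IsW (hm Sum.inr x)) (hne : x ≠ ((D.l, D.t - 1), .N)) :
    next (upCap D y hb ht).g x = next (plane.glue (D.TU (D.t - 1))) x ∧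
      Turn.bt (upCap D y hb ht).g x = Turn.bt (plane.glue (D.TU (D.t - 1))) x := by
  obtain ⟨t, d⟩ := x
  obtain ⟨s1, s2, s3, s4⟩ := Slab.seamU_steps hb ht hD hw hne
  obtain ⟨⟨b1, b2⟩, -⟩ := Cap.bd_iff.1 ((bd_upCap hb ht).2 hw).1
  have hbd : t ∈ D.TU y ∧ t + d.vec ∉ D.TU y := Shp.bd_plane.1 ⟨b1, b2⟩
  have key : ∀ v : Half (ℤ × ℤ), v.1 ∈ D.TU y → ¬ D.SeamU y v →
      (upCap D y hb ht).g (hm id v) = hm id (plane.glue (D.TU y) v) := fun v h1 h2 =>
    Cap.g_eq (E := upCap D y hb ht) h1 h2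
  obtain ⟨h1, h2⟩ := next_plane_map (P := D.TU y) (g' := (upCap D y hb ht).g) (ι := id) injective_id
    hbd.1 hbd.2 (key _ hbd.1 s1) (key _ hbd.1 s2) (fun h => key _ h (s3 h)) (fun h h' => key _ h' (s4 h h'))
  obtain ⟨h3, h4⟩ := Slab.next_rows_up hbt hb ht hw
  exact ⟨h1.trans h3, h2.trans h4⟩

/-- **the law of the phases of the upper half** -/
theorem phLaw_up (hW : W.Ok D a nL nU) (hD : D.DeadEnd a) (ha : 1 ≤ a) (hlr : D.l + 1 < D.r)
    (hbt : D.b + 1 < D.t) (hb : D.b ≤ y) (ht : y < D.t) {q : Half (ℤ × ℤ) → ℤ}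
    (hq : ∀ x, D.IsW (hm Sum.inr x) → x ≠ ((D.l, D.t - 1), .N) →
      q x = C (W.pos (hm Sum.inr x)) - C (W.pos (hm Sum.inr x) + 1))
    (hq' : q ((D.l, D.t - 1), .N) = C (W.P + nU - 1) - C W.P + (s - 1)) :
    (upCap D y hb ht).PhLaw (fun x => -(kap * (D.qC W C s (hmap Sum.inr id x) : ℤ))) q
      (8 * K0 * (s - 1)) := by
  refine Cap.PhLaw.of ?_ ?_ ?_
  · intro x h1 h2 h3
    have h4 : D.qC W C s (hmap Sum.inr id x) = 0 :=
      qC_up_zero hb h1 h2 fun h => h3 ((bd_upCap hb ht).2 h)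
    rw [h4]
    simp
  · intro j h1 h2
    have e1 : D.qC W C s (hmap Sum.inr id ((D.l, j), .W)) = 4 * (s - 1) :=
      Slab.qC_upW (hb.trans h1) h2
    have e2 : D.qC W C s (hmap Sum.inr id ((D.r - 1, j), .E)) = 0 :=
      Slab.qC_up (by omega) (by omega) (hb.trans h1) h2 (Or.inl rfl)
    show -(kap * (D.qC W C s (hmap Sum.inr id ((D.l, j), .W)) : ℤ)) =
      -(kap * (D.qC W C s (hmap Sum.inr id ((D.r - 1, j), .E)) : ℤ)) + _
    rw [e1, e2, kap_eq]
    push_cast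
    ring
  · intro x hx hxC
    have hw : D.IsW (hm Sum.inr x) := (bd_upCap hb ht).1 ⟨hx, hxC⟩
    have hqw : ∀ u : Half (ℤ × ℤ), D.IsW (hm Sum.inr u) →
        D.qC W C s (hmap Sum.inr id u) = -W.th (hm Sum.inr u) - 4 * C (W.pos (hm Sum.inr u)) :=
      fun u hu => if_pos hu
    by_cases hne : x = ((D.l, D.t - 1), .N)
    · subst hne
      obtain ⟨c1, c2, c3⟩ := hW.ceilL 0 le_rfl (by omega)
      obtain ⟨d1, d2, d3⟩ := hW.ceilR 0 le_rfl (by omega)
      rw [add_zero] at c1 c2 c3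
      rw [sub_zero] at d1 d2 d3
      obtain ⟨n1, n2⟩ := Cap.next_seam (E := upCap D y hb ht)
        ((bd_upCap (x := ((D.l, D.t - 1), .N)) hb ht).2 c1).1
        ((bd_upCap (x := ((D.r - 1, D.t - 1), .N)) hb ht).2 d1).1
      have n1' : next (upCap D y hb ht).g ((D.l, D.t - 1), .N) = ((D.r - 1, D.t - 1), .N) := n1
      have n2' : Turn.bt (upCap D y hb ht).g ((D.l, D.t - 1), .N) = 0 := n2
      have e1 := hqw ((D.l, D.t - 1), .N) c1
      have e2 := hqw ((D.r - 1, D.t - 1), .N) d1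
      have e3 : W.pos (hm Sum.inr ((D.l, D.t - 1), .N)) = W.P + nU - 1 := by
        rw [sub_zero] at c2
        exact c2
      have e4 : W.th (hm Sum.inr ((D.l, D.t - 1), .N)) = 2 := c3
      have e5 : W.pos (hm Sum.inr ((D.r - 1, D.t - 1), .N)) = W.P := by
        rw [add_zero] at d2
        exact d2
      have e6 : W.th (hm Sum.inr ((D.r - 1, D.t - 1), .N)) = 2 := d3
      rw [e3, e4] at e1
      rw [e5, e6] at e2
      rw [if_pos (show ((D.l, D.t - 1), Dir.N) = (((upCap D y hb ht).l, (upCap D y hb ht).t - 1), Dir.N)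
        from rfl), n1', n2', hq', e1, e2, kap_eq]
      push_cast
      ring
    · obtain ⟨n1, n2⟩ := next_upCap (hD.up D.l (Or.inl ⟨le_rfl, by omega⟩)) (by omega) hb ht hw hne
      obtain ⟨w1, w2, w3⟩ := Slab.next_isW_up hW ha hlr hbt hw hne
      rw [n1, n2, hq x hw hne]
      rw [if_neg (show ¬ x = (((upCap D y hb ht).l, (upCap D y hb ht).t - 1), .N) from hne),
        hqw x hw, hqw _ w1, w2, w3, kap_eq]
      push_cast
      ring

/-! ### the lower half -/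

/-- the reflection of the half edges -/
def flc (w : Half (ℤ × ℤ)) : Half (ℤ × ℤ) := (rfl2 w.1, w.2.flip)

@[simp] lemma flc_flc (w : Half (ℤ × ℤ)) : flc (flc w) = w := by
  obtain ⟨t, d⟩ := w
  unfold flc
  rw [rfl2_rfl2, Dir.flip_flip]

lemma rfl2_add (t : ℤ × ℤ) (d : Dir) : rfl2 t + d.flip.vec = rfl2 (t + d.vec) := by
  obtain ⟨i, j⟩ := t
  cases d
  · show ((i, -1 - j) : ℤ × ℤ) + Dir.E.vec = rfl2 ((i, j) + Dir.E.vec)
    rw [Slab.addE, Slab.addE]
    rfl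
  · show ((i, -1 - j) : ℤ × ℤ) + Dir.S.vec = rfl2 ((i, j) + Dir.N.vec)
    rw [Slab.addS, Slab.addN]
    exact Prod.ext rfl (by show -1 - j - 1 = -1 - (j + 1); ring)
  · show ((i, -1 - j) : ℤ × ℤ) + Dir.W.vec = rfl2 ((i, j) + Dir.W.vec)
    rw [Slab.addW, Slab.addW]
    rfl
  · show ((i, -1 - j) : ℤ × ℤ) + Dir.N.vec = rfl2 ((i, j) + Dir.S.vec)
    rw [Slab.addN, Slab.addS]
    exact Prod.ext rfl (by show -1 - j + 1 = -1 - (j - 1); ring)

lemma mem_lowR' (hb : D.b < y) (ht : y ≤ D.t) {t : ℤ × ℤ} :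
    rfl2 t ∈ (lowCap D y hb ht).R ↔ t ∈ D.TL y := by
  obtain ⟨i, j⟩ := t
  show (i, -1 - j) ∈ (lowCap D y hb ht).R ↔ _
  rw [mem_lowR, Slab.mem_TL, show -1 - (-1 - j) = j by ring]
  refine or_congr_right ?_
  omega

lemma mem_lowR2 (hb : D.b < y) (ht : y ≤ D.t) {t : ℤ × ℤ} :
    t ∈ (lowCap D y hb ht).R ↔ rfl2 t ∈ D.TL y := by
  rw [← mem_lowR' hb ht, rfl2_rfl2]

/-- the reflection commutes with the gluings of the plane -/
lemma plane_fl (hb : D.b < y) (ht : y ≤ D.t) (w : Half (ℤ × ℤ)) :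
    plane.glue (lowCap D y hb ht).R (flc w) = flc (plane.glue (D.TL y) w) := by
  obtain ⟨t, d⟩ := w
  show plane.glue _ (rfl2 t, d.flip) = _
  rw [plane_glue, plane_glue, rfl2_add]
  by_cases h : t ∈ D.TL y ∧ t + d.vec ∈ D.TL y
  · rw [if_pos h, if_pos (⟨(mem_lowR' hb ht).2 h.1, (mem_lowR' hb ht).2 h.2⟩ :
      rfl2 t ∈ (lowCap D y hb ht).R ∧ rfl2 (t + d.vec) ∈ (lowCap D y hb ht).R)]
    show (rfl2 (t + d.vec), d.flip.opp) = (rfl2 (t + d.vec), d.opp.flip)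
    rw [Dir.flip_opp]
  · rw [if_neg h, if_neg fun h' => h ⟨(mem_lowR' hb ht).1 h'.1, (mem_lowR' hb ht).1 h'.2⟩]
    rfl

lemma seamL_iff (hb : D.b < y) (ht : y ≤ D.t) {w : Half (ℤ × ℤ)} :
    (lowCap D y hb ht).Seam (flc w) ↔ D.SeamL y w := by
  obtain ⟨⟨i, j⟩, d⟩ := w
  constructor
  · rintro ⟨k, h1, h2, h3⟩
    have h1' : -y ≤ k := h1
    have h2' : k < -D.b := h2
    have h3' : (((i, -1 - j), d.flip) : Half (ℤ × ℤ)) = ((D.l, k), .W) ∨
      (((i, -1 - j), d.flip) : Half (ℤ × ℤ)) = ((D.r + 1 - 1, k), .E) := h3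
    rcases h3' with h4 | h4
    · obtain ⟨h5, h6⟩ := Prod.mk.inj h4
      obtain ⟨h7, h8⟩ := Prod.mk.inj h5
      obtain rfl : d = .W := by cases d <;> simp only [Dir.flip, reduceCtorEq] at h6 ⊢
      exact ⟨j, by omega, by omega, Or.inl (by rw [h7])⟩
    · obtain ⟨h5, h6⟩ := Prod.mk.inj h4
      obtain ⟨h7, h8⟩ := Prod.mk.inj h5
      obtain rfl : d = .E := by cases d <;> simp only [Dir.flip, reduceCtorEq] at h6 ⊢
      exact ⟨j, by omega, by omega, Or.inr (by rw [h7, add_sub_cancel_right])⟩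
  · intro h
    obtain ⟨⟨h1, h2⟩, ⟨h3, rfl⟩ | ⟨h3, rfl⟩⟩ := h.cases
    · simp only at h1 h2 h3
      exact ⟨-1 - j, by show -y ≤ -1 - j; omega, by show -1 - j < -D.b; omega, Or.inl (by rw [h3]; rfl)⟩
    · simp only at h1 h2 h3
      refine ⟨-1 - j, by show -y ≤ -1 - j; omega, by show -1 - j < -D.b; omega, Or.inr ?_⟩
      show (((i, -1 - j), .E) : Half (ℤ × ℤ)) = ((D.r + 1 - 1, -1 - j), .E)
      rw [h3, add_sub_cancel_right]

/-- the gluing of the lower half away from the seam -/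
lemma lowCap_g (hb : D.b < y) (ht : y ≤ D.t) {w : Half (ℤ × ℤ)} (hw : w.1 ∈ D.TL y)
    (h : ¬ D.SeamL y w) : (lowCap D y hb ht).g (flc w) = flc (plane.glue (D.TL y) w) := by
  rw [← plane_fl hb ht]
  exact Cap.g_eq ((mem_lowR' hb ht).2 hw) fun h' => h ((seamL_iff hb ht).1 h')

/-- the walls of the lower half -/
lemma bd_lowCap (hb : D.b < y) (ht : y ≤ D.t) {w : Half (ℤ × ℤ)} :
    Bd (lowCap D y hb ht).R (lowCap D y hb ht).g (flc w) ∧ flc w ∉ (lowCap D y hb ht).C ↔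
      D.IsW (hm Sum.inl w) := by
  have e : Bd (lowCap D y hb ht).R (plane.glue (lowCap D y hb ht).R) (flc w) ↔
      Bd (D.TL y) (plane.glue (D.TL y)) w := by
    unfold Bd
    rw [plane_fl]
    refine and_congr (mem_lowR' hb ht) ⟨fun h => ?_, fun h => by rw [h]⟩
    have := congrArg flc h
    rwa [flc_flc, flc_flc] at this
  rw [Cap.bd_iff, e, seamL_iff]
  obtain ⟨⟨i, j⟩, d⟩ := w
  have hlr := D.hlr
  rw [Slab.bd_TL_iff (by omega) hb ht, Cap.mem_C]
  show ((_ ∨ ((D.l ≤ i ∧ i ≤ D.r) ∧ D.b ≤ j ∧ j < y) ∧ _) ∧ _) ∧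
    ¬ ((D.l ≤ i ∧ i < D.r + 1) ∧ -1 - j = -y ∧ d.flip = .S) ↔ _
  constructor
  · rintro ⟨⟨h1 | ⟨h1, h2⟩, h3⟩, h4⟩
    · exact h1
    · exfalso
      rcases h2 with ⟨h5, h6⟩ | ⟨h5, h6⟩ | ⟨h5, h6⟩
      · exact h3 ⟨j, h1.2.1, h1.2.2, Or.inr (by
          have h7 : i = D.r := h6
          rw [h5, h7])⟩
      · exact h3 ⟨j, h1.2.1, h1.2.2, Or.inl (by
          have h7 : i = D.l := h6
          rw [h5, h7])⟩
      · have h6' : j = y - 1 := h6
        exact h4 ⟨⟨h1.1.1, by omega⟩, by omega, by rw [h5]; rfl⟩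
  · intro h
    have h' : D.IsW (Sum.inl (i, j), d) := h
    refine ⟨⟨Or.inl h', ?_⟩, ?_⟩
    · intro h1
      obtain ⟨⟨h2, h3⟩, ⟨h4, h5⟩ | ⟨h4, h5⟩⟩ := h1.cases
      · simp only at h2 h3 h4
        exact Slab.not_isW_low (D := D) (d := d) (by omega) (by omega) h2 (by omega)
          (by rw [h5]; decide) h'
      · simp only at h2 h3 h4
        exact Slab.not_isW_low (D := D) (d := d) (by omega) (by omega) h2 (by omega)
          (by rw [h5]; decide) h'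
    · rintro ⟨h1, h2, h3⟩
      obtain rfl : d = .N := by cases d <;> simp only [Dir.flip, reduceCtorEq] at h3 ⊢
      exact Slab.not_isW_low (D := D) (d := .N) h1.1 (by omega) (by omega) (by omega) (by decide) h'

/-- the phases vanish at the glued sides away from the seam -/
lemma qC_low_zero (ht : y ≤ D.t) {w : Half (ℤ × ℤ)} (hx : w.1 ∈ D.TL y)
    (h1 : ¬ D.SeamL y w) (h2 : ¬ D.IsW (hm Sum.inl w)) : D.qC W C s (hm Sum.inl w) = 0 := by
  obtain ⟨⟨i, j⟩, d⟩ := w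
  unfold Slab.qC
  rw [if_neg h2]
  cases d with
  | E => rfl
  | N => rfl
  | S => rfl
  | W =>
    show (if i = D.l ∧ D.b ≤ j ∧ j < D.t then 4 * s else 0) = 0
    rw [if_neg]
    rintro ⟨h3, h4, h5⟩
    have hlr := D.hlr
    rcases Slab.mem_TL.1 hx with h6 | h6
    · exact D.hL i j (by omega) (by omega) h4 h5.le h6
    · exact h1 ⟨j, h4, h6.2.2, Or.inl (by rw [h3])⟩

/-- the next wall end of the lower half: the boundary is reversed -/
lemma next_lowCap (hD : (D.r, D.b - 1) ∉ D.L) (hbt : D.b < D.t) (hb : D.b < y) (ht : y ≤ D.t)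
    {v : Half (ℤ × ℤ)} (hw : D.IsW (hm Sum.inl v)) (hne : v ≠ ((D.r, D.b), .S)) :
    next (lowCap D y hb ht).g (flc (next (plane.glue (D.TL (D.b + 1))) v)) = flc v ∧
      Turn.bt (lowCap D y hb ht).g (flc (next (plane.glue (D.TL (D.b + 1))) v)) =
        Turn.bt (plane.glue (D.TL (D.b + 1))) v := by
  obtain ⟨h3, h4⟩ := Slab.next_rows_low hbt hb ht hw
  obtain ⟨t, d⟩ := v
  obtain ⟨s1, s2, s3, s4⟩ := Slab.seamL_steps hb ht hD hw hne
  have hbd0 : Bd (D.TL y) (plane.glue (D.TL y)) (t, d) :=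
    (Slab.bd_TL_iff (by omega) hb ht).2 (Or.inl hw)
  have hbd : t ∈ D.TL y ∧ t + d.vec ∉ D.TL y := Shp.bd_plane.1 hbd0
  obtain ⟨k, k1, k2, k3, k4⟩ := plane_steps (P := D.TL y) hbd.1 hbd.2
    (fun u => (lowCap D y hb ht).g (flc u) = flc (plane.glue (D.TL y) u))
    (lowCap_g hb ht hbd.1 s1) (lowCap_g hb ht hbd.1 s2)
    (fun h => lowCap_g hb ht h (s3 h)) (fun h h' => lowCap_g hb ht h' (s4 h h'))
  obtain ⟨m1, m2⟩ := Turn.ks_of k1 k2 k3
  have hfl : Injective flc := fun u v h => by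
    have := congrArg flc h
    rwa [flc_flc, flc_flc] at this
  obtain ⟨r1, r2⟩ := next_rev (T := D.TL y) (g := plane.glue (D.TL y)) (h := (lowCap D y hb ht).g)
    (plane.glu _) flc hbd0.2 (by
      intro j hj
      rw [m1] at hj
      exact k4 j hj) (by
      intro j _
      generalize plane.glue (D.TL y) ((rot (plane.glue (D.TL y)))^[j] (t, d)) = u
      obtain ⟨t, d⟩ := u
      show ((rfl2 t, d.ccw.flip.ccw) : Half (ℤ × ℤ)) = (rfl2 t, d.flip)
      have e : d.ccw.flip.ccw = d.flip := by cases d <;> rfl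
      rw [e]) (by
      intro j h5 h6
      rw [m1] at h6
      exact fun h => k3 j h5 h6 (hfl h)) (by
      intro j _
      exact Cap.glu_g.inv _)
  rw [h3] at r1 r2
  refine ⟨r1, ?_⟩
  rw [← h4]
  unfold Turn.bt
  rw [r2]

/-- **the law of the phases of the lower half** -/
theorem phLaw_low (hW : W.Ok D a nL nU) (hD : D.DeadEnd a) (ha : 1 ≤ a) (hlr : D.l + 2 < D.r)
    (hbt : D.b + 1 < D.t) (hb : D.b < y) (ht : y ≤ D.t) {q : Half (ℤ × ℤ) → ℤ}
    (hq : ∀ w, D.IsW (hm Sum.inl w) → w ≠ ((D.l, D.b), .S) →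
      q (flc w) = C (W.pos (hm Sum.inl w) - 1) - C (W.pos (hm Sum.inl w)))
    (hq' : q (flc ((D.l, D.b), .S)) = C (nL - 1) - C 0 - s) :
    (lowCap D y hb ht).PhLaw
      (fun x => kap * (D.qC W C s (hmap (fun s => (Sum.inl (rfl2 s) : ZT)) Dir.flip x) : ℤ)) q
      (-(8 * K0 * s)) := by
  have hh : ∀ x, hmap (fun s => (Sum.inl (rfl2 s) : ZT)) Dir.flip x = hm Sum.inl (flc x) :=
    fun x => rfl
  simp only [hh]
  refine Cap.PhLaw.of ?_ ?_ ?_
  · intro x h1 h2 h3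
    have h4 : D.qC W C s (hm Sum.inl (flc x)) = 0 := by
      refine qC_low_zero ht ((mem_lowR2 hb ht).1 h1) (fun h => h2 ?_) fun h => h3 ?_
      · rw [← flc_flc x]
        exact (seamL_iff hb ht).2 h
      · rw [← flc_flc x]
        exact (bd_lowCap hb ht).2 h
    rw [h4]
    simp
  · intro j h1 h2
    have h1' : -y ≤ j := h1
    have h2' : j < -D.b := h2
    have g1 : D.b ≤ -1 - j := by omega
    have g2 : -1 - j < D.t := by omega
    have e1 : D.qC W C s (hm Sum.inl (flc ((D.l, j), .W))) = 4 * s := Slab.qC_lowW g1 g2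
    have e2 : D.qC W C s (hm Sum.inl (flc ((D.r + 1 - 1, j), .E))) = 0 := by
      rw [add_sub_cancel_right]
      exact Slab.qC_low (by omega) le_rfl g1 g2 (Or.inl rfl)
    show kap * (D.qC W C s (hm Sum.inl (flc ((D.l, j), .W))) : ℤ) =
      kap * (D.qC W C s (hm Sum.inl (flc ((D.r + 1 - 1, j), .E))) : ℤ) + _
    rw [e1, e2, kap_eq]
    push_cast
    ring
  · intro x hx hxC
    obtain ⟨w, rfl⟩ : ∃ w, x = flc w := ⟨flc x, (flc_flc x).symm⟩
    have hw : D.IsW (hm Sum.inl w) := (bd_lowCap hb ht).1 ⟨hx, hxC⟩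
    have hqw : ∀ u : Half (ℤ × ℤ), D.IsW (hm Sum.inl u) →
        D.qC W C s (hm Sum.inl u) = -W.th (hm Sum.inl u) - 4 * C (W.pos (hm Sum.inl u)) :=
      fun u hu => if_pos hu
    have elast : ((((lowCap D y hb ht).l, (lowCap D y hb ht).t - 1), Dir.N) : Half (ℤ × ℤ)) =
        flc ((D.l, D.b), .S) := by
      show (((D.l, -D.b - 1), Dir.N) : Half (ℤ × ℤ)) = ((D.l, -1 - D.b), Dir.N)
      rw [show -D.b - 1 = -1 - D.b by ring]
    obtain ⟨c1, c2, c3⟩ := hW.floorL 0 le_rfl (by omega)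
    obtain ⟨d1, d2, d3⟩ := hW.floorR 0 le_rfl (by omega)
    rw [add_zero] at c1 c2 c3
    rw [sub_zero] at d1 d2 d3
    rw [sub_zero] at d2
    by_cases hne : w = ((D.l, D.b), .S)
    · subst hne
      have elast2 : ((((lowCap D y hb ht).r - 1, (lowCap D y hb ht).t - 1), Dir.N) : Half (ℤ × ℤ)) =
          flc ((D.r, D.b), .S) := by
        show (((D.r + 1 - 1, -D.b - 1), Dir.N) : Half (ℤ × ℤ)) = ((D.r, -1 - D.b), Dir.N)
        rw [show -D.b - 1 = -1 - D.b by ring, add_sub_cancel_right]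
      have f1 := ((bd_lowCap (w := ((D.l, D.b), .S)) hb ht).2 c1).1
      have f2 := ((bd_lowCap (w := ((D.r, D.b), .S)) hb ht).2 d1).1
      rw [← elast] at f1
      rw [← elast2] at f2
      obtain ⟨n1, n2⟩ := Cap.next_seam (E := lowCap D y hb ht) f1 f2
      rw [elast, elast2] at n1
      rw [elast] at n2
      have e1 := hqw ((D.l, D.b), .S) c1
      have e2 := hqw ((D.r, D.b), .S) d1
      have e3 : W.pos (hm Sum.inl ((D.l, D.b), .S)) = 0 := c2
      have e4 : W.th (hm Sum.inl ((D.l, D.b), .S)) = 0 := c3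
      have e5 : W.pos (hm Sum.inl ((D.r, D.b), .S)) = nL - 1 := d2
      have e6 : W.th (hm Sum.inl ((D.r, D.b), .S)) = 0 := d3
      rw [e3, e4] at e1
      rw [e5, e6] at e2
      rw [n1, n2, hq', if_pos elast.symm, flc_flc, flc_flc, e1, e2, kap_eq]
      push_cast
      ring
    · obtain ⟨p1, p2⟩ := hW.low _ _ hw
      have p0 : W.pos (hm Sum.inl w) ≠ 0 := fun h => by
        have h1 : hm Sum.inl w = (.inl (D.l, D.b), .S) := hW.inj _ _ hw c1 (by rw [c2]; exact h)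
        apply hne
        have h5 : (Sum.inl w.1 : ZT) = Sum.inl (D.l, D.b) := congrArg Prod.fst h1
        have h6 : w.2 = .S := congrArg Prod.snd h1
        exact Prod.ext (Sum.inl.inj h5) h6
      have p1' : 0 ≤ W.pos (hm Sum.inl w) := p1
      have p2' : W.pos (hm Sum.inl w) < nL := p2
      obtain ⟨v', hv', hp⟩ := hW.surj (W.pos (hm Sum.inl w) - 1) (Or.inl ⟨by omega, by omega⟩)
      obtain ⟨v, rfl⟩ : ∃ v, v' = hm Sum.inl v := by
        obtain ⟨t | t, d⟩ := v'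
        · exact ⟨(t, d), rfl⟩
        · exfalso
          have := (hW.up _ _ hv').1
          have hP := hW.P_eq
          omega
      have hvne : v ≠ ((D.r, D.b), .S) := by
        rintro rfl
        have : W.pos (hm Sum.inl ((D.r, D.b), .S)) = nL - 1 := d2
        omega
      obtain ⟨w1, w2, w3⟩ := Slab.next_isW_low hW ha hlr hbt hv' hvne
      have hnw : next (plane.glue (D.TL (D.b + 1))) v = w := by
        have h1 := hW.inj _ _ w1 hw (by rw [w2]; omega)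
        exact hm_inj Sum.inl_injective h1
      obtain ⟨n1, n2⟩ := next_lowCap (hD.low D.r (Or.inr ⟨by omega, le_rfl⟩)) (by omega) hb ht hv' hvne
      rw [hnw] at n1 n2 w3
      have hqf := hq w hw hne
      rw [n1, n2, hqf, if_neg, flc_flc, flc_flc, hqw _ hw, hqw _ hv', hp, w3, kap_eq]
      · push_cast
        ring
      · rw [elast]
        intro h
        apply hne
        have := congrArg flc h
        rwa [flc_flc, flc_flc] at this

end slab

end Full.Norm
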