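import Pool.Agent.Full.X3.Int

/-!
# The turning modulo four

The turning of a strand from the side `e` to the side `e'` is `num e' - num e - 2` modulo `4`; hence with
natural phases (`Natural`) the holonomy of every open strand is `-2 - 4 s` and its factor is
`sqrt 3 * wq s`.
-/

set_option autoImplicit false

namespace Full
open Function Relation Finset

/-- number of a side: lower, right, upper, left -/
def Dir.num : Dir → ℤ
  | .S => 0 | .E => 1 | .N => 2 | .W => 3

lemma Dir.num_opp (d : Dir) : (4 : ℤ) ∣ d.opp.num - d.num - 2 := by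
  cases d <;> simp only [Dir.num, Dir.opp] <;> norm_num

namespace X3

noncomputable section

variable {τ : Type*} [DecidableEq τ] {T : Finset τ} {g : Half τ → Half τ} {q : Half τ → ℤ}
  {ω : Finset τ}

lemma num_mt (b : Bool) (d : Dir) :
    (4 : ℤ) ∣ Dir.tt b (Dir.mt b d) - (Dir.num (Dir.mt b d) - d.num - 2) := by
  cases b <;> cases d <;> simp [Dir.tt, Dir.mt, Dir.num, Dir.ccw] 

lemma tr_num (ω : Finset τ) (x : Half τ) :
    (4 : ℤ) ∣ tr ω (mate ω x) - ((mate ω x).2.num - x.2.num - 2) := by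
  unfold tr mate
  exact num_mt _ _

/-- turning of a walk through glued sides, modulo four -/
theorem tn_num (hst : Straight g) (n : ℕ) (x : Half τ)
    (h : ∀ k < n, g (mate ω ((g ∘ mate ω)^[k] x)) ≠ mate ω ((g ∘ mate ω)^[k] x)) :
    (4 : ℤ) ∣ tn g ω n x - (((g ∘ mate ω)^[n] x).2.num - x.2.num) := by
  induction n with
  | zero => simp [tn]
  | succ n ih =>
    have h1 := ih fun k hk => h k (by omega)
    have h2 := tr_num ω ((g ∘ mate ω)^[n] x)
    have h3 := hst _ (h n (by omega))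
    have h4 := Dir.num_opp (mate ω ((g ∘ mate ω)^[n] x)).2
    rw [← h3] at h4
    unfold tn at h1 ⊢
    rw [Finset.sum_range_succ, iterate_succ_apply', comp_apply]
    obtain ⟨a, ha⟩ := h1
    obtain ⟨b, hb⟩ := h2
    obtain ⟨c, hc⟩ := h4
    refine ⟨a + b - c - 1, ?_⟩
    linarith

/-- phases of walls and cuts whose values are compatible with the directions, except at `z` -/
structure Natural (T : Finset τ) (g : Half τ → Half τ) (z : Half τ) (q : Half τ → ℤ) : Prop where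
  link : ∀ x, g x ≠ x → (4 : ℤ) ∣ q x - q (g x)
  wall : ∀ e, Bd T g e → e ≠ z → (4 : ℤ) ∣ q e + e.2.num

theorem ln_four (hq : ∀ x, g x ≠ x → (4 : ℤ) ∣ q x - q (g x)) (n : ℕ) (x : Half τ) :
    (4 : ℤ) ∣ ln (fun y => q y - q (g y)) g ω n x := by
  unfold ln
  refine Finset.dvd_sum fun k _ => ?_
  show (4 : ℤ) ∣ q _ - q (g _)
  by_cases h : g (mate ω ((g ∘ mate ω)^[k] x)) = mate ω ((g ∘ mate ω)^[k] x)
  · rw [h, sub_self]
    exact dvd_zero _
  · exact hq _ h

/-- turning of an open strand, modulo four -/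
theorem tn_open (hG : Glu T g) (hst : Straight g) {e : Half τ} (he : Bd T g e) :
    (4 : ℤ) ∣ tn g ω (hl (mate ω) g e) e - ((other (mate ω) g e).2.num - e.2.num - 2) := by
  have h := hG.two ω
  have hp := hG.periodic ω e
  obtain ⟨hpos, hlast⟩ := h.open_last he.2 hp
  obtain ⟨n, hn⟩ : ∃ n, hl (mate ω) g e = n + 1 := ⟨hl (mate ω) g e - 1, by omega⟩
  have h1 := tn_num (ω := ω) hst n e fun k hk => h.open_ne he.2 hp (by omega)
  have h2 := tr_num ω ((g ∘ mate ω)^[n] e)
  have h3 : mate ω ((g ∘ mate ω)^[n] e) = other (mate ω) g e := by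
    rw [← hlast]
    congr 3
    omega
  rw [h3] at h2
  rw [hn]
  unfold tn at h1 ⊢
  rw [Finset.sum_range_succ, h3]
  obtain ⟨a, ha⟩ := h1
  obtain ⟨b, hb⟩ := h2
  exact ⟨a + b, by linarith⟩

variable {z : Half τ}

/-- **the holonomy of every open strand is `-2 - 4 s`** -/
theorem zh_natural (hG : Glu T g) (hst : Straight g) (hq : Natural T g z q) {e : Half τ}
    (he : Bd T g e) (h1 : e ≠ z) (h2 : other (mate ω) g e ≠ z) :
    ∃ s : ℤ, zh q g ω e = -2 - 4 * s := by
  obtain ⟨a, ha⟩ := tn_open (ω := ω) hG hst he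
  obtain ⟨b, hb⟩ := ln_four (ω := ω) hq.link (hl (mate ω) g e) e
  obtain ⟨c, hc⟩ := hq.wall e he h1
  obtain ⟨d, hd⟩ := hq.wall _ (hG.other_bd (ω := ω) he) h2
  refine ⟨-(a + b - c + d), ?_⟩
  rw [zh_eq]
  linarith

/-- the turning of a closed strand is divisible by four -/
theorem tn_closed (hst : Straight g) {x : Half τ}
    (hc : ∀ y, Conn (mate ω) g x y → g y ≠ y) :
    (4 : ℤ) ∣ tn g ω (minimalPeriod (g ∘ mate ω) x) x := by
  have h := tn_num (ω := ω) hst (minimalPeriod (g ∘ mate ω) x) x fun k _ =>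
    hc _ ((Conn.iter k x).trans (Conn.m_step _))
  rw [iterate_minimalPeriod] at h
  obtain ⟨a, ha⟩ := h
  exact ⟨a, by linarith⟩

theorem zl_natural (hst : Straight g) (hq : Natural T g z q) {x : Half τ}
    (hc : ∀ y, Conn (mate ω) g x y → g y ≠ y) : (4 : ℤ) ∣ zl q g ω x := by
  rw [zl_eq]
  exact dvd_add (tn_closed hst hc) (ln_four hq.link _ _)

/-! ### values of the weights -/

lemma wq_add_six (s : ℤ) : wq (s + 6) = wq s := by
  unfold wq
  have : (((2 * (s + 6) + 1 : ℤ) : ℂ) * ((Real.pi / 6 : ℝ) : ℂ)) =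
      ((2 * s + 1 : ℤ) : ℂ) * ((Real.pi / 6 : ℝ) : ℂ) + 2 * (Real.pi : ℂ) := by
    push_cast; ring
  rw [this, Complex.cos_add_two_pi]

lemma wq_add_mul (s k : ℤ) : wq (s + 6 * k) = wq s := by
  induction k using Int.induction_on with
  | zero => simp
  | succ n ih =>
    have : s + 6 * ((n : ℤ) + 1) = (s + 6 * n) + 6 := by ring
    rw [this, wq_add_six, ih]
  | pred n ih =>
    have : s + 6 * (-(n : ℤ)) = (s + 6 * (-(n : ℤ) - 1)) + 6 := by ring
    rw [this, wq_add_six] at ih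
    exact ih

lemma wq_one : wq 1 = 0 := by
  unfold wq
  have : (((2 * 1 + 1 : ℤ) : ℂ) * ((Real.pi / 6 : ℝ) : ℂ)) = ((Real.pi / 2 : ℝ) : ℂ) := by
    push_cast; ring
  rw [this, ← Complex.ofReal_cos, Real.cos_pi_div_two]
  simp

lemma wq_two : wq 2 = -1 := by
  unfold wq
  have : (((2 * 2 + 1 : ℤ) : ℂ) * ((Real.pi / 6 : ℝ) : ℂ)) =
      ((Real.pi - Real.pi / 6 : ℝ) : ℂ) := by
    push_cast; ring
  rw [this, ← Complex.ofReal_cos, Real.cos_pi_sub, Real.cos_pi_div_six]
  push_cast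
  rw [mul_neg, mul_div_cancel₀ _ (two_ne_zero), neg_div, div_self sqrt3_ne]

/-- the values of the weight: `1, 0, -1, -1, 0, 1` for `s = 0, ..., 5` modulo `6` -/
theorem wq_val (s : ℤ) : wq s = if s % 6 = 0 ∨ s % 6 = 5 then 1 else if s % 6 = 1 ∨ s % 6 = 4
    then 0 else -1 := by
  have h : wq s = wq (s % 6) := by
    have : s = s % 6 + 6 * (s / 6) := by omega
    conv_lhs => rw [this]
    rw [wq_add_mul]
  rw [h]
  have h0 : 0 ≤ s % 6 := Int.emod_nonneg _ (by norm_num)
  have h1 : s % 6 < 6 := Int.emod_lt_of_pos _ (by norm_num)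
  obtain ⟨r, hr⟩ : ∃ r, s % 6 = r := ⟨_, rfl⟩
  rw [hr] at h0 h1 ⊢
  have e3 : wq 3 = -1 := by
    have h2 := wq_symm (-4)
    have h3 := wq_add_mul 2 (-1)
    norm_num at h2 h3
    rw [h2, h3, wq_two]
  have e4 : wq 4 = 0 := by
    have h2 := wq_symm (-5)
    have h3 := wq_add_mul 1 (-1)
    norm_num at h2 h3
    rw [h2, h3, wq_one]
  have e5 : wq 5 = 1 := by
    have h2 := wq_symm (-6)
    have h3 := wq_add_mul 0 (-1)
    norm_num at h2 h3
    rw [h2, h3, wq_zero]
  interval_cases r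
  · simp [wq_zero]
  · simp [wq_one]
  · simp [wq_two]
  · simp [e3]
  · simp [e4]
  · simp [e5]

lemma norm_wq_le (s : ℤ) : ‖wq s‖ ≤ 1 := by
  rw [wq_val]
  split_ifs <;> simp

/-- the factors of the open strands are at most `sqrt 3` -/
theorem norm_cwt_open (hG : Glu T g) (hst : Straight g) (hq : Natural T g z q) {e : Half τ}
    (he : Bd T g e) (h1 : e ≠ z) (h2 : other (mate ω) g e ≠ z) :
    ‖cwt (zh q g ω e)‖ ≤ Real.sqrt 3 := by
  obtain ⟨s, hs⟩ := zh_natural (ω := ω) hG hst hq he h1 h2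
  rw [hs, cwt_arc, norm_mul, Complex.norm_real, Real.norm_of_nonneg (Real.sqrt_nonneg _)]
  have := norm_wq_le s
  have h3 := Real.sqrt_nonneg 3
  nlinarith

lemma norm_cwt_le (N : ℤ) : ‖cwt N‖ ≤ 2 := by
  unfold cwt
  rw [norm_mul, ← Complex.ofReal_cos, Complex.norm_real]
  have := Real.abs_cos_le_one (kap * N)
  rw [Real.norm_eq_abs]
  norm_num
  linarith

end

end X3
end Full
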