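import Pool.Agent.Full.X3.CorSlab
import Pool.Agent.Full.X3.Part
import Pool.Agent.Full.X3.LabOk

/-!
# The phases in the corridor

`Slab.phs_qz` : the phases `D.qz` of a domain with a closed row and admissible labels satisfy the
hypotheses `Phs` of the corridor, if the gaps of the three marks are outside of the dead ends (`Far`).
`Slab.cor_sum` : the sum over the gap `k` of the corridor part of the weight of a configuration is `1`.
`Slab.cor_loop` : closed strands of the corridor.
-/

set_option autoImplicit false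

namespace Full
open Full.X3 Function Finset Loc1

namespace Slab
variable {D : Slab} {W : Lab} {c : Chg} {a nL nU x y j k : ℤ}

/-- the gauge of the corridor -/
def thq (y A : ℤ) (p : ℤ × ℤ) : ℤ := if p.1 < 0 then 0 else if p.2 < y then -4 * A else -4 * (A - 1)

/-- the gap `g` is not in the dead ends -/
def Far (W : Lab) (a nL nU g : ℤ) : Prop :=
  (a ≤ g ∧ g ≤ nL - a) ∨ (W.P + a ≤ g ∧ g ≤ W.P + nU - a)

lemma qz_inl (s : ℤ × ℤ) (d : Dir) :
    D.qz W c j k x y (.inl s, d) = D.q0 W c j k (.inl s, d) := by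
  unfold qz lside
  simp

lemma qz_inr (s : ℤ × ℤ) {d : Dir} (hd : d ≠ .S) :
    D.qz W c j k x y (.inr s, d) = D.q0 W c j k (.inr s, d) := by
  unfold qz lside
  cases d <;> simp at hd ⊢

lemma qz_inrS (i v : ℤ) : D.qz W c j k x y (.inr (i, v), .S) =
    D.q0 W c j k (.inr (i, v), .S) - if v = y ∧ D.l ≤ i ∧ i < x then 4 else 0 := by
  unfold qz lside
  simp

lemma q0_wall {w : Half ZT} (h : D.IsW w) :
    D.q0 W c j k w = -W.th w - 4 * (c.dc j (W.pos w) + c.tc W.P k (W.pos w)) := by
  unfold q0
  rw [if_pos h]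

/-- the upper part has at least `2 a` walls -/
lemma two_a_le (hD : D.Good x y a) (hW : W.Ok D a nL nU) : 2 * a ≤ nU := by
  have ha := hD.pos
  have hxl := hD.xl
  have hxr := hD.xr
  have h0 := hW.ceilR 0 le_rfl (by omega)
  have h1 := hW.up _ _ h0.1
  by_contra hc
  rw [not_le] at hc
  obtain ⟨i, i', e1, e2, e3, e4, e5⟩ : ∃ i i' : ℤ, 0 ≤ i ∧ i < a ∧ 0 ≤ i' ∧ i' < a ∧
      i + i' = nU - 1 := by
    rcases le_or_gt nU a with h2 | h2
    · exact ⟨nU - 1, 0, by omega, by omega, le_rfl, by omega, by omega⟩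
    · exact ⟨a - 1, nU - a, by omega, by omega, by omega, by omega, by omega⟩
  have h2 := hW.ceilR i e1 e2
  have h3 := hW.ceilL i' e3 e4
  have h4 := hW.inj _ _ h2.1 h3.1 (by rw [h2.2.1, h3.2.1]; omega)
  have h5 := congrArg Prod.fst h4
  have h6 := (Prod.mk.inj (Sum.inr.inj h5)).1
  omega

lemma nL_pos (hD : D.Good x y a) (hW : W.Ok D a nL nU) : 0 < nL := by
  have ha := hD.pos
  have h0 := hW.floorL 0 le_rfl (by omega)
  have h1 := hW.low _ _ h0.1
  omega

section charges
variable {p : ℤ}

/-- the left floor -/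
lemma dc_floorL (hP : 0 ≤ W.P) (h1 : Far W a nL nU c.m1) (h2 : Far W a nL nU c.m2)
    (hj : Far W a nL nU j) (hp : p < a) : c.dc j p = 0 := by
  unfold Far at h1 h2 hj
  unfold Chg.dc stp
  rw [if_neg (by omega), if_neg (by omega), if_neg (by omega)]
  ring

/-- near the right end -/
lemma dc_right (hnP : nL ≤ W.P) (h1 : Far W a nL nU c.m1) (h2 : Far W a nL nU c.m2)
    (hj : Far W a nL nU j) (ha : 0 < a) (hp : nL - a ≤ p) (hp' : p < W.P + a) :
    c.dc j p = c.dc j W.P := by
  have key : ∀ g, Far W a nL nU g → stp g p = stp g W.P := by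
    intro g hg
    unfold Far at hg
    unfold stp
    rcases hg with hg | hg
    · rw [if_pos (by omega), if_pos (by omega)]
    · rw [if_neg (by omega), if_neg (by omega)]
  unfold Chg.dc
  rw [key _ h1, key _ h2, key _ hj]

/-- the left ceiling -/
lemma dc_ceilL (hnP : nL ≤ W.P) (hn : 0 ≤ nU) (h1 : Far W a nL nU c.m1)
    (h2 : Far W a nL nU c.m2) (hj : Far W a nL nU j) (hp : W.P + nU - a ≤ p) : c.dc j p = 0 := by
  unfold Far at h1 h2 hj
  unfold Chg.dc stp
  rw [if_pos (by omega), if_pos (by omega), if_pos (by omega)]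
  ring

end charges

/-- **the phases of the corridor** -/
theorem phs_qz (hD : D.Good x y a) (hb : D.b < y) (ht : y < D.t) (hW : W.Ok D a nL nU)
    (h1 : Far W a nL nU c.m1) (h2 : Far W a nL nU c.m2) (hj : Far W a nL nU j)
    (hm : -a ≤ c.m4) (hmk : c.m4 ≤ k) (hk : k < 0) :
    Phs (phC D.l D.r y) (-a) a D.b D.t (D.qz W c j k x y) (thq y (c.dc j W.P))
      (-4 * c.dc j W.P) c.m4 k := by
  have ha := hD.pos
  have hxl := hD.xl
  have hxr := hD.xr
  have hnU := two_a_le hD hW
  have hnL := nL_pos hD hW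
  have hP := hW.P_eq
  refine ⟨fun i v a1 a2 a3 a4 => ?_, fun i v a1 a2 a3 a4 => ?_, fun i a1 a2 => ?_,
    fun i a1 a2 => ?_⟩
  · -- horizontal links
    by_cases hi : 0 ≤ i
    · rw [phC_pos hi, phC_pos (by omega)]
      unfold thq
      simp only
      rw [if_neg (by omega : ¬ i + 1 < 0), if_neg (by omega : ¬ i < 0)]
      by_cases hv : v < y
      · rw [phL_low hv, phL_low hv, qz_inl, qz_inl,
          q0_low (by omega) (by omega) a3 a4 (Or.inl rfl),
          q0_low (by omega) (by omega) a3 a4 (Or.inr (Or.inr (Or.inl ⟨rfl, by omega⟩))),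
          if_pos hv]
        ring
      · rw [phL_up hv, phL_up hv, qz_inr _ (by decide), qz_inr _ (by decide),
          q0_up (by omega) (by omega) a3 a4 (Or.inl rfl),
          q0_up (by omega) (by omega) a3 a4 (Or.inr (Or.inr (Or.inl ⟨rfl, by omega⟩))),
          if_neg hv]
        ring
    · by_cases hi' : i = -1
      · subst hi'
        rw [phC_neg hi, show (-1 : ℤ) + 1 = 0 by norm_num, phC_pos le_rfl]
        unfold thq
        simp only
        rw [if_neg (by omega : ¬ (0 : ℤ) < 0), if_pos (by omega : (-1 : ℤ) < 0), add_zero]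
        by_cases hv : v < y
        · rw [phR_low hv, phL_low hv, qz_inl, qz_inl,
            q0_low (by omega) (by omega) a3 a4 (Or.inl rfl), q0_lowW a3 a4, if_pos hv]
          ring
        · rw [phR_up hv, phL_up hv, qz_inr _ (by decide), qz_inr _ (by decide),
            q0_up (by omega) (by omega) a3 a4 (Or.inl rfl), q0_upW a3 a4, if_neg hv]
          ring
      · rw [phC_neg hi, phC_neg (by omega)]
        unfold thq
        simp only
        rw [if_pos (by omega : i + 1 < 0), if_pos (by omega : i < 0)]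
        by_cases hv : v < y
        · rw [phR_low hv, phR_low hv, qz_inl, qz_inl,
            q0_low (by omega) (by omega) a3 a4 (Or.inl rfl),
            q0_low (by omega) (by omega) a3 a4 (Or.inr (Or.inr (Or.inl ⟨rfl, by omega⟩)))]
        · rw [phR_up hv, phR_up hv, qz_inr _ (by decide), qz_inr _ (by decide),
            q0_up (by omega) (by omega) a3 a4 (Or.inl rfl),
            q0_up (by omega) (by omega) a3 a4 (Or.inr (Or.inr (Or.inl ⟨rfl, by omega⟩)))]
  · -- vertical links
    by_cases hi : 0 ≤ i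
    · rw [phC_pos hi, phC_pos hi]
      unfold thq
      simp only
      rw [if_neg (by omega : ¬ i < 0), if_neg (by omega : ¬ i < 0)]
      by_cases hv : v < y
      · by_cases hv' : v + 1 < y
        · rw [phL_low hv, phL_low hv', qz_inl, qz_inl,
            q0_low (by omega) (by omega) a3 (by omega) (Or.inr (Or.inl rfl)),
            q0_low (by omega) (by omega) (by omega) a4 (Or.inr (Or.inr (Or.inr ⟨rfl, by omega⟩))),
            if_pos hv, if_pos hv']
          ring
        · rw [phL_low hv, phL_up hv', qz_inl, qz_inrS,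
            q0_low (by omega) (by omega) a3 (by omega) (Or.inr (Or.inl rfl)),
            q0_up (by omega) (by omega) (by omega) a4 (Or.inr (Or.inl rfl)),
            if_pos hv, if_neg hv', if_pos (by omega)]
          ring
      · rw [phL_up hv, phL_up (by omega : ¬ v + 1 < y), qz_inr _ (by decide), qz_inrS,
          q0_up (by omega) (by omega) a3 (by omega) (Or.inr (Or.inr (Or.inr ⟨rfl, by omega⟩))),
          q0_up (by omega) (by omega) (by omega) a4 (Or.inr (Or.inl rfl)),
          if_neg hv, if_neg (by omega : ¬ v + 1 < y), if_neg (by omega)]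
        ring
    · rw [phC_neg hi, phC_neg hi]
      unfold thq
      simp only
      rw [if_pos (by omega : i < 0), if_pos (by omega : i < 0)]
      by_cases hv : v < y
      · by_cases hv' : v + 1 < y
        · rw [phR_low hv, phR_low hv', qz_inl, qz_inl,
            q0_low (by omega) (by omega) a3 (by omega) (Or.inr (Or.inl rfl)),
            q0_low (by omega) (by omega) (by omega) a4 (Or.inr (Or.inr (Or.inr ⟨rfl, by omega⟩)))]
        · rw [phR_low hv, phR_up hv', qz_inl, qz_inrS,
            q0_low (by omega) (by omega) a3 (by omega) (Or.inr (Or.inl rfl)),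
            q0_up (by omega) (by omega) (by omega) a4 (Or.inr (Or.inl rfl)),
            if_neg (by omega)]
          ring
      · rw [phR_up hv, phR_up (by omega : ¬ v + 1 < y), qz_inr _ (by decide), qz_inrS,
          q0_up (by omega) (by omega) a3 (by omega) (Or.inr (Or.inr (Or.inr ⟨rfl, by omega⟩))),
          q0_up (by omega) (by omega) (by omega) a4 (Or.inr (Or.inl rfl)),
          if_neg (by omega)]
        ring
  · -- the floor
    by_cases hi : 0 ≤ i
    · have h := hW.floorL i hi a2
      have h3 := (hW.low _ _ h.1).2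
      rw [h.2.1] at h3
      rw [phC_pos hi, phL_low hb, qz_inl, q0_wall h.1, h.2.1, h.2.2,
        dc_floorL (by omega) h1 h2 hj a2]
      unfold thq Chg.tc stp
      simp only
      rw [if_neg (by omega : ¬ i < 0), if_pos hb, if_neg (by omega), if_neg (by omega),
        if_neg (by omega)]
      ring
    · have h := hW.floorR (-1 - i) (by omega) (by omega)
      rw [show D.r - (-1 - i) = D.r + i + 1 by ring] at h
      rw [phC_neg hi, phR_low hb, qz_inl, q0_wall h.1, h.2.1, h.2.2,
        dc_right (by omega) h1 h2 hj (by omega) (by omega) (by omega)]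
      unfold thq Chg.tc stp
      simp only
      rw [if_pos (by omega : i < 0), if_neg (by omega), if_neg (by omega),
        if_neg (by omega)]
      ring
  · -- the ceiling
    by_cases hi : 0 ≤ i
    · have h := hW.ceilL i hi a2
      rw [phC_pos hi, phL_up (by omega), qz_inr _ (by decide), q0_wall h.1, h.2.1, h.2.2,
        dc_ceilL (by omega) (by omega) h1 h2 hj (by omega)]
      unfold thq Chg.tc stp LemX.chl
      simp only
      rw [if_neg (by omega : ¬ i < 0), if_neg (by omega : ¬ D.t - 1 < y), if_pos (by omega),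
        if_pos (by omega), if_pos (by omega), if_pos (by omega), if_pos (by omega)]
      ring
    · have h := hW.ceilR (-1 - i) (by omega) (by omega)
      rw [show D.r - 1 - (-1 - i) = D.r + i by ring] at h
      rw [phC_neg hi, phR_up (by omega), qz_inr _ (by decide), q0_wall h.1, h.2.1, h.2.2,
        dc_right (by omega) h1 h2 hj (by omega) (by omega) (by omega)]
      unfold thq Chg.tc stp LemX.chl
      simp only
      rw [if_pos (by omega : i < 0), if_pos (by omega : W.P ≤ W.P + (-1 - i))]
      by_cases e1 : k ≤ i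
      · rw [if_neg (by omega), if_neg (by omega), if_pos (by omega), if_pos (by omega)]
        ring
      · by_cases e2 : c.m4 ≤ i
        · rw [if_pos (by omega), if_neg (by omega), if_pos (by omega), if_neg (by omega)]
          ring
        · rw [if_pos (by omega), if_pos (by omega), if_neg (by omega), if_neg (by omega)]
          ring

variable {c1 d1 c2 d2 : ℤ} {ω : Finset ZT} {S : Half ZT → ZMod 2}

/-- closed strands of the corridor of the closed row have the factor one -/
theorem cor_loop (hD : D.Good x y a) (hb : D.b < y) (ht : y < D.t) (hW : W.Ok D a nL nU)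
    (h1 : Far W a nL nU c.m1) (h2 : Far W a nL nU c.m2) (hj : Far W a nL nU j)
    (hm : -a ≤ c.m4) (hmk : c.m4 ≤ k) (hk : k < 0)
    (hS : D.Pot x y a c1 d1 c2 d2 ω S) (h4 : d1 < D.l + a) (h5 : D.r - a < c2)
    {p : Half (ℤ × ℤ)} (hp1 : p.1 ∈ box (-a) a D.b D.t) (hp2 : S (hp (phC D.l D.r y) p) = 0)
    (hc : ∀ u, Conn (mate (pre (phC D.l D.r y) (box (-a) a D.b D.t) ω))
      (plane.glue (box (-a) a D.b D.t)) p u → plane.glue (box (-a) a D.b D.t) u ≠ u) :
    cwt (zl (fun p => D.qz W c j k x y (hp (phC D.l D.r y) p)) (plane.glue (box (-a) a D.b D.t))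
      (pre (phC D.l D.r y) (box (-a) a D.b D.t) ω) p) = 1 := by
  have hP := hS.part hD h4 h5
  have hC := cor hD hS h4 h5
  rw [← hP.zl_cor glu_gc hp1 hp2]
  exact hC.loop glu_gc (phs_qz hD hb ht hW h1 h2 hj hm hmk hk) hp2
    ((hP.closed_cor glu_gc hp1 hp2).2 hc)

/-- **the sum over the gaps of the trio** of the corridor part of the weight of a configuration -/
theorem cor_sum (hD : D.Good x y a) (hb : D.b < y) (ht : y < D.t) (hW : W.Ok D a nL nU)
    (h1 : Far W a nL nU c.m1) (h2 : Far W a nL nU c.m2) (hj : Far W a nL nU j)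
    (hm : -a ≤ c.m4) {b4 : ℤ} (hb4 : b4 < 0)
    (hS : D.Pot x y a c1 d1 c2 d2 ω S) (h4 : d1 < D.l + a) (h5 : D.r - a < c2) (h6 : c2 ≤ d2)
    {ι : Type*} [LinearOrder ι] {o : Half ZT → ι}
    (ho : ∀ u, Bd (D.T y) (D.gc x y) u → ∀ v, Bd (D.T y) (D.gc x y) v → o u = o v → u = v)
    {i₀ : ℤ} (h7 : c.m4 ≤ i₀) (h8 : i₀ ≤ b4) (h9 : d2 ≤ D.r + c.m4)
    (h10 : (other (mate ω) (D.gc x y) (phC D.l D.r y (i₀, D.t - 1), .N)).2 ≠ .N) :
    ∑ k ∈ Icc c.m4 b4, ∏ p ∈ corA (phC D.l D.r y) (-a) a D.b D.t ω S o,
      cwt (zh (fun p => D.qz W c j k x y (hp (phC D.l D.r y) p))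
        (plane.glue (box (-a) a D.b D.t)) (pre (phC D.l D.r y) (box (-a) a D.b D.t) ω) p) /
        (Real.sqrt 3 : ℝ) = 1 := by
  classical
  have hP := hS.part hD h4 h5
  have hz : Bd (D.T y) (D.gc x y) (z x y) := bd_z (by have := hD.xl; have := hD.pos; omega)
    (by have := hD.xr; have := hD.pos; omega) hb
  have key := cor_trio (m := c.m4) (b' := b4) (q := fun k => D.qz W c j k x y)
    (θ := fun _ => thq y (c.dc j W.P)) (k := fun _ => -4 * c.dc j W.P) (P := fun e => S e = 1)
    hD hS h4 h5 h6 ho (fun e => Iff.rfl)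
    (fun k a1 a2 => phs_qz hD hb ht hW h1 h2 hj hm a1 (by omega)) h7 h8 h9 (by omega) h10
  rw [← key]
  refine Finset.sum_congr rfl fun k _ => ?_
  have e1 : (free (D.T y) (D.gc x y) ω (z x y)).filter
      (fun e => ¬ S e = 1 ∧ o e < o (other (mate ω) (D.gc x y) e)) =
      (corA (phC D.l D.r y) (-a) a D.b D.t ω S o).image (hp (phC D.l D.r y)) := by
    rw [← hP.arcs_cor glu_gc hz hS.z]
    ext e
    rw [Finset.mem_filter, Finset.mem_filter, mem_arcs' glu_gc hz]
    tauto
  rw [e1, Finset.prod_image (hP.corA_inj glu_gc)]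
  refine Finset.prod_congr rfl fun p hp' => ?_
  unfold corA at hp'
  rw [Finset.mem_filter] at hp'
  have a1 := mem_corE.1 hp'.1
  rw [hP.zh_cor glu_gc a1.1.1 a1.2]

end Slab

/-! ### closed strands of a channel, without a potential -/

namespace X3

variable {τ : Type*} [DecidableEq τ] {T : Finset τ} {g : Half τ → Half τ} {ω : Finset τ}
  {φ : ℤ × ℤ → τ} {c d b t : ℤ}

open Classical in
/-- the potential of a strand -/
noncomputable def strS (g : Half τ → Half τ) (ω : Finset τ) (x : Half τ) (y : Half τ) : ZMod 2 :=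
  if Conn (mate ω) g x y then 0 else 1

lemma strS_self (x : Half τ) : strS g ω x x = 0 := if_pos (Conn.refl x)

lemma strS_congr {x u v : Half τ} (h : Conn (mate ω) g x u ↔ Conn (mate ω) g x v) :
    strS g ω x u = strS g ω x v := by
  unfold strS
  by_cases h1 : Conn (mate ω) g x v
  · rw [if_pos h1, if_pos (h.2 h1)]
  · rw [if_neg h1, if_neg (fun h2 => h1 (h.1 h2))]

/-- a strand inside of a channel -/
theorem cor_strand (hG : Glu T g) (hch : Channel T g φ c d b t) (hbt : b < t) {x : Half τ}
    (hin : ∀ y, Conn (mate ω) g x y →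
      ∃ i j v, c < i ∧ i + 1 < d ∧ b ≤ j ∧ j < t ∧ y = (φ (i, j), v)) :
    Cor T g ω φ c d b t (strS g ω x) where
  ch := hch
  mt y := by
    have : Conn (mate ω) g x (mate ω y) ↔ Conn (mate ω) g x y :=
      ⟨fun hc => by
        have := hc.trans (Conn.m_step _)
        rwa [mate_mate] at this, fun hc => hc.trans (Conn.m_step _)⟩
    exact strS_congr this
  gs y := by
    have : Conn (mate ω) g x (g y) ↔ Conn (mate ω) g x y :=
      ⟨fun hc => by
        have := hc.trans (Conn.g_step _)
        rwa [hG.inv] at this, fun hc => hc.trans (Conn.g_step _)⟩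
    exact strS_congr this
  cor y hy := by
    unfold strS at hy
    split_ifs at hy with h1
    · obtain ⟨i, j, v, h2, h3, h4, h5, h6⟩ := hin y h1
      exact ⟨i, j, v, by omega, by omega, h4, h5, h6⟩
    · exact absurd hy one_ne_zero
  west j h1 h2 := by
    unfold strS
    rw [if_neg]
    intro hc
    obtain ⟨i, j', v, h3, h4, h5, h6, h7⟩ := hin _ hc
    have := hch.inj c j i j' le_rfl (by omega) h1 h2 (by omega) (by omega) h5 h6
      (Prod.mk.inj h7).1
    omega
  east j h1 h2 := by
    unfold strS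
    rw [if_neg]
    intro hc
    obtain ⟨i, j', v, h3, h4, h5, h6, h7⟩ := hin _ hc
    have := hch.inj (d - 1) j i j' (by omega) (by omega) h1 h2 (by omega) (by omega) h5 h6
      (Prod.mk.inj h7).1
    omega
  bt := hbt

end X3

namespace Slab
variable {D : Slab} {W : Lab} {c : Chg} {a nL nU x y j k : ℤ} {ω : Finset ZT}

/-- **closed strands inside of the corridor of the closed row** turn by four -/
theorem closed_four (hD : D.Good x y a) (hb : D.b < y) (ht : y < D.t) (hW : W.Ok D a nL nU)
    (h1 : Far W a nL nU c.m1) (h2 : Far W a nL nU c.m2) (hj : Far W a nL nU j)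
    (hm : -a ≤ c.m4) (hmk : c.m4 ≤ k) (hk : k < 0) {u : Half ZT}
    (hin : ∀ v, Conn (mate ω) (D.gc x y) u v → ∃ i l e, -a < i ∧ i + 1 < a ∧ D.b ≤ l ∧ l < D.t ∧
      v = (phC D.l D.r y (i, l), e))
    (hc : ∀ v, Conn (mate ω) (D.gc x y) u v → D.gc x y v ≠ v) :
    cwt (zl (D.qz W c j k x y) (D.gc x y) ω u) = 1 :=
  (cor_strand glu_gc (corridor hD.dead (by have := hD.pos; omega) hD.xl hD.xr hD.yb hD.yt)
    hD.bt hin).loop glu_gc (phs_qz hD hb ht hW h1 h2 hj hm hmk hk) (strS_self u) hc

end Slab

end Full
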