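import Pool.Agent.Full.Turn.Final
import Pool.Agent.Full.Corner.PlaneNext
import Pool.Agent.Full.Disc.SlabSC

/-!
# The boundary of the two sheet domain in terms of the two sheets

`next_map`: transport of `next` and of the direction change `bt` under an injection of the tiles which
commutes with the gluings at the half edges visited by the rotation.  `next_low`, `next_up`: the boundary of
`D.go x y` follows the boundaries of the plane regions `D.TL y`, `D.TU y` away from the line `y`;
`next_lowE`, `next_upW`: the two passages across the line.  `dn` is the direction in quarter turns.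
-/

set_option autoImplicit false

namespace Full.X3
open Function Relation Full Full.Turn

section general
variable {τ σ : Type*}

/-- the image of a half edge under a map of the tiles -/
def hm (ι : τ → σ) (u : Half τ) : Half σ := (ι u.1, u.2)

lemma rho_hm (ι : τ → σ) (u : Half τ) : rho (hm ι u) = hm ι (rho u) := rfl

lemma hm_inj {ι : τ → σ} (hι : Injective ι) : Injective (hm ι) := by
  rintro ⟨t, d⟩ ⟨t', d'⟩ h
  have h1 : t = t' := hι (congrArg Prod.fst h)
  have h2 : d = d' := congrArg Prod.snd h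
  rw [h1, h2]

/-- transport of `next` and of the direction change -/
theorem next_map {g : Half τ → Half τ} {g' : Half σ → Half σ} {ι : τ → σ} (hι : Injective ι)
    {x : Half τ} {k : ℕ} (hk : 1 ≤ k) (h1 : g ((rot g)^[k] x) = (rot g)^[k] x)
    (h2 : ∀ j, 1 ≤ j → j < k → g ((rot g)^[j] x) ≠ (rot g)^[j] x)
    (hg : ∀ j ≤ k, g' (hm ι ((rot g)^[j] x)) = hm ι (g ((rot g)^[j] x))) :
    next g' (hm ι x) = hm ι (next g x) ∧ bt g' (hm ι x) = bt g x := by
  have key : ∀ j ≤ k, (rot g')^[j] (hm ι x) = hm ι ((rot g)^[j] x) := by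
    intro j
    induction j with
    | zero => intro _; rfl
    | succ j ih =>
      intro hj
      rw [iterate_succ_apply', iterate_succ_apply', ih (by omega)]
      show rho (g' (hm ι _)) = _
      rw [hg j (by omega)]
      rfl
  obtain ⟨b1, n1⟩ := bt_of hk h1 h2
  have h1' : g' ((rot g')^[k] (hm ι x)) = (rot g')^[k] (hm ι x) := by
    rw [key k le_rfl, hg k le_rfl, h1]
  have h2' : ∀ j, 1 ≤ j → j < k → g' ((rot g')^[j] (hm ι x)) ≠ (rot g')^[j] (hm ι x) := by
    intro j hj1 hj2 h
    rw [key j (by omega), hg j (by omega)] at h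
    exact h2 j hj1 hj2 (hm_inj hι h)
  obtain ⟨b2, n2⟩ := bt_of hk h1' h2'
  rw [b1, b2, n1, n2, key k le_rfl]
  exact ⟨rfl, rfl⟩

end general

/-! ### directions -/

/-- direction of the side of a tile as a part of the boundary, in quarter turns: the lower side points
to the east -/
def dn : Dir → ℤ
  | .S => 0 | .E => 1 | .N => 2 | .W => 3

lemma dn_ccw (d : Dir) : (4 : ℤ) ∣ dn d.ccw - dn d - 1 := by cases d <;> decide
lemma dn_cw (d : Dir) : (4 : ℤ) ∣ dn d.cw - dn d + 1 := by cases d <;> decide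
lemma dn_opp (d : Dir) : (4 : ℤ) ∣ dn d.opp - dn d - 2 := by cases d <;> decide

/-- **the direction changes by `bt` modulo four** -/
theorem dn_next {τ : Type*} {T : Finset τ} {g : Half τ → Half τ} (hG : Glu T g) (hs : Straight g)
    {x : Half τ} (hx : g x = x) : (4 : ℤ) ∣ dn (next g x).2 - dn x.2 - bt g x := by
  obtain ⟨h1, h2, h3⟩ := ks_spec hG hx
  have key : ∀ j, 1 ≤ j → j ≤ ks g x →
      (4 : ℤ) ∣ dn ((rot g)^[j] x).2 - dn x.2 - (2 - (j : ℤ)) := by
    intro j hj
    induction j, hj using Nat.le_induction with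
    | base =>
      intro _
      have e : (rot g)^[1] x = rho x := by
        show rho (g x) = rho x
        rw [hx]
      rw [e]
      have := dn_ccw x.2
      show (4 : ℤ) ∣ dn x.2.ccw - dn x.2 - (2 - ((1 : ℕ) : ℤ))
      push_cast
      omega
    | succ j hj ih =>
      intro hj'
      have h4 := ih (by omega)
      have h5 := h3 j hj (by omega)
      rw [iterate_succ_apply']
      set u := (rot g)^[j] x with hu
      have h6 : (rot g u).2 = u.2.cw := by
        show (g u).2.ccw = u.2.cw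
        rw [hs u h5, Dir.ccw_opp]
      rw [h6]
      have := dn_cw u.2
      push_cast
      omega
  have h4 := key _ h1 le_rfl
  rw [h2]
  unfold bt
  exact h4

/-! ### plane regions -/

section plane
variable {P : Finset (ℤ × ℤ)} {t : ℤ × ℤ} {d : Dir}

/-- the next boundary half edge of a plane region, with the half edges which are visited -/
theorem plane_steps (ht : t ∈ P) (h0 : t + d.vec ∉ P)
    (Q : Half (ℤ × ℤ) → Prop) (q0 : Q (t, d)) (q1 : Q (t, d.ccw))
    (q2 : t + d.ccw.vec ∈ P → Q (t + d.ccw.vec, d))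
    (q3 : t + d.ccw.vec ∈ P → t + d.ccw.vec + d.vec ∈ P → Q (t + d.ccw.vec + d.vec, d.cw)) :
    ∃ k, 1 ≤ k ∧ plane.glue P ((rot (plane.glue P))^[k] (t, d)) = (rot (plane.glue P))^[k] (t, d) ∧
      (∀ j, 1 ≤ j → j < k →
        plane.glue P ((rot (plane.glue P))^[j] (t, d)) ≠ (rot (plane.glue P))^[j] (t, d)) ∧
      ∀ j ≤ k, Q ((rot (plane.glue P))^[j] (t, d)) := by
  have r1 : (rot (plane.glue P))^[1] (t, d) = (t, d.ccw) := Shp.rot_neg h0
  by_cases h1 : t + d.ccw.vec ∈ P
  · have r2 : (rot (plane.glue P))^[2] (t, d) = (t + d.ccw.vec, d) := by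
      rw [iterate_succ_apply', r1, Shp.rot_pos ht h1, Dir.cw_ccw]
    by_cases h2 : t + d.ccw.vec + d.vec ∈ P
    · obtain ⟨-, r3, hm⟩ := Shp.next_rfx ht h0 h1 h2
      refine ⟨3, by norm_num, ?_, hm, ?_⟩
      · rw [r3]
        refine Shp.glue_neg ?_
        have h3 : t + d.ccw.vec + d.vec + d.cw.vec = t + d.vec := by
          have := Shp.Dir.vec_cw_add d
          calc t + d.ccw.vec + d.vec + d.cw.vec = t + d.vec + (d.ccw.vec + d.cw.vec) := by abel
            _ = t + d.vec := by rw [this, add_zero]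
        rw [h3]
        exact h0
      · intro j hj
        obtain rfl | rfl | rfl | rfl : j = 0 ∨ j = 1 ∨ j = 2 ∨ j = 3 := by omega
        · exact q0
        · rw [r1]; exact q1
        · rw [r2]; exact q2 h1
        · rw [r3]; exact q3 h1 h2
    · obtain ⟨-, -, hm⟩ := Shp.next_flat ht h0 h1 h2
      refine ⟨2, by norm_num, ?_, hm, ?_⟩
      · rw [r2]
        exact Shp.glue_neg h2
      · intro j hj
        obtain rfl | rfl | rfl : j = 0 ∨ j = 1 ∨ j = 2 := by omega
        · exact q0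
        · rw [r1]; exact q1
        · rw [r2]; exact q2 h1
  · refine ⟨1, le_rfl, ?_, fun j h2 h3 => by omega, ?_⟩
    · rw [r1]
      exact Shp.glue_neg h1
    · intro j hj
      obtain rfl | rfl : j = 0 ∨ j = 1 := by omega
      · exact q0
      · rw [r1]; exact q1

/-- transport of the boundary of a plane region -/
theorem next_plane_map {σ : Type*} {g' : Half σ → Half σ} {ι : ℤ × ℤ → σ} (hι : Injective ι)
    (ht : t ∈ P) (h0 : t + d.vec ∉ P)
    (q0 : g' (hm ι (t, d)) = hm ι (plane.glue P (t, d)))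
    (q1 : g' (hm ι (t, d.ccw)) = hm ι (plane.glue P (t, d.ccw)))
    (q2 : t + d.ccw.vec ∈ P → g' (hm ι (t + d.ccw.vec, d)) = hm ι (plane.glue P (t + d.ccw.vec, d)))
    (q3 : t + d.ccw.vec ∈ P → t + d.ccw.vec + d.vec ∈ P →
      g' (hm ι (t + d.ccw.vec + d.vec, d.cw)) = hm ι (plane.glue P (t + d.ccw.vec + d.vec, d.cw))) :
    next g' (hm ι (t, d)) = hm ι (next (plane.glue P) (t, d)) ∧
      bt g' (hm ι (t, d)) = bt (plane.glue P) (t, d) := by
  obtain ⟨k, h1, h2, h3, h4⟩ := plane_steps ht h0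
    (fun u => g' (hm ι u) = hm ι (plane.glue P u)) q0 q1 q2 q3
  exact next_map hι h1 h2 h3 h4

/-- convex corner -/
theorem bt_cvx (h0 : t + d.vec ∉ P) (h1 : t + d.ccw.vec ∉ P) :
    next (plane.glue P) (t, d) = (t, d.ccw) ∧ bt (plane.glue P) (t, d) = 1 := by
  have r1 : (rot (plane.glue P))^[1] (t, d) = (t, d.ccw) := Shp.rot_neg h0
  obtain ⟨b, n⟩ := bt_of (g := plane.glue P) (x := (t, d)) le_rfl (by
    rw [r1]; exact Shp.glue_neg h1) (fun j h2 h3 => by omega)
  rw [b, n, r1]
  exact ⟨rfl, by norm_num⟩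

/-- flat wall -/
theorem bt_flat (ht : t ∈ P) (h0 : t + d.vec ∉ P) (h1 : t + d.ccw.vec ∈ P)
    (h2 : t + d.ccw.vec + d.vec ∉ P) :
    next (plane.glue P) (t, d) = (t + d.ccw.vec, d) ∧ bt (plane.glue P) (t, d) = 0 := by
  obtain ⟨-, r2, hm⟩ := Shp.next_flat ht h0 h1 h2
  obtain ⟨b, n⟩ := bt_of (g := plane.glue P) (x := (t, d)) (k := 2) (by norm_num) (by
    rw [r2]; exact Shp.glue_neg h2) hm
  rw [b, n, r2]
  exact ⟨rfl, by norm_num⟩

end plane

end Full.X3

namespace Full.Slab
open Function Relation Full Full.Turn Full.X3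

variable {D : Slab} {x y : ℤ}

/-- upper sides of the last row of the lower sheet -/
def LineN (D : Slab) (y : ℤ) (u : Half (ℤ × ℤ)) : Prop :=
  u.2 = .N ∧ u.1.2 = y - 1 ∧ D.l ≤ u.1.1 ∧ u.1.1 ≤ D.r

/-- lower sides of the first row of the upper sheet -/
def LineS (D : Slab) (y : ℤ) (u : Half (ℤ × ℤ)) : Prop :=
  u.2 = .S ∧ u.1.2 = y ∧ D.l ≤ u.1.1 ∧ u.1.1 < D.r

lemma g0_inl (u : Half (ℤ × ℤ)) : D.g0 y (hm Sum.inl u) = hm Sum.inl (plane.glue (D.TL y) u) := rfl
lemma g0_inr (u : Half (ℤ × ℤ)) : D.g0 y (hm Sum.inr u) = hm Sum.inr (plane.glue (D.TU y) u) := rfl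

/-- the gluing of the lower sheet away from the line -/
lemma go_low (hb : D.b ≤ y) (ht : y ≤ D.t) {u : Half (ℤ × ℤ)} (hu : ¬ D.LineN y u) :
    D.go x y (hm Sum.inl u) = hm Sum.inl (plane.glue (D.TL y) u) := by
  rw [← g0_inl]
  by_cases h : D.g0 y (hm Sum.inl u) = hm Sum.inl u
  · by_cases h1 : D.go x y (hm Sum.inl u) = hm Sum.inl u
    · rw [h1, h]
    · exfalso
      rcases new_low hb ht h h1 with ⟨i, h2, h3, -, h4⟩ | ⟨i, h4, -⟩
      · apply hu
        obtain ⟨⟨a, c⟩, d⟩ := u
        have e1 : (Sum.inl (a, c) : ZT) = Sum.inl (i, y - 1) := congrArg Prod.fst h4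
        have e2 : d = .N := congrArg Prod.snd h4
        obtain ⟨rfl, rfl⟩ := Prod.mk.inj (Sum.inl.inj e1)
        exact ⟨e2, rfl, h2, h3⟩
      · have e1 : (Sum.inl u.1 : ZT) = Sum.inr (i, y) := congrArg Prod.fst h4
        exact absurd e1 (by simp)
  · exact (ext_go hb ht).ext _ h

/-- the gluing of the upper sheet away from the line -/
lemma go_up (hb : D.b ≤ y) (ht : y ≤ D.t) {u : Half (ℤ × ℤ)} (hu : ¬ D.LineS y u) :
    D.go x y (hm Sum.inr u) = hm Sum.inr (plane.glue (D.TU y) u) := by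
  rw [← g0_inr]
  by_cases h : D.g0 y (hm Sum.inr u) = hm Sum.inr u
  · by_cases h1 : D.go x y (hm Sum.inr u) = hm Sum.inr u
    · rw [h1, h]
    · exfalso
      rcases new_low hb ht h h1 with ⟨i, h2, h3, -, h4⟩ | ⟨i, h4, h5⟩
      · have e1 : (Sum.inr u.1 : ZT) = Sum.inl (i, y - 1) := congrArg Prod.fst h4
        exact absurd e1 (by simp)
      · obtain ⟨⟨a, c⟩, d⟩ := u
        have e1 : (Sum.inr (a, c) : ZT) = Sum.inr (i, y) := congrArg Prod.fst h4
        have e2 : d = .S := congrArg Prod.snd h4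
        obtain ⟨rfl, rfl⟩ := Prod.mk.inj (Sum.inr.inj e1)
        subst e2
        apply hu
        refine ⟨rfl, rfl, ?_⟩
        by_contra hc
        simp only at hc
        have h6 : (zsurf D.l D.r x c c c).nb .S (.inr (a, c)) = some (.inr (a, c - 1)) :=
          zs_S_up (by omega)
        obtain ⟨t', h7, -, -⟩ := Surf.glue_ne_iff.1 h1
        have h8 : t' = Sum.inr (a, c - 1) := by
          have : (zsurf D.l D.r x c c c).nb .S (.inr (a, c)) = some t' := h7
          rw [h6] at this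
          exact (Option.some.inj this).symm
        rcases Surf.glue_cases (S := zsurf D.l D.r x c c c) (T := D.T c) (Sum.inr (a, c), Dir.S) with
          h9 | ⟨t'', h9, -, -, h10⟩
        · exact h1 h9
        · have h11 : t'' = Sum.inr (a, c - 1) := by
            have : (zsurf D.l D.r x c c c).nb .S (.inr (a, c)) = some t'' := h9
            rw [h6] at this
            exact (Option.some.inj this).symm
          have h12 : (D.go x c (hm Sum.inr ((a, c), Dir.S))).1 = Sum.inr (a, c - 1) := by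
            show ((zsurf D.l D.r x c c c).glue (D.T c) (Sum.inr (a, c), Dir.S)).1 = _
            rw [h10, h11]
          rw [h12] at h5
          exact absurd h5 (by simp)
  · exact (ext_go hb ht).ext _ h

lemma mk_add (i j : ℤ) (d : Dir) : ((i, j) : ℤ × ℤ) + d.vec = (i + d.vec.1, j + d.vec.2) := rfl

/-- transport of the boundary of the lower sheet to a gluing which agrees with the plane away from the
line -/
theorem low_map {σ : Type*} {g' : Half σ → Half σ} {ι : ℤ × ℤ → σ} (hι : Injective ι) (hb : D.b < y)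
    (ht : y ≤ D.t) (hg : ∀ v : Half (ℤ × ℤ), v.1 ∈ D.TL y → ¬ D.LineN y v →
      g' (hm ι v) = hm ι (plane.glue (D.TL y) v)) {u : Half (ℤ × ℤ)}
    (hu : Bd (D.TL y) (plane.glue (D.TL y)) u) (h1 : ¬ D.LineN y u) (h2 : u ≠ ((D.r, y - 1), .E)) :
    next g' (hm ι u) = hm ι (next (plane.glue (D.TL y)) u) ∧
      bt g' (hm ι u) = bt (plane.glue (D.TL y)) u := by
  obtain ⟨⟨i, j⟩, d⟩ := u
  rw [Shp.bd_plane] at hu
  obtain ⟨ht', h0⟩ := hu
  have hlr := D.hlr
  refine next_plane_map hι ht' h0 (hg _ ht' h1) (hg _ ht' ?_)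
    (fun h3 => hg _ h3 ?_) (fun h3 h4 => hg _ h4 ?_)
  · rintro ⟨h5, h6, h7, h8⟩
    simp only at h5 h6 h7 h8
    obtain rfl : d = .E := by
      cases d <;> simp only [Dir.ccw, reduceCtorEq] at h5 ⊢
    subst h6
    apply h2
    have h9 : i = D.r := by
      by_contra h10
      apply h0
      rw [mk_add]
      simp only [Dir.vec, add_zero]
      exact mem_TL_row hb (by omega) (by omega)
    rw [h9]
  · rintro ⟨h5, h6, h7, h8⟩
    simp only at h5 h6 h7 h8
    subst h5
    rw [mk_add] at h6 h7 h8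
    simp only [Dir.ccw, Dir.vec, add_zero] at h6 h7 h8
    subst h6
    by_cases h9 : i ≤ D.r
    · exact h1 ⟨rfl, rfl, by simp only; omega, h9⟩
    · have h10 : i = D.r + 1 := by omega
      subst h10
      rcases mem_TL.1 ht' with h11 | h11
      · exact D.hL (D.r + 1) (y - 1) (by omega) (by omega) (by omega) (by omega) h11
      · omega
  · rintro ⟨h5, h6, h7, h8⟩
    simp only at h5 h6 h7 h8
    obtain rfl : d = .W := by
      cases d <;> simp only [Dir.cw, reduceCtorEq] at h5 ⊢
    rw [mk_add, mk_add] at h6 h7 h8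
    simp only [Dir.ccw, Dir.vec, add_zero] at h6 h7 h8
    obtain rfl : j = y := by omega
    exact notMem_TL hb.le ht (i := i) (by omega) (by omega) ht'

/-- transport of the boundary of the upper sheet to a gluing which agrees with the plane away from the
line -/
theorem up_map {σ : Type*} {g' : Half σ → Half σ} {ι : ℤ × ℤ → σ} (hι : Injective ι) (hb : D.b ≤ y)
    (ht : y < D.t) (hg : ∀ v : Half (ℤ × ℤ), v.1 ∈ D.TU y → ¬ D.LineS y v →
      g' (hm ι v) = hm ι (plane.glue (D.TU y) v)) {u : Half (ℤ × ℤ)}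
    (hu : Bd (D.TU y) (plane.glue (D.TU y)) u) (h1 : ¬ D.LineS y u) (h2 : u ≠ ((D.l, y), .W)) :
    next g' (hm ι u) = hm ι (next (plane.glue (D.TU y)) u) ∧
      bt g' (hm ι u) = bt (plane.glue (D.TU y)) u := by
  obtain ⟨⟨i, j⟩, d⟩ := u
  rw [Shp.bd_plane] at hu
  obtain ⟨ht', h0⟩ := hu
  have hlr := D.hlr
  refine next_plane_map hι ht' h0 (hg _ ht' h1) (hg _ ht' ?_)
    (fun h3 => hg _ h3 ?_) (fun h3 h4 => hg _ h4 ?_)
  · rintro ⟨h5, h6, h7, h8⟩
    simp only at h5 h6 h7 h8
    obtain rfl : d = .W := by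
      cases d <;> simp only [Dir.ccw, reduceCtorEq] at h5 ⊢
    subst h6
    apply h2
    have h9 : i = D.l := by
      by_contra h10
      apply h0
      rw [mk_add]
      simp only [Dir.vec, add_zero]
      exact mem_TU_row ht (by omega) (by omega)
    rw [h9]
  · rintro ⟨h5, h6, h7, h8⟩
    simp only at h5 h6 h7 h8
    subst h5
    rw [mk_add] at h6 h7 h8
    simp only [Dir.ccw, Dir.vec, add_zero] at h6 h7 h8
    subst h6
    by_cases h9 : D.l ≤ i
    · exact h1 ⟨rfl, rfl, h9, by simp only; omega⟩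
    · have h10 : i = D.l - 1 := by omega
      subst h10
      rcases mem_TU.1 ht' with h11 | h11
      · exact D.hU (D.l - 1) j (by omega) (by omega) (by omega) (by omega) h11
      · omega
  · rintro ⟨h5, h6, h7, h8⟩
    simp only at h5 h6 h7 h8
    obtain rfl : d = .E := by
      cases d <;> simp only [Dir.cw, reduceCtorEq] at h5 ⊢
    rw [mk_add, mk_add] at h6 h7 h8
    simp only [Dir.ccw, Dir.vec, add_zero] at h6 h7 h8
    obtain rfl : j = y - 1 := by omega
    exact notMem_TU hb ht.le (i := i) (by omega) (by omega) ht'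

/-- **the boundary of the lower sheet** -/
theorem next_low (hb : D.b < y) (ht : y ≤ D.t) {u : Half (ℤ × ℤ)}
    (hu : Bd (D.TL y) (plane.glue (D.TL y)) u) (h1 : ¬ D.LineN y u) (h2 : u ≠ ((D.r, y - 1), .E)) :
    next (D.go x y) (hm Sum.inl u) = hm Sum.inl (next (plane.glue (D.TL y)) u) ∧
      bt (D.go x y) (hm Sum.inl u) = bt (plane.glue (D.TL y)) u :=
  low_map Sum.inl_injective hb ht (fun _ _ h => go_low hb.le ht h) hu h1 h2

/-- **the boundary of the upper sheet** -/
theorem next_up (hb : D.b ≤ y) (ht : y < D.t) {u : Half (ℤ × ℤ)}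
    (hu : Bd (D.TU y) (plane.glue (D.TU y)) u) (h1 : ¬ D.LineS y u) (h2 : u ≠ ((D.l, y), .W)) :
    next (D.go x y) (hm Sum.inr u) = hm Sum.inr (next (plane.glue (D.TU y)) u) ∧
      bt (D.go x y) (hm Sum.inr u) = bt (plane.glue (D.TU y)) u :=
  up_map Sum.inr_injective hb ht (fun _ _ h => go_up hb ht.le h) hu h1 h2

/-- the gluing at a side which is a wall of the plane region -/
lemma go_low_wall (hb : D.b ≤ y) (ht : y ≤ D.t) {t : ℤ × ℤ} {d : Dir} (hu : ¬ D.LineN y (t, d))
    (h : t + d.vec ∉ D.TL y) : D.go x y (Sum.inl t, d) = (Sum.inl t, d) := by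
  have := go_low (x := x) hb ht hu
  rw [Shp.glue_neg h] at this
  exact this

lemma go_up_wall (hb : D.b ≤ y) (ht : y ≤ D.t) {t : ℤ × ℤ} {d : Dir} (hu : ¬ D.LineS y (t, d))
    (h : t + d.vec ∉ D.TU y) : D.go x y (Sum.inr t, d) = (Sum.inr t, d) := by
  have := go_up (x := x) hb ht hu
  rw [Shp.glue_neg h] at this
  exact this

/-- no tile to the right of the strip -/
lemma right_TL {j : ℤ} (h1 : D.b ≤ j) (h2 : j ≤ D.t) : (D.r + 1, j) ∉ D.TL y := by
  rw [mem_TL]
  have := D.hlr
  rintro (h | h)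
  · exact D.hL _ _ (by omega) le_rfl h1 h2 h
  · omega

lemma left_TL {j : ℤ} (h1 : D.b ≤ j) (h2 : j ≤ D.t) : (D.l - 1, j) ∉ D.TL y := by
  rw [mem_TL]
  have := D.hlr
  rintro (h | h)
  · exact D.hL _ _ le_rfl (by omega) h1 h2 h
  · omega

lemma right_TU {j : ℤ} (h1 : D.b - 1 ≤ j) (h2 : j < D.t) : (D.r, j) ∉ D.TU y := by
  rw [mem_TU]
  have := D.hlr
  rintro (h | h)
  · exact D.hU _ _ (by omega) le_rfl h1 h2 h
  · omega

lemma left_TU {j : ℤ} (h1 : D.b - 1 ≤ j) (h2 : j < D.t) : (D.l - 1, j) ∉ D.TU y := by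
  rw [mem_TU]
  have := D.hlr
  rintro (h | h)
  · exact D.hU _ _ le_rfl (by omega) h1 h2 h
  · omega

/-- the passage of the boundary across the line `y` at the right end -/
theorem next_lowE (hb : D.b < y) (ht : y < D.t) (hl : D.l ≤ x) (hr : x < D.r) :
    next (D.go x y) (Sum.inl (D.r, y - 1), .E) = (Sum.inr (D.r - 1, y), .E) ∧
      bt (D.go x y) (Sum.inl (D.r, y - 1), .E) = 0 := by
  have hlr := D.hlr
  have g1 : D.go x y (Sum.inl (D.r, y - 1), .E) = (Sum.inl (D.r, y - 1), .E) := by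
    refine go_low_wall hb.le ht.le (fun h => Dir.noConfusion h.1) ?_
    rw [mk_add]
    simp only [Dir.vec, add_zero]
    exact right_TL (by omega) (by omega)
  have g2 : D.go x y (Sum.inl (D.r, y - 1), .N) = (Sum.inr (D.r - 1, y), .S) :=
    go_right hb ht hl hr le_rfl
  have g3 : D.go x y (Sum.inr (D.r - 1, y), .E) = (Sum.inr (D.r - 1, y), .E) := by
    refine go_up_wall hb.le ht.le (fun h => Dir.noConfusion h.1) ?_
    rw [mk_add]
    simp only [Dir.vec, add_zero, sub_add_cancel]
    exact right_TU (by omega) ht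
  have r1 : (rot (D.go x y))^[1] (Sum.inl (D.r, y - 1), .E) = (Sum.inl (D.r, y - 1), .N) := by
    show rho (D.go x y _) = _
    rw [g1]
    rfl
  have r2 : (rot (D.go x y))^[2] (Sum.inl (D.r, y - 1), .E) = (Sum.inr (D.r - 1, y), .E) := by
    rw [iterate_succ_apply', r1]
    show rho (D.go x y _) = _
    rw [g2]
    rfl
  obtain ⟨b, n⟩ := bt_of (g := D.go x y) (x := (Sum.inl (D.r, y - 1), .E)) (k := 2) (by norm_num)
    (by rw [r2, g3]) (by
      intro j h1 h2
      obtain rfl : j = 1 := by omega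
      rw [r1, g2]
      intro h
      exact absurd (congrArg Prod.fst h) (by simp))
  rw [b, n, r2]
  exact ⟨rfl, by norm_num⟩

/-- the passage of the boundary across the line `y` at the left end -/
theorem next_upW (hb : D.b < y) (ht : y < D.t) (hl : D.l < x) (hr : x ≤ D.r) :
    next (D.go x y) (Sum.inr (D.l, y), .W) = (Sum.inl (D.l, y - 1), .W) ∧
      bt (D.go x y) (Sum.inr (D.l, y), .W) = 0 := by
  have hlr := D.hlr
  have g1 : D.go x y (Sum.inr (D.l, y), .W) = (Sum.inr (D.l, y), .W) := by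
    refine go_up_wall hb.le ht.le (fun h => Dir.noConfusion h.1) ?_
    rw [mk_add]
    simp only [Dir.vec, add_zero]
    exact left_TU (by omega) ht
  have g2' : D.go x y (Sum.inl (D.l, y - 1), .N) = (Sum.inr (D.l, y), .S) :=
    go_left hb ht hr le_rfl hl
  have g2 : D.go x y (Sum.inr (D.l, y), .S) = (Sum.inl (D.l, y - 1), .N) := by
    rw [← g2']
    exact glu_go.inv _
  have g3 : D.go x y (Sum.inl (D.l, y - 1), .W) = (Sum.inl (D.l, y - 1), .W) := by
    refine go_low_wall hb.le ht.le (fun h => Dir.noConfusion h.1) ?_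
    rw [mk_add]
    simp only [Dir.vec, add_zero]
    exact left_TL (by omega) (by omega)
  have r1 : (rot (D.go x y))^[1] (Sum.inr (D.l, y), .W) = (Sum.inr (D.l, y), .S) := by
    show rho (D.go x y _) = _
    rw [g1]
    rfl
  have r2 : (rot (D.go x y))^[2] (Sum.inr (D.l, y), .W) = (Sum.inl (D.l, y - 1), .W) := by
    rw [iterate_succ_apply', r1]
    show rho (D.go x y _) = _
    rw [g2]
    rfl
  obtain ⟨b, n⟩ := bt_of (g := D.go x y) (x := (Sum.inr (D.l, y), .W)) (k := 2) (by norm_num)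
    (by rw [r2, g3]) (by
      intro j h1 h2
      obtain rfl : j = 1 := by omega
      rw [r1, g2]
      intro h
      exact absurd (congrArg Prod.fst h) (by simp))
  rw [b, n, r2]
  exact ⟨rfl, by norm_num⟩

end Full.Slab
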