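import Pool.Agent.Full.Net.Walk

/-!
# Transport of strands

`Tr m g m' g' Φ S`: on the set `S`, which is invariant under `m'` and `g'`, the map `Φ` is injective and
commutes with the two involutions.  Then the strands of the points of `S` are mapped to strands.
-/

set_option autoImplicit false

namespace Full.X3
open Full Function Relation Finset

variable {α β : Type*} {m g : α → α} {m' g' : β → β} {Φ : β → α} {S : Set β}

/-- `Φ` commutes with the involutions on the invariant set `S` -/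
structure Tr (m g : α → α) (m' g' : β → β) (Φ : β → α) (S : Set β) : Prop where
  inj : Set.InjOn Φ S
  ms : ∀ x ∈ S, m' x ∈ S
  gs : ∀ x ∈ S, g' x ∈ S
  hm : ∀ x ∈ S, m (Φ x) = Φ (m' x)
  hg : ∀ x ∈ S, g (Φ x) = Φ (g' x)

namespace Tr
variable (h : Tr m g m' g' Φ S)
include h

theorem iter_mem {x : β} (hx : x ∈ S) (k : ℕ) : (g' ∘ m')^[k] x ∈ S := by
  induction k with
  | zero => exact hx
  | succ k ih =>
    rw [iterate_succ_apply']
    exact h.gs _ (h.ms _ ih)

theorem iter {x : β} (hx : x ∈ S) (k : ℕ) : (g ∘ m)^[k] (Φ x) = Φ ((g' ∘ m')^[k] x) := by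
  induction k with
  | zero => rfl
  | succ k ih =>
    have h1 := h.iter_mem hx k
    rw [iterate_succ_apply', iterate_succ_apply', ih, comp_apply, comp_apply, h.hm _ h1,
      h.hg _ (h.ms _ h1)]

theorem miter {x : β} (hx : x ∈ S) (k : ℕ) :
    m ((g ∘ m)^[k] (Φ x)) = Φ (m' ((g' ∘ m')^[k] x)) := by
  rw [h.iter hx, h.hm _ (h.iter_mem hx k)]

theorem period {x : β} (hx : x ∈ S) : minimalPeriod (g ∘ m) (Φ x) = minimalPeriod (g' ∘ m') x := by
  refine minimalPeriod_eq_minimalPeriod_iff.2 fun n => ?_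
  show (g ∘ m)^[n] (Φ x) = Φ x ↔ (g' ∘ m')^[n] x = x
  rw [h.iter hx]
  exact ⟨fun h1 => h.inj (h.iter_mem hx n) hx h1, fun h1 => by rw [h1]⟩

theorem hl_eq {x : β} (hx : x ∈ S) : hl m g (Φ x) = hl m' g' x := by
  unfold hl
  rw [h.period hx]

theorem other_eq {x : β} (hx : x ∈ S) : other m g (Φ x) = Φ (other m' g' x) := by
  unfold other
  rw [h.period hx, h.iter hx]

theorem other_mem {x : β} (hx : x ∈ S) : other m' g' x ∈ S := h.iter_mem hx _

/-- a fixed point -/
theorem fix_iff {x : β} (hx : x ∈ S) : g (Φ x) = Φ x ↔ g' x = x := by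
  rw [h.hg _ hx]
  exact ⟨fun h1 => h.inj (h.gs _ hx) hx h1, fun h1 => by rw [h1]⟩

/-- everything connected to a point of `Φ '' S` is in `Φ '' S` -/
theorem conn {x : β} (hx : x ∈ S) {y : α} (hc : Conn m g (Φ x) y) :
    ∃ y' ∈ S, y = Φ y' ∧ Conn m' g' x y' := by
  induction hc with
  | refl => exact ⟨x, hx, rfl, Conn.refl _⟩
  | @tail b c _ h2 ih =>
    obtain ⟨b', hb, rfl, hc⟩ := ih
    rcases h2 with rfl | rfl
    · exact ⟨m' b', h.ms _ hb, h.hm _ hb, hc.trans (Conn.m_step _)⟩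
    · exact ⟨g' b', h.gs _ hb, h.hg _ hb, hc.trans (Conn.g_step _)⟩

theorem conn_iff {x y : β} (hx : x ∈ S) (hy : y ∈ S) :
    Conn m g (Φ x) (Φ y) ↔ Conn m' g' x y := by
  constructor
  · intro hc
    obtain ⟨y', hy', h1, h2⟩ := h.conn hx hc
    rw [h.inj hy hy' h1]
    exact h2
  · intro hc
    have key : ∀ y, Conn m' g' x y → y ∈ S ∧ Conn m g (Φ x) (Φ y) := by
      intro y hc
      induction hc with
      | refl => exact ⟨hx, Conn.refl _⟩
      | @tail b c _ h2 ih =>
        obtain ⟨hb, ih⟩ := ih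
        rcases h2 with rfl | rfl
        · refine ⟨h.ms _ hb, ?_⟩
          rw [← h.hm _ hb]
          exact ih.trans (Conn.m_step _)
        · refine ⟨h.gs _ hb, ?_⟩
          rw [← h.hg _ hb]
          exact ih.trans (Conn.g_step _)
    exact (key y hc).2

end Tr

/-- two gluings which agree on an invariant set -/
theorem Tr.same {g' : α → α} {S : Set α} (hm : ∀ x ∈ S, m x ∈ S) (hg : ∀ x ∈ S, g' x ∈ S)
    (he : ∀ x ∈ S, g x = g' x) : Tr m g m g' id S :=
  ⟨Set.injOn_id S, hm, hg, fun _ _ => rfl, he⟩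

end Full.X3
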