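import Pool.Agent.Full.X3.Hol
import Pool.Agent.Full.X3.Tr

/-!
# Integer holonomies

All phases are integer multiples of `kap = -(pi/12)`; a left quarter turn counts `1`.  `zn q g ω n x` is
the holonomy of the first `n` steps of the walk from `x` with the phases `q`, `zh` the holonomy of an
open strand, `zl` of a closed strand, `tn` the turning and `ln c` the sum of the values `c` of the half
edges through which the walk leaves the tiles.
-/

set_option autoImplicit false

namespace Full.X3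
open Full Function Relation Finset

noncomputable section

variable {τ : Type*} [DecidableEq τ]

/-- the unit of the phases -/
def kap : ℝ := -(Real.pi / 12)

/-- integer holonomy of a walk -/
def zn (q : Half τ → ℤ) (g : Half τ → Half τ) (ω : Finset τ) (n : ℕ) (x : Half τ) : ℤ :=
  ∑ k ∈ range n, (tr ω (mate ω ((g ∘ mate ω)^[k] x)) + q (mate ω ((g ∘ mate ω)^[k] x)) -
    q ((g ∘ mate ω)^[k] x))

/-- integer holonomy of an open strand -/
def zh (q : Half τ → ℤ) (g : Half τ → Half τ) (ω : Finset τ) (e : Half τ) : ℤ :=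
  zn q g ω (hl (mate ω) g e) e

/-- integer holonomy of a closed strand -/
def zl (q : Half τ → ℤ) (g : Half τ → Half τ) (ω : Finset τ) (x : Half τ) : ℤ :=
  zn q g ω (minimalPeriod (g ∘ mate ω) x) x

/-- turning of a walk -/
def tn (g : Half τ → Half τ) (ω : Finset τ) (n : ℕ) (x : Half τ) : ℤ :=
  ∑ k ∈ range n, tr ω (mate ω ((g ∘ mate ω)^[k] x))

/-- sum of the values of the half edges through which the walk leaves the tiles -/
def ln (c : Half τ → ℤ) (g : Half τ → Half τ) (ω : Finset τ) (n : ℕ) (x : Half τ) : ℤ :=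
  ∑ k ∈ range n, c (mate ω ((g ∘ mate ω)^[k] x))

variable {T : Finset τ} {g : Half τ → Half τ} {q : Half τ → ℤ} {ω : Finset τ}

/-- the phases in radians -/
def qph (q : Half τ → ℤ) (x : Half τ) : ℝ := kap * q x

theorem holn_zn (n : ℕ) (x : Half τ) :
    holn (-(Real.pi / 24)) (qph q) g ω n x = kap * zn q g ω n x := by
  unfold holn zn
  push_cast
  rw [Finset.mul_sum]
  refine Finset.sum_congr rfl fun k _ => ?_
  unfold hstep qph
  have : 2 * (-(Real.pi / 24)) = kap := by unfold kap; ring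
  rw [this]
  ring

theorem hol_zh (e : Half τ) : hol (-(Real.pi / 24)) (qph q) g ω e = kap * zh q g ω e :=
  holn_zn _ e

/-- the factor of a strand with the holonomy `N` -/
def cwt (N : ℤ) : ℂ := 2 * Complex.cos (((kap * N : ℝ)) : ℂ)

lemma cwt_neg (N : ℤ) : cwt (-N) = cwt N := by
  unfold cwt
  have : (((kap * ((-N : ℤ) : ℝ) : ℝ)) : ℂ) = -(((kap * (N : ℝ) : ℝ)) : ℂ) := by push_cast; ring
  rw [this, Complex.cos_neg]

/-- closed strands have the factor one -/
lemma cwt_four : cwt 4 = 1 := by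
  unfold cwt kap
  have : (((-(Real.pi / 12) * ((4 : ℤ) : ℝ) : ℝ)) : ℂ) = -((Real.pi / 3 : ℝ) : ℂ) := by
    push_cast; ring
  rw [this, Complex.cos_neg, ← Complex.ofReal_cos, Real.cos_pi_div_three]
  push_cast
  norm_num

lemma cwt_four' {N : ℤ} (h : N = 4 ∨ N = -4) : cwt N = 1 := by
  rcases h with rfl | rfl
  · exact cwt_four
  · rw [cwt_neg, cwt_four]

/-- the weight of a strand which encloses the charge `s` -/
def wq (s : ℤ) : ℂ := 2 * Complex.cos ((2 * s + 1 : ℤ) * (Real.pi / 6 : ℝ)) / (Real.sqrt 3 : ℝ)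

lemma sqrt3_ne : ((Real.sqrt 3 : ℝ) : ℂ) ≠ 0 := by
  have : (Real.sqrt 3 : ℝ) ≠ 0 := by positivity
  exact Complex.ofReal_ne_zero.2 this

/-- open strands -/
lemma cwt_arc (s : ℤ) : cwt (-2 - 4 * s) = (Real.sqrt 3 : ℝ) * wq s := by
  unfold cwt wq kap
  rw [mul_div_cancel₀ _ sqrt3_ne]
  congr 2
  push_cast
  ring

lemma wq_symm (s : ℤ) : wq (-1 - s) = wq s := by
  unfold wq
  have : (((2 * (-1 - s) + 1 : ℤ) : ℂ) * ((Real.pi / 6 : ℝ) : ℂ)) =
      -(((2 * s + 1 : ℤ) : ℂ) * ((Real.pi / 6 : ℝ) : ℂ)) := by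
    push_cast; ring
  rw [this, Complex.cos_neg]

lemma wq_zero : wq 0 = 1 := by
  unfold wq
  have : (((2 * 0 + 1 : ℤ) : ℂ) * ((Real.pi / 6 : ℝ) : ℂ)) = ((Real.pi / 6 : ℝ) : ℂ) := by
    push_cast; ring
  rw [this, ← Complex.ofReal_cos, Real.cos_pi_div_six]
  push_cast
  rw [mul_div_cancel₀ _ (two_ne_zero), div_self sqrt3_ne]

lemma wq_neg_one : wq (-1) = 1 := by
  have := wq_symm 0
  rw [sub_zero] at this
  rw [this, wq_zero]

/-- the weight of a configuration with integer phases -/
def czw {ι : Type*} [LinearOrder ι] (q : Half τ → ℤ) (T : Finset τ) (g : Half τ → Half τ)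
    (z : Half τ) (o : Half τ → ι) (ω : Finset τ) : ℂ :=
  (∏ e ∈ arcs T g ω (some z) o, cwt (zh q g ω e)) *
    (∏ c ∈ loops T g ω, cwt (zl q g ω (Quot.out c))) * ue (kap * zh q g ω z)

theorem cw_czw {ι : Type*} [LinearOrder ι] (z : Half τ) (o : Half τ → ι) (ω : Finset τ) :
    cw (-(Real.pi / 24)) (qph q) T g (some z) o ω = czw q T g z o ω := by
  unfold cw czw zw
  congr 1
  · congr 1
    · refine Finset.prod_congr rfl fun e _ => ?_
      rw [hol_zh]
      rfl
    · refine Finset.prod_congr rfl fun c _ => ?_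
      unfold lpw
      rw [holn_zn]
      rfl
  · show ue (hol (-(Real.pi / 24)) (qph q) g ω z) = _
    rw [hol_zh]

/-- **the network with integer phases** -/
theorem net_czw {ι : Type*} [LinearOrder ι] (hG : Glu T g) {z : Half τ} (hz : Bd T g z)
    (hq : q z = 0) {o : Half τ → ι} (ho : ∀ x, Bd T g x → ∀ y, Bd T g y → o x = o y → x = y) :
    net T g (Real.pi / 24) (phF (qph q) (some z)) =
      (1 / 2) ^ T.card * ∑ ω ∈ T.powerset, czw q T g z o ω := by
  rw [← net_neg]
  rw [net_hol hG (-(Real.pi / 24)) (qph q) (some z) ?_ ho]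
  · congr 1
    exact Finset.sum_congr rfl fun ω _ => cw_czw z o ω
  · intro x hx
    rw [← Option.some.inj hx]
    refine ⟨hz, ?_⟩
    unfold qph
    rw [hq]
    simp

/-- splitting of the holonomy of a walk -/
theorem zn_eq (n : ℕ) (x : Half τ) : zn q g ω n x =
    tn g ω n x + ln (fun y => q y - q (g y)) g ω n x + q ((g ∘ mate ω)^[n] x) - q x := by
  induction n with
  | zero => simp [zn, tn, ln]
  | succ n ih =>
    unfold zn tn ln at ih ⊢
    rw [Finset.sum_range_succ, Finset.sum_range_succ, Finset.sum_range_succ, ih,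
      iterate_succ_apply']
    rw [comp_apply]
    ring

theorem zh_eq (e : Half τ) : zh q g ω e = tn g ω (hl (mate ω) g e) e +
    ln (fun y => q y - q (g y)) g ω (hl (mate ω) g e) e + q (other (mate ω) g e) - q e :=
  zn_eq _ e

theorem zl_eq (x : Half τ) : zl q g ω x = tn g ω (minimalPeriod (g ∘ mate ω) x) x +
    ln (fun y => q y - q (g y)) g ω (minimalPeriod (g ∘ mate ω) x) x := by
  unfold zl
  rw [zn_eq, iterate_minimalPeriod]
  ring

/-- the holonomy of the reversed strand -/
theorem zh_other (hG : Glu T g) {e : Half τ} (he : Bd T g e) :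
    zh q g ω (other (mate ω) g e) = -zh q g ω e := by
  have h1 := hol_other hG (-(Real.pi / 24)) (qph q) ω he
  rw [hol_zh, hol_zh] at h1
  have hk : kap ≠ 0 := by
    unfold kap
    have := Real.pi_pos
    intro h
    linarith
  have h2 : kap * ((zh q g ω (other (mate ω) g e) : ℤ) : ℝ) = kap * ((-zh q g ω e : ℤ) : ℝ) := by
    rw [h1]
    push_cast
    ring
  exact_mod_cast mul_left_cancel₀ hk h2

end

end Full.X3
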