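import Pool.Agent.Full.X3.LabOk
import Pool.Agent.Full.Loc1.Err

/-!
# The amplitude of a domain with a closed row

`Slab.amp` is the weight of a configuration, summed over the gaps `j` of the charge `+2` of the marks and
the gaps `k` of the charge `+2` of the trio.  `amp_six`: its expectation is an amplitude of the six vertex
rows, with vectors which do not depend on `x`, `y`.
-/

set_option autoImplicit false

namespace Full
open Full.X3 Function Finset Loc1

namespace Slab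
variable (D : Slab) (W : Lab) (c : Chg)

/-- the order of the ends: `z` is the first one -/
noncomputable def oz (x y : ℤ) (w : Half ZT) : WithBot ℤ := if w = z x y then ⊥ else (W.pos w : ℤ)

/-- the number of strands which do not end in `z`, if there are `nL + nU` walls -/
def na (nL nU : ℤ) : ℕ := ((nL + nU - 1) / 2).toNat

/-- **the weight of a configuration**, summed over the two charges `+2` -/
noncomputable def amp (nL nU : ℤ) (J : Finset ℤ) (b4 x y : ℤ) (ω : Finset ZT) : ℂ :=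
  (∑ j ∈ J, ∑ k ∈ Icc c.m4 b4, czw (D.qz W c j k x y) (D.T y) (D.gc x y) (z x y) (oz W x y) ω) /
    ((Real.sqrt 3 : ℝ) : ℂ) ^ na nL nU

/-- the charge `+2` of the marks is in the lower part -/
noncomputable def Olow (j₀ b4 : ℤ) (s : SixV.Cfg (D.n + 1)) : ℂ :=
  ∑ k ∈ Icc c.m4 b4, D.vup (D.FF W c j₀ k) (D.t - 1) s

noncomputable def Ilow (J : Finset ℤ) (s : SixV.Cfg (D.n + 2)) : ℂ :=
  ∑ j ∈ J, D.vlow (D.FF W c j c.m4) (D.b + 1) s

/-- the charge `+2` of the marks is in the upper part -/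
noncomputable def Oup (J : Finset ℤ) (b4 : ℤ) (s : SixV.Cfg (D.n + 1)) : ℂ :=
  ∑ j ∈ J, ∑ k ∈ Icc c.m4 b4, D.vup (D.FF W c j k) (D.t - 1) s

noncomputable def Iup (j₀ : ℤ) (s : SixV.Cfg (D.n + 2)) : ℂ :=
  D.vlow (D.FF W c j₀ c.m4) (D.b + 1) s

variable {D W c} {nL nU a x y : ℤ}

/-- the amplitude is bilinear in the two vectors -/
lemma sixFD_sum {N : ℕ} {d : Bool → ℂ} {ι κ : Type*} (J : Finset ι) (K : Finset κ)
    (O : κ → SixV.Cfg N → ℂ) (I : ι → SixV.Cfg (N + 1) → ℂ) (x a b : ℕ) :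
    sixFD N d (fun s => ∑ k ∈ K, O k s) (fun s => ∑ j ∈ J, I j s) x a b =
      ∑ j ∈ J, ∑ k ∈ K, sixFD N d (O k) (I j) x a b := by
  unfold sixFD
  have e1 : (fun s => ∑ k ∈ K, O k s) = ∑ k ∈ K, O k := by
    funext s
    rw [Finset.sum_apply]
  have e2 : (fun s => ∑ j ∈ J, I j s) = ∑ j ∈ J, I j := by
    funext s
    rw [Finset.sum_apply]
  rw [e1, e2, Matrix.mulVec_sum, dotProduct_sum]
  refine Finset.sum_congr rfl fun j _ => ?_
  rw [sum_dotProduct]

/-- positions of the walls of the lower part are less than `P` -/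
lemma pos_low (hW : W.Ok D a nL nU) (hbt : D.b < D.t) {t : ℤ × ℤ} {d : Dir}
    (h : D.IsW (.inl t, d)) : W.pos (.inl t, d) < W.P := by
  have h1 := hW.low t d h
  have h2 := hW.P_eq
  omega

/-- the factors of the lower part do not depend on the trio -/
lemma FF_low (hW : W.Ok D a nL nU) (hbt : D.b < D.t) (hm : c.m4 < 0) {j k k' : ℤ} (hk : k < 0)
    (hk' : k' < 0) (t : ℤ × ℤ) (d : Dir) :
    D.FF W c j k (.inl t, d) = D.FF W c j k' (.inl t, d) := by
  have e : D.q0 W c j k (.inl t, d) = D.q0 W c j k' (.inl t, d) := by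
    unfold q0
    by_cases h : D.IsW (.inl t, d)
    · rw [if_pos h, if_pos h]
      have h1 := pos_low hW hbt h
      unfold Chg.tc stp
      rw [if_neg (by omega), if_neg (by omega), if_neg (by omega), if_neg (by omega)]
    · rw [if_neg h, if_neg h]
  funext b
  unfold FF qph
  rw [e]

/-- the factors of the upper part, if the charge `+2` of the marks is in the lower part -/
lemma FF_up (hW : W.Ok D a nL nU) {j j' k : ℤ} (hj : j ≤ W.P) (hj' : j' ≤ W.P)
    (t : ℤ × ℤ) (d : Dir) : D.FF W c j k (.inr t, d) = D.FF W c j' k (.inr t, d) := by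
  have hP : c.dc j W.P = c.dc j' W.P := by
    unfold Chg.dc stp
    rw [if_pos hj, if_pos hj']
  have e : D.q0 W c j k (.inr t, d) = D.q0 W c j' k (.inr t, d) := by
    unfold q0
    by_cases h : D.IsW (.inr t, d)
    · rw [if_pos h, if_pos h]
      have h1 := hW.up t d h
      unfold Chg.dc stp
      rw [if_pos (show j ≤ W.pos (.inr t, d) by omega),
        if_pos (show j' ≤ W.pos (.inr t, d) by omega)]
    · rw [if_neg h, if_neg h]
      rw [hP]
  funext b
  unfold FF qph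
  rw [e]

/-- the factors of the lower part, if the charge `+2` of the marks is in the upper part -/
lemma FF_low' (hW : W.Ok D a nL nU) (hbt : D.b < D.t) {j j' k : ℤ} (hj : W.P < j) (hj' : W.P < j')
    (t : ℤ × ℤ) (d : Dir) : D.FF W c j k (.inl t, d) = D.FF W c j' k (.inl t, d) := by
  have hP : c.dc j W.P = c.dc j' W.P := by
    unfold Chg.dc stp
    rw [if_neg (not_le.2 hj), if_neg (not_le.2 hj')]
  have e : D.q0 W c j k (.inl t, d) = D.q0 W c j' k (.inl t, d) := by
    unfold q0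
    by_cases h : D.IsW (.inl t, d)
    · rw [if_pos h, if_pos h]
      have h1 := pos_low hW hbt h
      unfold Chg.dc stp
      rw [if_neg (show ¬ j ≤ W.pos (.inl t, d) by omega),
        if_neg (show ¬ j' ≤ W.pos (.inl t, d) by omega)]
    · rw [if_neg h, if_neg h]
      rw [hP]
  funext b
  unfold FF qph
  rw [e]

lemma vlow_congr {F F' : Half ZT → Bool → ℂ} (h : ∀ t d, F (.inl t, d) = F' (.inl t, d))
    (y : ℤ) : D.vlow F y = D.vlow F' y := by
  funext s
  unfold vlow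
  refine Net.vec_congr (fun _ _ => rfl) fun w hw => ?_
  obtain ⟨t | t, d⟩ := w
  · exact h t d
  · exact absurd (Net.mem_hs.1 hw) inr_mem_lowT

lemma vup_congr {F F' : Half ZT → Bool → ℂ} (h : ∀ t d, F (.inr t, d) = F' (.inr t, d))
    (y : ℤ) : D.vup F y = D.vup F' y := by
  funext s
  unfold vup
  refine Net.vec_congr (fun _ _ => rfl) fun w hw => ?_
  obtain ⟨t | t, d⟩ := w
  · exact absurd (Net.mem_hs.1 hw) inl_mem_upT
  · exact h t d

lemma oz_inj (hG : ∀ u, Bd (D.T y) (D.gc x y) u → u ≠ z x y → D.IsW u)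
    (hW : W.Ok D a nL nU) : ∀ u, Bd (D.T y) (D.gc x y) u → ∀ v, Bd (D.T y) (D.gc x y) v →
      oz W x y u = oz W x y v → u = v := by
  intro u hu v hv h
  unfold oz at h
  by_cases h1 : u = z x y
  · by_cases h2 : v = z x y
    · rw [h1, h2]
    · rw [if_pos h1, if_neg h2] at h
      exact absurd h.symm (WithBot.coe_ne_bot)
  · by_cases h2 : v = z x y
    · rw [if_neg h1, if_pos h2] at h
      exact absurd h (WithBot.coe_ne_bot)
    · rw [if_neg h1, if_neg h2, WithBot.coe_inj] at h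
      exact hW.inj u v (hG u hu h1) (hG v hv h2) h

/-- the expectation of the amplitude as a sum of networks -/
theorem CEx_amp (hG : ∀ u, Bd (D.T y) (D.gc x y) u → u ≠ z x y → D.IsW u)
    (hW : W.Ok D a nL nU) (h1 : D.l ≤ x) (h2 : x ≤ D.r) (h3 : D.b < y) (h4 : y < D.t)
    (J : Finset ℤ) (b4 : ℤ) : CEx (D.T y) (D.amp W c nL nU J b4 x y) =
      (∑ j ∈ J, ∑ k ∈ Icc c.m4 b4, Net.net (D.T y) (D.gc x y) Net.c6 (D.bz x y (D.FF W c j k))) /
        ((Real.sqrt 3 : ℝ) : ℂ) ^ na nL nU := by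
  unfold CEx amp
  have e : ∀ j k, Net.net (D.T y) (D.gc x y) Net.c6 (D.bz x y (D.FF W c j k)) =
      (∑ ω ∈ (D.T y).powerset, czw (D.qz W c j k x y) (D.T y) (D.gc x y) (z x y) (oz W x y) ω) /
        2 ^ (D.T y).card := by
    intro j k
    rw [net_FF h1 h2 h3 h4 (oz_inj hG hW), one_div, inv_pow, div_eq_mul_inv, mul_comm]
  simp only [e]
  rw [← Finset.sum_div, Finset.sum_comm]
  simp only [← Finset.sum_div]
  rw [div_right_comm]
  congr 2
  refine Finset.sum_congr rfl fun j _ => ?_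
  rw [Finset.sum_comm]

/-- **the amplitude in the six vertex form**, `+2` of the marks in the lower part -/
theorem amp_six_low (hG : ∀ u, Bd (D.T y) (D.gc x y) u → u ≠ z x y → D.IsW u)
    (hW : W.Ok D a nL nU) (h1 : D.l ≤ x) (h2 : x ≤ D.r) (h3 : D.b < y) (h4 : y < D.t)
    {J : Finset ℤ} {b4 j₀ : ℤ} (hm : c.m4 < 0) (hb4 : b4 < 0) (hJ : ∀ j ∈ J, j ≤ W.P)
    (hj₀ : j₀ ≤ W.P) : CEx (D.T y) (D.amp W c nL nU J b4 x y) =
      sixFD (D.n + 1) (dw W c j₀) (D.Olow W c j₀ b4) (D.Ilow W c J) (x - D.l).toNat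
        (D.t - 1 - y).toNat (y - 1 - D.b).toNat / ((Real.sqrt 3 : ℝ) : ℂ) ^ na nL nU := by
  rw [CEx_amp hG hW h1 h2 h3 h4]
  congr 1
  have e : ∀ j ∈ J, ∀ k ∈ Icc c.m4 b4,
      Net.net (D.T y) (D.gc x y) Net.c6 (D.bz x y (D.FF W c j k)) =
      sixFD (D.n + 1) (dw W c j₀) (D.vup (D.FF W c j₀ k) (D.t - 1))
        (D.vlow (D.FF W c j c.m4) (D.b + 1)) (x - D.l).toNat (D.t - 1 - y).toNat
        (y - 1 - D.b).toNat := by
    intro j hj k hk
    rw [Finset.mem_Icc] at hk
    rw [net_six (tw_dw (W := W) (c := c) (j := j)) fac_FF h1 h2 h3 h4,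
      vlow_congr (FF_low hW (by omega) hm (by omega) hm) (D.b + 1),
      vup_congr (FF_up hW (hJ j hj) hj₀) (D.t - 1)]
    have hd : dw W c j = dw W c j₀ := by
      funext b
      unfold dw Chg.dc stp
      rw [if_pos (hJ j hj), if_pos hj₀]
    rw [hd]
  rw [Finset.sum_congr rfl fun j hj => Finset.sum_congr rfl fun k hk => e j hj k hk]
  unfold Olow Ilow
  rw [sixFD_sum]

/-- **the amplitude in the six vertex form**, `+2` of the marks in the upper part -/
theorem amp_six_up (hG : ∀ u, Bd (D.T y) (D.gc x y) u → u ≠ z x y → D.IsW u)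
    (hW : W.Ok D a nL nU) (h1 : D.l ≤ x) (h2 : x ≤ D.r) (h3 : D.b < y) (h4 : y < D.t)
    {J : Finset ℤ} {b4 j₀ : ℤ} (hm : c.m4 < 0) (hb4 : b4 < 0) (hJ : ∀ j ∈ J, W.P < j)
    (hj₀ : W.P < j₀) : CEx (D.T y) (D.amp W c nL nU J b4 x y) =
      sixFD (D.n + 1) (dw W c j₀) (D.Oup W c J b4) (D.Iup W c j₀) (x - D.l).toNat
        (D.t - 1 - y).toNat (y - 1 - D.b).toNat / ((Real.sqrt 3 : ℝ) : ℂ) ^ na nL nU := by
  rw [CEx_amp hG hW h1 h2 h3 h4]
  congr 1
  have e : ∀ j ∈ J, ∀ k ∈ Icc c.m4 b4,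
      Net.net (D.T y) (D.gc x y) Net.c6 (D.bz x y (D.FF W c j k)) =
      sixFD (D.n + 1) (dw W c j₀) (D.vup (D.FF W c j k) (D.t - 1))
        (D.vlow (D.FF W c j₀ c.m4) (D.b + 1)) (x - D.l).toNat (D.t - 1 - y).toNat
        (y - 1 - D.b).toNat := by
    intro j hj k hk
    rw [Finset.mem_Icc] at hk
    rw [net_six (tw_dw (W := W) (c := c) (j := j)) fac_FF h1 h2 h3 h4,
      vlow_congr (FF_low hW (by omega) hm (by omega) hm) (D.b + 1),
      vlow_congr (FF_low' hW (by omega) (hJ j hj) hj₀) (D.b + 1)]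
    have hd : dw W c j = dw W c j₀ := by
      funext b
      unfold dw Chg.dc stp
      rw [if_neg (not_le.2 (hJ j hj)), if_neg (not_le.2 hj₀)]
    rw [hd]
  rw [Finset.sum_congr rfl fun j hj => Finset.sum_congr rfl fun k hk => e j hj k hk]
  have e1 : D.Oup W c J b4 = fun s => ∑ p ∈ J ×ˢ Icc c.m4 b4,
      D.vup (D.FF W c p.1 p.2) (D.t - 1) s := by
    funext s
    unfold Oup
    rw [Finset.sum_product]
  have e2 : D.Iup W c j₀ = fun s => ∑ _i ∈ ({()} : Finset Unit), D.Iup W c j₀ s := by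
    funext s
    rw [Finset.sum_singleton]
  rw [e1, e2, sixFD_sum, Finset.sum_singleton, Finset.sum_product]
  rfl

end Slab

end Full
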