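import Pool.Agent.Full.X3.Mod

/-!
# Splitting of the weight of a configuration

`card_arcs`: the number of strands which do not end in `z`.  `czw_split`: if the weights of the open
strands are `sqrt 3` times `M` on the ends of `P` and `sqrt 3` times `C` on the other ends, and the closed
strands have the weight one, then the weight of the configuration is the product over the two parts.
-/

set_option autoImplicit false

namespace Full.X3
open Full Function Relation Finset

noncomputable section

variable {τ : Type*} [DecidableEq τ] {T : Finset τ} {g : Half τ → Half τ} {q : Half τ → ℤ}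
  {ω : Finset τ} {z : Half τ} {ι : Type*} [LinearOrder ι] {o : Half τ → ι}

lemma other_ne_z (hG : Glu T g) {e : Half τ} (he : Bd T g e)
    (h : e ≠ other (mate ω) g z) : other (mate ω) g e ≠ z := by
  intro h1
  rw [← h1, hG.other_other he] at h
  exact h rfl

/-- the ends which are not ends of the strand of `z` -/
def free (T : Finset τ) (g : Half τ → Half τ) (ω : Finset τ) (z : Half τ) : Finset (Half τ) := by
  classical
  exact (ends T g).filter fun e => e ≠ z ∧ e ≠ other (mate ω) g z

lemma mem_free {e : Half τ} : e ∈ free T g ω z ↔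
    Bd T g e ∧ e ≠ z ∧ e ≠ other (mate ω) g z := by
  unfold free
  rw [Finset.mem_filter, mem_ends]

lemma free_other (hG : Glu T g) (hz : Bd T g z) {e : Half τ} (he : e ∈ free T g ω z) :
    other (mate ω) g e ∈ free T g ω z := by
  rw [mem_free] at he ⊢
  refine ⟨hG.other_bd he.1, other_ne_z hG he.1 he.2.2, fun h => he.2.1 ?_⟩
  rw [← hG.other_other he.1, h, hG.other_other hz]

lemma mem_arcs' (hG : Glu T g) (hz : Bd T g z) {e : Half τ} :
    e ∈ arcs T g ω (some z) o ↔ e ∈ free T g ω z ∧ o e < o (other (mate ω) g e) := by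
  rw [mem_arcs, mem_free]
  constructor
  · rintro ⟨h1, h2, h3, h4⟩
    refine ⟨⟨h1, fun h => h2 (by rw [h]), fun h => h3 ?_⟩, h4⟩
    rw [h, hG.other_other hz]
  · rintro ⟨⟨h1, h2, h3⟩, h4⟩
    exact ⟨h1, fun h => h2 (Option.some.inj h).symm,
      fun h => other_ne_z hG h1 h3 (Option.some.inj h).symm, h4⟩

open Classical in
lemma arcs_eq (hG : Glu T g) (hz : Bd T g z) :
    arcs T g ω (some z) o = (free T g ω z).filter fun e => o e < o (other (mate ω) g e) := by
  ext e
  rw [mem_arcs' hG hz, Finset.mem_filter]

/-- the number of strands which do not end in `z` -/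
theorem card_arcs (hG : Glu T g) (hz : Bd T g z)
    (ho : ∀ x, Bd T g x → ∀ y, Bd T g y → o x = o y → x = y) :
    2 * (arcs T g ω (some z) o).card + 2 = (ends T g).card := by
  classical
  set A := arcs T g ω (some z) o with hA
  have hzk : other (mate ω) g z ≠ z := hG.other_ne hz
  have hsub : ({z, other (mate ω) g z} : Finset (Half τ)) ⊆ ends T g := by
    intro x hx
    rw [Finset.mem_insert, Finset.mem_singleton] at hx
    rcases hx with rfl | rfl
    · exact mem_ends.2 hz
    · exact mem_ends.2 (hG.other_bd hz)
  have h1 : (ends T g \ {z, other (mate ω) g z}).card + 2 = (ends T g).card := by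
    have := Finset.card_sdiff_add_card_eq_card hsub
    rw [Finset.card_pair hzk.symm] at this
    exact this
  have h2 : ends T g \ {z, other (mate ω) g z} = A ∪ A.image (other (mate ω) g) := by
    ext e
    rw [Finset.mem_sdiff, mem_ends, Finset.mem_insert, Finset.mem_singleton, Finset.mem_union,
      Finset.mem_image, hA, mem_arcs' hG hz, mem_free]
    constructor
    · rintro ⟨he, h3⟩
      push Not at h3
      have hf : e ∈ free T g ω z := mem_free.2 ⟨he, h3.1, h3.2⟩
      rcases lt_trichotomy (o e) (o (other (mate ω) g e)) with h4 | h4 | h4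
      · exact Or.inl ⟨⟨he, h3.1, h3.2⟩, h4⟩
      · exact absurd (ho _ he _ (hG.other_bd he) h4) (hG.other_ne he).symm
      · refine Or.inr ⟨other (mate ω) g e, ?_, hG.other_other he⟩
        rw [mem_arcs' hG hz, hG.other_other he]
        exact ⟨free_other hG hz hf, h4⟩
    · rintro (⟨⟨h3, h4, h5⟩, -⟩ | ⟨e', he', rfl⟩)
      · exact ⟨h3, by push Not; exact ⟨h4, h5⟩⟩
      · rw [mem_arcs' hG hz] at he'
        have := mem_free.1 (free_other hG hz he'.1)
        exact ⟨this.1, by push Not; exact this.2⟩
  have h3 : Disjoint A (A.image (other (mate ω) g)) := by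
    rw [Finset.disjoint_left]
    intro e he he'
    rw [Finset.mem_image] at he'
    obtain ⟨e', h4, h5⟩ := he'
    rw [hA, mem_arcs' hG hz] at he h4
    have h6 := (mem_free.1 h4.1).1
    rw [← h5, hG.other_other h6] at he
    exact lt_asymm he.2 h4.2
  have h4 : (A.image (other (mate ω) g)).card = A.card := by
    refine Finset.card_image_of_injOn fun x hx y hy hxy => ?_
    have hx' := (mem_free.1 ((mem_arcs' hG hz).1 (Finset.mem_coe.1 hx)).1).1
    have hy' := (mem_free.1 ((mem_arcs' hG hz).1 (Finset.mem_coe.1 hy)).1).1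
    have := congrArg (other (mate ω) g) hxy
    rwa [hG.other_other hx', hG.other_other hy'] at this
  rw [h2, Finset.card_union_of_disjoint h3, h4] at h1
  omega

/-- **splitting of the weight of a configuration** -/
theorem czw_split (hG : Glu T g) (hz : Bd T g z)
    (P : Half τ → Prop) [DecidablePred P] (M C : Half τ → ℂ)
    (hM : ∀ e ∈ free T g ω z, P e → o e < o (other (mate ω) g e) →
      cwt (zh q g ω e) = (Real.sqrt 3 : ℝ) * M e)
    (hC : ∀ e ∈ free T g ω z, ¬ P e → o e < o (other (mate ω) g e) →
      cwt (zh q g ω e) = (Real.sqrt 3 : ℝ) * C e)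
    (hL : ∀ c ∈ loops T g ω, cwt (zl q g ω (Quot.out c)) = 1) :
    czw q T g z o ω = ((Real.sqrt 3 : ℝ) : ℂ) ^ (arcs T g ω (some z) o).card *
      ((∏ e ∈ (free T g ω z).filter (fun e => P e ∧ o e < o (other (mate ω) g e)), M e) *
        ue (kap * zh q g ω z)) *
      ∏ e ∈ (free T g ω z).filter (fun e => ¬ P e ∧ o e < o (other (mate ω) g e)), C e := by
  classical
  unfold czw
  rw [Finset.prod_eq_one hL, mul_one, ← Finset.prod_filter_mul_prod_filter_not _ P]
  have e1 : (arcs T g ω (some z) o).filter P =
      (free T g ω z).filter (fun e => P e ∧ o e < o (other (mate ω) g e)) := by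
    ext e
    rw [Finset.mem_filter, mem_arcs' hG hz, Finset.mem_filter]
    tauto
  have e2 : (arcs T g ω (some z) o).filter (fun e => ¬ P e) =
      (free T g ω z).filter (fun e => ¬ P e ∧ o e < o (other (mate ω) g e)) := by
    ext e
    rw [Finset.mem_filter, mem_arcs' hG hz, Finset.mem_filter]
    tauto
  have e3 : (arcs T g ω (some z) o).card =
      ((arcs T g ω (some z) o).filter P).card + ((arcs T g ω (some z) o).filter fun e => ¬ P e).card :=
    (Finset.card_filter_add_card_filter_not P).symm
  rw [e3, e1, e2, pow_add]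
  have f1 : ∏ e ∈ (free T g ω z).filter (fun e => P e ∧ o e < o (other (mate ω) g e)),
      cwt (zh q g ω e) = ((Real.sqrt 3 : ℝ) : ℂ) ^
        ((free T g ω z).filter (fun e => P e ∧ o e < o (other (mate ω) g e))).card *
        ∏ e ∈ (free T g ω z).filter (fun e => P e ∧ o e < o (other (mate ω) g e)), M e := by
    rw [← Finset.prod_const, ← Finset.prod_mul_distrib]
    refine Finset.prod_congr rfl fun e he => ?_
    rw [Finset.mem_filter] at he
    exact hM e he.1 he.2.1 he.2.2
  have f2 : ∏ e ∈ (free T g ω z).filter (fun e => ¬ P e ∧ o e < o (other (mate ω) g e)),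
      cwt (zh q g ω e) = ((Real.sqrt 3 : ℝ) : ℂ) ^
        ((free T g ω z).filter (fun e => ¬ P e ∧ o e < o (other (mate ω) g e))).card *
        ∏ e ∈ (free T g ω z).filter (fun e => ¬ P e ∧ o e < o (other (mate ω) g e)), C e := by
    rw [← Finset.prod_const, ← Finset.prod_mul_distrib]
    refine Finset.prod_congr rfl fun e he => ?_
    rw [Finset.mem_filter] at he
    exact hC e he.1 he.2.1 he.2.2
  rw [f1, f2]
  ring

end

end Full.X3
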