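import Pool.Agent.Full.X3.RectLaw
import Pool.Agent.Full.X3.Split
import Pool.Agent.Full.LemX.Trio
import Pool.Agent.Full.Loc1.Channel

/-!
# The corridor part

`Cor T g ω φ c d b t S` : a channel of the region `(T, g)` with the chart `φ` and a potential `S` which is
constant along the strands of `ω` and is different from `0` outside of the channel and at its two ends.
The strands with the potential `0` are strands of the rectangle `box c d b t`.
`Phs φ c d b t q θ k m j` : the phases `q` in the channel: gauge `θ`, the value `k` on the floor, and the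
value `k - 2 + 4 chl m j i` at the column `i` of the ceiling (charge `-1` at the gap `m`, charge `2` at the
gap `j`).
* `Cor.loop` : closed strands have the factor `1`;
* `Cor.trio` : the sum over `j` of the product of the factors of the open strands of the corridor is `1`.
-/

set_option autoImplicit false

namespace Full.X3
open Full Function Relation Finset Loc1

noncomputable section

/-! ### transport of holonomies -/

section trans
variable {τ σ : Type*} [DecidableEq τ] [DecidableEq σ] {ω : Finset τ} {ω' : Finset σ}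
  {g : Half τ → Half τ} {g' : Half σ → Half σ} {Φ : Half σ → Half τ} {S : Set (Half σ)}

theorem Tr.zn_eq (h : Tr (mate ω) g (mate ω') g' Φ S) (ht : ∀ x ∈ S, tr ω (Φ x) = tr ω' x)
    (q : Half τ → ℤ) {x : Half σ} (hx : x ∈ S) (n : ℕ) :
    zn q g ω n (Φ x) = zn (q ∘ Φ) g' ω' n x := by
  unfold zn
  refine Finset.sum_congr rfl fun k _ => ?_
  rw [h.miter hx, h.iter hx, ht _ (h.ms _ (h.iter_mem hx k))]
  rfl

theorem Tr.zh_eq (h : Tr (mate ω) g (mate ω') g' Φ S) (ht : ∀ x ∈ S, tr ω (Φ x) = tr ω' x)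
    (q : Half τ → ℤ) {x : Half σ} (hx : x ∈ S) :
    zh q g ω (Φ x) = zh (q ∘ Φ) g' ω' x := by
  unfold zh
  rw [h.hl_eq hx, h.zn_eq ht q hx]

theorem Tr.zl_eq (h : Tr (mate ω) g (mate ω') g' Φ S) (ht : ∀ x ∈ S, tr ω (Φ x) = tr ω' x)
    (q : Half τ → ℤ) {x : Half σ} (hx : x ∈ S) :
    zl q g ω (Φ x) = zl (q ∘ Φ) g' ω' x := by
  unfold zl
  rw [h.period hx, h.zn_eq ht q hx]

/-- links which are differences of a gauge -/
theorem ln_gauge {q : Half σ → ℤ} {θ : σ → ℤ} (hm : ∀ x ∈ S, mate ω' x ∈ S) (hg : ∀ x ∈ S, g' x ∈ S)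
    (hθ : ∀ x ∈ S, q x - q (g' x) = θ (g' x).1 - θ x.1) {x : Half σ} (hx : x ∈ S) (n : ℕ) :
    (g' ∘ mate ω')^[n] x ∈ S ∧
      ln (fun y => q y - q (g' y)) g' ω' n x = θ ((g' ∘ mate ω')^[n] x).1 - θ x.1 := by
  induction n with
  | zero => exact ⟨hx, by simp [ln]⟩
  | succ n ih =>
    obtain ⟨h1, h2⟩ := ih
    have h3 := hm _ h1
    rw [iterate_succ_apply']
    refine ⟨hg _ h3, ?_⟩
    unfold ln at h2 ⊢
    have h4 := hθ _ h3
    rw [mate_fst] at h4
    rw [Finset.sum_range_succ, h2]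
    show _ + (q _ - q _) = _
    rw [h4]
    show _ = θ (g' (mate ω' _)).1 - _
    ring

end trans

/-! ### corridors -/

section cor
variable {τ : Type*} [DecidableEq τ]

/-- a channel and a potential which is `0` only inside of the channel -/
structure Cor (T : Finset τ) (g : Half τ → Half τ) (ω : Finset τ) (φ : ℤ × ℤ → τ) (c d b t : ℤ)
    (S : Half τ → ZMod 2) : Prop where
  ch : Channel T g φ c d b t
  mt : ∀ x, S (mate ω x) = S x
  gs : ∀ x, S (g x) = S x
  cor : ∀ x, S x = 0 → ∃ i j v, c ≤ i ∧ i < d ∧ b ≤ j ∧ j < t ∧ x = (φ (i, j), v)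
  west : ∀ j, b ≤ j → j < t → S (φ (c, j), .W) = 1
  east : ∀ j, b ≤ j → j < t → S (φ (d - 1, j), .E) = 1
  bt : b < t

/-- the phases in the corridor -/
structure Phs (φ : ℤ × ℤ → τ) (c d b t : ℤ) (q : Half τ → ℤ) (θ : ℤ × ℤ → ℤ) (k m j : ℤ) : Prop where
  hor : ∀ i l, c ≤ i → i + 1 < d → b ≤ l → l < t →
    q (φ (i, l), .E) - q (φ (i + 1, l), .W) = θ (i + 1, l) - θ (i, l)
  ver : ∀ i l, c ≤ i → i < d → b ≤ l → l + 1 < t →
    q (φ (i, l), .N) - q (φ (i, l + 1), .S) = θ (i, l + 1) - θ (i, l)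
  floor : ∀ i, c ≤ i → i < d → q (φ (i, b), .S) + θ (i, b) = k
  ceil : ∀ i, c ≤ i → i < d → q (φ (i, t - 1), .N) + θ (i, t - 1) = k - 2 + 4 * LemX.chl m j i

/-- the chart of the half edges -/
def hph (φ : ℤ × ℤ → τ) (x : Half (ℤ × ℤ)) : Half τ := (φ x.1, x.2)

/-- the half edges of the rectangle with the potential `0` -/
def S0 (φ : ℤ × ℤ → τ) (c d b t : ℤ) (S : Half τ → ZMod 2) : Set (Half (ℤ × ℤ)) :=
  {x | x.1 ∈ box c d b t ∧ S (hph φ x) = 0}

/-- the configuration in the chart -/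
def pr (φ : ℤ × ℤ → τ) (c d b t : ℤ) (ω : Finset τ) : Finset (ℤ × ℤ) :=
  (box c d b t).filter fun p => φ p ∈ ω

variable {T : Finset τ} {g : Half τ → Half τ} {ω : Finset τ} {φ : ℤ × ℤ → τ} {c d b t : ℤ}
  {S : Half τ → ZMod 2}

lemma pr_sub : pr φ c d b t ω ⊆ box c d b t := Finset.filter_subset _ _

lemma mem_pr {p : ℤ × ℤ} (hp : p ∈ box c d b t) : p ∈ pr φ c d b t ω ↔ φ p ∈ ω := by
  unfold pr
  rw [Finset.mem_filter]
  exact ⟨fun h => h.2, fun h => ⟨hp, h⟩⟩

lemma hph_mate {x : Half (ℤ × ℤ)} (hx : x.1 ∈ box c d b t) :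
    mate ω (hph φ x) = hph φ (mate (pr φ c d b t ω) x) := by
  unfold mate hph
  simp only [mem_pr hx]

lemma hph_tr {x : Half (ℤ × ℤ)} (hx : x.1 ∈ box c d b t) :
    tr ω (hph φ x) = tr (pr φ c d b t ω) x := by
  unfold tr hph
  simp only [mem_pr hx]

lemma z2_cases (a : ZMod 2) : a = 0 ∨ a = 1 := by
  revert a
  decide

namespace Cor
variable (h : Cor T g ω φ c d b t S)
include h

/-- the gluing in the chart -/
theorem glue_eq (hG : Glu T g) {x : Half (ℤ × ℤ)} (hx : x ∈ S0 φ c d b t S) :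
    g (hph φ x) = hph φ (plane.glue (box c d b t) x) := by
  obtain ⟨⟨i, j⟩, v⟩ := x
  obtain ⟨h1, h2⟩ := hx
  rw [mem_box] at h1
  rw [plane_glue]
  cases v with
  | E =>
    by_cases h3 : i + 1 < d
    · rw [if_pos ⟨mem_box.2 h1, mem_box.2 (by simp only [Dir.vec]; omega)⟩]
      have := h.ch.east i j h1.1.1 h3 h1.2.1 h1.2.2
      unfold hph
      simp only [Dir.vec, Prod.mk_add_mk, Dir.opp]
      rw [this, add_zero]
    · exfalso
      have e : i = d - 1 := by omega
      subst e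
      have := h.east j h1.2.1 h1.2.2
      unfold hph at h2
      rw [h2] at this
      exact zero_ne_one this
  | W =>
    by_cases h3 : c < i
    · rw [if_pos ⟨mem_box.2 h1, mem_box.2 (by simp only [Dir.vec]; omega)⟩]
      have := h.ch.west hG h3 h1.1.2 h1.2.1 h1.2.2
      unfold hph
      simp only [Dir.vec, Prod.mk_add_mk, Dir.opp]
      rw [this, ← sub_eq_add_neg, add_zero]
    · exfalso
      have e : i = c := by omega
      subst e
      have := h.west j h1.2.1 h1.2.2
      unfold hph at h2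
      rw [h2] at this
      exact zero_ne_one this
  | N =>
    by_cases h3 : j + 1 < t
    · rw [if_pos ⟨mem_box.2 h1, mem_box.2 (by simp only [Dir.vec]; omega)⟩]
      have := h.ch.north i j h1.1.1 h1.1.2 h1.2.1 h3
      unfold hph
      simp only [Dir.vec, Prod.mk_add_mk, Dir.opp]
      rw [this, add_zero]
    · have e : j = t - 1 := by omega
      subst e
      rw [if_neg]
      · exact h.ch.ceil i h1.1.1 h1.1.2
      · rintro ⟨-, h4⟩
        simp only [Dir.vec, Prod.mk_add_mk, mem_box] at h4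
        omega
  | S =>
    by_cases h3 : b < j
    · rw [if_pos ⟨mem_box.2 h1, mem_box.2 (by simp only [Dir.vec]; omega)⟩]
      have := h.ch.south hG h1.1.1 h1.1.2 h3 h1.2.2
      unfold hph
      simp only [Dir.vec, Prod.mk_add_mk, Dir.opp]
      rw [this, ← sub_eq_add_neg, add_zero]
    · have e : j = b := by omega
      subst e
      rw [if_neg]
      · exact h.ch.floor i h1.1.1 h1.1.2
      · rintro ⟨-, h4⟩
        simp only [Dir.vec, Prod.mk_add_mk, mem_box] at h4
        omega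

/-- the transport to the rectangle -/
theorem trans (hG : Glu T g) : Tr (mate ω) g (mate (pr φ c d b t ω)) (plane.glue (box c d b t))
    (hph φ) (S0 φ c d b t S) where
  inj := by
    rintro ⟨⟨i, j⟩, v⟩ hx ⟨⟨i', j'⟩, v'⟩ hy hxy
    have h1 := mem_box.1 hx.1
    have h2 := mem_box.1 hy.1
    obtain ⟨h3, h4⟩ := Prod.mk.inj (show (φ (i, j), v) = (φ (i', j'), v') from hxy)
    obtain ⟨rfl, rfl⟩ := h.ch.inj i j i' j' h1.1.1 h1.1.2 h1.2.1 h1.2.2 h2.1.1 h2.1.2 h2.2.1
      h2.2.2 h3
    rw [h4]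
  ms x hx := by
    refine ⟨hx.1, ?_⟩
    rw [← hph_mate hx.1, h.mt]
    exact hx.2
  gs x hx := by
    refine ⟨(plane.glu _).mem x hx.1, ?_⟩
    rw [← h.glue_eq hG hx, h.gs]
    exact hx.2
  hm x hx := hph_mate hx.1
  hg x hx := h.glue_eq hG hx

/-- every half edge with the potential `0` is in the rectangle -/
theorem exists_S0 {x : Half τ} (hx : S x = 0) : ∃ y ∈ S0 φ c d b t S, x = hph φ y := by
  obtain ⟨i, j, v, h1, h2, h3, h4, rfl⟩ := h.cor x hx
  exact ⟨((i, j), v), ⟨mem_box.2 ⟨⟨h1, h2⟩, h3, h4⟩, hx⟩, rfl⟩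

/-- the ends of the corridor -/
theorem end_cases {y : Half (ℤ × ℤ)} (hy : y ∈ S0 φ c d b t S)
    (hb : Bd (box c d b t) (plane.glue (box c d b t)) y) :
    (∃ i, c ≤ i ∧ i < d ∧ y = ((i, b), .S)) ∨ ∃ i, c ≤ i ∧ i < d ∧ y = ((i, t - 1), .N) := by
  obtain ⟨⟨i, j⟩, v⟩ := y
  obtain ⟨h1, h2⟩ := hy
  rw [mem_box] at h1
  rw [Shp.bd_plane] at hb
  cases v with
  | E =>
    exfalso
    have e : i = d - 1 := by
      by_contra h5
      refine hb.2 (mem_box.2 ?_)
      simp only [Dir.vec]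
      omega
    subst e
    have := h.east j h1.2.1 h1.2.2
    unfold hph at h2
    rw [h2] at this
    exact zero_ne_one this
  | W =>
    exfalso
    have e : i = c := by
      by_contra h5
      refine hb.2 (mem_box.2 ?_)
      simp only [Dir.vec]
      omega
    subst e
    have := h.west j h1.2.1 h1.2.2
    unfold hph at h2
    rw [h2] at this
    exact zero_ne_one this
  | N =>
    right
    have e : j = t - 1 := by
      by_contra h5
      refine hb.2 (mem_box.2 ?_)
      simp only [Dir.vec]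
      omega
    subst e
    exact ⟨i, h1.1.1, h1.1.2, rfl⟩
  | S =>
    left
    have e : j = b := by
      by_contra h5
      refine hb.2 (mem_box.2 ?_)
      simp only [Dir.vec]
      omega
    subst e
    exact ⟨i, h1.1.1, h1.1.2, rfl⟩

theorem S_other (x : Half τ) : S (other (mate ω) g x) = S x := by
  have key : ∀ n, S ((g ∘ mate ω)^[n] x) = S x := by
    intro n
    induction n with
    | zero => rfl
    | succ n ih =>
      rw [iterate_succ_apply', comp_apply, h.gs, h.mt, ih]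
  exact key _

/-- the ends of the strands of the corridor -/
theorem exists_end (hG : Glu T g) {e : Half τ} (he : Bd T g e) (hS : S e = 0) :
    ∃ y ∈ S0 φ c d b t S, Bd (box c d b t) (plane.glue (box c d b t)) y ∧ e = hph φ y ∧
      other (mate ω) g e =
        hph φ (other (mate (pr φ c d b t ω)) (plane.glue (box c d b t)) y) ∧
      other (mate (pr φ c d b t ω)) (plane.glue (box c d b t)) y ∈ S0 φ c d b t S := by
  obtain ⟨y, hy, rfl⟩ := h.exists_S0 hS
  have hT := h.trans hG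
  exact ⟨y, hy, ⟨hy.1, (hT.fix_iff hy).1 he.2⟩, rfl, hT.other_eq hy, hT.other_mem hy⟩

/-- closed strands of the corridor turn by four -/
theorem closed (hG : Glu T g) {x : Half τ} (hS : S x = 0)
    (hc : ∀ y, Conn (mate ω) g x y → g y ≠ y) :
    tn g ω (minimalPeriod (g ∘ mate ω) x) x = 4 ∨
      tn g ω (minimalPeriod (g ∘ mate ω) x) x = -4 := by
  obtain ⟨y, hy, rfl⟩ := h.exists_S0 hS
  have hT := h.trans hG
  have e1 : tn g ω (minimalPeriod (g ∘ mate ω) (hph φ y)) (hph φ y) =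
      tn (plane.glue (box c d b t)) (pr φ c d b t ω)
        (minimalPeriod (plane.glue (box c d b t) ∘ mate (pr φ c d b t ω)) y) y := by
    rw [hT.period hy]
    unfold tn
    refine Finset.sum_congr rfl fun k _ => ?_
    rw [hT.miter hy, hph_tr (hT.ms _ (hT.iter_mem hy k)).1]
  rw [e1]
  refine rect_closed pr_sub hy.1 fun w hw hfix => ?_
  have hwS : w ∈ S0 φ c d b t S := by
    have key : ∀ w, Conn (mate (pr φ c d b t ω)) (plane.glue (box c d b t)) y w →
        w ∈ S0 φ c d b t S := by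
      intro w hw
      induction hw with
      | refl => exact hy
      | tail _ h2 ih =>
        rcases h2 with rfl | rfl
        · exact hT.ms _ ih
        · exact hT.gs _ ih
    exact key w hw
  exact hc _ ((hT.conn_iff hy hwS).2 hw) ((hT.fix_iff hwS).2 hfix)

variable {q : Half τ → ℤ} {θ : ℤ × ℤ → ℤ} {k m j : ℤ}

/-- the links of the corridor -/
theorem gauge (hq : Phs φ c d b t q θ k m j) {y : Half (ℤ × ℤ)}
    (hy : y ∈ S0 φ c d b t S) :
    (q ∘ hph φ) y - (q ∘ hph φ) (plane.glue (box c d b t) y) =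
      θ (plane.glue (box c d b t) y).1 - θ y.1 := by
  obtain ⟨⟨i, l⟩, v⟩ := y
  have hy' := hy
  obtain ⟨h1, h2⟩ := hy'
  rw [mem_box] at h1
  rw [plane_glue]
  cases v with
  | E =>
    by_cases h3 : i + 1 < d
    · rw [if_pos ⟨mem_box.2 h1, mem_box.2 (by simp only [Dir.vec]; omega)⟩]
      have := hq.hor i l h1.1.1 h3 h1.2.1 h1.2.2
      simp only [Dir.vec, Prod.mk_add_mk, Dir.opp, comp_apply, hph, add_zero]
      exact this
    · exfalso
      have e : i = d - 1 := by omega
      subst e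
      have := h.east l h1.2.1 h1.2.2
      unfold hph at h2
      rw [h2] at this
      exact zero_ne_one this
  | W =>
    by_cases h3 : c < i
    · rw [if_pos ⟨mem_box.2 h1, mem_box.2 (by simp only [Dir.vec]; omega)⟩]
      have := hq.hor (i - 1) l (by omega) (by omega) h1.2.1 h1.2.2
      simp only [Dir.vec, Prod.mk_add_mk, Dir.opp, comp_apply, hph, add_zero, ← sub_eq_add_neg]
      rw [sub_add_cancel] at this
      linarith
    · exfalso
      have e : i = c := by omega
      subst e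
      have := h.west l h1.2.1 h1.2.2
      unfold hph at h2
      rw [h2] at this
      exact zero_ne_one this
  | N =>
    by_cases h3 : l + 1 < t
    · rw [if_pos ⟨mem_box.2 h1, mem_box.2 (by simp only [Dir.vec]; omega)⟩]
      have := hq.ver i l h1.1.1 h1.1.2 h1.2.1 h3
      simp only [Dir.vec, Prod.mk_add_mk, Dir.opp, comp_apply, hph, add_zero]
      exact this
    · rw [if_neg]
      · rw [sub_self, sub_self]
      · rintro ⟨-, h4⟩
        simp only [Dir.vec, Prod.mk_add_mk, mem_box] at h4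
        omega
  | S =>
    by_cases h3 : b < l
    · rw [if_pos ⟨mem_box.2 h1, mem_box.2 (by simp only [Dir.vec]; omega)⟩]
      have := hq.ver i (l - 1) h1.1.1 h1.1.2 (by omega) (by omega)
      simp only [Dir.vec, Prod.mk_add_mk, Dir.opp, comp_apply, hph, add_zero, ← sub_eq_add_neg]
      rw [sub_add_cancel] at this
      linarith
    · rw [if_neg]
      · rw [sub_self, sub_self]
      · rintro ⟨-, h4⟩
        simp only [Dir.vec, Prod.mk_add_mk, mem_box] at h4
        omega

/-- **closed strands of the corridor have the factor one** -/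
theorem loop (hG : Glu T g) (hq : Phs φ c d b t q θ k m j) {x : Half τ} (hS : S x = 0)
    (hc : ∀ y, Conn (mate ω) g x y → g y ≠ y) : cwt (zl q g ω x) = 1 := by
  refine cwt_four' ?_
  have h1 := h.closed hG hS hc
  rw [zl_eq]
  obtain ⟨y, hy, rfl⟩ := h.exists_S0 hS
  have hT := h.trans hG
  have e1 : ln (fun y => q y - q (g y)) g ω (minimalPeriod (g ∘ mate ω) (hph φ y)) (hph φ y) =
      ln (fun y => (q ∘ hph φ) y - (q ∘ hph φ) (plane.glue (box c d b t) y))
        (plane.glue (box c d b t)) (pr φ c d b t ω)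
        (minimalPeriod (plane.glue (box c d b t) ∘ mate (pr φ c d b t ω)) y) y := by
    rw [hT.period hy]
    unfold ln
    refine Finset.sum_congr rfl fun k _ => ?_
    rw [hT.miter hy]
    show q _ - q _ = q _ - q _
    rw [hT.hg _ (hT.ms _ (hT.iter_mem hy k))]
  rw [e1, (ln_gauge (q := q ∘ hph φ) (θ := θ) hT.ms hT.gs (fun x hx => h.gauge hq hx) hy _).2,
    iterate_minimalPeriod, sub_self, add_zero]
  exact h1

/-- the holonomy of a strand of the corridor -/
theorem zh_lt (hG : Glu T g) (hq : Phs φ c d b t q θ k m j) {y : Half (ℤ × ℤ)}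
    (hy : y ∈ S0 φ c d b t S) (hb : Bd (box c d b t) (plane.glue (box c d b t)) y)
    (hlt : ps c d b t y <
      ps c d b t (other (mate (pr φ c d b t ω)) (plane.glue (box c d b t)) y)) :
    zh q g ω (hph φ y) =
      (other (mate (pr φ c d b t ω)) (plane.glue (box c d b t)) y).2.num - y.2.num - 2 +
      ((q (hph φ (other (mate (pr φ c d b t ω)) (plane.glue (box c d b t)) y)) +
        θ (other (mate (pr φ c d b t ω)) (plane.glue (box c d b t)) y).1) -
        (q (hph φ y) + θ y.1)) := by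
  have hT := h.trans hG
  rw [hT.zh_eq (fun x hx => hph_tr hx.1) q hy, Full.X3.zh_eq, rect_turn _ hb hlt,
    (ln_gauge (q := q ∘ hph φ) (θ := θ) hT.ms hT.gs (fun x hx => h.gauge hq hx) hy _).2]
  show _ + (θ (other _ _ y).1 - _) + q (hph φ _) - q (hph φ y) = _
  ring

/-- the phases of the ends of the corridor -/
theorem end_phase (hq : Phs φ c d b t q θ k m j) {y : Half (ℤ × ℤ)} (hy : y ∈ S0 φ c d b t S)
    (hb : Bd (box c d b t) (plane.glue (box c d b t)) y) :
    (y.2 = .S ∧ q (hph φ y) + θ y.1 = k ∧ 0 ≤ ps c d b t y ∧ ps c d b t y < d - c) ∨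
    (y.2 = .N ∧ q (hph φ y) + θ y.1 = k - 2 + 4 * LemX.chl m j y.1.1 ∧
      ps c d b t y = (d - c) + (t - b) + (d - 1 - y.1.1) ∧ c ≤ y.1.1 ∧ y.1.1 < d) := by
  rcases h.end_cases hy hb with ⟨i, h1, h2, rfl⟩ | ⟨i, h1, h2, rfl⟩
  · left
    refine ⟨rfl, hq.floor i h1 h2, ?_, ?_⟩
    · show 0 ≤ i - c
      omega
    · show i - c < d - c
      omega
  · right
    exact ⟨rfl, hq.ceil i h1 h2, rfl, h1, h2⟩

/-- the factors of the open strands of the corridor -/
theorem factor (hG : Glu T g) (hq : Phs φ c d b t q θ k m j) (hmj : m ≤ j) {y : Half (ℤ × ℤ)}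
    (hy : y ∈ S0 φ c d b t S) (hb : Bd (box c d b t) (plane.glue (box c d b t)) y) :
    let y' := other (mate (pr φ c d b t ω)) (plane.glue (box c d b t)) y
    (y.2 = .N → y'.2 = .N → y.1.1 < y'.1.1 →
      cwt (zh q g ω (hph φ y)) = (Real.sqrt 3 : ℝ) * LemX.aw ℂ m j y.1.1 y'.1.1) ∧
    (y.2 = .N → y'.2 = .S →
      cwt (zh q g ω (hph φ y)) = (Real.sqrt 3 : ℝ) * LemX.tw ℂ m j y.1.1) ∧
    (y.2 = .S → y'.2 = .S → cwt (zh q g ω (hph φ y)) = (Real.sqrt 3 : ℝ)) := by
  intro y'
  have hT := h.trans hG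
  have hGb : Glu (box c d b t) (plane.glue (box c d b t)) := plane.glu _
  have hy' : y' ∈ S0 φ c d b t S := hT.other_mem hy
  have hb' : Bd (box c d b t) (plane.glue (box c d b t)) y' := hGb.other_bd hb
  have hoo : other (mate (pr φ c d b t ω)) (plane.glue (box c d b t)) y' = y :=
    hGb.other_other hb
  have hbτ : Bd T g (hph φ y) :=
    ⟨h.ch.mem _ _ (mem_box.1 hy.1).1.1 (mem_box.1 hy.1).1.2 (mem_box.1 hy.1).2.1
      (mem_box.1 hy.1).2.2, (hT.fix_iff hy).2 hb.2⟩
  have hot : other (mate ω) g (hph φ y) = hph φ y' := hT.other_eq hy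
  have hrev : zh q g ω (hph φ y') = -zh q g ω (hph φ y) := by
    rw [← hot]
    exact zh_other hG hbτ
  have f := h.zh_lt hG hq hy hb
  have f' := h.zh_lt hG hq hy' hb'
  rw [hoo] at f'
  have hne : y' ≠ y := hGb.other_ne hb
  have p := h.end_phase hq hy hb
  have p' := h.end_phase hq hy' hb'
  have hW : LemX.Wt wq := LemX.wt_cos
  refine ⟨fun e e' hlt => ?_, fun e e' => ?_, fun e e' => ?_⟩
  · rcases p with p | p
    · rw [p.1] at e; exact absurd e (by decide)
    rcases p' with p' | p'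
    · rw [p'.1] at e'; exact absurd e' (by decide)
    have g1 := f' (by rw [p.2.2.1, p'.2.2.1]; omega)
    rw [e, e', p.2.1, p'.2.1] at g1
    have g2 : zh q g ω (hph φ y') = -2 - 4 * LemX.chg m j y.1.1 y'.1.1 := by
      rw [g1]
      simp only [Dir.num]
      unfold LemX.chl LemX.chg
      split_ifs <;> omega
    rw [← cwt_neg, ← hrev, g2, cwt_arc, hW.aw]
  · rcases p with p | p
    · rw [p.1] at e; exact absurd e (by decide)
    rcases p' with p' | p'
    swap
    · rw [p'.1] at e'; exact absurd e' (by decide)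
    have hbt := h.bt
    have g1 := f' (by rw [p.2.2.1]; omega)
    rw [e, e', p.2.1, p'.2.1] at g1
    have g2 : zh q g ω (hph φ y') = -2 - 4 * (-LemX.chl m j y.1.1) := by
      rw [g1]
      simp only [Dir.num]
      ring
    rw [← cwt_neg, ← hrev, g2, cwt_arc, hW.tw' hmj]
  · rcases p with p | p
    swap
    · rw [p.1] at e; exact absurd e (by decide)
    rcases p' with p' | p'
    swap
    · rw [p'.1] at e'; exact absurd e' (by decide)
    have h0 : cwt (-2) = (Real.sqrt 3 : ℝ) := by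
      have := cwt_arc 0
      rw [mul_zero, sub_zero, wq_zero, mul_one] at this
      exact this
    rcases lt_trichotomy (ps c d b t y) (ps c d b t y') with hlt | hlt | hlt
    · have g1 := f hlt
      rw [e, e', p.2.1, p'.2.1] at g1
      rw [g1]
      simp only [Dir.num]
      norm_num
      exact h0
    · exact absurd ((lab_box c d b t).inj _ _ hb hb' hlt).symm hne
    · have g1 := f' hlt
      rw [e, e', p.2.1, p'.2.1] at g1
      rw [← cwt_neg, ← hrev, g1]
      simp only [Dir.num]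
      norm_num
      exact h0

omit [DecidableEq τ] h in
lemma not_N {x : Half τ} {y : Half (ℤ × ℤ)} {p : ℤ × ℤ} (h1 : x.2 = Dir.N) (h2 : x.2 = y.2)
    (h3 : y = (p, Dir.S)) : False := by
  rw [h2, h3] at h1
  exact absurd h1 (show ¬ Dir.S = Dir.N by decide)

/-- the column of an end of the corridor -/
def col (φ : ℤ × ℤ → τ) (c d b t : ℤ) (S : Half τ → ZMod 2) (e : Half τ) : ℤ :=
  haveI : Nonempty (Half (ℤ × ℤ)) := ⟨((0, 0), Dir.N)⟩
  (Function.invFunOn (hph φ) (S0 φ c d b t S) e).1.1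

lemma col_hph (hG : Glu T g) {y : Half (ℤ × ℤ)} (hy : y ∈ S0 φ c d b t S) :
    col φ c d b t S (hph φ y) = y.1.1 := by
  haveI : Nonempty (Half (ℤ × ℤ)) := ⟨((0, 0), Dir.N)⟩
  have := (h.trans hG).inj.leftInvOn_invFunOn hy
  unfold col
  rw [this]

open Classical in
/-- the ends of the strands of the corridor -/
def cEnds (T : Finset τ) (g : Half τ → Half τ) (S : Half τ → ZMod 2) : Finset (Half τ) :=
  (ends T g).filter fun e => S e = 0

omit h in
lemma mem_cEnds {e : Half τ} : e ∈ cEnds T g S ↔ Bd T g e ∧ S e = 0 := by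
  unfold cEnds
  rw [Finset.mem_filter, mem_ends]

/-- the pattern of the corridor -/
theorem pattern (hG : Glu T g) (hcd : c < d) : LemX.Ends (cEnds T g S) (other (mate ω) g)
    (fun e => e.2 = Dir.N) (col φ c d b t S) where
  mem e he := by
    rw [mem_cEnds] at he ⊢
    exact ⟨hG.other_bd he.1, by rw [h.S_other]; exact he.2⟩
  inv e he := hG.other_other (mem_cEnds.1 he).1
  ne e he := hG.other_ne (mem_cEnds.1 he).1
  inj e he e' he' h1 h2 h3 := by
    rw [mem_cEnds] at he he'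
    obtain ⟨y, hy, hb, rfl, -, -⟩ := h.exists_end hG he.1 he.2
    obtain ⟨y', hy', hb', rfl, -, -⟩ := h.exists_end hG he'.1 he'.2
    rw [h.col_hph hG hy, h.col_hph hG hy'] at h3
    rcases h.end_cases hy hb with ⟨i, a1, a2, e⟩ | ⟨i, a1, a2, rfl⟩
    · exact (not_N h1 rfl e).elim
    rcases h.end_cases hy' hb' with ⟨i', a3, a4, e⟩ | ⟨i', a3, a4, rfl⟩
    · exact (not_N h2 rfl e).elim
    have : i = i' := h3
    rw [this]
  nc e he e' he' h1 h2 h3 h4 h5 := by
    rw [mem_cEnds] at he he'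
    have hGb : Glu (box c d b t) (plane.glue (box c d b t)) := plane.glu _
    obtain ⟨y, hy, hb, rfl, e1, e2⟩ := h.exists_end hG he.1 he.2
    obtain ⟨y', hy', hb', rfl, e1', e2'⟩ := h.exists_end hG he'.1 he'.2
    rw [e1] at h2 h5
    rw [e1, e1', h.col_hph hG e2, h.col_hph hG hy, h.col_hph hG e2']
    rw [h.col_hph hG hy, h.col_hph hG hy'] at h4
    rw [h.col_hph hG hy', h.col_hph hG e2] at h5
    set z := other (mate (pr φ c d b t ω)) (plane.glue (box c d b t)) y with hz
    set z' := other (mate (pr φ c d b t ω)) (plane.glue (box c d b t)) y' with hz'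
    have hzb : Bd (box c d b t) (plane.glue (box c d b t)) z := hGb.other_bd hb
    have hzb' : Bd (box c d b t) (plane.glue (box c d b t)) z' := hGb.other_bd hb'
    have hoz : other (mate (pr φ c d b t ω)) (plane.glue (box c d b t)) z = y :=
      hGb.other_other hb
    have py : ps c d b t y = (d - c) + (t - b) + (d - 1 - y.1.1) := by
      rcases h.end_cases hy hb with ⟨i, a1, a2, e⟩ | ⟨i, a1, a2, e⟩
      · exact (not_N h1 rfl e).elim
      · rw [e]; rfl
    have py' : ps c d b t y' = (d - c) + (t - b) + (d - 1 - y'.1.1) := by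
      rcases h.end_cases hy' hb' with ⟨i, a1, a2, e⟩ | ⟨i, a1, a2, e⟩
      · exact (not_N h3 rfl e).elim
      · rw [e]; rfl
    have pz : ps c d b t z = (d - c) + (t - b) + (d - 1 - z.1.1) ∧ z.1.1 < d := by
      rcases h.end_cases e2 hzb with ⟨i, a1, a2, e⟩ | ⟨i, a1, a2, e⟩
      · exact (not_N h2 rfl e).elim
      · rw [e]; exact ⟨rfl, a2⟩
    have hn := rect_nc (pr φ c d b t ω) h.bt hcd hzb hb' (by rw [pz.1, py']; omega)
      (by rw [hoz, py, py']; omega)
    rw [hoz, ← hz'] at hn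
    have hbt := h.bt
    rcases h.end_cases e2' hzb' with ⟨i, a1, a2, e⟩ | ⟨i, a1, a2, e⟩
    · exfalso
      rw [e, pz.1] at hn
      have := hn.1
      change _ < i - c at this
      omega
    · rw [e] at hn ⊢
      change (_ < (d - c) + (t - b) + (d - 1 - i)) ∧ (d - c) + (t - b) + (d - 1 - i) < _ at hn
      rw [pz.1, py] at hn
      refine ⟨rfl, ?_, ?_⟩
      · show y.1.1 < i
        omega
      · show i < z.1.1
        omega

variable {ι : Type*} [LinearOrder ι]

open Classical in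
/-- **the corridor with the trio**: `i₀` is the column of a strand from the ceiling to the floor -/
theorem trio_ends (hG : Glu T g) {o : Half τ → ι}
    (ho : ∀ x, Bd T g x → ∀ y, Bd T g y → o x = o y → x = y)
    {q : ℤ → Half τ → ℤ} {θ : ℤ → ℤ × ℤ → ℤ} {k : ℤ → ℤ} {m b' i₀ : ℤ}
    (hq : ∀ j, m ≤ j → j ≤ b' → Phs φ c d b t (q j) (θ j) (k j) m j)
    (h1 : m ≤ i₀) (h2 : i₀ ≤ b') (h3 : c ≤ m) (h4 : i₀ < d)
    (h5 : ∀ i, m ≤ i → i ≤ i₀ → S (φ (i, t - 1), .N) = 0)
    (h6 : (other (mate ω) g (φ (i₀, t - 1), .N)).2 ≠ .N) :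
    ∑ j ∈ Finset.Icc m b', ∏ e ∈ (cEnds T g S).filter (fun e => o e < o (other (mate ω) g e)),
      cwt (zh (q j) g ω e) / (Real.sqrt 3 : ℝ) = 1 := by
  have hP := h.pattern hG (by omega : c < d)
  have hy : ∀ i, m ≤ i → i ≤ i₀ → (((i, t - 1), .N) : Half (ℤ × ℤ)) ∈ S0 φ c d b t S := by
    intro i a1 a2
    refine ⟨mem_box.2 ⟨⟨by omega, by omega⟩, by have := h.bt; omega, by omega⟩, h5 i a1 a2⟩
  have hcE : ∀ i, m ≤ i → i ≤ i₀ → ((φ (i, t - 1), .N) : Half τ) ∈ cEnds T g S ∧
      col φ c d b t S (φ (i, t - 1), .N) = i := by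
    intro i a1 a2
    refine ⟨mem_cEnds.2 ⟨⟨?_, h.ch.ceil i (by omega) (by omega)⟩, h5 i a1 a2⟩, ?_⟩
    · exact h.ch.mem _ _ (by omega) (by omega) (by have := h.bt; omega) (by omega)
    · exact h.col_hph hG (hy i a1 a2)
  have s3 := sqrt3_ne
  refine LemX.trio_ends (S := cEnds T g S) (o := other (mate ω) g) (top := fun e => e.2 = Dir.N)
    (pos := col φ c d b t S) hP (ord := o) ?_
    (W := fun j e => cwt (zh (q j) g ω e) / (Real.sqrt 3 : ℝ)) ?_ ?_ ?_ ?_
    (t₀ := (φ (i₀, t - 1), .N)) (hcE i₀ h1 le_rfl).1 rfl h6 ?_ ?_ ?_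
  · intro e he h7
    rw [mem_cEnds] at he
    exact hG.other_ne he.1 (ho _ (hG.other_bd he.1) _ he.1 h7)
  · intro j e he
    rw [mem_cEnds] at he
    show cwt _ / _ = cwt _ / _
    rw [zh_other hG he.1, cwt_neg]
  · intro j a1 a2 e he t1 t2 hlt
    rw [mem_cEnds] at he
    obtain ⟨y, hy, hb, rfl, e1, e2⟩ := h.exists_end hG he.1 he.2
    rw [e1] at t2 hlt ⊢
    rw [h.col_hph hG hy, h.col_hph hG e2] at hlt ⊢
    show cwt _ / _ = _
    rw [(h.factor hG (hq j a1 a2) a1 hy hb).1 t1 t2 hlt, mul_div_cancel_left₀ _ s3]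
  · intro j a1 a2 e he t1 t2
    rw [mem_cEnds] at he
    obtain ⟨y, hy, hb, rfl, e1, e2⟩ := h.exists_end hG he.1 he.2
    have hb2 : Bd (box c d b t) (plane.glue (box c d b t))
        (other (mate (pr φ c d b t ω)) (plane.glue (box c d b t)) y) := (plane.glu _).other_bd hb
    rw [e1] at t2
    have t3 : (other (mate (pr φ c d b t ω)) (plane.glue (box c d b t)) y).2 = .S := by
      rcases h.end_cases e2 hb2 with ⟨i, _, _, e⟩ | ⟨i, _, _, e⟩
      · rw [e]
      · rw [e] at t2; exact absurd rfl t2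
    rw [h.col_hph hG hy]
    show cwt _ / _ = _
    rw [(h.factor hG (hq j a1 a2) a1 hy hb).2.1 t1 t3, mul_div_cancel_left₀ _ s3]
  · intro j a1 a2 e he t1 t2
    rw [mem_cEnds] at he
    obtain ⟨y, hy, hb, rfl, e1, e2⟩ := h.exists_end hG he.1 he.2
    have hb2 : Bd (box c d b t) (plane.glue (box c d b t))
        (other (mate (pr φ c d b t ω)) (plane.glue (box c d b t)) y) := (plane.glu _).other_bd hb
    rw [e1] at t2
    have t3 : (other (mate (pr φ c d b t ω)) (plane.glue (box c d b t)) y).2 = .S := by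
      rcases h.end_cases e2 hb2 with ⟨i, _, _, e⟩ | ⟨i, _, _, e⟩
      · rw [e]
      · rw [e] at t2; exact absurd rfl t2
    have t4 : y.2 = .S := by
      rcases h.end_cases hy hb with ⟨i, _, _, e⟩ | ⟨i, _, _, e⟩
      · rw [e]
      · rw [e] at t1; exact absurd rfl t1
    show cwt _ / _ = _
    rw [(h.factor hG (hq j a1 a2) a1 hy hb).2.2 t4 t3, div_self s3]
  · rw [(hcE i₀ h1 le_rfl).2]; exact h1
  · rw [(hcE i₀ h1 le_rfl).2]; exact h2
  · intro i a1 a2
    rw [(hcE i₀ h1 le_rfl).2] at a2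
    exact ⟨_, (hcE i a1 a2.le).1, rfl, (hcE i a1 a2.le).2⟩

/-- **the corridor with the trio**, for the product over the free ends with the potential `0` -/
theorem trio (hG : Glu T g) {z : Half τ} (hz : S z = 1) {o : Half τ → ι}
    (ho : ∀ x, Bd T g x → ∀ y, Bd T g y → o x = o y → x = y)
    {P : Half τ → Prop} [DecidablePred P] (hP : ∀ e, P e ↔ S e = 1)
    {q : ℤ → Half τ → ℤ} {θ : ℤ → ℤ × ℤ → ℤ} {k : ℤ → ℤ} {m b' i₀ : ℤ}
    (hq : ∀ j, m ≤ j → j ≤ b' → Phs φ c d b t (q j) (θ j) (k j) m j)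
    (h1 : m ≤ i₀) (h2 : i₀ ≤ b') (h3 : c ≤ m) (h4 : i₀ < d)
    (h5 : ∀ i, m ≤ i → i ≤ i₀ → S (φ (i, t - 1), .N) = 0)
    (h6 : (other (mate ω) g (φ (i₀, t - 1), .N)).2 ≠ .N) :
    ∑ j ∈ Finset.Icc m b',
      ∏ e ∈ (free T g ω z).filter (fun e => ¬ P e ∧ o e < o (other (mate ω) g e)),
        cwt (zh (q j) g ω e) / (Real.sqrt 3 : ℝ) = 1 := by
  classical
  rw [← h.trio_ends hG ho hq h1 h2 h3 h4 h5 h6]
  refine Finset.sum_congr rfl fun j _ => Finset.prod_congr ?_ fun _ _ => rfl
  ext e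
  rw [Finset.mem_filter, Finset.mem_filter, mem_free, mem_cEnds, hP]
  constructor
  · rintro ⟨⟨a1, a2, a3⟩, a4, a5⟩
    exact ⟨⟨a1, (z2_cases _).resolve_right a4⟩, a5⟩
  · rintro ⟨⟨a1, a2⟩, a3⟩
    have a4 : S e ≠ 1 := by rw [a2]; exact zero_ne_one
    refine ⟨⟨a1, ?_, ?_⟩, a4, a3⟩
    · rintro rfl
      exact a4 hz
    · rintro rfl
      exact a4 (by rw [h.S_other]; exact hz)

end Cor

end cor

end

end Full.X3
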