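import Pool.Agent.Full.X3.Cor
import Pool.Agent.Full.Loc1.PotS

/-!
# The corridor part for a domain in two sheets

`Slab.cor` : the potential of two blocked dead ends gives a corridor `Cor` of the closed row.
`Slab.cor_trio` : the sum over the gap of the charge `2` is `1`.
-/

set_option autoImplicit false

namespace Full
open Function Relation Loc1 X3

namespace Slab
variable {D : Slab} {x y a c1 d1 c2 d2 : ℤ} {ω : Finset ZT} {S : Half ZT → ZMod 2}

/-- **the corridor of the closed row** -/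
theorem cor (hD : D.Good x y a) (hS : D.Pot x y a c1 d1 c2 d2 ω S) (h2 : d1 < D.l + a)
    (h3 : D.r - a < c2) :
    Cor (D.T y) (D.gc x y) ω (phC D.l D.r y) (-a) a D.b D.t S where
  ch := corridor hD.dead (by have := hD.pos; omega) hD.xl hD.xr hD.yb hD.yt
  mt := hS.mate
  gs := hS.gc
  cor := hS.cor
  west j a1 a2 := by
    have := hD.pos
    rw [phC_neg (by omega)]
    exact hS.frontR _ j _ (by omega) (by omega) a1 a2
  east j a1 a2 := by
    have := hD.pos
    rw [phC_pos (by omega)]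
    exact hS.frontL _ j _ (by omega) (by omega) a1 a2
  bt := hD.bt

/-- the ceiling behind the right box has the potential `0` -/
theorem ceil_zero (hD : D.Good x y a) (hS : D.Pot x y a c1 d1 c2 d2 ω S) {i : ℤ}
    (h1 : d2 ≤ D.r + i) (h2 : i < 0) : S (phC D.l D.r y (i, D.t - 1), .N) = 0 := by
  have := hD.bt
  rw [phC_neg (by omega)]
  exact hS.backR _ _ _ h1 (by omega) (by omega) (by omega)

/-- **the trio in the corridor**: the charge `-1` at the gap `m`, the charge `2` at a gap `j` of the ceiling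
on the right side of the domain behind the right box, a strand from the ceiling to the floor at the column
`i₀` between them -/
theorem cor_trio (hD : D.Good x y a) (hS : D.Pot x y a c1 d1 c2 d2 ω S) (h2 : d1 < D.l + a)
    (h3 : D.r - a < c2) (h3' : c2 ≤ d2) {ι : Type*} [LinearOrder ι] {o : Half ZT → ι}
    (ho : ∀ x', Bd (D.T y) (D.gc x y) x' → ∀ y', Bd (D.T y) (D.gc x y) y' → o x' = o y' → x' = y')
    {P : Half ZT → Prop} [DecidablePred P] (hP : ∀ e, P e ↔ S e = 1)
    {q : ℤ → Half ZT → ℤ} {θ : ℤ → ℤ × ℤ → ℤ} {k : ℤ → ℤ} {m b' i₀ : ℤ}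
    (hq : ∀ j, m ≤ j → j ≤ b' →
      Phs (phC D.l D.r y) (-a) a D.b D.t (q j) (θ j) (k j) m j)
    (h4 : m ≤ i₀) (h5 : i₀ ≤ b') (h6 : d2 ≤ D.r + m) (h7 : i₀ < 0)
    (h8 : (other (mate ω) (D.gc x y) (phC D.l D.r y (i₀, D.t - 1), .N)).2 ≠ .N) :
    ∑ j ∈ Finset.Icc m b', ∏ e ∈ (free (D.T y) (D.gc x y) ω (Slab.z x y)).filter
        (fun e => ¬ P e ∧ o e < o (other (mate ω) (D.gc x y) e)),
      cwt (zh (q j) (D.gc x y) ω e) / (Real.sqrt 3 : ℝ) = 1 := by
  have := hD.pos
  exact (cor hD hS h2 h3).trio glu_gc hS.z ho hP hq h4 h5 (by omega) (by omega)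
    (fun i a1 a2 => ceil_zero hD hS (by omega) (by omega)) h8

end Slab

end Full
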