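import Pool.Agent.Full.X3.Order
import Pool.Agent.Full.LemA.Main

/-!
# Positions read from another reference point

`pos` numbers the ends other than `z` by the integers of `[lo, hi)`; `rp lo hi m pos` is the position read
cyclically from the end with the position `m` on.
-/

set_option autoImplicit false

namespace Full.X3
open Full Function Relation Finset

noncomputable section

/-- position read from `m` on -/
def rp {α : Type*} (lo hi m : ℤ) (pos : α → ℤ) (u : α) : ℕ :=
  (if m ≤ pos u then pos u - m else pos u - m + (hi - lo)).toNat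

section pos

variable {α : Type*} {lo hi m : ℤ} {pos : α → ℤ} {u v : α}

lemma rp_cases (hm : lo ≤ m ∧ m < hi) (hu : lo ≤ pos u) (hu' : pos u < hi) :
    (m ≤ pos u ∧ (rp lo hi m pos u : ℤ) = pos u - m) ∨
      (pos u < m ∧ (rp lo hi m pos u : ℤ) = pos u - m + (hi - lo)) := by
  unfold rp
  by_cases h : m ≤ pos u
  · left
    rw [if_pos h]
    omega
  · right
    rw [if_neg h]
    omega

lemma rp_lt (hm : lo ≤ m ∧ m < hi) (hu : lo ≤ pos u) (hu' : pos u < hi) :
    rp lo hi m pos u < (hi - lo).toNat := by
  rcases rp_cases hm hu hu' with h | h <;> omega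

lemma rp_inj (hm : lo ≤ m ∧ m < hi) (hu : lo ≤ pos u) (hu' : pos u < hi)
    (hv : lo ≤ pos v) (hv' : pos v < hi) (h : rp lo hi m pos u = rp lo hi m pos v) :
    pos u = pos v := by
  rcases rp_cases hm hu hu' with h1 | h1 <;> rcases rp_cases hm hv hv' with h2 | h2 <;> omega

lemma rp_surj (hm : lo ≤ m ∧ m < hi) (hs : ∀ p, lo ≤ p → p < hi → ∃ u, pos u = p) {s : ℕ}
    (h : s < (hi - lo).toNat) : ∃ u, lo ≤ pos u ∧ pos u < hi ∧ rp lo hi m pos u = s := by
  by_cases h1 : m + s < hi
  · obtain ⟨u, hu⟩ := hs (m + s) (by omega) h1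
    refine ⟨u, by omega, by omega, ?_⟩
    rcases rp_cases (pos := pos) (u := u) hm (by omega) (by omega) with h2 | h2 <;> omega
  · obtain ⟨u, hu⟩ := hs (m + s - (hi - lo)) (by omega) (by omega)
    refine ⟨u, by omega, by omega, ?_⟩
    rcases rp_cases (pos := pos) (u := u) hm (by omega) (by omega) with h2 | h2 <;> omega

end pos

section nc

variable {τ : Type*} [DecidableEq τ] {T : Finset τ} {g : Half τ → Half τ} {q : Half τ → ℤ}
  {ω : Finset τ} {z : Half τ} {lo hi m : ℤ} {pos : Half τ → ℤ}

/-- no crossing in the new order -/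
theorem nc_rp (hG : Glu T g) (hz : Bd T g z) (hm : lo ≤ m ∧ m < hi)
    (hr : ∀ u, Bd T g u → u ≠ z → lo ≤ pos u ∧ pos u < hi)
    (hnc : ∀ u v, u ∈ free T g ω z → v ∈ free T g ω z → pos u < pos v →
      pos v < pos (other (mate ω) g u) → pos (other (mate ω) g u) < pos (other (mate ω) g v) →
      False) :
    ∀ u v, u ∈ free T g ω z → v ∈ free T g ω z → rp lo hi m pos u < rp lo hi m pos v →
      rp lo hi m pos v < rp lo hi m pos (other (mate ω) g u) →
      rp lo hi m pos (other (mate ω) g u) < rp lo hi m pos (other (mate ω) g v) → False := by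
  intro u v hu hv h1 h2 h3
  have hu' := free_other hG hz hu
  have hv' := free_other hG hz hv
  have mu := mem_free.1 hu
  have mv := mem_free.1 hv
  have mu' := mem_free.1 hu'
  have mv' := mem_free.1 hv'
  have ou := hG.other_other (ω := ω) mu.1
  have ov := hG.other_other (ω := ω) mv.1
  obtain ⟨a1, a2⟩ := hr _ mu.1 mu.2.1
  obtain ⟨b1, b2⟩ := hr _ mv.1 mv.2.1
  obtain ⟨c1, c2⟩ := hr _ mu'.1 mu'.2.1
  obtain ⟨d1, d2⟩ := hr _ mv'.1 mv'.2.1
  have n1 := hnc u v hu hv
  have n2 := hnc _ u hv' hu
  have n3 := hnc _ _ hu' hv'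
  have n4 := hnc v _ hv hu'
  rw [ov] at n2
  rw [ou, ov] at n3
  rw [ou] at n4
  rcases rp_cases hm a1 a2 with a | a <;> rcases rp_cases hm b1 b2 with b | b <;>
    rcases rp_cases hm c1 c2 with c | c <;> rcases rp_cases hm d1 d2 with d | d
  all_goals first
    | omega
    | exact n1 (by omega) (by omega) (by omega)
    | exact n2 (by omega) (by omega) (by omega)
    | exact n3 (by omega) (by omega) (by omega)
    | exact n4 (by omega) (by omega) (by omega)

lemma W_wq (s : ℤ) : ((LemA.W s : ℤ) : ℂ) = wq s := by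
  rw [wq_val]
  unfold LemA.W
  split_ifs <;> simp

/-- **the weight of a strand in the new order**: `dq` is the charge as a function of the position -/
theorem aw_rp (hG : Glu T g) (hz : Bd T g z) (hm : lo ≤ m ∧ m < hi)
    (hr : ∀ u, Bd T g u → u ≠ z → lo ≤ pos u ∧ pos u < hi)
    (hinj : ∀ u v, Bd T g u → Bd T g v → u ≠ z → v ≠ z → pos u = pos v → u = v)
    {dq : ℤ → ℤ} {H : ℕ → ℤ} {a : ℤ}
    (hH : ∀ u, Bd T g u → u ≠ z → dq (pos u) = H (rp lo hi m pos u) + a)
    {u : Half τ} (hu : u ∈ free T g ω z)
    (hlaw : ∀ v, v = u ∨ v = other (mate ω) g u → pos v < pos (other (mate ω) g v) →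
      zh q g ω v = -2 - 4 * (dq (pos (other (mate ω) g v)) - dq (pos v)) +
        4 * (if pos v < pos (other (mate ω) g z) ∧ pos (other (mate ω) g z) <
          pos (other (mate ω) g v) then 1 else 0))
    (hlt : rp lo hi m pos u < rp lo hi m pos (other (mate ω) g u)) :
    cwt (zh q g ω u) = (Real.sqrt 3 : ℝ) *
      ((LemA.aw (rp lo hi m pos (other (mate ω) g z)) H (rp lo hi m pos u)
        (rp lo hi m pos (other (mate ω) g u)) : ℤ) : ℂ) := by
  have hu' := free_other hG hz hu
  have mu := mem_free.1 hu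
  have mu' := mem_free.1 hu'
  have ou := hG.other_other (ω := ω) mu.1
  have hk := hG.other_bd (ω := ω) hz
  have hkz : other (mate ω) g z ≠ z := hG.other_ne hz
  obtain ⟨a1, a2⟩ := hr _ mu.1 mu.2.1
  obtain ⟨c1, c2⟩ := hr _ mu'.1 mu'.2.1
  obtain ⟨k1, k2⟩ := hr _ hk hkz
  have e1 := hH u mu.1 mu.2.1
  have e2 := hH _ mu'.1 mu'.2.1
  have ku : pos (other (mate ω) g z) ≠ pos u := fun h =>
    mu.2.2 (hinj _ _ hk mu.1 hkz mu.2.1 h).symm
  have kv : pos (other (mate ω) g z) ≠ pos (other (mate ω) g u) := fun h =>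
    mu'.2.2 (hinj _ _ hk mu'.1 hkz mu'.2.1 h).symm
  have l1 := hlaw u (Or.inl rfl)
  have l2 := hlaw _ (Or.inr rfl)
  rw [ou] at l2
  have hsym : cwt (zh q g ω (other (mate ω) g u)) = cwt (zh q g ω u) := by
    rw [zh_other hG mu.1, cwt_neg]
  set pu := pos u
  set pv := pos (other (mate ω) g u)
  set pk := pos (other (mate ω) g z)
  unfold LemA.aw
  -- the four cases
  have key : ∀ s : ℤ, cwt (zh q g ω u) = (Real.sqrt 3 : ℝ) * wq s →
      (wq s = ((if rp lo hi m pos u < rp lo hi m pos (other (mate ω) g z) ∧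
        rp lo hi m pos (other (mate ω) g z) < rp lo hi m pos (other (mate ω) g u) then
          LemA.W (-(H (rp lo hi m pos (other (mate ω) g u)) - H (rp lo hi m pos u)))
        else LemA.W (H (rp lo hi m pos (other (mate ω) g u)) - H (rp lo hi m pos u)) : ℤ) : ℂ)) →
      cwt (zh q g ω u) = (Real.sqrt 3 : ℝ) *
        ((if rp lo hi m pos u < rp lo hi m pos (other (mate ω) g z) ∧
        rp lo hi m pos (other (mate ω) g z) < rp lo hi m pos (other (mate ω) g u) then
          LemA.W (-(H (rp lo hi m pos (other (mate ω) g u)) - H (rp lo hi m pos u)))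
        else LemA.W (H (rp lo hi m pos (other (mate ω) g u)) - H (rp lo hi m pos u)) : ℤ) : ℂ) :=
    fun s h1 h2 => by rw [h1, h2]
  rcases lt_or_ge pu pv with hlt' | hge
  · -- the order is kept
    by_cases hb : pu < pk ∧ pk < pv
    · rw [if_pos hb] at l1
      have hb' : rp lo hi m pos u < rp lo hi m pos (other (mate ω) g z) ∧
          rp lo hi m pos (other (mate ω) g z) < rp lo hi m pos (other (mate ω) g u) := by
        rcases rp_cases hm a1 a2 with a | a <;> rcases rp_cases hm c1 c2 with c | c <;>
          rcases rp_cases hm k1 k2 with k | k <;> omega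
      rw [if_pos hb'] at key
      rw [if_pos hb']
      refine key (dq pv - dq pu - 1) ?_ ?_
      · rw [← cwt_arc, l1 hlt']
        congr 1
        ring
      · rw [W_wq, ← wq_symm]
        congr 1
        rw [e1, e2]
        ring
    · rw [if_neg hb] at l1
      have hb' : ¬ (rp lo hi m pos u < rp lo hi m pos (other (mate ω) g z) ∧
          rp lo hi m pos (other (mate ω) g z) < rp lo hi m pos (other (mate ω) g u)) := by
        rcases rp_cases hm a1 a2 with a | a <;> rcases rp_cases hm c1 c2 with c | c <;>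
          rcases rp_cases hm k1 k2 with k | k <;> omega
      rw [if_neg hb'] at key
      rw [if_neg hb']
      refine key (dq pv - dq pu) ?_ ?_
      · rw [← cwt_arc, l1 hlt']
        congr 1
        ring
      · rw [W_wq]
        congr 1
        rw [e1, e2]
        ring
  · -- the strand is over the old reference point
    have hlt' : pv < pu := by
      rcases lt_or_eq_of_le hge with h | h
      · exact h
      · exact absurd (hinj _ _ mu'.1 mu.1 mu'.2.1 mu.2.1 h) (hG.other_ne mu.1)
    by_cases hb : pv < pk ∧ pk < pu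
    · rw [if_pos hb] at l2
      have hb' : ¬ (rp lo hi m pos u < rp lo hi m pos (other (mate ω) g z) ∧
          rp lo hi m pos (other (mate ω) g z) < rp lo hi m pos (other (mate ω) g u)) := by
        rcases rp_cases hm a1 a2 with a | a <;> rcases rp_cases hm c1 c2 with c | c <;>
          rcases rp_cases hm k1 k2 with k | k <;> omega
      rw [if_neg hb'] at key
      rw [if_neg hb']
      refine key (dq pu - dq pv - 1) ?_ ?_
      · rw [← cwt_arc, ← hsym, l2 hlt']
        congr 1
        ring
      · rw [W_wq, ← wq_symm]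
        congr 1
        rw [e1, e2]
        ring
    · rw [if_neg hb] at l2
      have hb' : rp lo hi m pos u < rp lo hi m pos (other (mate ω) g z) ∧
          rp lo hi m pos (other (mate ω) g z) < rp lo hi m pos (other (mate ω) g u) := by
        rcases rp_cases hm a1 a2 with a | a <;> rcases rp_cases hm c1 c2 with c | c <;>
          rcases rp_cases hm k1 k2 with k | k <;> omega
      rw [if_pos hb'] at key
      rw [if_pos hb']
      refine key (dq pu - dq pv) ?_ ?_
      · rw [← cwt_arc, ← hsym, l2 hlt']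
        congr 1
        ring
      · rw [W_wq]
        congr 1
        rw [e1, e2]
        ring

end nc

end

end Full.X3
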