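import Pool.Agent.Full.X3.GoLaw
import Pool.Agent.Full.X3.Rot
import Pool.Agent.Full.Disc.SlabNext
import Pool.Agent.Full.Def.Shape

/-!
# Positions of the ends of the domain with the end `z`

The positions of the ends other than `z` are the integers of `[glo, ghi)`.  `near_rp`: the two half edges of
a closed pair of a wall are neighbours if the positions are read from an end of the wall on.
-/

set_option autoImplicit false

namespace Full
open Full.X3 Function Finset Full.Loop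

namespace Slab
variable {D : Slab} {W : Lab} {a nL nU x y : ℤ}

/-- the first position -/
def glo (D : Slab) (y : ℤ) : ℤ := D.b - y

/-- the end of the positions -/
def ghi (D : Slab) (W : Lab) (nU y : ℤ) : ℤ := W.P + nU + (D.t - y)

section
variable (hW : W.Ok D a nL nU) (ha : 0 < a) (hb : D.b < y) (ht : y < D.t)
include hW ha

lemma gnL_pos : 0 < nL := by
  obtain ⟨h1, h2, -⟩ := hW.floorL 0 le_rfl ha
  have := hW.low _ _ h1
  omega

lemma gnU_pos : 0 < nU := by
  obtain ⟨h1, h2, -⟩ := hW.ceilR 0 le_rfl ha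
  have := hW.up _ _ h1
  omega

include hb ht

/-- the positions -/
theorem side_pos {u : Half ZT} (hu : D.IsW u ∨ D.Side y u) :
    D.glo y ≤ W.pos u ∧ W.pos u < D.ghi W nU y := by
  have h1 := gnL_pos hW ha
  have h2 := gnU_pos hW ha
  have h3 := hW.P_eq
  unfold glo ghi
  rcases hu with hu | ⟨v, h4, h5, h6⟩ | ⟨v, h4, h5, h6⟩
  · obtain ⟨t | t, d⟩ := u
    · have := hW.low t d hu
      omega
    · have := hW.up t d hu
      omega
  · rcases h6 with rfl | rfl
    · rw [(hW.lowW v h4 (by omega)).1]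
      omega
    · rw [(hW.lowE v h4 (by omega)).1]
      omega
  · rcases h6 with rfl | rfl
    · rw [(hW.upW v (by omega) h5).1]
      omega
    · rw [(hW.upE v (by omega) h5).1]
      omega

/-- the positions are different -/
theorem side_inj {u u' : Half ZT} (hu : D.IsW u ∨ D.Side y u) (hu' : D.IsW u' ∨ D.Side y u')
    (h : W.pos u = W.pos u') : u = u' := by
  have h1 := gnL_pos hW ha
  have h2 := gnU_pos hW ha
  have h3 := hW.P_eq
  -- the positions of the sides
  have key : ∀ w : Half ZT, D.Side y w →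
      (∃ v, D.b ≤ v ∧ v < y ∧ w = (.inl (D.l, v), .W) ∧ W.pos w = D.b - 1 - v) ∨
      (∃ v, D.b ≤ v ∧ v < y ∧ w = (.inl (D.r, v), .E) ∧ W.pos w = nL + (v - D.b)) ∨
      (∃ v, y ≤ v ∧ v < D.t ∧ w = (.inr (D.r - 1, v), .E) ∧ W.pos w = nL + (v - D.b)) ∨
      (∃ v, y ≤ v ∧ v < D.t ∧ w = (.inr (D.l, v), .W) ∧
        W.pos w = W.P + nU + (D.t - 1 - v)) := by
    rintro w (⟨v, h4, h5, h6⟩ | ⟨v, h4, h5, h6⟩)
    · rcases h6 with rfl | rfl
      · exact Or.inl ⟨v, h4, h5, rfl, (hW.lowW v h4 (by omega)).1⟩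
      · exact Or.inr (Or.inl ⟨v, h4, h5, rfl, (hW.lowE v h4 (by omega)).1⟩)
    · rcases h6 with rfl | rfl
      · exact Or.inr (Or.inr (Or.inr ⟨v, h4, h5, rfl, (hW.upW v (by omega) h5).1⟩))
      · exact Or.inr (Or.inr (Or.inl ⟨v, h4, h5, rfl, (hW.upE v (by omega) h5).1⟩))
  have keyW : ∀ w : Half ZT, D.IsW w → (0 ≤ W.pos w ∧ W.pos w < nL) ∨
      (W.P ≤ W.pos w ∧ W.pos w < W.P + nU) := by
    rintro ⟨t | t, d⟩ hw
    · exact Or.inl (hW.low t d hw)
    · exact Or.inr (hW.up t d hw)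
  have mix : ∀ w w' : Half ZT, D.IsW w → D.Side y w' → W.pos w = W.pos w' → False := by
    intro w w' hw hw' hp
    have a1 := keyW w hw
    rcases key w' hw' with ⟨v, b1, b2, -, b3⟩ | ⟨v, b1, b2, -, b3⟩ | ⟨v, b1, b2, -, b3⟩ |
      ⟨v, b1, b2, -, b3⟩ <;> omega
  rcases hu with hu | hu <;> rcases hu' with hu' | hu'
  · exact hW.inj u u' hu hu' h
  · exact (mix _ _ hu hu' h).elim
  · exact (mix _ _ hu' hu h.symm).elim
  · rcases key u hu with ⟨v, b1, b2, e1, b3⟩ | ⟨v, b1, b2, e1, b3⟩ | ⟨v, b1, b2, e1, b3⟩ |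
      ⟨v, b1, b2, e1, b3⟩ <;>
    rcases key u' hu' with ⟨v', c1, c2, e2, c3⟩ | ⟨v', c1, c2, e2, c3⟩ | ⟨v', c1, c2, e2, c3⟩ |
      ⟨v', c1, c2, e2, c3⟩
    all_goals first
      | (exfalso; omega)
      | (have e3 : v = v' := by omega
         rw [e1, e2, e3])

/-- every position is attained -/
theorem side_surj {p : ℤ} (h4 : D.glo y ≤ p) (h5 : p < D.ghi W nU y) :
    ∃ u, (D.IsW u ∨ D.Side y u) ∧ W.pos u = p := by
  have h1 := gnL_pos hW ha
  have h2 := gnU_pos hW ha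
  have h3 := hW.P_eq
  unfold glo at h4
  unfold ghi at h5
  by_cases c1 : p < 0
  · refine ⟨(.inl (D.l, D.b - 1 - p), .W), Or.inr (Or.inl ⟨_, by omega, by omega, Or.inl rfl⟩), ?_⟩
    rw [(hW.lowW _ (by omega) (by omega)).1]
    ring
  by_cases c2 : p < nL
  · obtain ⟨u, hu, hp⟩ := hW.surj p (Or.inl ⟨by omega, c2⟩)
    exact ⟨u, Or.inl hu, hp⟩
  by_cases c3 : p < W.P
  · by_cases c4 : D.b + (p - nL) < y
    · refine ⟨(.inl (D.r, D.b + (p - nL)), .E),
        Or.inr (Or.inl ⟨_, by omega, by omega, Or.inr rfl⟩), ?_⟩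
      rw [(hW.lowE _ (by omega) (by omega)).1]
      ring
    · refine ⟨(.inr (D.r - 1, D.b + (p - nL)), .E),
        Or.inr (Or.inr ⟨_, by omega, by omega, Or.inr rfl⟩), ?_⟩
      rw [(hW.upE _ (by omega) (by omega)).1]
      ring
  by_cases c5 : p < W.P + nU
  · obtain ⟨u, hu, hp⟩ := hW.surj p (Or.inr ⟨by omega, c5⟩)
    exact ⟨u, Or.inl hu, hp⟩
  · refine ⟨(.inr (D.l, W.P + nU + (D.t - 1) - p), .W),
      Or.inr (Or.inr ⟨_, by omega, by omega, Or.inl rfl⟩), ?_⟩
    rw [(hW.upW _ (by omega) (by omega)).1]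
    ring

end

/-- the half edge after the last one is the first one, below the line -/
theorem next_foot (hb : D.b < y) (ht : y < D.t) (hlx : D.l < x) (hxr : x < D.r) :
    next (D.go x y) (.inr (D.l, y), .W) = (.inl (D.l, y - 1), .W) := by
  have g0 : D.go x y (.inr (D.l, y), .W) = (.inr (D.l, y), .W) := qs_up (by omega) ht
  have r1 : rot (D.go x y) (.inr (D.l, y), .W) = sN y D.l := by
    unfold rot; rw [g0]; rfl
  have g1 : D.go x y (sN y D.l) = nN y D.l := go_sN hxr hb ht le_rfl hlx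
  have r2 : rot (D.go x y) (sN y D.l) = (.inl (D.l, y - 1), .W) := by
    unfold rot; rw [g1]; rfl
  have g2 : D.go x y (.inl (D.l, y - 1), .W) = (.inl (D.l, y - 1), .W) :=
    qs_low (by omega) (by omega)
  have i1 : (rot (D.go x y))^[1] (.inr (D.l, y), .W) = sN y D.l := r1
  have i2 : (rot (D.go x y))^[2] (.inr (D.l, y), .W) = (.inl (D.l, y - 1), .W) := by
    rw [iterate_succ_apply', i1, r2]
  rw [Disc.next_of 2 (by norm_num) (by rw [i2]; exact g2), i2]
  intro j h1 h2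
  have hj : j = 1 := by omega
  subst hj
  rw [i1, g1]
  intro h
  exact sN_ne_nN h.symm

/-- `z` is an end -/
lemma bd_zo (h1 : D.l ≤ x) (h2 : x ≤ D.r) (hb : D.b < y) : Bd (D.T y) (D.go x y) (z x y) :=
  ⟨(bd_z h1 h2 hb).1, go_z h1 h2⟩

section near
variable (hW : W.Ok D a nL nU) (ha : 0 < a) (hb : D.b < y) (ht : y < D.t) (hlx : D.l < x)
  (hxr : x < D.r) (hE : D.Ends x y)
include hW ha hb ht hlx hxr hE

/-- the position of the next half edge, read from the position `m` -/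
theorem next_rp {m : ℤ} (hm : D.glo y < m ∧ m < D.ghi W nU y) {u : Half ZT}
    (hu : Bd (D.T y) (D.go x y) u) (hz : u ≠ z x y) (hn : Bd (D.T y) (D.go x y) (next (D.go x y) u))
    (hnz : next (D.go x y) u ≠ z x y) (h : W.pos (next (D.go x y) u) ≠ m) :
    rp (D.glo y) (D.ghi W nU y) m W.pos (next (D.go x y) u) =
      rp (D.glo y) (D.ghi W nU y) m W.pos u + 1 := by
  have r1 := side_pos hW ha hb ht ((hE.go u).1 ⟨hu, hz⟩)
  have r2 := side_pos hW ha hb ht ((hE.go _).1 ⟨hn, hnz⟩)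
  by_cases hlast : u = (.inr (D.l, y), .W)
  · subst hlast
    rw [next_foot hb ht hlx hxr] at r2 h ⊢
    have e1 := (hW.upW y (by omega) ht).1
    have e2 := (hW.lowW (y - 1) (by omega) (by omega)).1
    have c1 := rp_cases (m := m) ⟨hm.1.le, hm.2⟩ r1.1 r1.2
    have c2 := rp_cases (m := m) ⟨hm.1.le, hm.2⟩ r2.1 r2.2
    unfold glo ghi at *
    omega
  · have e := (hW.step x y hlx hxr hb ht u hu hz hlast).1
    have c1 := rp_cases (m := m) ⟨hm.1.le, hm.2⟩ r1.1 r1.2
    have c2 := rp_cases (m := m) ⟨hm.1.le, hm.2⟩ r2.1 r2.2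
    unfold glo ghi at *
    omega

/-- **the pairs of a closed wall are neighbours** -/
theorem near_rp {w : Half ZT → Half ZT} {F : Set (Half ZT)}
    (hw : Full.IsW (D.T y) (D.go x y) F w) (hzF : z x y ∈ F) {e : Half ZT} (he : e ∈ F)
    (hbe : Bd (D.T y) (D.go x y) e) (hez : e ≠ z x y)
    (hm : D.glo y < W.pos e ∧ W.pos e < D.ghi W nU y) (u : Half ZT)
    (hu : Bd (D.T y) (D.go x y) u) (hz : u ≠ z x y) (hwu : w u ≠ u) :
    rp (D.glo y) (D.ghi W nU y) (W.pos e) W.pos (w u) =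
        rp (D.glo y) (D.ghi W nU y) (W.pos e) W.pos u + 1 ∨
      rp (D.glo y) (D.ghi W nU y) (W.pos e) W.pos u =
        rp (D.glo y) (D.ghi W nU y) (W.pos e) W.pos (w u) + 1 := by
  have hG : Glu (D.T y) w := hw.toExt.toGlu
  have hgo : Glu (D.T y) (D.go x y) := glu_go
  have hwz : w (z x y) = z x y := (hw.ends _ (bd_zo hlx.le hxr.le hb)).2 hzF
  have hwe : w e = e := (hw.ends _ hbe).2 he
  have b1 : Bd (D.T y) (D.go x y) (w u) := by
    refine ⟨hG.mem u hu.1, ?_⟩
    by_contra h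
    have h1 := hw.ext _ h
    rw [hG.inv] at h1
    have h2 := congrArg (D.go x y) h1
    rw [hgo.inv, hu.2] at h2
    exact hwu h2.symm
  have b2 : w u ≠ z x y := fun h => hz (by rw [← hG.inv u, h, hwz])
  rcases hw.near u hu with h | h | h
  · exact absurd h hwu
  · left
    rw [h] at b1 b2 ⊢
    refine next_rp hW ha hb ht hlx hxr hE hm hu hz b1 b2 fun h1 => ?_
    have h2 := side_inj hW ha hb ht ((hE.go _).1 ⟨b1, b2⟩) ((hE.go _).1 ⟨hbe, hez⟩) h1
    have h3 : u = e := by rw [← hG.inv u, h, h2, hwe]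
    exact hwu (by rw [h3, hwe])
  · right
    have b3 : Bd (D.T y) (D.go x y) (next (D.go x y) (w u)) := by rw [← h]; exact hu
    have b4 : next (D.go x y) (w u) ≠ z x y := by rw [← h]; exact hz
    have h1 := next_rp hW ha hb ht hlx hxr hE hm b1 b2 b3 b4 fun h1 => ?_
    · rw [← h] at h1
      exact h1
    · rw [← h] at h1
      have h2 := side_inj hW ha hb ht ((hE.go _).1 ⟨hu, hz⟩) ((hE.go _).1 ⟨hbe, hez⟩) h1
      exact hwu (by rw [h2, hwe])

end near

end Slab

end Full
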