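import Pool.Agent.Full.X3.CorQ
import Pool.Agent.Full.X3.GoPos
import Pool.Agent.Full.X3.GoodC
import Pool.Agent.Full.X3.Amp

/-!
# The charge of the marks along the strands behind the blocking chains

A strand of the domain with the end `z` behind a blocking chain has both ends in the same dead end, where
the charge of the marks is constant.  The trio is not seen in front of the chains.
-/

set_option autoImplicit false

namespace Full
open Full.X3 Function Finset Loc1 Pool.Agent.Helper69.RSW

namespace Slab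
variable {D : Slab} {W : Lab} {c : Chg} {a nL nU x y j k : ℤ} {ω : Finset ZT}

/-- an end in the left dead end -/
lemma pos_left (hD : D.Good x y a) (hb : D.b < y) (ht : y < D.t) (hW : W.Ok D a nL nU)
    {i l : ℤ} {v : Dir} (h1 : D.l ≤ i) (h2 : i + 1 < D.l + a) (h3 : D.b ≤ l) (h4 : l < D.t)
    (hu : D.go x y (phL y (i, l), v) = (phL y (i, l), v)) :
    W.pos (phL y (i, l), v) < a ∨ W.P + nU - a ≤ W.pos (phL y (i, l), v) := by
  have ha := hD.pos
  have hC : Channel (D.T y) (D.go x y) (phL y) D.l (D.l + a) D.b D.t :=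
    channelL hD.dead y y hD.xl (by have := hD.xl; have := hD.xr; omega) hD.yb hD.yt
  cases v with
  | E =>
    rw [hC.east i l h1 h2 h3 h4] at hu
    exact absurd (congrArg Prod.snd hu) (by simp)
  | W =>
    by_cases h5 : D.l < i
    · rw [hC.west glu_go h5 (by omega) h3 h4] at hu
      exact absurd (congrArg Prod.snd hu) (by simp)
    · have h6 : i = D.l := by omega
      subst h6
      by_cases h7 : l < y
      · rw [phL_low h7, (hW.lowW l h3 h4).1]
        left
        omega
      · rw [phL_up h7, (hW.upW l h3 h4).1]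
        right
        omega
  | N =>
    by_cases h5 : l + 1 < D.t
    · rw [hC.north i l h1 (by omega) h3 h5] at hu
      exact absurd (congrArg Prod.snd hu) (by simp)
    · have h6 : l = D.t - 1 := by omega
      subst h6
      have h7 := (hW.ceilL (i - D.l) (by omega) (by omega)).2.1
      rw [add_sub_cancel] at h7
      rw [phL_up (by omega), h7]
      right
      omega
  | S =>
    by_cases h5 : D.b < l
    · rw [hC.south glu_go h1 (by omega) h5 h4] at hu
      exact absurd (congrArg Prod.snd hu) (by simp)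
    · have h6 : l = D.b := by omega
      subst h6
      have h7 := (hW.floorL (i - D.l) (by omega) (by omega)).2.1
      rw [add_sub_cancel] at h7
      rw [phL_low hb, h7]
      left
      omega

/-- an end in the right dead end -/
lemma pos_right (hD : D.Good x y a) (hb : D.b < y) (ht : y < D.t) (hW : W.Ok D a nL nU)
    {i l : ℤ} {v : Dir} (h1 : D.r - a < i) (h2 : i < D.r) (h3 : D.b ≤ l) (h4 : l < D.t)
    (hu : D.go x y (phR y (i, l), v) = (phR y (i, l), v)) :
    nL - a ≤ W.pos (phR y (i, l), v) ∧ W.pos (phR y (i, l), v) < W.P + a := by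
  have ha := hD.pos
  have hP := hW.P_eq
  have hC : Channel (D.T y) (D.go x y) (phR y) (D.r - a) D.r D.b D.t :=
    channelR hD.dead y y hD.xr (by have := hD.xl; have := hD.xr; omega) hD.yb hD.yt
  cases v with
  | W =>
    rw [hC.west glu_go h1 h2 h3 h4] at hu
    exact absurd (congrArg Prod.snd hu) (by simp)
  | E =>
    by_cases h5 : i + 1 < D.r
    · rw [hC.east i l h1.le h5 h3 h4] at hu
      exact absurd (congrArg Prod.snd hu) (by simp)
    · have h6 : i = D.r - 1 := by omega
      subst h6
      by_cases h7 : l < y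
      · rw [phR_low h7, sub_add_cancel, (hW.lowE l h3 h4).1]
        omega
      · rw [phR_up h7, (hW.upE l h3 h4).1]
        omega
  | N =>
    by_cases h5 : l + 1 < D.t
    · rw [hC.north i l h1.le h2 h3 h5] at hu
      exact absurd (congrArg Prod.snd hu) (by simp)
    · have h6 : l = D.t - 1 := by omega
      subst h6
      have h7 := (hW.ceilR (D.r - 1 - i) (by omega) (by omega)).2.1
      rw [show D.r - 1 - (D.r - 1 - i) = i by ring] at h7
      rw [phR_up (by omega), h7]
      omega
  | S =>
    by_cases h5 : D.b < l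
    · rw [hC.south glu_go h1.le h2 h5 h4] at hu
      exact absurd (congrArg Prod.snd hu) (by simp)
    · have h6 : l = D.b := by omega
      subst h6
      have h7 := (hW.floorR (D.r - 1 - i) (by omega) (by omega)).2.1
      rw [show D.r - (D.r - 1 - i) = i + 1 by ring] at h7
      rw [phR_low hb, h7]
      omega

variable {k' : ℤ} {S : Half ZT → ZMod 2}

/-- the potential of the good event, with the zones -/
theorem GoodC.exists_zone (h : D.GoodC y a k ω) (hD : D.Good x y a) (hk : 1 ≤ k)
    (hak : 3 * k + 3 ≤ a) : ∃ (S : Half ZT → ZMod 2) (QL QR : Finset (ℤ × ℤ)),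
      D.Pot x y a (D.l + 1) (D.l + 1 + k) (D.r - a + 1) (D.r - a + 1 + k) ω S ∧
      D.Blocked y a ω 0 0 QL QR ∧ ∀ q, S q = 0 ↔ q ∈ D.zone y a 0 0 QL QR := by
  obtain ⟨QL, hL⟩ := h.left
  obtain ⟨QR, hR⟩ := h.right
  obtain ⟨S, hS, h2⟩ := Full.Slab.exists_pot hD (Or.inl rfl) (Or.inl rfl) hL hR (by omega) (by omega)
    (by omega) (by omega)
  exact ⟨S, QL, QR, hS, blocked_of hL hR (by omega) (by omega) (by omega) (by omega), h2⟩

/-- the charge of the marks at the two ends of a strand behind the chains -/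
theorem dc_back (hD : D.Good x y a) (hb : D.b < y) (ht : y < D.t) (hW : W.Ok D a nL nU)
    (h1 : Far W a nL nU c.m1) (h2 : Far W a nL nU c.m2) (hj : Far W a nL nU j)
    {c1 d1 c2 d2 : ℤ} {QL QR : Finset (ℤ × ℤ)} (hS : D.Pot x y a c1 d1 c2 d2 ω S)
    (hd1 : d1 + 1 < D.l + a) (hc2 : D.r - a < c2) (hB : D.Blocked y a ω 0 0 QL QR)
    (hz : ∀ q, S q = 0 ↔ q ∈ D.zone y a 0 0 QL QR) {u : Half ZT}
    (hu : Bd (D.T y) (D.go x y) u) (hu0 : S u = 0) :
    c.dc j (W.pos (other (mate ω) (D.go x y) u)) = c.dc j (W.pos u) := by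
  have ha := hD.pos
  have hnU := two_a_le hD hW
  have hnL := nL_pos hD hW
  have hP := hW.P_eq
  have hG : Glu (D.T y) (D.go x y) := glu_go
  have hv := hG.other_bd (ω := ω) hu
  -- the two zones are invariant
  have iL : ∀ n, u ∈ LeftZ (phL y) D.l (D.l + a) D.b D.t 0 QL →
      (D.go x y ∘ mate ω)^[n] u ∈ LeftZ (phL y) D.l (D.l + a) D.b D.t 0 QL := by
    intro n h
    induction n with
    | zero => exact h
    | succ n ih =>
      rw [iterate_succ_apply', comp_apply]
      have h3 := LeftZ.mate hB.left ih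
      rcases LeftZ.glue glu_go (channelL hD.dead y y hD.xl (by have := hD.xl; have := hD.xr; omega)
        hD.yb hD.yt) (Or.inl rfl) hB.left (by omega) h3 with h4 | ⟨l, a1, a2, h4⟩
      · exact h4
      · rw [h4, wallL l a1 a2, ← h4]
        exact h3
  have iR : ∀ n, u ∈ RightZ (phR y) (D.r - a) D.r D.b D.t 0 QR →
      (D.go x y ∘ mate ω)^[n] u ∈ RightZ (phR y) (D.r - a) D.r D.b D.t 0 QR := by
    intro n h
    induction n with
    | zero => exact h
    | succ n ih =>
      rw [iterate_succ_apply', comp_apply]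
      have h3 := RightZ.mate hB.right ih
      rcases RightZ.glue glu_go (channelR hD.dead y y hD.xr (by have := hD.xl; have := hD.xr; omega)
        hD.yb hD.yt) (Or.inl rfl) hB.right (by omega) h3 with h4 | ⟨l, a1, a2, h4⟩
      · exact h4
      · rw [h4, wallR l a1 a2, ← h4]
        exact h3
  -- the positions of the ends
  have pL : ∀ v, Bd (D.T y) (D.go x y) v → v ∈ LeftZ (phL y) D.l (D.l + a) D.b D.t 0 QL →
      c.dc j (W.pos v) = 0 := by
    rintro v hv h
    have h0 : S v = 0 := (hz v).2 (Or.inl h)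
    obtain ⟨i, l, d, a1, a2, a3, a4, rfl, -⟩ := h
    have a5 : i < d1 := by
      by_contra h5
      rw [hS.frontL i l d (by omega) a2 a3 a4] at h0
      exact one_ne_zero h0
    rcases pos_left hD hb ht hW a1 (by omega) a3 a4 hv.2 with h5 | h5
    · exact dc_floorL (by omega) h1 h2 hj h5
    · exact dc_ceilL (by omega) (by omega) h1 h2 hj h5
  have pR : ∀ v, Bd (D.T y) (D.go x y) v → v ∈ RightZ (phR y) (D.r - a) D.r D.b D.t 0 QR →
      c.dc j (W.pos v) = c.dc j W.P := by
    rintro v hv h
    have h0 : S v = 0 := (hz v).2 (Or.inr h)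
    obtain ⟨i, l, d, a1, a2, a3, a4, rfl, -⟩ := h
    have a5 : c2 ≤ i := by
      by_contra h5
      rw [hS.frontR i l d a1 (by omega) a3 a4] at h0
      exact one_ne_zero h0
    obtain ⟨h5, h6⟩ := pos_right hD hb ht hW (by omega) a2 a3 a4 hv.2
    exact dc_right (by omega) h1 h2 hj (by omega) h5 h6
  rcases (hz u).1 hu0 with h | h
  · rw [pL _ hv (iL _ h), pL _ hu h]
  · rw [pR _ hv (iR _ h), pR _ hu h]

/-- the sides of the row are behind the chains -/
theorem side_zero (hb : D.b < y) (ht : y < D.t) {c1 d1 c2 d2 : ℤ}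
    (hS : D.Pot x y a c1 d1 c2 d2 ω S) (h1 : D.l < c1) (h2 : d2 < D.r) {u : Half ZT}
    (hu : D.Side y u) : S u = 0 := by
  rcases hu with ⟨v, h3, h4, rfl | rfl⟩ | ⟨v, h3, h4, rfl | rfl⟩
  · have := hS.backL D.l v .W le_rfl h1 h3 (by omega)
    rwa [phL_low h4] at this
  · have := hS.backR (D.r - 1) v .E (by omega) (by omega) h3 (by omega)
    rwa [phR_low h4, sub_add_cancel] at this
  · have := hS.backL D.l v .W le_rfl h1 (by omega) h4
    rwa [phL_up (by omega)] at this
  · have := hS.backR (D.r - 1) v .E (by omega) (by omega) (by omega) h4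
    rwa [phR_up (by omega)] at this

/-- in front of the chains the trio is not seen -/
theorem tc_front (ht : y < D.t) (hW : W.Ok D a nL nU) (hbt : D.b < D.t) {c1 d1 c2 d2 : ℤ}
    (hS : D.Pot x y a c1 d1 c2 d2 ω S) (h1 : d2 ≤ D.r + c.m4) (h2 : -a ≤ c.m4) (h3 : c.m4 ≤ k')
    (h4 : k' < 0) {u : Half ZT} (hu : D.IsW u) (hu1 : S u = 1) : c.tc W.P k' (W.pos u) = 0 := by
  obtain ⟨t | t, d⟩ := u
  · have h5 := pos_low hW hbt hu
    unfold Chg.tc stp
    rw [if_neg (by omega), if_neg (by omega), if_neg (by omega)]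
    ring
  · have h5 := (hW.up t d hu).1
    have h6 : W.P - c.m4 ≤ W.pos (.inr t, d) := by
      by_contra h6
      obtain ⟨b1, b2, -⟩ := hW.ceilR (W.pos (.inr t, d) - W.P) (by omega) (by omega)
      have h7 := hW.inj _ _ b1 hu (by rw [b2]; ring)
      have h8 := hS.backR (D.r - 1 - (W.pos (.inr t, d) - W.P)) (D.t - 1) .N (by omega)
        (by omega) (by omega) (by omega)
      rw [phR_up (by omega), h7, hu1] at h8
      exact one_ne_zero h8
    unfold Chg.tc stp
    rw [if_pos (by omega), if_pos (by omega), if_pos (by omega)]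
    ring

end Slab

end Full
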