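import Pool.Agent.Full.X3.Marks
import Pool.Agent.Full.Loop.GoZh
import Pool.Agent.Full.Loc1.SlabCh
import Pool.Agent.Full.X3.ThWall

/-!
# The law of the strands of a domain with an interior end, in terms of the labels of the walls

`Ends D x y`: the ends of `(D.T y, D.go x y)` other than `z` are the walls and the half edges of the two
sides of the row.  `arc_law`, `z_law`, `loop_law`: the holonomies for the phases `qz` and the gluing
`D.go x y`; `go_nc`: strands do not cross.
-/

set_option autoImplicit false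

namespace Full
open Full.X3 Function Finset Full.Loop

namespace X3

/-- the holonomy of a walk is additive in the phases -/
theorem zn_add {τ : Type*} [DecidableEq τ] {g : Half τ → Half τ} {q q' q'' : Half τ → ℤ} {ω : Finset τ}
    (h : ∀ y, q y = q' y + q'' y) (hq : ∀ y, q' (g y) = q' y) (n : ℕ) (x : Half τ) :
    zn q g ω n x = zn q'' g ω n x + q' ((g ∘ mate ω)^[n] x) - q' x := by
  rw [Full.X3.zn_eq, Full.X3.zn_eq]
  have e : (fun y => q y - q (g y)) = fun y => q'' y - q'' (g y) := by
    funext y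
    rw [h, h, hq]
    ring
  rw [e, h, h]
  ring

end X3

namespace Slab

/-- the ends of the domain other than `z` -/
structure Ends (D : Slab) (x y : ℤ) : Prop where
  go : ∀ u, Bd (D.T y) (D.go x y) u ∧ u ≠ z x y ↔ D.IsW u ∨ D.Side y u
  gc : ∀ u, Bd (D.T y) (D.gc x y) u ∧ u ≠ z x y ↔ D.IsW u

variable {D : Slab} {W : Lab} {c : Chg} {a nL nU j k x y : ℤ} {ω : Finset ZT}

theorem ends_mk (hl : D.l ≤ x) (hr : x ≤ D.r) (hb : D.b < y) (ht : y < D.t) : D.Ends x y where
  go _ := isW_go hl hr hb ht
  gc _ := isW_gc hl hr hb ht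

/-- the order and the directions of the labels -/
theorem goLabW (H : GoOk D x y) (hlx : D.l < x) (hW : W.Ok D a nL nU) : GoLab D x y W.pos W.th where
  first := (hW.lowW (y - 1) (by have := H.by'; omega) (by have := H.yt; omega)).2
  lt e he hz h := by
    have := (hW.step x y hlx H.xr H.by' H.yt e he hz h).1
    omega
  th e he hz h := (hW.step x y hlx H.xr H.by' H.yt e he hz h).2

lemma qz_eq (w : Half ZT) : D.qz W c j k x y w = D.q0 W c j k w + D.lq x y w := by
  unfold qz lq
  split_ifs <;> ring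

/-- the left side is not glued -/
lemma qs_low {v : ℤ} (h1 : D.b ≤ v) (h2 : v < D.t) :
    D.go x y (.inl (D.l, v), .W) = (.inl (D.l, v), .W) := by
  by_cases h : v < y
  · have := Slab.wallL (D := D) (x := x) (y := y) v h1 h2
    rwa [phL_low h] at this
  · refine Surf.glue_of_notMem ?_
    show (Sum.inl (D.l, v) : ZT) ∉ D.T y
    rw [mem_low]
    rintro (h3 | h3)
    · have := D.hlr
      exact D.hL _ _ (by omega) (by omega) h1 h2.le h3
    · omega

lemma qs_up {v : ℤ} (h1 : D.b ≤ v) (h2 : v < D.t) :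
    D.go x y (.inr (D.l, v), .W) = (.inr (D.l, v), .W) := by
  by_cases h : v < y
  · refine Surf.glue_of_notMem ?_
    show (Sum.inr (D.l, v) : ZT) ∉ D.T y
    rw [mem_up]
    rintro (h3 | h3)
    · have := D.hlr
      exact D.hU _ _ (by omega) (by omega) (by omega) h2 h3
    · omega
  · have := Slab.wallL (D := D) (x := x) (y := y) v h1 h2
    rwa [phL_up h] at this

/-- half edges with a phase are not glued -/
lemma q0_ne (hE : D.Ends x y) {w : Half ZT} (h : D.q0 W c j k w ≠ 0) : D.go x y w = w := by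
  by_cases h1 : D.IsW w
  · exact ((hE.go w).2 (Or.inl h1)).1.2
  · unfold q0 at h
    rw [if_neg h1] at h
    obtain ⟨⟨i, v⟩ | ⟨i, v⟩, d⟩ := w
    · cases d
      case W =>
        simp only at h
        by_cases h2 : i = D.l ∧ D.b ≤ v ∧ v < D.t
        · obtain ⟨rfl, h3, h4⟩ := h2
          exact qs_low h3 h4
        · rw [if_neg h2] at h
          exact absurd rfl h
      all_goals exact absurd rfl h
    · cases d
      case W =>
        simp only at h
        by_cases h2 : i = D.l ∧ D.b ≤ v ∧ v < D.t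
        · obtain ⟨rfl, h3, h4⟩ := h2
          exact qs_up h3 h4
        · rw [if_neg h2] at h
          exact absurd rfl h
      all_goals exact absurd rfl h

lemma q0_go (hE : D.Ends x y) (w : Half ZT) : D.q0 W c j k (D.go x y w) = D.q0 W c j k w := by
  by_cases h1 : D.q0 W c j k w = 0
  · by_cases h2 : D.q0 W c j k (D.go x y w) = 0
    · rw [h1, h2]
    · have h3 := q0_ne hE h2
      rw [(glu_go (D := D) (x := x) (y := y)).inv] at h3
      rw [← h3]
  · rw [q0_ne hE h1]

/-- the phases of the walls and the line -/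
theorem zh_qz (hE : D.Ends x y) (e : Half ZT) :
    zh (D.qz W c j k x y) (D.go x y) ω e = zh (D.lq x y) (D.go x y) ω e +
      D.q0 W c j k (other (mate ω) (D.go x y) e) - D.q0 W c j k e :=
  zn_add qz_eq (q0_go hE) _ _

section
variable (H : GoOk D x y) (hlx : D.l < x) (hW : W.Ok D a nL nU) (hE : D.Ends x y)
include H hlx hW hE

/-- **arcs** -/
theorem arc_law {e : Half ZT} (he : e ∈ free (D.T y) (D.go x y) ω (z x y))
    (hlt : W.pos e < W.pos (other (mate ω) (D.go x y) e)) :
    zh (D.qz W c j k x y) (D.go x y) ω e =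
      W.th (other (mate ω) (D.go x y) e) - W.th e - 2 +
        4 * (if W.pos e < W.pos (other (mate ω) (D.go x y) (z x y)) ∧
          W.pos (other (mate ω) (D.go x y) (z x y)) < W.pos (other (mate ω) (D.go x y) e)
          then 1 else 0) +
        D.q0 W c j k (other (mate ω) (D.go x y) e) - D.q0 W c j k e := by
  have hz : Bd (D.T y) (D.go x y) (z x y) := mem_bds.1 (H.state ω).pt.mem
  have he' := mem_free.1 he
  have ho := (mem_free.1 (free_other glu_go hz he)).2.1
  rw [zh_qz hE, H.zh_lq he'.1]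
  obtain ⟨h1, h2, h3⟩ := (goLabW H hlx hW).arc H he'.1 he'.2.1 ho hlt
  rw [h1]
  by_cases h4 : W.pos e < W.pos (other (mate ω) (D.go x y) (z x y)) ∧
    W.pos (other (mate ω) (D.go x y) (z x y)) < W.pos (other (mate ω) (D.go x y) e)
  · rw [if_pos h4, h2 h4]
  · rw [if_neg h4, h3 h4]

/-- **the strand of `z`** -/
theorem z_law (h1 : D.l ≤ x) (h2 : x ≤ D.r) (h3 : D.b < y) (h4 : y < D.t) :
    zh (D.qz W c j k x y) (D.go x y) ω (z x y) =
      W.th (other (mate ω) (D.go x y) (z x y)) +
        D.q0 W c j k (other (mate ω) (D.go x y) (z x y)) := by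
  have hz : Bd (D.T y) (D.go x y) (z x y) := mem_bds.1 (H.state ω).pt.mem
  rw [zh_qz hE, H.zh_lq hz]
  have h5 := (goLabW H hlx hW).strand_z (ω := ω) H
  have h6 : D.q0 W c j k (z x y) = 0 := q0_low h1 h2 (by omega) (by omega) (Or.inr (Or.inl rfl))
  rw [h6]
  have h7 : D.gtn x y ω (z x y) + 4 * D.gcr x y ω (z x y) =
    W.th (other (mate ω) (D.go x y) (z x y)) := h5
  rw [h7]
  ring

omit hlx hW in
/-- **closed strands** -/
theorem loop_law {p : Half ZT} (hp : ∀ v, Conn (mate ω) (D.go x y) p v → D.go x y v ≠ v) :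
    zl (D.qz W c j k x y) (D.go x y) ω p = 4 ∨ zl (D.qz W c j k x y) (D.go x y) ω p = -4 := by
  obtain ⟨h1, h2⟩ := H.zloops (ω := ω) (p := p) hp
  have e : zl (D.qz W c j k x y) (D.go x y) ω p = zl (D.lq x y) (D.go x y) ω p := by
    unfold zl
    rw [zn_add qz_eq (q0_go hE), iterate_minimalPeriod]
    ring
  rw [e, Full.X3.zl_eq, h2, add_zero]
  exact h1

omit hE in
/-- **strands do not cross** -/
theorem go_nc (u v : Half ZT) (hu : u ∈ free (D.T y) (D.go x y) ω (z x y))
    (hv : v ∈ free (D.T y) (D.go x y) ω (z x y)) (h1 : W.pos u < W.pos v)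
    (h2 : W.pos v < W.pos (other (mate ω) (D.go x y) u))
    (h3 : W.pos (other (mate ω) (D.go x y) u) < W.pos (other (mate ω) (D.go x y) v)) : False := by
  have hz : Bd (D.T y) (D.go x y) (z x y) := mem_bds.1 (H.state ω).pt.mem
  have hu' := mem_free.1 hu
  have hv' := mem_free.1 hv
  have ho := (mem_free.1 (free_other glu_go hz hu)).2.1
  have ho' := (mem_free.1 (free_other glu_go hz hv)).2.1
  have := (goLabW H hlx hW).noncross H hu'.1 hu'.2.1 ho hv'.1 hv'.2.1 ho' h1 h2
  omega

end

end Slab

end Full
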