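import Pool.Agent.Full.X3.Split
import Pool.Agent.Full.Dict3.NetSix
import Pool.Agent.Full.Net.Same

/-!
# The phases of the walls of a domain with a closed row

`Slab.IsW`: the boundary half edges of the domain with a closed row (without `z`); they do not depend on
`z`.  `pos`: positions of the boundary half edges (counterclockwise), `th`: lifted directions.  The charge
`-1` sits at the gaps `m1` and `m2`, the charge `+2` at the gap `j`; the gap `g` is the one just before the
half edge with the position `g`.  The trio sits on the ceiling of the right dead end, the ceiling starts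
with the position `P`: charge `-1` at the seam (gap `P`), `+2` at the gap `P - k`, `-1` at the gap `P - m4`,
where `m4 ≤ k < 0` are columns counted from the seam.
The phase of a wall half edge is `- th - 4 * (charge up to its position)` times `kap = -(pi/12)`.
-/

set_option autoImplicit false

namespace Full
open Full.X3 Function Finset

/-- positions and directions of the walls -/
structure Lab where
  pos : Half ZT → ℤ
  th : Half ZT → ℤ
  /-- position of the first half edge of the ceiling, at the seam -/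
  P : ℤ

/-- the gaps with charges -/
structure Chg where
  m1 : ℤ
  m2 : ℤ
  m4 : ℤ

/-- step function of the gap `g` -/
def stp (g p : ℤ) : ℤ := if g ≤ p then 1 else 0

namespace Chg
variable (c : Chg)

/-- the charge of the three marks up to the position `p` -/
def dc (j p : ℤ) : ℤ := 2 * stp j p - stp c.m1 p - stp c.m2 p

/-- the charge of the trio up to the position `p` -/
def tc (P k p : ℤ) : ℤ := 2 * stp (P - k) p - stp P p - stp (P - c.m4) p

end Chg

namespace Slab
variable (D : Slab)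

/-- the walls of the domain with a closed row -/
def IsW : Half ZT → Prop
  | (.inl t, d) => Bd (D.TL D.t) (plane.glue (D.TL D.t)) (t, d) ∧ (t ∈ D.L ∨ d = .S)
  | (.inr t, d) => Bd (D.TU D.b) (plane.glue (D.TU D.b)) (t, d) ∧ (t ∈ D.U ∨ d = .N)

variable (W : Lab) (c : Chg) (j k : ℤ)

open Classical in
/-- the phases of the walls and of the seam -/
noncomputable def q0 (w : Half ZT) : ℤ :=
  if D.IsW w then -W.th w - 4 * (c.dc j (W.pos w) + c.tc W.P k (W.pos w)) else
    match w with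
    | (.inl (i, v), .W) => if i = D.l ∧ D.b ≤ v ∧ v < D.t then 4 * c.dc j W.P else 0
    | (.inr (i, v), .W) => if i = D.l ∧ D.b ≤ v ∧ v < D.t then 4 * (c.dc j W.P - 1) else 0
    | _ => 0

/-- the phases with the line on the left of `z` -/
noncomputable def qz (x y : ℤ) (w : Half ZT) : ℤ :=
  D.q0 W c j k w - if lside D.l x y w = true then 4 else 0

/-- the factors of the half edges -/
noncomputable def FF (w : Half ZT) (b : Bool) : ℂ := ue (sgn b * qph (D.q0 W c j k) w)

/-- the factor of the seam below `z` -/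
noncomputable def dw (b : Bool) : ℂ := ue (sgn b * (kap * (4 * c.dc j W.P : ℤ)))

variable {D W c j k} {x y : ℤ}

lemma not_isW_low {i v : ℤ} (h1 : D.l ≤ i) (h2 : i ≤ D.r) (h3 : D.b ≤ v) (h4 : v < D.t) {d : Dir}
    (hd : d ≠ .S) : ¬ D.IsW (.inl (i, v), d) := by
  rintro ⟨-, h | h⟩
  · exact D.hL i v (by omega) (by omega) h3 h4.le h
  · exact hd h

lemma not_isW_up {i v : ℤ} (h1 : D.l ≤ i) (h2 : i < D.r) (h3 : D.b ≤ v) (h4 : v < D.t) {d : Dir}
    (hd : d ≠ .N) : ¬ D.IsW (.inr (i, v), d) := by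
  rintro ⟨-, h | h⟩
  · exact D.hU i v (by omega) (by omega) (by omega) h4 h
  · exact hd h

lemma not_isW_lowS {i v : ℤ} (h1 : D.l ≤ i) (h2 : i ≤ D.r) (h3 : D.b < v) (h4 : v < D.t) :
    ¬ D.IsW (.inl (i, v), .S) := by
  rintro ⟨⟨-, h⟩, -⟩
  rw [plane_glue, if_pos] at h
  · exact Dir.opp_ne Dir.S (congrArg Prod.snd h)
  · unfold TL
    rw [Finset.mem_union, mem_box, Finset.mem_union]
    refine ⟨Or.inr (by omega), Or.inr ?_⟩
    show ((i, v) + (0, -1) : ℤ × ℤ) ∈ _
    rw [Prod.mk_add_mk, mem_box]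
    omega

lemma not_isW_upN {i v : ℤ} (h1 : D.l ≤ i) (h2 : i < D.r) (h3 : D.b ≤ v) (h4 : v + 1 < D.t) :
    ¬ D.IsW (.inr (i, v), .N) := by
  rintro ⟨⟨-, h⟩, -⟩
  rw [plane_glue, if_pos] at h
  · exact Dir.opp_ne Dir.N (congrArg Prod.snd h)
  · unfold TU
    rw [Finset.mem_union, mem_box, Finset.mem_union]
    refine ⟨Or.inr (by omega), Or.inr ?_⟩
    show ((i, v) + (0, 1) : ℤ × ℤ) ∈ _
    rw [Prod.mk_add_mk, mem_box]
    omega

lemma q0_lowW {v : ℤ} (h3 : D.b ≤ v) (h4 : v < D.t) :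
    D.q0 W c j k (.inl (D.l, v), .W) = 4 * c.dc j W.P := by
  have := D.hlr
  unfold q0
  rw [if_neg (not_isW_low le_rfl (by omega) h3 h4 (by decide))]
  simp only
  rw [if_pos ⟨trivial, h3, h4⟩]

lemma q0_upW {v : ℤ} (h3 : D.b ≤ v) (h4 : v < D.t) :
    D.q0 W c j k (.inr (D.l, v), .W) = 4 * (c.dc j W.P - 1) := by
  have := D.hlr
  unfold q0
  rw [if_neg (not_isW_up le_rfl (by omega) h3 h4 (by decide))]
  simp only
  rw [if_pos ⟨trivial, h3, h4⟩]

lemma q0_low {i v : ℤ} (h1 : D.l ≤ i) (h2 : i ≤ D.r) (h3 : D.b ≤ v) (h4 : v < D.t) {d : Dir}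
    (hd : d = .E ∨ d = .N ∨ (d = .W ∧ D.l < i) ∨ (d = .S ∧ D.b < v)) :
    D.q0 W c j k (.inl (i, v), d) = 0 := by
  unfold q0
  rw [if_neg]
  · rcases hd with rfl | rfl | ⟨rfl, h⟩ | ⟨rfl, h⟩
    · rfl
    · rfl
    · simp only
      rw [if_neg (by omega)]
    · rfl
  · rcases hd with rfl | rfl | ⟨rfl, h⟩ | ⟨rfl, h⟩
    · exact not_isW_low h1 h2 h3 h4 (by decide)
    · exact not_isW_low h1 h2 h3 h4 (by decide)
    · exact not_isW_low h1 h2 h3 h4 (by decide)
    · exact not_isW_lowS h1 h2 h h4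

lemma q0_up {i v : ℤ} (h1 : D.l ≤ i) (h2 : i < D.r) (h3 : D.b ≤ v) (h4 : v < D.t) {d : Dir}
    (hd : d = .E ∨ d = .S ∨ (d = .W ∧ D.l < i) ∨ (d = .N ∧ v + 1 < D.t)) :
    D.q0 W c j k (.inr (i, v), d) = 0 := by
  unfold q0
  rw [if_neg]
  · rcases hd with rfl | rfl | ⟨rfl, h⟩ | ⟨rfl, h⟩
    · rfl
    · rfl
    · simp only
      rw [if_neg (by omega)]
    · rfl
  · rcases hd with rfl | rfl | ⟨rfl, h⟩ | ⟨rfl, h⟩
    · exact not_isW_up h1 h2 h3 h4 (by decide)
    · exact not_isW_up h1 h2 h3 h4 (by decide)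
    · exact not_isW_up h1 h2 h3 h4 (by decide)
    · exact not_isW_upN h1 h2 h3 h

lemma FF_one {w : Half ZT} (h : D.q0 W c j k w = 0) (b : Bool) : D.FF W c j k w b = 1 := by
  unfold FF qph
  rw [h]
  simp

/-- the twist of the line -/
lemma dup_ue (b : Bool) : SixV.dup b = ue (sgn b * (kap * ((-4 : ℤ) : ℝ))) := by
  unfold SixV.dup ue kap SixV.lam
  cases b
  · simp only [Bool.false_eq_true, if_false, sgn_false]
    congr 1
    push_cast
    ring
  · simp only [if_true, sgn_true]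
    congr 1
    push_cast
    ring

/-- **the factors satisfy the hypotheses of the cut network** -/
theorem fac_FF : Fac D (dw W c j) (D.FF W c j k) where
  lowE := fun i v b h1 h2 h3 h4 => FF_one (q0_low h1 h2 h3 h4 (Or.inl rfl)) b
  lowW0 := fun v b h3 h4 => by
    unfold FF dw qph
    rw [q0_lowW h3 h4]
  lowW := fun i v b h1 h2 h3 h4 =>
    FF_one (q0_low h1.le h2 h3 h4 (Or.inr (Or.inr (Or.inl ⟨rfl, h1⟩)))) b
  lowN := fun i v b h1 h2 h3 h4 => FF_one (q0_low h1 h2 h3 h4 (Or.inr (Or.inl rfl))) b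
  lowS := fun i v b h1 h2 h3 h4 =>
    FF_one (q0_low h1 h2 h3.le h4 (Or.inr (Or.inr (Or.inr ⟨rfl, h3⟩)))) b
  upE := fun i v b h1 h2 h3 h4 => FF_one (q0_up h1 h2 h3 h4 (Or.inl rfl)) b
  upW0 := fun v b h3 h4 => by
    unfold FF dw qph
    rw [q0_upW h3 h4, dup_ue, ← ue_add]
    congr 1
    push_cast
    ring
  upW := fun i v b h1 h2 h3 h4 =>
    FF_one (q0_up h1.le h2 h3 h4 (Or.inr (Or.inr (Or.inl ⟨rfl, h1⟩)))) b
  upN := fun i v b h1 h2 h3 h4 =>
    FF_one (q0_up h1 h2 h3 (by omega) (Or.inr (Or.inr (Or.inr ⟨rfl, h4⟩)))) b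
  upS := fun i v b h1 h2 h3 h4 => FF_one (q0_up h1 h2 h3 h4 (Or.inr (Or.inl rfl))) b

lemma tw_dw : SixV.Tw (dw W c j) where
  norm := fun b => by unfold dw; rw [norm_ue]
  mul := by
    unfold dw
    rw [← ue_add]
    simp
  star := fun b => by
    unfold dw ue
    rw [Complex.star_def, ← Complex.exp_conj]
    congr 1
    rw [map_mul, Complex.conj_I, Complex.conj_ofReal]
    cases b
    · simp only [sgn_false, Bool.not_false, sgn_true]
      push_cast
      ring
    · simp only [sgn_false, Bool.not_true, sgn_true]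
      push_cast
      ring

lemma qz_z (h1 : D.l ≤ x) (h2 : x ≤ D.r) (h3 : D.b < y) (h4 : y < D.t) :
    D.qz W c j k x y (z x y) = 0 := by
  unfold qz
  have : D.q0 W c j k (z x y) = 0 := q0_low h1 h2 (by omega) (by omega) (Or.inr (Or.inl rfl))
  rw [this]
  rfl

/-- the factors with the line and the end `z` -/
theorem bz_FF (h1 : D.l ≤ x) (h2 : x ≤ D.r) (h3 : D.b < y) (h4 : y < D.t) :
    D.bz x y (D.FF W c j k) = phF (qph (D.qz W c j k x y)) (some (z x y)) := by
  funext w b
  unfold bz phF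
  by_cases hw : w = z x y
  · subst hw
    have h0 : D.q0 W c j k (z x y) = 0 :=
      q0_low h1 h2 (by omega) (by omega) (Or.inr (Or.inl rfl))
    rw [if_pos rfl, FF_one h0]
    have : lside D.l x y (z x y) = false := rfl
    rw [this]
    cases b <;> simp
  · rw [if_neg (fun h => hw h.1), if_neg (fun h => hw (Option.some.inj h).symm), one_mul]
    unfold FF qph qz
    by_cases hs : lside D.l x y w = true
    · rw [if_pos hs, if_pos hs, dup_ue, ← ue_add]
      congr 1
      push_cast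
      ring
    · rw [if_neg hs, if_neg hs, mul_one, sub_zero]

lemma bd_z (h1 : D.l ≤ x) (h2 : x ≤ D.r) (h3 : D.b < y) : Bd (D.T y) (D.gc x y) (z x y) := by
  constructor
  · show (Sum.inl (x, y - 1) : ZT) ∈ D.T y
    rw [mem_low]
    omega
  · unfold gc Surf.glue z
    simp only
    rw [zs_N_z h1 h2]

/-- **the network of the domain with a closed row as a sum over the configurations** -/
theorem net_FF {ι : Type*} [LinearOrder ι] (h1 : D.l ≤ x) (h2 : x ≤ D.r) (h3 : D.b < y) (h4 : y < D.t)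
    {o : Half ZT → ι} (ho : ∀ u, Bd (D.T y) (D.gc x y) u → ∀ v, Bd (D.T y) (D.gc x y) v →
      o u = o v → u = v) :
    Net.net (D.T y) (D.gc x y) Net.c6 (D.bz x y (D.FF W c j k)) =
      (1 / 2) ^ (D.T y).card * ∑ ω ∈ (D.T y).powerset,
        czw (D.qz W c j k x y) (D.T y) (D.gc x y) (z x y) o ω := by
  rw [bz_FF h1 h2 h3 h4, ← net_czw glu_gc (bd_z h1 h2 h3) (qz_z h1 h2 h3 h4) ho, net_same,
    cos_iso]
  rfl

end Slab

end Full
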