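import Pool.Agent.Full.X3.Rot
import Pool.Agent.Full.X3.Phase
import Pool.Agent.Full.X3.Part
import Pool.Agent.Full.LemA.Link

/-!
# The main part of the weight of a configuration

`mpart`: the sum over the positions of the charge `2` between the marks `E 1` and `E 2` of the main part of
the weight of a configuration is determined by the exit of the strand of `z`.
-/

set_option autoImplicit false

namespace Full.X3
open Full Function Relation Finset

noncomputable section

/-- `exp (-(i pi/3))` -/
def xx : ℂ := Complex.exp (-(Complex.I * (Real.pi / 3)))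

lemma xx_inv : Complex.exp (Complex.I * (Real.pi / 3)) = xx⁻¹ := by
  unfold xx
  rw [← Complex.exp_neg, neg_neg]

lemma xx_ne : xx ≠ 0 := Complex.exp_ne_zero _

lemma xx_sq : xx ^ 2 - xx + 1 = 0 := by
  have h1 : xx + xx⁻¹ = 1 := by
    rw [← xx_inv]
    unfold xx
    have h2 := Complex.two_cos ((Real.pi : ℂ) / 3)
    have h3 : Complex.cos ((Real.pi : ℂ) / 3) = 1 / 2 := by
      have := Real.cos_pi_div_three
      have h4 : Complex.cos (((Real.pi / 3 : ℝ)) : ℂ) = ((1 / 2 : ℝ) : ℂ) := by
        rw [← Complex.ofReal_cos, this]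
      push_cast at h4
      exact h4
    rw [h3] at h2
    rw [show Complex.I * ((Real.pi : ℂ) / 3) = (Real.pi : ℂ) / 3 * Complex.I by ring,
      ← neg_mul, add_comm, ← h2]
    norm_num
  have h2 : xx * (xx + xx⁻¹) = xx := by rw [h1, mul_one]
  rw [mul_add, mul_inv_cancel₀ xx_ne] at h2
  linear_combination h2

/-- the factor of the strand of `z` -/
lemma ue_dc (d : ℤ) : ue (kap * ((-4 * d : ℤ) : ℝ)) = xx ^ (-d) := by
  have e : xx ^ (-d) = Complex.exp (((-d : ℤ) : ℂ) * (-(Complex.I * (Real.pi / 3)))) := by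
    rw [Complex.exp_int_mul]
    rfl
  rw [e]
  unfold ue kap
  congr 1
  push_cast
  ring

/-- the charge of the marks read from the first mark -/
lemma dc_rp {c : Chg} {lo hi e2 j p : ℤ} (h1 : lo ≤ c.m1 ∧ c.m1 < hi) (h2 : lo ≤ c.m2)
    (h3 : c.m2 ≤ j) (h4 : j ≤ e2) (h5 : e2 < hi) (h6 : c.m1 < c.m2 ∨ e2 < c.m1)
    (h7 : lo ≤ p) (h8 : p < hi) :
    c.dc j p = LemA.kk (LemA.bg (rp lo hi c.m1 (fun q => q) c.m2)) (rp lo hi c.m1 (fun q => q) j)
      (rp lo hi c.m1 (fun q => q) p) + if c.m1 < c.m2 then 0 else 1 := by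
  have c1 := rp_cases (pos := fun q : ℤ => q) (u := c.m2) h1 h2 (by omega)
  have c2 := rp_cases (pos := fun q : ℤ => q) (u := j) h1 (by omega) (by omega)
  have c3 := rp_cases (pos := fun q : ℤ => q) (u := p) h1 h7 h8
  unfold Chg.dc stp LemA.kk LemA.bg
  generalize rp lo hi c.m1 (fun q => q) c.m2 = r1 at c1 ⊢
  generalize rp lo hi c.m1 (fun q => q) j = r2 at c2 ⊢
  generalize rp lo hi c.m1 (fun q => q) p = r3 at c3 ⊢
  by_cases g1 : c.m1 ≤ p <;> by_cases g2 : c.m2 ≤ p <;> by_cases g3 : j ≤ p <;>
    by_cases g4 : c.m1 < c.m2 <;> by_cases g5 : r1 ≤ r3 <;> by_cases g6 : r2 ≤ r3 <;>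
    simp only [g1, g2, g3, g4, g5, g6, if_true, if_false] <;> omega

variable {τ : Type*} [DecidableEq τ] {T : Finset τ} {g w : Half τ → Half τ} {ω : Finset τ}
  {z : Half τ} {lo hi : ℤ} {pos : Half τ → ℤ} {E : Fin 3 → Half τ} {S : Half τ → ZMod 2}
  {ι : Type*} [LinearOrder ι] {o : Half τ → ι}

/-- **the main part**: `q j` are the phases with the charge `2` at the gap `j` -/
theorem mpart (hG : Glu T g) (hz : Bd T g z)
    (hr : ∀ u, Bd T g u → u ≠ z → lo ≤ pos u ∧ pos u < hi)
    (hinj : ∀ u v, Bd T g u → Bd T g v → u ≠ z → v ≠ z → pos u = pos v → u = v)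
    (hsurj : ∀ p, lo ≤ p → p < hi → ∃ u, Bd T g u ∧ u ≠ z ∧ pos u = p)
    (hnc : ∀ u v, u ∈ free T g ω z → v ∈ free T g ω z → pos u < pos v →
      pos v < pos (other (mate ω) g u) → pos (other (mate ω) g u) < pos (other (mate ω) g v) →
      False)
    (hE : ∀ i, Bd T g (E i)) (hEz : ∀ i, E i ≠ z) (h12 : pos (E 1) < pos (E 2))
    (hcyc : pos (E 0) < pos (E 1) ∨ pos (E 2) < pos (E 0))
    (hw : IsW T g ({z} ∪ Set.range E) w)
    (hnear : ∀ u, Bd T g u → u ≠ z → w u ≠ u →
      rp lo hi (pos (E 0)) pos (w u) = rp lo hi (pos (E 0)) pos u + 1 ∨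
        rp lo hi (pos (E 0)) pos u = rp lo hi (pos (E 0)) pos (w u) + 1)
    {c : Chg} (hm1 : c.m1 = pos (E 0)) (hm2 : c.m2 = pos (E 1))
    (hSo : ∀ u, S (other (mate ω) g u) = S u) {q : ℤ → Half τ → ℤ}
    (hlaw1 : ∀ j ∈ Icc (pos (E 1)) (pos (E 2)), ∀ u ∈ free T g ω z, S u = 1 →
      pos u < pos (other (mate ω) g u) → zh (q j) g ω u =
        -2 - 4 * (c.dc j (pos (other (mate ω) g u)) - c.dc j (pos u)) +
        4 * (if pos u < pos (other (mate ω) g z) ∧ pos (other (mate ω) g z) <
          pos (other (mate ω) g u) then 1 else 0))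
    (hlaw0 : ∀ j ∈ Icc (pos (E 1)) (pos (E 2)), ∀ u ∈ free T g ω z, S u = 0 →
      c.dc j (pos (other (mate ω) g u)) = c.dc j (pos u))
    (hlawz : ∀ j ∈ Icc (pos (E 1)) (pos (E 2)),
      zh (q j) g ω z = -4 * c.dc j (pos (other (mate ω) g z)))
    (ho : ∀ u ∈ free T g ω z, ∀ v ∈ free T g ω z, o u = o v → u = v) :
    (∃ i, other (mate ω) w z = E i) ∧
    ∑ j ∈ Icc (pos (E 1)) (pos (E 2)),
      (∏ e ∈ mainA T g ω z S o, cwt (zh (q j) g ω e) / (Real.sqrt 3 : ℝ)) *
        ue (kap * zh (q j) g ω z) =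
      xx ^ (-(if pos (E 0) < pos (E 1) then 0 else 1 : ℤ)) *
        if other (mate ω) w z = E 0 then 0 else if other (mate ω) w z = E 1 then xx else 1 := by
  classical
  set m := pos (E 0) with hmdef
  set N := hi - lo with hN
  have rE := fun i => hr _ (hE i) (hEz i)
  have hm : lo ≤ m ∧ m < hi := rE 0
  have r1 := rE 1
  have r2 := rE 2
  have hEne : E 0 ≠ E 1 := by
    intro h
    rw [hmdef, h] at hcyc
    omega
  -- the positions of the marks
  set ps : Half τ → ℕ := rp lo hi m pos with hps
  have cs : ∀ u, Bd T g u → u ≠ z → (m ≤ pos u ∧ (ps u : ℤ) = pos u - m) ∨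
      (pos u < m ∧ (ps u : ℤ) = pos u - m + (hi - lo)) :=
    fun u hu huz => rp_cases hm (hr u hu huz).1 (hr u hu huz).2
  have c0 := cs _ (hE 0) (hEz 0)
  have c1 := cs _ (hE 1) (hEz 1)
  have c2 := cs _ (hE 2) (hEz 2)
  have hE0 : ps (E 0) = 0 := by omega
  have hps12 : ps (E 1) < ps (E 2) := by omega
  -- the shift of the gaps
  set δ : ℤ := if m < pos (E 1) then m else m - N with hδ
  have hp1 : (ps (E 1) : ℤ) = pos (E 1) - δ := by
    rw [hδ]
    split_ifs <;> omega
  have hp2 : (ps (E 2) : ℤ) = pos (E 2) - δ := by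
    rw [hδ]
    split_ifs <;> omega
  have hpj : ∀ j, pos (E 1) ≤ j → j ≤ pos (E 2) →
      (rp lo hi m (fun q => q) j : ℤ) = j - δ := by
    intro j h1 h2
    have c3 := rp_cases (pos := fun q : ℤ => q) (u := j) hm (by omega) (by omega)
    rw [hδ]
    split_ifs <;> omega
  have key := LemA.link (x := xx) (ω := ω) (w := w) (n := N.toNat) (ps := ps) hG hz
    (fun u hu huz => rp_lt hm (hr u hu huz).1 (hr u hu huz).2)
    (fun u v hu huz hv hvz h => hinj u v hu hv huz hvz
      (rp_inj hm (hr u hu huz).1 (hr u hu huz).2 (hr v hv hvz).1 (hr v hv hvz).2 h))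
    ?_ (fun u hu v hv => nc_rp hG hz hm hr hnc u v hu hv) E hE hEz hE0 hEne hps12 hw hnear xx_sq
    (fun s u => ((LemA.aw (ps (other (mate ω) g z)) (LemA.kk (LemA.bg (ps (E 1))) s) (ps u)
      (ps (other (mate ω) g u)) : ℤ) : ℂ))
    (fun s => xx ^ (-(LemA.kk (LemA.bg (ps (E 1))) s (ps (other (mate ω) g z)))))
    (fun s _ u _ _ => rfl) (fun s _ => rfl)
  · refine ⟨key.1, ?_⟩
    rw [← key.2, Finset.mul_sum]
    refine Finset.sum_nbij' (fun j => (j - δ).toNat) (fun s => (s : ℤ) + δ) ?_ ?_ ?_ ?_ ?_
    · intro j hj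
      rw [Finset.mem_Icc] at hj ⊢
      omega
    · intro s hs
      rw [Finset.mem_Icc] at hs ⊢
      omega
    · intro j hj
      rw [Finset.mem_Icc] at hj
      omega
    · intro s hs
      omega
    · intro j hj
      have hj' := Finset.mem_Icc.1 hj
      have hs : (j - δ).toNat = rp lo hi m (fun q => q) j := by
        have := hpj j hj'.1 hj'.2
        omega
      rw [hs]
      -- the charge of the marks
      have hH : ∀ u, Bd T g u → u ≠ z → c.dc j (pos u) =
          LemA.kk (LemA.bg (ps (E 1))) (rp lo hi m (fun q => q) j) (ps u) +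
            if m < pos (E 1) then 0 else 1 := by
        intro u hu huz
        have h := dc_rp (c := c) (lo := lo) (hi := hi) (e2 := pos (E 2)) (j := j) (p := pos u)
          (by rw [hm1]; exact hm) (by rw [hm2]; exact r1.1) (by rw [hm2]; exact hj'.1) hj'.2 r2.2
          (by rw [hm1, hm2]; exact hcyc) (hr u hu huz).1 (hr u hu huz).2
        rw [hm1, hm2] at h
        exact h
      have hk := hG.other_bd (ω := ω) hz
      have hkz : other (mate ω) g z ≠ z := hG.other_ne hz
      set H : ℕ → ℤ := LemA.kk (LemA.bg (ps (E 1))) (rp lo hi m (fun q => q) j) with hHd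
      -- the factor of the strand of `z`
      have e1 : ue (kap * zh (q j) g ω z) =
          xx ^ (-(if m < pos (E 1) then 0 else 1 : ℤ)) * xx ^ (-(H (ps (other (mate ω) g z)))) := by
        rw [hlawz j hj, ue_dc, hH _ hk hkz, ← zpow_add₀ xx_ne]
        congr 1
        ring
      -- the strands with the potential `1`
      have e2 : ∏ e ∈ mainA T g ω z S o, cwt (zh (q j) g ω e) / (Real.sqrt 3 : ℝ) =
          ∏ e ∈ ((free T g ω z).filter (fun e => S e = 1)).filter
            (fun e => ps e < ps (other (mate ω) g e)),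
            cwt (zh (q j) g ω e) / (Real.sqrt 3 : ℝ) := by
        have h1 : mainA T g ω z S o = ((free T g ω z).filter (fun e => S e = 1)).filter
            (fun e => o e < o (other (mate ω) g e)) := by
          unfold mainA
          rw [Finset.filter_filter]
        rw [h1]
        have h2 := LemX.prod_sel (R := ℂ) ((free T g ω z).filter (fun e => S e = 1))
          (o := other (mate ω) g) (P := fun e => o e < o (other (mate ω) g e))
          (Q := fun e => ps e < ps (other (mate ω) g e))
          (W := fun e => cwt (zh (q j) g ω e) / (Real.sqrt 3 : ℝ)) ?_ ?_ ?_ ?_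
        · convert h2
        · intro e he
          rw [Finset.mem_filter] at he ⊢
          exact ⟨⟨free_other hG hz he.1, by rw [hSo]; exact he.2⟩,
            hG.other_other (mem_free.1 he.1).1⟩
        · intro e he
          rw [Finset.mem_filter] at he
          exact order_iff hG hz ho e he.1
        · intro e he
          rw [Finset.mem_filter] at he
          refine order_iff hG hz (fun u hu v hv h => ?_) e he.1
          have bu := mem_free.1 hu
          have bv := mem_free.1 hv
          exact hinj u v bu.1 bv.1 bu.2.1 bv.2.1 (rp_inj hm (hr u bu.1 bu.2.1).1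
            (hr u bu.1 bu.2.1).2 (hr v bv.1 bv.2.1).1 (hr v bv.1 bv.2.1).2 h)
        · intro e he
          rw [Finset.mem_filter] at he
          show cwt _ / _ = cwt _ / _
          rw [zh_other hG (mem_free.1 he.1).1, cwt_neg]
      have e3 : ∏ e ∈ ((free T g ω z).filter (fun e => S e = 1)).filter
            (fun e => ps e < ps (other (mate ω) g e)),
            cwt (zh (q j) g ω e) / (Real.sqrt 3 : ℝ) =
          ∏ e ∈ (free T g ω z).filter (fun e => ps e < ps (other (mate ω) g e)),
            ((LemA.aw (ps (other (mate ω) g z)) H (ps e) (ps (other (mate ω) g e)) : ℤ) : ℂ) := by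
        rw [← Finset.prod_filter_mul_prod_filter_not
          ((free T g ω z).filter (fun e => ps e < ps (other (mate ω) g e))) (fun e => S e = 1)]
        have h1 : ∏ e ∈ ((free T g ω z).filter
            (fun e => ps e < ps (other (mate ω) g e))).filter (fun e => ¬ S e = 1),
            ((LemA.aw (ps (other (mate ω) g z)) H (ps e) (ps (other (mate ω) g e)) : ℤ) : ℂ) = 1 := by
          refine Finset.prod_eq_one fun e he => ?_
          rw [Finset.mem_filter, Finset.mem_filter] at he
          obtain ⟨⟨h2, h3⟩, h4⟩ := he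
          have h5 := hlaw0 j hj e h2 ((S_cases S e).resolve_right h4)
          have be := mem_free.1 h2
          have be' := mem_free.1 (free_other hG hz h2)
          rw [hH _ be'.1 be'.2.1, hH _ be.1 be.2.1, add_left_inj] at h5
          unfold LemA.aw
          rw [h5, sub_self, neg_zero, ite_self]
          unfold LemA.W
          simp
        rw [h1, mul_one]
        refine Finset.prod_congr ?_ fun e he => ?_
        · rw [Finset.filter_filter, Finset.filter_filter]
          exact Finset.filter_congr fun _ _ => and_comm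
        · rw [Finset.mem_filter, Finset.mem_filter] at he
          obtain ⟨⟨h2, h3⟩, h4⟩ := he
          have h5 := free_other hG hz h2
          have h6 : S (other (mate ω) g e) = 1 := by rw [hSo]; exact h4
          rw [aw_rp (dq := c.dc j) (H := H) (a := if m < pos (E 1) then 0 else 1) hG hz hm hr hinj
            hH h2 ?_ h3]
          · rw [mul_div_cancel_left₀ _ sqrt3_ne]
          · rintro v (rfl | rfl) hv
            · exact hlaw1 j hj _ h2 h4 hv
            · exact hlaw1 j hj _ h5 h6 hv
      rw [e2, e3, e1]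
      ring
  · intro s hs
    by_cases h1 : m + s < hi
    · obtain ⟨u, hu, huz, hp⟩ := hsurj (m + s) (by omega) h1
      refine ⟨u, hu, huz, ?_⟩
      have := cs u hu huz
      omega
    · obtain ⟨u, hu, huz, hp⟩ := hsurj (m + s - N) (by omega) (by omega)
      refine ⟨u, hu, huz, ?_⟩
      have := cs u hu huz
      omega

end

end Full.X3
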