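import Pool.Agent.Full.X3.Through
import Pool.Agent.Full.X3.Tr
import Pool.Agent.Full.Loc1.Pot

/-!
# A strand through the corridor

`Loc1.Channel.exists_through`: in a channel let a chain of diagonals of one colour join the floor to the
ceiling, and, to the right of it, a chain of diagonals of the other colour; then a strand joins the floor
to the ceiling between them.  `Slab.exists_throughC`: the corridor of a closed row.
-/

set_option autoImplicit false

namespace Full
open Finset Function Loc1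

/-- the box of a chain is not empty -/
theorem Block.lt' {r c d b t : ℤ} {S Q : Finset (ℤ × ℤ)} (h : Block r c d b t S Q) (hbt : b < t) :
    c < d := by
  have h3 := h.odd b (le_refl _) hbt
  have h4 : (Q.filter fun p => p.2 = b).Nonempty := by
    rw [Finset.nonempty_iff_ne_empty]
    intro h5
    rw [h5, Finset.card_empty, Nat.cast_zero] at h3
    exact zero_ne_one h3
  obtain ⟨p, hp⟩ := h4
  have h5 := h.sub p (Finset.mem_filter.1 hp).1
  omega

/-- a chain in a box is a chain for the configuration of a larger box -/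
theorem Block.pre_mono {τ : Type*} [DecidableEq τ] {φ : ℤ × ℤ → τ} {ω : Finset τ} {r c d c' d' b t : ℤ}
    {Q : Finset (ℤ × ℤ)} (h : Block r c d b t (pre φ (box c d b t) ω) Q) (hc : c' ≤ c) (hd : d ≤ d') :
    Block r c d b t (pre φ (box c' d' b t) ω) Q := by
  refine ⟨h.sub, fun p hp => ?_, h.even, h.odd⟩
  rw [← h.col p hp]
  have := h.sub p hp
  unfold pre
  rw [Finset.mem_filter, Finset.mem_filter, show p = (p.1, p.2) from rfl, mem_box, mem_box]
  constructor
  · rintro ⟨-, h6⟩; exact ⟨this, h6⟩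
  · rintro ⟨h5, h6⟩; exact ⟨by omega, h6⟩

/-- the strands between two chains of different colours in a channel are the strands of the plane box -/
theorem Loc1.Channel.tr {τ : Type*} [DecidableEq τ] {T : Finset τ} {g : Half τ → Half τ}
    {φ : ℤ × ℤ → τ} {c d b t : ℤ} (hC : Channel T g φ c d b t) (hg : Glu T g)
    {ω : Finset τ} {e c1 d1 c2 d2 : ℤ} {Q1 Q2 : Finset (ℤ × ℤ)} (he : e = 0 ∨ e = 1)
    (h1 : Block e c1 d1 b t (pre φ (box c d b t) ω) Q1)
    (h2 : Block (1 - e) c2 d2 b t (pre φ (box c d b t) ω) Q2) (hc : c ≤ c1) (hd : d2 ≤ d) :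
    Full.X3.Tr (mate ω) g (mate (pre φ (box c d b t) ω)) (plane.glue (box c d b t))
      (fun q => ((φ q.1, q.2) : Half τ))
      {q | q.1 ∈ box c d b t ∧ sep e Q1 q = 1 ∧ sep (1 - e) Q2 q = 0} := by
  have he' : (1 - e) = 0 ∨ (1 - e) = 1 := by omega
  have step : ∀ q : Half (ℤ × ℤ), q.1 ∈ box c d b t → sep e Q1 q = 1 → sep (1 - e) Q2 q = 0 →
      ((plane.glue (box c d b t) q).1 ∈ box c d b t ∧ sep e Q1 (plane.glue (box c d b t) q) = 1 ∧
        sep (1 - e) Q2 (plane.glue (box c d b t) q) = 0) := by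
    intro q hq a1 a2
    refine ⟨(plane.glu (box c d b t)).mem q hq, ?_, ?_⟩
    · rw [← a1]; exact h1.sep_conn he (Conn.g_step q)
    · rw [← a2]; exact h2.sep_conn he' (Conn.g_step q)
  refine ⟨?_, ?_, ?_, ?_, ?_⟩
  · rintro ⟨⟨i, j⟩, v⟩ ⟨a1, -, -⟩ ⟨⟨i', j'⟩, v'⟩ ⟨b1, -, -⟩ h
    rw [mem_box] at a1 b1
    have e1 := hC.inj i j i' j' a1.1.1 a1.1.2 a1.2.1 a1.2.2 b1.1.1 b1.1.2 b1.2.1 b1.2.2
      (congrArg Prod.fst h)
    have e2 : v = v' := congrArg Prod.snd h
    rw [e1.1, e1.2, e2]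
  · rintro q ⟨a1, a2, a3⟩
    exact ⟨a1, by rw [h1.sep_mate, a2], by rw [h2.sep_mate, a3]⟩
  · rintro q ⟨a1, a2, a3⟩
    exact step q a1 a2 a3
  · rintro ⟨p, v⟩ ⟨a1, -, -⟩
    show (φ p, Dir.mt (decide (φ p ∈ ω)) v) = (φ p, Dir.mt (decide (p ∈ pre φ (box c d b t) ω)) v)
    have h3 : p ∈ pre φ (box c d b t) ω ↔ φ p ∈ ω := by
      unfold pre
      rw [Finset.mem_filter]
      exact ⟨fun h => h.2, fun h => ⟨a1, h⟩⟩
    simp only [h3]
  · rintro ⟨⟨i, j⟩, v⟩ ⟨a1, a2, a3⟩
    have a1' := a1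
    rw [mem_box] at a1'
    obtain ⟨⟨c1', c2'⟩, c3', c4'⟩ := a1'
    show g (φ (i, j), v) = _
    rw [plane_glue]
    cases v with
    | E =>
      have h3 : i + 1 < d := by
        by_contra h3
        have h5 : cum Q2 j (i + 1) = 1 := h2.right (by omega) c3' c4'
        have h4 : sep (1 - e) Q2 ((i, j), .E) = 1 := h5
        rw [h4] at a3
        exact one_ne_zero a3
      rw [if_pos ⟨a1, mem_box.2 (show (c ≤ i + 1 ∧ i + 1 < d) ∧ b ≤ j + 0 ∧ j + 0 < t by omega)⟩]
      show _ = (φ (i + 1, j + 0), Dir.W)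
      rw [add_zero]
      exact hC.east i j c1' h3 c3' c4'
    | W =>
      have h3 : c < i := by
        by_contra h3
        have h5 : cum Q1 j i = 0 := h1.left (by omega)
        have h4 : sep e Q1 ((i, j), .W) = 0 := h5
        rw [h4] at a2
        exact zero_ne_one a2
      rw [if_pos ⟨a1, mem_box.2 (show (c ≤ i + -1 ∧ i + -1 < d) ∧ b ≤ j + 0 ∧ j + 0 < t by omega)⟩]
      show _ = (φ (i + -1, j + 0), Dir.E)
      rw [add_zero, ← sub_eq_add_neg]
      exact hC.west hg h3 c2' c3' c4'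
    | N =>
      by_cases h3 : j + 1 < t
      · rw [if_pos ⟨a1, by show ((i + 0, j + 1) : ℤ × ℤ) ∈ _; rw [mem_box]; omega⟩]
        show _ = (φ (i + 0, j + 1), Dir.S)
        rw [add_zero]
        exact hC.north i j c1' c2' c3' h3
      · rw [if_neg (by
          rintro ⟨-, h4⟩
          have h5 : ((i + 0, j + 1) : ℤ × ℤ) ∈ box c d b t := h4
          rw [mem_box] at h5
          omega)]
        have h4 : j = t - 1 := by omega
        subst h4
        exact hC.ceil i c1' c2'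
    | S =>
      by_cases h3 : b < j
      · rw [if_pos ⟨a1, by show ((i + 0, j + -1) : ℤ × ℤ) ∈ _; rw [mem_box]; omega⟩]
        show _ = (φ (i + 0, j + -1), Dir.N)
        rw [add_zero, ← sub_eq_add_neg]
        exact hC.south hg c1' c2' h3 c4'
      · rw [if_neg (by
          rintro ⟨-, h4⟩
          have h5 : ((i + 0, j + -1) : ℤ × ℤ) ∈ box c d b t := h4
          rw [mem_box] at h5
          omega)]
        have h4 : j = b := by omega
        subst h4
        exact hC.floor i c1' c2'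

/-- **a strand of a channel from the floor to the ceiling between two chains of different colours** -/
theorem Loc1.Channel.exists_through {τ : Type*} [DecidableEq τ] {T : Finset τ} {g : Half τ → Half τ}
    {φ : ℤ × ℤ → τ} {c d b t : ℤ} (hC : Channel T g φ c d b t) (hg : Glu T g)
    {ω : Finset τ} {e c1 d1 c2 d2 : ℤ} {Q1 Q2 : Finset (ℤ × ℤ)} (he : e = 0 ∨ e = 1) (hbt : b < t)
    (h1 : Block e c1 d1 b t (pre φ (box c1 d1 b t) ω) Q1)
    (h2 : Block (1 - e) c2 d2 b t (pre φ (box c2 d2 b t) ω) Q2) (hc : c ≤ c1) (h12 : d1 ≤ c2)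
    (hd : d2 ≤ d) :
    ∃ i i' : ℤ, (c1 ≤ i ∧ i < d2) ∧ (c1 ≤ i' ∧ i' < d2) ∧
      other (mate ω) g (φ (i, b), .S) = (φ (i', t - 1), .N) ∧
      other (mate ω) g (φ (i', t - 1), .N) = (φ (i, b), .S) := by
  have n1 := h1.lt' hbt
  have n2 := h2.lt' hbt
  have g1 := h1.pre_mono hc (by omega : d1 ≤ d)
  have g2 := h2.pre_mono (by omega : c ≤ c2) hd
  have htr := hC.tr hg he g1 g2 hc hd
  obtain ⟨i, i', hi, hi', s1, s2, h3⟩ := Full.exists_through_sep he hbt hc h12 hd g1 g2
  have hmem : ((i, b), Dir.S) ∈ {q : Half (ℤ × ℤ) | q.1 ∈ box c d b t ∧ sep e Q1 q = 1 ∧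
      sep (1 - e) Q2 q = 0} := ⟨mem_box.2 (by omega), s1, s2⟩
  have h4 := htr.other_eq hmem
  rw [h3] at h4
  have h5 : other (mate ω) g (φ (i, b), .S) = (φ (i', t - 1), .N) := h4
  have hbd : Bd T g (φ (i, b), .S) :=
    ⟨hC.mem i b (by omega) (by omega) le_rfl hbt, hC.floor i (by omega) (by omega)⟩
  refine ⟨i, i', hi, hi', h5, ?_⟩
  rw [← h5, hg.other_other hbd]

namespace Slab
variable {D : Slab} {x y a k : ℤ} {ω : Finset ZT}

/-- **a strand through the corridor of a closed row** behind the right box of a dead end, between the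
second box (a chain of the colour `0`) and the third box (a chain of the colour `1`) -/
theorem exists_throughC (hD : D.Good x y a) (hk : 0 ≤ k) (hak : 3 * k + 1 ≤ a)
    (h1 : ∃ Q, Block 0 (D.r - a + 1 + k) (D.r - a + 1 + 2 * k) D.b D.t
      (pre (phR y) (box (D.r - a + 1 + k) (D.r - a + 1 + 2 * k) D.b D.t) ω) Q)
    (h2 : ∃ Q, Block 1 (D.r - a + 1 + 2 * k) (D.r - a + 1 + 3 * k) D.b D.t
      (pre (phR y) (box (D.r - a + 1 + 2 * k) (D.r - a + 1 + 3 * k) D.b D.t) ω) Q) :
    ∃ i i' : ℤ, (-a + 1 + k ≤ i ∧ i < -a + 1 + 3 * k) ∧ (-a + 1 + k ≤ i' ∧ i' < -a + 1 + 3 * k) ∧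
      other (mate ω) (D.gc x y) (phC D.l D.r y (i, D.b), .S) = (phC D.l D.r y (i', D.t - 1), .N) ∧
      other (mate ω) (D.gc x y) (phC D.l D.r y (i', D.t - 1), .N) = (phC D.l D.r y (i, D.b), .S) := by
  obtain ⟨Q1, h1⟩ := h1
  obtain ⟨Q2, h2⟩ := h2
  have xl := hD.xl
  have xr := hD.xr
  have ha := hD.pos
  have hC := channelR hD.dead D.b D.t hD.xr (by omega) hD.yb hD.yt (x := x)
  obtain ⟨i, i', hi, hi', h3, h4⟩ := hC.exists_through glu_gc (e := 0) (Or.inl rfl) hD.bt h1
    (by rw [sub_zero]; exact h2) (by omega) le_rfl (by omega)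
  refine ⟨i - D.r, i' - D.r, by omega, by omega, ?_, ?_⟩
  · rw [phC_neg (by omega), phC_neg (by omega), show D.r + (i - D.r) = i by ring,
      show D.r + (i' - D.r) = i' by ring]
    exact h3
  · rw [phC_neg (by omega), phC_neg (by omega), show D.r + (i - D.r) = i by ring,
      show D.r + (i' - D.r) = i' by ring]
    exact h4

end Slab

end Full
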