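import Pool.Agent.Full.X3.DeadDc
import Pool.Agent.Full.X3.MPart
import Pool.Agent.Full.X3.ThroughC
import Pool.Agent.Full.X3.Stat

/-!
# The amplitude on the good event

`amp_good`: on the good event the amplitude is the value of the exit of `z`, up to a constant.
-/

set_option autoImplicit false

namespace Full
open Full.X3 Function Finset Loc1 Pool.Agent.Helper69.RSW

namespace Slab
variable {D : Slab} {W : Lab} {c : Chg} {a nL nU x y j k k' : ℤ} {ω : Finset ZT}
  {S : Half ZT → ZMod 2} {E : Fin 3 → Half ZT}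

/-- the number of ends of the domain with the closed row -/
theorem card_gc (hE : D.Ends x y) (hl : D.l ≤ x) (hr : x ≤ D.r) (hb : D.b < y) (ht : y < D.t)
    (hW : W.Ok D a nL nU) (ha : 0 < a) :
    ((ends (D.T y) (D.gc x y)).card : ℤ) = nL + nU + 1 := by
  classical
  have h1 := gnL_pos hW ha
  have h2 := gnU_pos hW ha
  have h3 := hW.P_eq
  have hz : z x y ∈ ends (D.T y) (D.gc x y) := mem_ends.2 (bd_z hl hr hb)
  have e1 : ((ends (D.T y) (D.gc x y)).erase (z x y)).image W.pos =
      Finset.Ico 0 nL ∪ Finset.Ico W.P (W.P + nU) := by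
    ext p
    rw [Finset.mem_image, Finset.mem_union, Finset.mem_Ico, Finset.mem_Ico]
    constructor
    · rintro ⟨u, hu, rfl⟩
      rw [Finset.mem_erase, mem_ends] at hu
      have h4 := (hE.gc u).1 ⟨hu.2, hu.1⟩
      obtain ⟨t | t, d⟩ := u
      · exact Or.inl (hW.low t d h4)
      · exact Or.inr (hW.up t d h4)
    · intro hp
      obtain ⟨u, hu, hp⟩ := hW.surj p hp
      have h4 := (hE.gc u).2 hu
      exact ⟨u, Finset.mem_erase.2 ⟨h4.2, mem_ends.2 h4.1⟩, hp⟩
  have e2 : (((ends (D.T y) (D.gc x y)).erase (z x y)).image W.pos).card =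
      ((ends (D.T y) (D.gc x y)).erase (z x y)).card := by
    refine Finset.card_image_of_injOn fun u hu v hv h => ?_
    rw [Finset.mem_coe, Finset.mem_erase, mem_ends] at hu hv
    exact hW.inj u v ((hE.gc u).1 ⟨hu.2, hu.1⟩) ((hE.gc v).1 ⟨hv.2, hv.1⟩) h
  have e3 : (Finset.Ico 0 nL ∪ Finset.Ico W.P (W.P + nU)).card = nL.toNat + nU.toNat := by
    rw [Finset.card_union_of_disjoint, Int.card_Ico, Int.card_Ico]
    · congr 2
      · ring_nf
      · ring_nf
    · rw [Finset.disjoint_left]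
      intro p hp hp'
      rw [Finset.mem_Ico] at hp hp'
      omega
  rw [e1, e3] at e2
  have e4 := Finset.card_erase_add_one hz
  omega

/-- the number of strands -/
theorem card_na (hE : D.Ends x y) (hl : D.l ≤ x) (hr : x ≤ D.r) (hb : D.b < y) (ht : y < D.t)
    (hW : W.Ok D a nL nU) (ha : 0 < a) :
    (arcs (D.T y) (D.gc x y) ω (some (z x y)) (oz W x y)).card = na nL nU := by
  have h1 := card_arcs (ω := ω) (o := oz W x y) glu_gc (bd_z hl hr hb)
    (oz_inj (fun u hu hz => (hE.gc u).1 ⟨hu, hz⟩) hW)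
  have h2 := card_gc hE hl hr hb ht hW ha
  unfold na
  omega

/-- the phase of a wall in front of the chains -/
theorem q0_front (ht : y < D.t) (hW : W.Ok D a nL nU) (hbt : D.b < D.t) {c1 d1 c2 d2 : ℤ}
    (hS : D.Pot x y a c1 d1 c2 d2 ω S) (h1 : d2 ≤ D.r + c.m4) (h2 : -a ≤ c.m4) (h3 : c.m4 ≤ k')
    (h4 : k' < 0) {u : Half ZT} (hu : D.IsW u) (hu1 : S u = 1) :
    D.q0 W c j k' u = -W.th u - 4 * c.dc j (W.pos u) := by
  rw [q0_wall hu, tc_front ht hW hbt hS h1 h2 h3 h4 hu hu1, add_zero]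

/-- the marks are not in the dead ends -/
theorem marks_far (hE : MarksOk D W a nL nU E) (i : Fin 3) : Slab.Far W a nL nU (W.pos (E i)) := by
  unfold Slab.Far
  rcases hE.far i with h | h
  · left; omega
  · right; omega

/-- nor are the gaps between `E 1` and `E 2` -/
theorem gap_far (hE : MarksOk D W a nL nU E) (hP : nL ≤ W.P) (ha : 0 < a)
    (h1 : W.pos (E 1) ≤ j) (h2 : j ≤ W.pos (E 2)) : Slab.Far W a nL nU j := by
  unfold Slab.Far
  have f1 := hE.far 1
  have f2 := hE.far 2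
  rcases hE.side with h | h
  · left
    omega
  · right
    omega

/-- the potential is constant along the strands -/
lemma S_other_go {c1 d1 c2 d2 : ℤ} (hS : D.Pot x y a c1 d1 c2 d2 ω S) (u : Half ZT) :
    S (other (mate ω) (D.go x y) u) = S u := by
  have key : ∀ n, S ((D.go x y ∘ mate ω)^[n] u) = S u := by
    intro n
    induction n with
    | zero => rfl
    | succ n ih => rw [iterate_succ_apply', comp_apply, hS.go, hS.mate, ih]
  exact key _

/-- the ends in front of the chains are walls -/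
lemma front_isW (hEn : D.Ends x y) (hb : D.b < y) (ht : y < D.t) {c1 d1 c2 d2 : ℤ}
    (hS : D.Pot x y a c1 d1 c2 d2 ω S) (h0 : D.l < c1) (h0' : d2 < D.r) {v : Half ZT}
    (hv : S v = 1) (b1 : Bd (D.T y) (D.go x y) v) (b2 : v ≠ z x y) : D.IsW v := by
  rcases (hEn.go v).1 ⟨b1, b2⟩ with h | h
  · exact h
  · have := side_zero hb ht hS h0 h0' h
    rw [hv] at this
    exact absurd this one_ne_zero

/-- a strand in front of the chains, in the domain with the end `z` -/
theorem zh_front (H : GoOk D x y) (hlx : D.l < x) (hW : W.Ok D a nL nU) (hEn : D.Ends x y)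
    (hbt : D.b < D.t) {c1 d1 c2 d2 : ℤ}
    (hS : D.Pot x y a c1 d1 c2 d2 ω S) (h0 : D.l < c1) (h0' : d2 < D.r) (h1 : d2 ≤ D.r + c.m4)
    (h2 : -a ≤ c.m4) (h3 : c.m4 ≤ k') (h4 : k' < 0) {u : Half ZT}
    (hu : u ∈ free (D.T y) (D.go x y) ω (z x y)) (hu1 : S u = 1)
    (hlt : W.pos u < W.pos (other (mate ω) (D.go x y) u)) :
    zh (D.qz W c j k' x y) (D.go x y) ω u =
      -2 - 4 * (c.dc j (W.pos (other (mate ω) (D.go x y) u)) - c.dc j (W.pos u)) +
        4 * (if W.pos u < W.pos (other (mate ω) (D.go x y) (z x y)) ∧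
          W.pos (other (mate ω) (D.go x y) (z x y)) < W.pos (other (mate ω) (D.go x y) u)
          then 1 else 0) := by
  have hz : Bd (D.T y) (D.go x y) (z x y) := bd_zo hlx.le H.xr.le H.by'
  have hP : ∀ v, S v = 1 → Bd (D.T y) (D.go x y) v → v ≠ z x y → D.IsW v :=
    fun v => front_isW hEn H.by' H.yt hS h0 h0'
  have hS1 : S (other (mate ω) (D.go x y) u) = 1 := (S_other_go hS u).trans hu1
  have b := mem_free.1 hu
  have b' := mem_free.1 (free_other glu_go hz hu)
  rw [arc_law H hlx hW hEn hu hlt, q0_front H.yt hW hbt hS h1 h2 h3 h4 (hP _ hu1 b.1 b.2.1) hu1,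
    q0_front H.yt hW hbt hS h1 h2 h3 h4 (hP _ hS1 b'.1 b'.2.1) hS1]
  ring

/-- the strands in front of the chains do not see the trio -/
theorem zh_indep (hEn : D.Ends x y) (hl : D.l ≤ x) (hr : x ≤ D.r) (hb : D.b < y) (ht : y < D.t)
    (hW : W.Ok D a nL nU) {c1 d1 c2 d2 : ℤ}
    (hS : D.Pot x y a c1 d1 c2 d2 ω S) (h0 : D.l < c1) (h0' : d2 < D.r) (h1 : d2 ≤ D.r + c.m4)
    (h2 : -a ≤ c.m4) (h3 : c.m4 ≤ k') (h4 : k' < 0) {u : Half ZT}
    (hu : Bd (D.T y) (D.go x y) u) (hu1 : S u = 1) :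
    zh (D.qz W c j k' x y) (D.go x y) ω u = zh (D.qz W c j c.m4 x y) (D.go x y) ω u := by
  have key : ∀ v, Bd (D.T y) (D.go x y) v → S v = 1 → D.q0 W c j k' v = D.q0 W c j c.m4 v := by
    intro v hv hv1
    by_cases hvz : v = z x y
    · have e : ∀ k, D.q0 W c j k (z x y) = 0 := fun k =>
        q0_low hl hr (by omega) (by omega) (Or.inr (Or.inl rfl))
      rw [hvz, e, e]
    · have hw := front_isW hEn hb ht hS h0 h0' hv1 hv hvz
      rw [q0_front ht hW (by omega) hS h1 h2 h3 h4 hw hv1,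
        q0_front ht hW (by omega) hS h1 h2 le_rfl (by omega) hw hv1]
  rw [zh_qz hEn, zh_qz hEn, key u hu hu1,
    key _ (glu_go.other_bd hu) ((S_other_go hS u).trans hu1)]

/-- the strand of `z` -/
theorem zh_z (H : GoOk D x y) (hlx : D.l < x) (hW : W.Ok D a nL nU) (hEn : D.Ends x y)
    (hbt : D.b < D.t) {c1 d1 c2 d2 : ℤ}
    (hS : D.Pot x y a c1 d1 c2 d2 ω S) (h0 : D.l < c1) (h0' : d2 < D.r) (h1 : d2 ≤ D.r + c.m4)
    (h2 : -a ≤ c.m4) (h3 : c.m4 ≤ k') (h4 : k' < 0) :
    zh (D.qz W c j k' x y) (D.go x y) ω (z x y) =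
      -4 * c.dc j (W.pos (other (mate ω) (D.go x y) (z x y))) := by
  have hz : Bd (D.T y) (D.go x y) (z x y) := bd_zo hlx.le H.xr.le H.by'
  have hk := glu_go.other_bd (ω := ω) hz
  have hkz : other (mate ω) (D.go x y) (z x y) ≠ z x y := glu_go.other_ne hz
  have hS1 : S (other (mate ω) (D.go x y) (z x y)) = 1 := (S_other_go hS _).trans hS.z
  have hwk : D.IsW (other (mate ω) (D.go x y) (z x y)) :=
    front_isW hEn H.by' H.yt hS h0 h0' hS1 hk hkz
  rw [z_law H hlx hW hEn hlx.le H.xr.le H.by' H.yt,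
    q0_front H.yt hW hbt hS h1 h2 h3 h4 hwk hS1]
  ring

/-- **X3b**: on the good event the amplitude is the value of the exit of `z`, up to a constant -/
theorem amp_exit (hD : D.Good x y a) (H : GoOk D x y) (hk : 1 ≤ k) (hak : 3 * k + 3 ≤ a)
    (hW : W.Ok D a nL nU) (hE : MarksOk D W a nL nU E) {w : Half ZT → Half ZT}
    (hw : Full.IsW (D.T y) (D.go x y) ({z x y} ∪ Set.range E) w) (hG : D.GoodC y a k ω) :
    (∃ i, other (mate ω) w (z x y) = E i) ∧
    D.amp W (chgOf W E a k) nL nU (Icc (W.pos (E 1)) (W.pos (E 2))) (-a + 2 + 3 * k) x y ω =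
      xx ^ (-(if W.pos (E 0) < W.pos (E 1) then 0 else 1 : ℤ)) *
        if other (mate ω) w (z x y) = E 0 then 0 else
          if other (mate ω) w (z x y) = E 1 then xx else 1 := by
  classical
  have hb := H.by'
  have ht := H.yt
  have ha := hD.pos
  have hlx : D.l < x := by have := hD.xl; omega
  have hxr := H.xr
  have hEn : D.Ends x y := ends_mk hlx.le hxr.le hb ht
  have hP := hW.P_eq
  have hnLP : nL ≤ W.P := by omega
  obtain ⟨S, QL, QR, hS, hB, hzone⟩ := hG.exists_zone hD hk hak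
  have hpart := hS.part hD (by omega) (by omega)
  have hGo : Glu (D.T y) (D.go x y) := glu_go
  have hGc : Glu (D.T y) (D.gc x y) := glu_gc
  have hz : Bd (D.T y) (D.go x y) (z x y) := bd_zo hlx.le hxr.le hb
  have hzc : Bd (D.T y) (D.gc x y) (z x y) := bd_z hlx.le hxr.le hb
  set c := chgOf W E a k with hc
  have m4 : c.m4 = -a + 1 + k := rfl
  have F1 : Far W a nL nU c.m1 := marks_far hE 0
  have F2 : Far W a nL nU c.m2 := marks_far hE 1
  -- a strand from the ceiling to the floor in the corridor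
  obtain ⟨i1, i2, hi1, hi2, -, hthr⟩ := exists_throughC hD (by omega) (by omega) hG.mid hG.mid'
  have hoc := oz_inj (fun u hu hz => (hEn.gc u).1 ⟨hu, hz⟩) hW (x := x) (y := y)
  -- the main part
  have M := mpart (T := D.T y) (g := D.go x y) (w := w) (ω := ω) (z := z x y) (lo := D.glo y)
    (hi := D.ghi W nU y) (pos := W.pos) (E := E) (S := S) (o := oz W x y) (c := c)
    (q := fun j => D.qz W c j c.m4 x y) hGo hz
    (fun u hu huz => side_pos hW (by omega) hb ht ((hEn.go u).1 ⟨hu, huz⟩))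
    (fun u v hu hv huz hvz h => side_inj hW (by omega) hb ht ((hEn.go u).1 ⟨hu, huz⟩)
      ((hEn.go v).1 ⟨hv, hvz⟩) h)
    (fun p h1 h2 => by
      obtain ⟨u, hu, hp⟩ := side_surj hW (by omega) hb ht h1 h2
      have := (hEn.go u).2 hu
      exact ⟨u, this.1, this.2, hp⟩)
    (go_nc H hlx hW)
    (fun i => ((hEn.go _).2 (Or.inl (hE.wall i))).1)
    (fun i => ((hEn.go _).2 (Or.inl (hE.wall i))).2) hE.lt hE.cyc hw ?_ rfl rfl
    (fun u => S_other_go hS u) ?_ ?_ ?_ ?_
  · refine ⟨M.1, ?_⟩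
    rw [← M.2]
    unfold amp
    rw [div_eq_iff (pow_ne_zero _ sqrt3_ne), Finset.sum_mul]
    refine Finset.sum_congr rfl fun j hj => ?_
    rw [Finset.mem_Icc] at hj
    have Fj : Far W a nL nU j := gap_far hE hnLP (by omega) hj.1 hj.2
    have e1 : ∀ k' ∈ Icc c.m4 (-a + 2 + 3 * k),
        czw (D.qz W c j k' x y) (D.T y) (D.gc x y) (z x y) (oz W x y) ω =
        ((Real.sqrt 3 : ℝ) : ℂ) ^ na nL nU *
          ((∏ e ∈ mainA (D.T y) (D.go x y) ω (z x y) S (oz W x y),
            cwt (zh (D.qz W c j c.m4 x y) (D.go x y) ω e) / (Real.sqrt 3 : ℝ)) *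
            ue (kap * zh (D.qz W c j c.m4 x y) (D.go x y) ω (z x y))) *
          ∏ p ∈ corA (phC D.l D.r y) (-a) a D.b D.t ω S (oz W x y),
            cwt (zh (fun p => D.qz W c j k' x y (hp (phC D.l D.r y) p))
              (plane.glue (box (-a) a D.b D.t)) (pre (phC D.l D.r y) (box (-a) a D.b D.t) ω) p) /
              (Real.sqrt 3 : ℝ) := by
      intro k' hk'
      rw [Finset.mem_Icc] at hk'
      rw [hpart.czw_part_norm (q₀ := D.qz W c j k' x y) hGc hzc hS.z (fun _ _ => rfl) ?_ ?_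
        (fun e => cwt (zh (D.qz W c j c.m4 x y) (D.go x y) ω e) / (Real.sqrt 3 : ℝ))
        (fun p => cwt (zh (fun p => D.qz W c j k' x y (hp (phC D.l D.r y) p))
              (plane.glue (box (-a) a D.b D.t)) (pre (phC D.l D.r y) (box (-a) a D.b D.t) ω) p) /
              (Real.sqrt 3 : ℝ)) ?_ ?_, card_na hEn hlx.le hxr.le hb ht hW (by omega),
        zh_indep hEn hlx.le hxr.le hb ht hW hS (by omega) (by omega) (by omega) (by omega) hk'.1
          (by omega) hz hS.z]
      · intro u _ _ hcl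
        exact cwt_four' (loop_law H hEn hcl)
      · intro p hp1 hp2 hcl
        exact cor_loop hD hb ht hW F1 F2 Fj (by omega) hk'.1 (by omega) hS (by omega) (by omega)
          hp1 hp2 hcl
      · intro e he
        unfold mainA at he
        rw [Finset.mem_filter] at he
        rw [zh_indep hEn hlx.le hxr.le hb ht hW hS (by omega) (by omega) (by omega) (by omega)
          hk'.1 (by omega) (mem_free.1 he.1).1 he.2.1, mul_div_cancel₀ _ sqrt3_ne]
      · intro p _
        rw [mul_div_cancel₀ _ sqrt3_ne]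
    rw [Finset.sum_congr rfl e1, ← Finset.mul_sum,
      cor_sum hD hb ht hW F1 F2 Fj (by omega) (by omega) hS (by omega) (by omega) (by omega) hoc
        (i₀ := i2) (by omega) (by omega) (by omega) (by rw [hthr]; simp)]
    ring
  · intro u hu huz hwu
    have f0 := hE.far 0
    have hnL := gnL_pos hW (by omega)
    have p0 := side_pos hW (by omega) hb ht (Or.inl (hE.wall 0) : _ ∨ D.Side y (E 0))
    have q0 := (hEn.go _).2 (Or.inl (hE.wall 0))
    refine near_rp hW (by omega) hb ht hlx hxr hEn hw (Or.inl rfl) (Or.inr ⟨0, rfl⟩) q0.1 q0.2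
      ⟨?_, p0.2⟩ u hu huz hwu
    unfold glo
    omega
  · intro j hj u hu hu1 hlt
    exact zh_front H hlx hW hEn (by omega) hS (by omega) (by omega) (by omega) (by omega) le_rfl
      (by omega) hu hu1 hlt
  · intro j hj u hu hu0
    rw [Finset.mem_Icc] at hj
    exact dc_back hD hb ht hW F1 F2 (gap_far hE hnLP (by omega) hj.1 hj.2) hS (by omega) (by omega)
      hB hzone (mem_free.1 hu).1 hu0
  · intro j hj
    exact zh_z H hlx hW hEn (by omega) hS (by omega) (by omega) (by omega) (by omega) le_rfl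
      (by omega)
  · intro u hu v hv h
    have bu := mem_free.1 hu
    have bv := mem_free.1 hv
    unfold oz at h
    rw [if_neg bu.2.1, if_neg bv.2.1, WithBot.coe_inj] at h
    exact side_inj hW (by omega) hb ht ((hEn.go u).1 ⟨bu.1, bu.2.1⟩) ((hEn.go v).1 ⟨bv.1, bv.2.1⟩) h

/-- **X3b**, in terms of the value of the exit -/
theorem amp_good (hD : D.Good x y a) (H : GoOk D x y) (hk : 1 ≤ k) (hak : 3 * k + 3 ≤ a)
    (hW : W.Ok D a nL nU) (hE : MarksOk D W a nL nU E) {w : Half ZT → Half ZT}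
    (hw : Full.IsW (D.T y) (D.go x y) ({z x y} ∪ Set.range E) w) (hG : D.GoodC y a k ω) :
    D.ampE W a nL nU k E x y ω = cE W E * (val E (other (mate ω) w (z x y)) - 1) := by
  obtain ⟨⟨i, hi⟩, h1⟩ := amp_exit hD H hk hak hW hE hw hG
  unfold ampE
  rw [h1, hi]
  have h12 := hE.lt
  have hcyc := hE.cyc
  have n01 : E 0 ≠ E 1 := fun h => by rw [h] at hcyc; omega
  have n02 : E 0 ≠ E 2 := fun h => by rw [h] at hcyc; omega
  have n12 : E 1 ≠ E 2 := fun h => by rw [h] at h12; omega
  have hinj : Function.Injective E := by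
    intro i j hij
    fin_cases i <;> fin_cases j <;> simp_all [eq_comm]
  rw [val_apply hinj]
  -- the constants
  have hτ : Complex.exp (2 * Real.pi * Complex.I / 3) = xx⁻¹ * xx⁻¹ := by
    rw [← xx_inv, ← Complex.exp_add]
    congr 1
    ring
  have hτ1 : Complex.exp (2 * Real.pi * Complex.I / 3) - 1 ≠ 0 := by
    intro h
    rw [hτ, sub_eq_zero, ← mul_inv, inv_eq_one] at h
    have h2 := xx_sq
    have h3 : xx = 2 := by linear_combination h - h2
    rw [h3] at h
    norm_num at h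
  have hxx : xx * (xx⁻¹ * xx⁻¹ + 1) = 1 := by
    have h2 := xx_sq
    have h3 := xx_ne
    field_simp
    linear_combination h2
  have hc : cE W E = xx ^ (-(if W.pos (E 0) < W.pos (E 1) then 0 else 1 : ℤ)) *
      (xx / (Complex.exp (2 * Real.pi * Complex.I / 3) - 1)) := by
    unfold cE
    congr 1
    by_cases h : W.pos (E 0) < W.pos (E 1)
    · simp only [h, if_true]
      simp
    · simp only [h, if_false]
      rw [mul_one, xx_inv]
      simp
  rw [hc]
  fin_cases i
  · simp
  · simp only [Fin.mk_one, Fin.isValue, pow_one]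
    rw [if_neg n01.symm, if_true, mul_assoc, div_mul_cancel₀ _ hτ1]
  · show _ * (if E 2 = E 0 then 0 else if E 2 = E 1 then xx else 1) =
      _ * (_ / _) * (Complex.exp (2 * Real.pi * Complex.I / 3) ^ 2 - 1)
    rw [if_neg n02.symm, if_neg n12.symm, mul_assoc]
    congr 1
    have e : Complex.exp (2 * Real.pi * Complex.I / 3) ^ 2 - 1 =
      (Complex.exp (2 * Real.pi * Complex.I / 3) - 1) *
        (Complex.exp (2 * Real.pi * Complex.I / 3) + 1) := by ring
    rw [e, ← mul_assoc, div_mul_cancel₀ _ hτ1, hτ]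
    exact hxx.symm

end Slab

end Full
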