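import Pool.Agent.Full.X3.Split
import Pool.Agent.Full.LemX.Trio

/-!
# The weight of a configuration does not depend on the order of the ends
-/

set_option autoImplicit false

namespace Full.X3
open Full Function Relation Finset

noncomputable section

variable {τ : Type*} [DecidableEq τ] {T : Finset τ} {g : Half τ → Half τ} {q : Half τ → ℤ}
  {ω : Finset τ} {z : Half τ} {ι κ : Type*} [LinearOrder ι] [LinearOrder κ] {o : Half τ → ι}
  {o' : Half τ → κ}

lemma order_iff (hG : Glu T g) (hz : Bd T g z)
    (ho : ∀ x ∈ free T g ω z, ∀ y ∈ free T g ω z, o x = o y → x = y) :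
    ∀ e ∈ free T g ω z,
      (o (other (mate ω) g e) < o (other (mate ω) g (other (mate ω) g e)) ↔
        ¬ o e < o (other (mate ω) g e)) := by
  intro e he
  have h2 := (mem_free.1 he).1
  rw [hG.other_other h2, not_lt]
  refine ⟨fun h => h.le, fun h => lt_of_le_of_ne h fun h3 => ?_⟩
  exact hG.other_ne h2 (ho _ (free_other hG hz he) _ he h3)

/-- one end of every strand: the product does not depend on the choice -/
theorem prod_order (hG : Glu T g) (hz : Bd T g z) {F : Half τ → ℂ}
    (hF : ∀ e ∈ free T g ω z, F (other (mate ω) g e) = F e)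
    (ho : ∀ x ∈ free T g ω z, ∀ y ∈ free T g ω z, o x = o y → x = y)
    (ho' : ∀ x ∈ free T g ω z, ∀ y ∈ free T g ω z, o' x = o' y → x = y) :
    ∏ e ∈ (free T g ω z).filter (fun e => o e < o (other (mate ω) g e)), F e =
      ∏ e ∈ (free T g ω z).filter (fun e => o' e < o' (other (mate ω) g e)), F e := by
  classical
  have h2 := LemX.prod_sel (R := ℂ) (free T g ω z) (o := other (mate ω) g)
    (P := fun e => o e < o (other (mate ω) g e)) (Q := fun e => o' e < o' (other (mate ω) g e))
    (fun e he => ⟨free_other hG hz he, hG.other_other (mem_free.1 he).1⟩)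
    (order_iff hG hz ho) (order_iff hG hz ho') hF
  convert h2

/-- the weight of a configuration does not depend on the order -/
theorem czw_order (hG : Glu T g) (hz : Bd T g z)
    (ho : ∀ x, Bd T g x → ∀ y, Bd T g y → o x = o y → x = y)
    (ho' : ∀ x, Bd T g x → ∀ y, Bd T g y → o' x = o' y → x = y) :
    czw q T g z o ω = czw q T g z o' ω := by
  classical
  unfold czw
  rw [arcs_eq hG hz, arcs_eq hG hz]
  congr 2
  have h := prod_order (F := fun e => cwt (zh q g ω e)) (o := o) (o' := o') hG hz
    (fun e he => by
      show cwt _ = cwt _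
      rw [zh_other hG (mem_free.1 he).1, cwt_neg])
    (fun x hx y hy => ho x (mem_free.1 hx).1 y (mem_free.1 hy).1)
    (fun x hx y hy => ho' x (mem_free.1 hx).1 y (mem_free.1 hy).1)
  convert h

end

end Full.X3
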