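import Pool.Agent.Full.Def.Geo
import Pool.Agent.Full.Disc.Rows
import Pool.Agent.Full.Disc.Pos
import Pool.Agent.Full.Corner.Shapes
import Pool.Agent.Full.Turn.Final
import Pool.Agent.Full.X3.Mod

/-!
# The turning law in a rectangle

Positions `ps` of the boundary half edges of the rectangle `box c d b t`, counterclockwise from the lower
left corner.
* `rect_turn` : the turning of the strand from `e` to a later end `e'` is `num e' - num e - 2`;
* `rect_nc` : the strands do not cross;
* `rect_closed` : closed strands turn by `4` or `-4`.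
-/

set_option autoImplicit false

namespace Full.X3
open Full Function Relation Finset

section turning
variable {τ : Type*} [DecidableEq τ]

/-- the two descriptions of a quarter turn -/
lemma tr_qt (ω : Finset τ) (x : Half τ) : tr ω (mate ω x) = Net.qt ω x := by
  obtain ⟨s, v⟩ := x
  unfold tr Net.qt mate rho
  by_cases h : s ∈ ω
  · cases v <;> simp [h, Dir.mt, Dir.tt, Dir.ccw]
  · cases v <;> simp [h, Dir.mt, Dir.tt, Dir.ccw]

lemma tn_turn (g : Half τ → Half τ) (ω : Finset τ) (n : ℕ) (x : Half τ) :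
    tn g ω n x = Net.turn ω g n x := by
  unfold tn Net.turn
  exact Finset.sum_congr rfl fun k _ => tr_qt _ _

lemma tn_sturn (g : Half τ → Half τ) (ω : Finset τ) (x : Half τ) :
    tn g ω (hl (mate ω) g x) x = Net.sturn ω g x := tn_turn _ _ _ _

end turning

/-- the position on the boundary of a rectangle, counterclockwise from the lower left corner -/
def ps (c d b t : ℤ) (x : Half (ℤ × ℤ)) : ℤ :=
  match x.2 with
  | .S => x.1.1 - c
  | .E => (d - c) + (x.1.2 - b)
  | .N => (d - c) + (t - b) + (d - 1 - x.1.1)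
  | .W => 2 * (d - c) + (t - b) + (t - 1 - x.1.2)

variable {c d b t : ℤ}

/-- labels of the rectangle -/
theorem lab_box (c d b t : ℤ) : Shp.Lab (box c d b t) (plane.glue (box c d b t))
    (2 * (d - c) + 2 * (t - b)) (ps c d b t) (fun x => x.2.num) := by
  refine ⟨?_, ?_, ?_⟩
  · rintro ⟨⟨i, j⟩, v⟩ hx
    rw [Shp.bd_plane] at hx
    cases v <;> simp only [Dir.vec, Prod.mk_add_mk, mem_box, ps] at hx ⊢ <;> omega
  · rintro ⟨⟨i, j⟩, v⟩ ⟨⟨i', j'⟩, v'⟩ hx hy hxy
    rw [Shp.bd_plane] at hx hy
    cases v <;> cases v' <;> simp only [Dir.vec, Prod.mk_add_mk, mem_box, ps, Prod.mk.injEq,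
      and_true, and_false, reduceCtorEq] at hx hy hxy ⊢ <;> omega
  · rintro ⟨⟨i, j⟩, v⟩ hx hL
    have hx' := Shp.bd_plane.1 hx
    rcases Shp.step_plane hx with ⟨h1, h2, h3⟩ | ⟨h1, h1', h2, h3⟩ | ⟨h1, h1', h2, h3⟩ <;>
      rw [h2, h3] <;> cases v <;>
      simp only [Dir.vec, Dir.ccw, Dir.cw, Prod.mk_add_mk, mem_box, ps, Dir.num] at * <;> omega

theorem good_box (c d b t : ℤ) : Turn.Good (box c d b t) (plane.glue (box c d b t)) where
  glu := plane.glu _
  straight := plane.straight_glue _
  flat := Shp.flat_plane _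
  op := Shp.open_plane _
  sc := by
    refine Shp.isPlane_plane.sc fun p hp => ?_
    have h := Disc.noHole_box c d b t p (fun h => hp ?_)
    · refine Disc.Free.mono (fun x hx => ?_) h
      obtain ⟨i, j⟩ := x
      exact mem_box.1 (Finset.mem_coe.1 hx)
    · obtain ⟨i, j⟩ := p
      exact mem_box.2 h

/-- **the turning law of the rectangle** -/
theorem rect_turn (ω : Finset (ℤ × ℤ)) {e : Half (ℤ × ℤ)}
    (he : Bd (box c d b t) (plane.glue (box c d b t)) e)
    (hlt : ps c d b t e < ps c d b t (other (mate ω) (plane.glue (box c d b t)) e)) :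
    tn (plane.glue (box c d b t)) ω (hl (mate ω) (plane.glue (box c d b t)) e) e =
      (other (mate ω) (plane.glue (box c d b t)) e).2.num - e.2.num - 2 := by
  rw [tn_sturn]
  have hL := lab_box c d b t
  exact (good_box c d b t).sturn_lab ω (L := 2 * (d - c) + 2 * (t - b)) (ps c d b t)
    (fun x => x.2.num) (fun x hx y hy h => hL.inj x y hx hy h) (fun x hx => (hL.rng x hx).2)
    (fun x hx h => hL.step x hx h) he hlt

/-- closed strands -/
theorem rect_closed {ω : Finset (ℤ × ℤ)} (hω : ω ⊆ box c d b t) {x : Half (ℤ × ℤ)}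
    (hx : x.1 ∈ box c d b t)
    (hc : ∀ y, Conn (mate ω) (plane.glue (box c d b t)) x y → plane.glue (box c d b t) y ≠ y) :
    tn (plane.glue (box c d b t)) ω
      (minimalPeriod (plane.glue (box c d b t) ∘ mate ω) x) x = 4 ∨
    tn (plane.glue (box c d b t)) ω
      (minimalPeriod (plane.glue (box c d b t) ∘ mate ω) x) x = -4 := by
  rw [tn_turn]
  exact (good_box c d b t).loopFour ω hω x hx hc

/-- the labels are the positions on the boundary cycle -/
theorem ps_bpos {x : Half (ℤ × ℤ)} (hbt : b < t) (hcd : c < d)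
    (hx : Bd (box c d b t) (plane.glue (box c d b t)) x) :
    On (box c d b t) (plane.glue (box c d b t)) ((c, b), .S) x ∧
      ps c d b t x = bpos (plane.glue (box c d b t)) ((c, b), .S) x := by
  have hG : Glu (box c d b t) (plane.glue (box c d b t)) := plane.glu _
  have hL := lab_box c d b t
  have h0 : Bd (box c d b t) (plane.glue (box c d b t)) ((c, b), .S) := by
    rw [Shp.bd_plane]
    simp only [Dir.vec, Prod.mk_add_mk, mem_box]
    omega
  have e0 : ps c d b t ((c, b), .S) = 0 := sub_self c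
  rcases eq_or_lt_of_le (hL.rng x hx).1 with h | h
  · have e1 : x = ((c, b), .S) := hL.inj _ _ hx h0 (by rw [e0, ← h])
    rw [e1]
    refine ⟨hG.on_self h0, ?_⟩
    rw [e0, hG.pos_self]
    rfl
  · obtain ⟨n, h1, h2, h3, h4, -⟩ := hL.reach hG h0 hx (by rw [e0]; exact h)
    refine ⟨by rw [h3]; exact hG.on_iter h0 n, ?_⟩
    rw [e0] at h4
    have h5 := hG.pos_iter h2
    rw [← h3] at h5
    rw [h5]
    omega

/-- **the strands of the rectangle do not cross** -/
theorem rect_nc (ω : Finset (ℤ × ℤ)) {e e' : Half (ℤ × ℤ)} (hbt : b < t) (hcd : c < d)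
    (he : Bd (box c d b t) (plane.glue (box c d b t)) e)
    (he' : Bd (box c d b t) (plane.glue (box c d b t)) e')
    (h1 : ps c d b t e < ps c d b t e')
    (h2 : ps c d b t e' < ps c d b t (other (mate ω) (plane.glue (box c d b t)) e)) :
    ps c d b t e < ps c d b t (other (mate ω) (plane.glue (box c d b t)) e') ∧
      ps c d b t (other (mate ω) (plane.glue (box c d b t)) e') <
        ps c d b t (other (mate ω) (plane.glue (box c d b t)) e) := by
  have hG : Glu (box c d b t) (plane.glue (box c d b t)) := plane.glu _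
  have h0 : Bd (box c d b t) (plane.glue (box c d b t)) ((c, b), .S) := by
    rw [Shp.bd_plane]
    simp only [Dir.vec, Prod.mk_add_mk, mem_box]
    omega
  have a1 := ps_bpos hbt hcd he
  have a2 := ps_bpos hbt hcd he'
  have a3 := ps_bpos hbt hcd (hG.other_bd (ω := ω) he)
  have a4 := ps_bpos hbt hcd (hG.other_bd (ω := ω) he')
  rw [a1.2, a2.2] at h1
  rw [a2.2, a3.2] at h2
  have := hG.noncross_four (good_box c d b t).sc ω h0 a1.1 a2.1 (by exact_mod_cast h1)
    (by exact_mod_cast h2)
  rw [a1.2, a3.2, a4.2]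
  exact ⟨by exact_mod_cast this.1, by exact_mod_cast this.2⟩

end Full.X3
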