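import Pool.Agent.Full.X3.ThWall

/-!
# The labels of the walls of a domain with a closed row

`Sheets D a`: the row has dead ends of length `a`, the two parts of the domain are connected and simply
connected.  `Sheets.ok`: `D.lab` is an admissible system of labels (`Lab.Ok`): one position and one lifted
direction for every wall, independent of `z`.
-/

set_option autoImplicit false

namespace Full.X3
open Function Relation Full Full.Turn

lemma dn_eq (d : Dir) : dn d = d.num := by cases d <;> rfl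

/-- the direction along the boundary -/
theorem dn_iter {τ : Type*} {T : Finset τ} {g : Half τ → Half τ} (hG : Glu T g) (hs : Straight g)
    {x : Half τ} (hx : g x = x) (k : ℕ) : (4 : ℤ) ∣ dn ((next g)^[k] x).2 - dn x.2 - lb g x k := by
  induction k with
  | zero => simp [lb_zero]
  | succ k ih =>
    have h1 := dn_next hG hs (fix_iter hG hx k)
    rw [iterate_succ_apply', lb_succ]
    obtain ⟨a, ha⟩ := ih
    obtain ⟨b, hb⟩ := h1
    exact ⟨a + b, by linarith⟩

namespace Strip
variable {P : Finset (ℤ × ℤ)} {d : Dir} {a : ℤ × ℤ} {m : ℕ} (h : Strip P d a m)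
include h

/-- position and direction of the sides `d` at the beginning of the row -/
theorem pos_left (i : ℕ) (hi : i ≤ m) (hw : ∀ j : ℤ, 0 ≤ j → j ≤ i → Rw d a j + d.vec ∉ P) :
    bpos (plane.glue P) (a, d) (Rw d a i, d) = i ∧ lb (plane.glue P) (a, d) i = 0 := by
  obtain ⟨h1, h2⟩ := h.iter_left i hi hw
  refine ⟨?_, h2⟩
  rw [← h1]
  exact (plane.glu P).pos_iter (by rw [h.period]; omega)

/-- position and direction of the sides `d` at the end of the row -/
theorem pos_right (i : ℕ) (hi : i ≤ m)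
    (hw : ∀ j : ℤ, (m : ℤ) - i ≤ j → j ≤ m → Rw d a j + d.vec ∉ P) :
    bpos (plane.glue P) (a, d) (Rw d a (m - i), d) + i = sM P d a m ∧
      lb (plane.glue P) (a, d) (bpos (plane.glue P) (a, d) (Rw d a (m - i), d)) = 0 := by
  obtain ⟨h1, h2⟩ := h.iter_right i hi hw
  have hbd : Bd P (plane.glue P) (Rw d a (m - i), d) :=
    Shp.bd_plane.2 ⟨h.mem _ (by omega) (by omega), hw _ le_rfl (by omega)⟩
  have hG := plane.glu P
  have h3 := hG.pos_spec h.sc h.bd_e (h.on' hbd)
  have hpr : Pr P d a m (Rw d a (m - i), d) := ⟨hbd, fun _ _ _ _ => rfl⟩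
  have h4 := (h.pr_iff hbd).1 hpr
  set p := bpos (plane.glue P) (a, d) (Rw d a (m - i), d) with hp
  have h5 : (next (plane.glue P))^[p + i] (a, d) = (Rw d a m, d) := by
    rw [Nat.add_comm, iterate_add_apply, h3, h1]
  have h6 : p + i = sM P d a m := by
    have h7 : bpos (plane.glue P) (a, d) ((next (plane.glue P))^[p + i] (a, d)) = p + i :=
      hG.pos_iter (by rw [h.period]; omega)
    rw [h5] at h7
    exact h7.symm
  refine ⟨h6, ?_⟩
  have h7 := h.lb_M
  rw [← h6, lb_add, h3, h2] at h7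
  omega

/-- one step from a proper end which is not the last one -/
theorem step {u : Half (ℤ × ℤ)} (hu : Pr P d a m u) (hf : u ≠ (Rw d a m, d)) :
    Pr P d a m (next (plane.glue P) u) ∧
      bpos (plane.glue P) (a, d) (next (plane.glue P) u) = bpos (plane.glue P) (a, d) u + 1 ∧
      lb (plane.glue P) (a, d) (bpos (plane.glue P) (a, d) (next (plane.glue P) u)) =
        lb (plane.glue P) (a, d) (bpos (plane.glue P) (a, d) u) + bt (plane.glue P) u := by
  obtain ⟨h1, h2⟩ := h.pr_next hu hf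
  refine ⟨h1, h2, ?_⟩
  rw [h2, lb_succ, (plane.glu P).pos_spec h.sc h.bd_e (h.on' hu.1)]

theorem dir {u : Half (ℤ × ℤ)} (hu : Bd P (plane.glue P) u) :
    (4 : ℤ) ∣ lb (plane.glue P) (a, d) (bpos (plane.glue P) (a, d) u) - (dn u.2 - dn d) := by
  have h1 := dn_iter (plane.glu P) (plane.straight_glue P) h.bd_e.2
    (bpos (plane.glue P) (a, d) u)
  rw [(plane.glu P).pos_spec h.sc h.bd_e (h.on' hu)] at h1
  obtain ⟨c, hc⟩ := h1
  exact ⟨-c, by simp only at hc; linarith⟩

theorem surj {k : ℕ} (hk : k ≤ sM P d a m) : Pr P d a m ((next (plane.glue P))^[k] (a, d)) ∧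
    bpos (plane.glue P) (a, d) ((next (plane.glue P))^[k] (a, d)) = k := by
  have h1 : bpos (plane.glue P) (a, d) ((next (plane.glue P))^[k] (a, d)) = k :=
    (plane.glu P).pos_iter (by rw [h.period]; omega)
  exact ⟨(h.pr_iff ((plane.glu P).bd_iter h.bd_e k)).2 (by rw [h1]; exact hk), h1⟩

end Strip

end Full.X3

namespace Full.Slab
open Function Relation Full Full.Turn Full.X3

variable {D : Slab} {x y a : ℤ}

/-- hypotheses on the two parts of the domain -/
structure Sheets (D : Slab) (a : ℤ) : Prop where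
  a1 : 1 ≤ a
  ar : D.l + a ≤ D.r
  hbt : D.b < D.t
  dead : D.DeadEnd a
  scL : SC (D.TL (D.b + 1)) (plane.glue (D.TL (D.b + 1)))
  cL : ∀ t ∈ D.TL (D.b + 1),
    TConn (D.TL (D.b + 1)) (plane.glue (D.TL (D.b + 1))) (D.l, D.b) t
  scU : SC (D.TU (D.t - 1)) (plane.glue (D.TU (D.t - 1)))
  cU : ∀ t ∈ D.TU (D.t - 1),
    TConn (D.TU (D.t - 1)) (plane.glue (D.TU (D.t - 1))) (D.r - 1, D.t - 1) t

/-- length of the rows -/
def mL (D : Slab) : ℕ := (D.r - D.l).toNat
def mU (D : Slab) : ℕ := (D.r - 1 - D.l).toNat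

lemma mL_eq : (D.mL : ℤ) = D.r - D.l := by
  have := D.hlr
  unfold mL
  omega

lemma mU_eq : (D.mU : ℤ) = D.r - 1 - D.l := by
  have := D.hlr
  unfold mU
  omega

lemma Rw_S (i : ℤ) : Rw .S (D.l, D.b) i = (D.l + i, D.b) := by
  simp [Rw, Dir.ccw, Dir.vec]

lemma Rw_N (i : ℤ) : Rw .N (D.r - 1, D.t - 1) i = (D.r - 1 - i, D.t - 1) := by
  simp [Rw, Dir.ccw, Dir.vec, sub_eq_add_neg]

namespace Sheets
variable (h : D.Sheets a)
include h

theorem stripL : Strip (D.TL (D.b + 1)) .S (D.l, D.b) D.mL := by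
  have hlr := D.hlr
  have hm := D.mL_eq
  have hbt := h.hbt
  have ha := h.a1
  refine ⟨fun i h1 h2 => ?_, fun i h1 h2 => ?_, ?_, ?_, ?_, ?_, h.scL, h.cL⟩
  · rw [Rw_S, mem_TL]
    exact Or.inr ⟨⟨by omega, by omega⟩, le_rfl, by omega⟩
  · rw [Rw_S, mk_add]
    simp only [Dir.opp, Dir.vec, add_zero]
    exact notMem_TL (y := D.b + 1) (by omega) (by omega) (by omega) (by omega)
  · rw [mk_add]
    simp only [Dir.cw, Dir.vec, add_zero]
    exact left_TL le_rfl (by omega)
  · rw [Rw_S, mk_add, hm]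
    simp only [Dir.ccw, Dir.vec, add_zero]
    rw [show D.l + (D.r - D.l) + 1 = D.r + 1 by ring]
    exact right_TL le_rfl (by omega)
  · rw [mk_add, mem_TL]
    simp only [Dir.vec, add_zero]
    rintro (h1 | h1)
    · exact h.dead.low D.l (Or.inl ⟨le_rfl, by omega⟩) h1
    · omega
  · rw [Rw_S, mk_add, mem_TL, hm]
    simp only [Dir.vec, add_zero]
    rw [show D.l + (D.r - D.l) = D.r by ring]
    rintro (h1 | h1)
    · exact h.dead.low D.r (Or.inr ⟨by omega, le_rfl⟩) h1
    · omega

theorem stripU : Strip (D.TU (D.t - 1)) .N (D.r - 1, D.t - 1) D.mU := by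
  have hlr := D.hlr
  have hm := D.mU_eq
  have hbt := h.hbt
  have ha := h.a1
  refine ⟨fun i h1 h2 => ?_, fun i h1 h2 => ?_, ?_, ?_, ?_, ?_, h.scU, h.cU⟩
  · rw [Rw_N, mem_TU]
    exact Or.inr ⟨⟨by omega, by omega⟩, le_rfl, by omega⟩
  · rw [Rw_N, mk_add]
    simp only [Dir.opp, Dir.vec, add_zero]
    have := notMem_TU (D := D) (y := D.t - 1) (i := D.r - 1 - i) (by omega) (by omega) (by omega)
      (by omega)
    rwa [sub_eq_add_neg (D.t - 1) 1] at this
  · rw [mk_add]
    simp only [Dir.cw, Dir.vec, add_zero, sub_add_cancel]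
    exact right_TU (by omega) (by omega)
  · rw [Rw_N, mk_add, hm]
    simp only [Dir.ccw, Dir.vec, add_zero]
    rw [show D.r - 1 - (D.r - 1 - D.l) + -1 = D.l - 1 by ring]
    exact left_TU (by omega) (by omega)
  · rw [mk_add, mem_TU]
    simp only [Dir.vec, add_zero, sub_add_cancel]
    rintro (h1 | h1)
    · exact h.dead.up (D.r - 1) (Or.inr ⟨by omega, by omega⟩) h1
    · omega
  · rw [Rw_N, mk_add, mem_TU, hm]
    simp only [Dir.vec, add_zero, sub_add_cancel]
    rw [show D.r - 1 - (D.r - 1 - D.l) = D.l by ring]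
    rintro (h1 | h1)
    · exact h.dead.up D.l (Or.inl ⟨le_rfl, by omega⟩) h1
    · omega

/-- the walls of the lower part are the proper ends of the lower sheet -/
theorem pr_low {u : Half (ℤ × ℤ)} :
    Pr (D.TL (D.b + 1)) .S (D.l, D.b) D.mL u ↔ D.IsW (hm Sum.inl u) := by
  have hlr := D.hlr
  have hm' := D.mL_eq
  have hbt := h.hbt
  obtain ⟨⟨i, j⟩, d⟩ := u
  show _ ↔ D.IsW (.inl (i, j), d)
  unfold Pr
  rw [bd_TL_iff hbt (y := D.b + 1) (by omega) (by omega)]
  constructor
  · rintro ⟨h1 | ⟨h1, h2⟩, h3⟩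
    · exact h1
    · exfalso
      simp only at h1 h2
      have h4 := h3 (i - D.l) (by omega) (by omega) (by
        rw [Rw_S]
        simp only [Prod.mk.injEq]
        omega)
      simp only at h4
      subst h4
      rcases h2 with h2 | h2 | h2 <;> exact absurd h2.1 (by decide)
  · intro h1
    refine ⟨Or.inl h1, fun k h2 h3 h4 => ?_⟩
    rw [Rw_S] at h4
    simp only [Prod.mk.injEq] at h4
    by_contra hc
    exact not_isW_low (D := D) (i := i) (v := j) (by omega) (by omega) (by omega) (by omega) hc h1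

/-- the walls of the upper part are the proper ends of the upper sheet -/
theorem pr_up {u : Half (ℤ × ℤ)} :
    Pr (D.TU (D.t - 1)) .N (D.r - 1, D.t - 1) D.mU u ↔ D.IsW (hm Sum.inr u) := by
  have hlr := D.hlr
  have hm' := D.mU_eq
  have hbt := h.hbt
  obtain ⟨⟨i, j⟩, d⟩ := u
  show _ ↔ D.IsW (.inr (i, j), d)
  unfold Pr
  rw [bd_TU_iff hbt (y := D.t - 1) (by omega) (by omega)]
  constructor
  · rintro ⟨h1 | ⟨h1, h2⟩, h3⟩
    · exact h1
    · exfalso
      simp only at h1 h2
      have h4 := h3 (D.r - 1 - i) (by omega) (by omega) (by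
        rw [Rw_N]
        simp only [Prod.mk.injEq]
        omega)
      simp only at h4
      subst h4
      rcases h2 with h2 | h2 | h2 <;> exact absurd h2.1 (by decide)
  · intro h1
    refine ⟨Or.inl h1, fun k h2 h3 h4 => ?_⟩
    rw [Rw_N] at h4
    simp only [Prod.mk.injEq] at h4
    by_contra hc
    exact not_isW_up (D := D) (i := i) (v := j) (by omega) (by omega) (by omega) (by omega) hc h1

end Sheets

/-! ### more rows -/

lemma glue_rows_low (hb : D.b < y) (ht : y ≤ D.t) (v : Half (ℤ × ℤ)) (hv : v.1 ∈ D.TL (D.b + 1))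
    (hn : ¬ D.LineN (D.b + 1) v) :
    plane.glue (D.TL y) (hm id v) = hm id (plane.glue (D.TL (D.b + 1)) v) := by
  obtain ⟨⟨i, j⟩, d⟩ := v
  have hlr := D.hlr
  show plane.glue (D.TL y) ((i, j), d) = plane.glue (D.TL (D.b + 1)) ((i, j), d)
  rw [plane_glue, plane_glue]
  simp only at hv
  have hsub : ∀ t : ℤ × ℤ, t ∈ D.TL (D.b + 1) → t ∈ D.TL y := by
    rintro ⟨i', j'⟩ h1
    rw [mem_TL] at h1 ⊢
    exact h1.imp id fun h2 => by omega
  have key : ((i, j) ∈ D.TL y ∧ ((i, j) : ℤ × ℤ) + d.vec ∈ D.TL y) ↔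
      ((i, j) ∈ D.TL (D.b + 1) ∧ ((i, j) : ℤ × ℤ) + d.vec ∈ D.TL (D.b + 1)) := by
    constructor
    · rintro ⟨-, h1⟩
      refine ⟨hv, ?_⟩
      rw [mk_add, mem_TL] at h1 ⊢
      rcases h1 with h1 | h1
      · exact Or.inl h1
      · by_contra hc
        rw [not_or] at hc
        have h2 := hc.2
        rcases mem_TL.1 hv with h3 | h3
        · have h4 := L_nb (D := D) (d := d) h3 (by rw [mk_add]; exact h1.1.1)
            (by rw [mk_add]; exact h1.1.2) (by rw [mk_add]; exact h1.2.1)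
            (by rw [mk_add]; simp only; omega)
          obtain ⟨rfl, h5⟩ := h4
          simp only [Dir.vec, add_zero] at h1 h2 h5
          omega
        · apply hn
          cases d with
          | E => simp only [Dir.vec, add_zero] at h1 h2; omega
          | W => simp only [Dir.vec, add_zero] at h1 h2; omega
          | S => simp only [Dir.vec, add_zero] at h1 h2; omega
          | N => exact ⟨rfl, by simp only; omega, h3.1.1, h3.1.2⟩
    · rintro ⟨h1, h2⟩
      exact ⟨hsub _ h1, hsub _ h2⟩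
  simp only [key]

lemma glue_rows_up (hb : D.b ≤ y) (ht : y < D.t) (v : Half (ℤ × ℤ)) (hv : v.1 ∈ D.TU (D.t - 1))
    (hn : ¬ D.LineS (D.t - 1) v) :
    plane.glue (D.TU y) (hm id v) = hm id (plane.glue (D.TU (D.t - 1)) v) := by
  obtain ⟨⟨i, j⟩, d⟩ := v
  have hlr := D.hlr
  show plane.glue (D.TU y) ((i, j), d) = plane.glue (D.TU (D.t - 1)) ((i, j), d)
  rw [plane_glue, plane_glue]
  simp only at hv
  have hsub : ∀ t : ℤ × ℤ, t ∈ D.TU (D.t - 1) → t ∈ D.TU y := by
    rintro ⟨i', j'⟩ h1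
    rw [mem_TU] at h1 ⊢
    exact h1.imp id fun h2 => by omega
  have key : ((i, j) ∈ D.TU y ∧ ((i, j) : ℤ × ℤ) + d.vec ∈ D.TU y) ↔
      ((i, j) ∈ D.TU (D.t - 1) ∧ ((i, j) : ℤ × ℤ) + d.vec ∈ D.TU (D.t - 1)) := by
    constructor
    · rintro ⟨-, h1⟩
      refine ⟨hv, ?_⟩
      rw [mk_add, mem_TU] at h1 ⊢
      rcases h1 with h1 | h1
      · exact Or.inl h1
      · by_contra hc
        rw [not_or] at hc
        have h2 := hc.2
        rcases mem_TU.1 hv with h3 | h3
        · have h4 := U_nb (D := D) (d := d) h3 (by rw [mk_add]; exact h1.1.1)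
            (by rw [mk_add]; exact h1.1.2) (by rw [mk_add]; simp only; omega)
            (by rw [mk_add]; exact h1.2.2)
          obtain ⟨rfl, h5⟩ := h4
          simp only [Dir.vec, add_zero] at h1 h2 h5
          omega
        · apply hn
          cases d with
          | E => simp only [Dir.vec, add_zero] at h1 h2; omega
          | W => simp only [Dir.vec, add_zero] at h1 h2; omega
          | N => simp only [Dir.vec, add_zero] at h1 h2; omega
          | S => exact ⟨rfl, by simp only; omega, h3.1.1, h3.1.2⟩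
    · rintro ⟨h1, h2⟩
      exact ⟨hsub _ h1, hsub _ h2⟩
  simp only [key]

/-- the boundary of the lower sheet with more rows at the walls of the lower part -/
theorem next_rows_low (hbt : D.b < D.t) (hb : D.b < y) (ht : y ≤ D.t) {u : Half (ℤ × ℤ)}
    (hu : D.IsW (hm Sum.inl u)) : next (plane.glue (D.TL y)) u = next (plane.glue (D.TL (D.b + 1))) u ∧
      bt (plane.glue (D.TL y)) u = bt (plane.glue (D.TL (D.b + 1))) u := by
  have h1 : Bd (D.TL (D.b + 1)) (plane.glue (D.TL (D.b + 1))) u :=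
    (bd_TL_iff (t := u.1) (d := u.2) hbt (by omega) (by omega)).2 (Or.inl hu)
  have h2 : u ≠ ((D.r, D.b + 1 - 1), .E) := by
    rintro rfl
    have hlr := D.hlr
    exact not_isW_low (D := D) (i := D.r) (v := D.b + 1 - 1) (d := .E) (by omega) le_rfl (by omega) (by omega)
      (by decide) hu
  exact low_map (D := D) (y := D.b + 1) (g' := plane.glue (D.TL y)) (ι := id) injective_id (by omega)
    (by omega) (glue_rows_low hb ht) h1 (IsW.notLineN (by omega) (by omega) hu) h2

theorem next_rows_up (hbt : D.b < D.t) (hb : D.b ≤ y) (ht : y < D.t) {u : Half (ℤ × ℤ)}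
    (hu : D.IsW (hm Sum.inr u)) : next (plane.glue (D.TU y)) u = next (plane.glue (D.TU (D.t - 1))) u ∧
      bt (plane.glue (D.TU y)) u = bt (plane.glue (D.TU (D.t - 1))) u := by
  have h1 : Bd (D.TU (D.t - 1)) (plane.glue (D.TU (D.t - 1))) u :=
    (bd_TU_iff (t := u.1) (d := u.2) hbt (by omega) (by omega)).2 (Or.inl hu)
  have h2 : u ≠ ((D.l, D.t - 1), .W) := by
    rintro rfl
    have hlr := D.hlr
    exact not_isW_up (D := D) (i := D.l) (v := D.t - 1) (d := .W) le_rfl (by omega) (by omega) (by omega)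
      (by decide) hu
  exact up_map (D := D) (y := D.t - 1) (g' := plane.glue (D.TU y)) (ι := id) injective_id (by omega)
    (by omega) (glue_rows_up hb ht) h1 (IsW.notLineS (by omega) (by omega) hu) h2

/-- the boundary of the open domain at the walls of the lower part -/
theorem next_go_low (hb : D.b < y) (ht : y < D.t) {u : Half (ℤ × ℤ)} (hu : D.IsW (hm Sum.inl u)) :
    next (D.go x y) (hm Sum.inl u) = hm Sum.inl (next (plane.glue (D.TL (D.b + 1))) u) ∧
      bt (D.go x y) (hm Sum.inl u) = bt (plane.glue (D.TL (D.b + 1))) u := by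
  have hbt : D.b < D.t := by omega
  have hlr := D.hlr
  have h1 : Bd (D.TL y) (plane.glue (D.TL y)) u :=
    (bd_TL_iff (t := u.1) (d := u.2) hbt hb ht.le).2 (Or.inl hu)
  have h2 : u ≠ ((D.r, y - 1), .E) := by
    rintro rfl
    exact not_isW_low (D := D) (i := D.r) (v := y - 1) (d := .E) (by omega) le_rfl (by omega) (by omega)
      (by decide) hu
  obtain ⟨h3, h4⟩ := next_low (x := x) hb ht.le h1 (IsW.notLineN hb ht.le hu) h2
  obtain ⟨h5, h6⟩ := next_rows_low hbt hb ht.le hu
  rw [h3, h4, h5, h6]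
  exact ⟨rfl, rfl⟩

theorem next_go_up (hb : D.b < y) (ht : y < D.t) {u : Half (ℤ × ℤ)} (hu : D.IsW (hm Sum.inr u)) :
    next (D.go x y) (hm Sum.inr u) = hm Sum.inr (next (plane.glue (D.TU (D.t - 1))) u) ∧
      bt (D.go x y) (hm Sum.inr u) = bt (plane.glue (D.TU (D.t - 1))) u := by
  have hbt : D.b < D.t := by omega
  have hlr := D.hlr
  have h1 : Bd (D.TU y) (plane.glue (D.TU y)) u :=
    (bd_TU_iff (t := u.1) (d := u.2) hbt hb.le ht).2 (Or.inl hu)
  have h2 : u ≠ ((D.l, y), .W) := by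
    rintro rfl
    exact not_isW_up (D := D) (i := D.l) (v := y) (d := .W) le_rfl (by omega) (by omega) (by omega)
      (by decide) hu
  obtain ⟨h3, h4⟩ := next_up (x := x) hb.le ht h1 (IsW.notLineS hb.le ht hu) h2
  obtain ⟨h5, h6⟩ := next_rows_up hbt hb.le ht hu
  rw [h3, h4, h5, h6]
  exact ⟨rfl, rfl⟩

end Full.Slab
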