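import Pool.Agent.Full.X3.ThNext
import Pool.Agent.Full.Corner.Shapes

/-!
# Regions with a straight free side

`Strip P d a m`: the tiles `R i = a + i v`, `0 ≤ i ≤ m`, `v = d.ccw.vec`, belong to the plane region `P`;
their sides `d.opp` are walls, the outer sides of `R 0` and `R m` are walls, and so are the sides `d` of
`R 0` and `R m`.  The boundary starting from `e = (R 0, d)` reaches `f = (R m, d)` after `M` steps with total
turning `0` and then goes back to `e` along the free side.
-/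

set_option autoImplicit false

namespace Full.X3
open Function Relation Full Full.Turn

/-- the tile `i` of the row -/
def Rw (d : Dir) (a : ℤ × ℤ) (i : ℤ) : ℤ × ℤ := (a.1 + i * d.ccw.vec.1, a.2 + i * d.ccw.vec.2)

lemma Rw_zero (d : Dir) (a : ℤ × ℤ) : Rw d a 0 = a := by
  unfold Rw
  simp

lemma Rw_succ (d : Dir) (a : ℤ × ℤ) (i : ℤ) : Rw d a (i + 1) = Rw d a i + d.ccw.vec := by
  unfold Rw
  refine Prod.ext ?_ ?_
  · show a.1 + (i + 1) * d.ccw.vec.1 = a.1 + i * d.ccw.vec.1 + d.ccw.vec.1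
    ring
  · show a.2 + (i + 1) * d.ccw.vec.2 = a.2 + i * d.ccw.vec.2 + d.ccw.vec.2
    ring

lemma Rw_pred (d : Dir) (a : ℤ × ℤ) (i : ℤ) : Rw d a (i - 1) = Rw d a i + d.cw.vec := by
  have h := Shp.Dir.vec_cw_add d
  have h1 := Rw_succ d a (i - 1)
  rw [sub_add_cancel] at h1
  rw [h1, add_assoc, h, add_zero]

lemma Rw_inj {d : Dir} {a : ℤ × ℤ} {i j : ℤ} (h : Rw d a i = Rw d a j) : i = j := by
  unfold Rw at h
  have h1 := congrArg Prod.fst h
  have h2 := congrArg Prod.snd h
  simp only at h1 h2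
  cases d <;> simp only [Dir.ccw, Dir.vec] at h1 h2 <;> omega

/-- additivity of the turning of the boundary -/
lemma lb_add {τ : Type*} (g : Half τ → Half τ) (x : Half τ) (m k : ℕ) :
    lb g x (m + k) = lb g x m + lb g ((next g)^[m] x) k := by
  unfold lb
  rw [Finset.sum_range_add]
  congr 1
  refine Finset.sum_congr rfl fun i _ => ?_
  rw [Nat.add_comm m i, iterate_add_apply]

lemma lb_zero {τ : Type*} (g : Half τ → Half τ) (x : Half τ) : lb g x 0 = 0 := by
  unfold lb
  simp

lemma lb_one {τ : Type*} (g : Half τ → Half τ) (x : Half τ) : lb g x 1 = bt g x := by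
  unfold lb
  simp

lemma lb_succ {τ : Type*} (g : Half τ → Half τ) (x : Half τ) (n : ℕ) :
    lb g x (n + 1) = lb g x n + bt g ((next g)^[n] x) := by
  rw [lb_add, lb_one]

/-- a plane region with a straight free side -/
structure Strip (P : Finset (ℤ × ℤ)) (d : Dir) (a : ℤ × ℤ) (m : ℕ) : Prop where
  mem : ∀ i : ℤ, 0 ≤ i → i ≤ m → Rw d a i ∈ P
  top : ∀ i : ℤ, 0 ≤ i → i ≤ m → Rw d a i + d.opp.vec ∉ P
  e0 : a + d.cw.vec ∉ P
  e1 : Rw d a m + d.ccw.vec ∉ P
  c0 : a + d.vec ∉ P
  c1 : Rw d a m + d.vec ∉ P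
  sc : SC P (plane.glue P)
  conn : ∀ t ∈ P, TConn P (plane.glue P) a t

namespace Strip
variable {P : Finset (ℤ × ℤ)} {d : Dir} {a : ℤ × ℤ} {m : ℕ} (h : Strip P d a m)
include h

lemma mem0 : a ∈ P := by
  have := h.mem 0 le_rfl (by omega)
  rwa [Rw_zero] at this

/-- the first side -/
lemma bd_e : Bd P (plane.glue P) (a, d) := Shp.bd_plane.2 ⟨h.mem0, h.c0⟩

/-- the last side -/
lemma bd_f : Bd P (plane.glue P) (Rw d a m, d) := Shp.bd_plane.2 ⟨h.mem m (by omega) le_rfl, h.c1⟩

lemma on' {u : Half (ℤ × ℤ)} (hu : Bd P (plane.glue P) u) : On P (plane.glue P) (a, d) u :=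
  ⟨hu, h.conn _ hu.1⟩

theorem good : Good P (plane.glue P) :=
  ⟨plane.glu P, plane.straight_glue P, Shp.flat_plane P, Shp.open_plane P, h.sc⟩

/-! the free side -/

lemma n_f : next (plane.glue P) (Rw d a m, d) = (Rw d a m, d.ccw) ∧
    bt (plane.glue P) (Rw d a m, d) = 1 := bt_cvx h.c1 h.e1

lemma n_E : next (plane.glue P) (Rw d a m, d.ccw) = (Rw d a m, d.opp) ∧
    bt (plane.glue P) (Rw d a m, d.ccw) = 1 := by
  have := bt_cvx (P := P) (t := Rw d a m) (d := d.ccw) h.e1 (by
    rw [Dir.ccw_ccw]; exact h.top m (by omega) le_rfl)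
  rw [Dir.ccw_ccw] at this
  exact this

lemma n_top {i : ℤ} (h1 : 1 ≤ i) (h2 : i ≤ m) :
    next (plane.glue P) (Rw d a i, d.opp) = (Rw d a (i - 1), d.opp) ∧
      bt (plane.glue P) (Rw d a i, d.opp) = 0 := by
  have := bt_flat (P := P) (t := Rw d a i) (d := d.opp) (h.mem i (by omega) h2)
    (h.top i (by omega) h2) (by rw [Dir.ccw_opp, ← Rw_pred]; exact h.mem _ (by omega) (by omega))
    (by rw [Dir.ccw_opp, ← Rw_pred]; exact h.top _ (by omega) (by omega))
  rw [Dir.ccw_opp, ← Rw_pred] at this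
  exact this

lemma n_N0 : next (plane.glue P) (a, d.opp) = (a, d.cw) ∧ bt (plane.glue P) (a, d.opp) = 1 := by
  have h0 := h.top 0 le_rfl (by omega)
  rw [Rw_zero] at h0
  have := bt_cvx (P := P) (t := a) (d := d.opp) h0 (by rw [Dir.ccw_opp]; exact h.e0)
  rw [Dir.ccw_opp] at this
  exact this

lemma n_W : next (plane.glue P) (a, d.cw) = (a, d) ∧ bt (plane.glue P) (a, d.cw) = 1 := by
  have := bt_cvx (P := P) (t := a) (d := d.cw) h.e0 (by rw [Dir.ccw_cw]; exact h.c0)
  rw [Dir.ccw_cw] at this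
  exact this

/-- the free side: positions after `f` -/
lemma cl_top (i : ℕ) (hi : i ≤ m) :
    (next (plane.glue P))^[i + 2] (Rw d a m, d) = (Rw d a (m - i), d.opp) ∧
      lb (plane.glue P) (Rw d a m, d) (i + 2) = 2 := by
  induction i with
  | zero =>
    refine ⟨?_, ?_⟩
    · show next (plane.glue P) (next (plane.glue P) (Rw d a m, d)) = _
      rw [h.n_f.1, h.n_E.1]
      simp
    · rw [lb_succ, lb_one]
      show bt (plane.glue P) _ + bt (plane.glue P) (next (plane.glue P) (Rw d a m, d)) = 2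
      rw [h.n_f.1, h.n_f.2, h.n_E.2]
      norm_num
  | succ i ih =>
    obtain ⟨h1, h2⟩ := ih (by omega)
    have h3 := h.n_top (i := (m : ℤ) - i) (by omega) (by omega)
    refine ⟨?_, ?_⟩
    · rw [show i + 1 + 2 = (i + 2) + 1 by omega, iterate_succ_apply', h1, h3.1]
      congr 2
      push_cast
      ring
    · rw [show i + 1 + 2 = (i + 2) + 1 by omega, lb_succ, h1, h2, h3.2]
      norm_num

lemma cl_W : (next (plane.glue P))^[m + 3] (Rw d a m, d) = (a, d.cw) ∧
    lb (plane.glue P) (Rw d a m, d) (m + 3) = 3 := by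
  obtain ⟨h1, h2⟩ := h.cl_top m le_rfl
  rw [sub_self, Rw_zero] at h1
  refine ⟨?_, ?_⟩
  · rw [show m + 3 = (m + 2) + 1 by omega, iterate_succ_apply', h1, h.n_N0.1]
  · rw [show m + 3 = (m + 2) + 1 by omega, lb_succ, h1, h2, h.n_N0.2]
    norm_num

lemma cl_e : (next (plane.glue P))^[m + 4] (Rw d a m, d) = (a, d) ∧
    lb (plane.glue P) (Rw d a m, d) (m + 4) = 4 := by
  obtain ⟨h1, h2⟩ := h.cl_W
  refine ⟨?_, ?_⟩
  · rw [show m + 4 = (m + 3) + 1 by omega, iterate_succ_apply', h1, h.n_W.1]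
  · rw [show m + 4 = (m + 3) + 1 by omega, lb_succ, h1, h2, h.n_W.2]
    norm_num

/-- the sides of the free part are different from the others -/
lemma cl_ne {k : ℕ} (h1 : 1 ≤ k) (h2 : k < m + 4) :
    ∃ i : ℤ, (0 ≤ i ∧ i ≤ m) ∧ ∃ d', d' ≠ d ∧
      (next (plane.glue P))^[k] (Rw d a m, d) = (Rw d a i, d') := by
  rcases Nat.lt_or_ge k 2 with h3 | h3
  · obtain rfl : k = 1 := by omega
    exact ⟨m, by omega, d.ccw, Dir.ccw_ne d, h.n_f.1⟩
  · by_cases h4 : k = m + 3
    · subst h4
      refine ⟨0, by omega, d.cw, Dir.cw_ne d, ?_⟩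
      rw [Rw_zero]
      exact h.cl_W.1
    · refine ⟨m - (k - 2 : ℕ), by omega, d.opp, Dir.opp_ne d, ?_⟩
      have := (h.cl_top (k - 2) (by omega)).1
      rwa [Nat.sub_add_cancel h3] at this

end Strip

/-- the number of steps from the first to the last side -/
noncomputable def sM (P : Finset (ℤ × ℤ)) (d : Dir) (a : ℤ × ℤ) (m : ℕ) : ℕ :=
  bpos (plane.glue P) (a, d) (Rw d a m, d)

namespace Strip
variable {P : Finset (ℤ × ℤ)} {d : Dir} {a : ℤ × ℤ} {m : ℕ} (h : Strip P d a m)
include h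

lemma iter_M : (next (plane.glue P))^[sM P d a m] (a, d) = (Rw d a m, d) :=
  (plane.glu P).pos_spec h.sc h.bd_e (h.on' h.bd_f)

/-- the length of the boundary -/
theorem period : minimalPeriod (next (plane.glue P)) (a, d) = sM P d a m + (m + 4) := by
  have hM := h.iter_M
  have hlt : sM P d a m < minimalPeriod (next (plane.glue P)) (a, d) :=
    (plane.glu P).pos_lt h.sc h.bd_e (h.on' h.bd_f)
  set N := minimalPeriod (next (plane.glue P)) (a, d) with hN
  have h1 : (next (plane.glue P))^[sM P d a m + (m + 4)] (a, d) = (a, d) := by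
    rw [Nat.add_comm, iterate_add_apply, hM, h.cl_e.1]
  have h2 : N ∣ sM P d a m + (m + 4) := IsPeriodicPt.minimalPeriod_dvd h1
  have h3 : N ≤ sM P d a m + (m + 4) := Nat.le_of_dvd (by omega) h2
  rcases Nat.lt_or_ge N (sM P d a m + (m + 4)) with h4 | h4
  · exfalso
    obtain ⟨i, hi, d', hd', h5⟩ := h.cl_ne (k := N - sM P d a m) (by omega) (by omega)
    have h6 : (next (plane.glue P))^[N - sM P d a m] (Rw d a m, d) = (a, d) := by
      rw [← hM, ← iterate_add_apply, Nat.sub_add_cancel hlt.le, hN, iterate_minimalPeriod]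
    rw [h6] at h5
    exact hd' (congrArg Prod.snd h5).symm
  · omega

/-- **the turning from the first to the last side is zero** -/
theorem lb_M : lb (plane.glue P) (a, d) (sM P d a m) = 0 := by
  have h1 := h.good.total h.bd_e
  have h2 : lb (plane.glue P) (a, d) (minimalPeriod (next (plane.glue P)) (a, d)) = 4 := h1
  rw [h.period, lb_add, h.iter_M, h.cl_e.2] at h2
  omega

/-- positions on the free side -/
theorem pos_free {u : Half (ℤ × ℤ)} (hu : Bd P (plane.glue P) u)
    (hp : sM P d a m < bpos (plane.glue P) (a, d) u) :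
    ∃ i : ℤ, (0 ≤ i ∧ i ≤ m) ∧ ∃ d', d' ≠ d ∧ u = (Rw d a i, d') := by
  have h1 := (plane.glu P).pos_lt h.sc h.bd_e (h.on' hu)
  have h2 := (plane.glu P).pos_spec h.sc h.bd_e (h.on' hu)
  rw [h.period] at h1
  obtain ⟨i, hi, d', hd', h3⟩ := h.cl_ne
    (k := bpos (plane.glue P) (a, d) u - sM P d a m) (by omega) (by omega)
  refine ⟨i, hi, d', hd', ?_⟩
  rw [← h.iter_M, ← iterate_add_apply, Nat.sub_add_cancel hp.le, h2] at h3
  exact h3

end Strip

/-- the proper ends: not on the free side -/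
def Pr (P : Finset (ℤ × ℤ)) (d : Dir) (a : ℤ × ℤ) (m : ℕ) (u : Half (ℤ × ℤ)) : Prop :=
  Bd P (plane.glue P) u ∧ ∀ i : ℤ, 0 ≤ i → i ≤ m → u.1 = Rw d a i → u.2 = d

namespace Strip
variable {P : Finset (ℤ × ℤ)} {d : Dir} {a : ℤ × ℤ} {m : ℕ} (h : Strip P d a m)
include h

/-- positions of the proper ends -/
theorem pr_iff {u : Half (ℤ × ℤ)} (hu : Bd P (plane.glue P) u) :
    Pr P d a m u ↔ bpos (plane.glue P) (a, d) u ≤ sM P d a m := by
  constructor
  · intro hp
    by_contra hc
    obtain ⟨i, hi, d', hd', h3⟩ := h.pos_free hu (by omega)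
    apply hd'
    have := hp.2 i hi.1 hi.2 (by rw [h3])
    rw [h3] at this
    exact this
  · intro hp
    refine ⟨hu, fun i h1 h2 h3 => ?_⟩
    by_contra hc
    -- the sides of the free part have larger positions
    have key : ∀ k : ℕ, 1 ≤ k → k < m + 4 →
        bpos (plane.glue P) (a, d) ((next (plane.glue P))^[k] (Rw d a m, d)) = sM P d a m + k := by
      intro k hk1 hk2
      rw [← h.iter_M, ← iterate_add_apply, Nat.add_comm k]
      exact (plane.glu P).pos_iter (by rw [h.period]; omega)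
    have hbd := Shp.bd_plane.1 (show Bd P (plane.glue P) (u.1, u.2) from hu)
    have e : u = (Rw d a i, u.2) := Prod.ext h3 rfl
    rcases eq_or_ne u.2 d.opp with h4 | h4
    · have h5 := key ((m - i).toNat + 2) (by omega) (by omega)
      rw [(h.cl_top (m - i).toNat (by omega)).1] at h5
      have h6 : ((m : ℤ) - ((m - i).toNat : ℕ)) = i := by omega
      rw [h6, ← h4, ← e] at h5
      omega
    · rcases eq_or_ne u.2 d.ccw with h5 | h5
      · have h6 : i = m := by
          by_contra h7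
          apply hbd.2
          rw [h3, h5, ← Rw_succ]
          exact h.mem _ (by omega) (by omega)
        have h7 := key 1 le_rfl (by omega)
        rw [iterate_one, h.n_f.1, ← h5, ← h6, ← e] at h7
        omega
      · have h6 : u.2 = d.cw := by
          revert hc h4 h5
          cases u.2 <;> cases d <;> simp [Dir.opp, Dir.ccw, Dir.cw]
        have h7 : i = 0 := by
          by_contra h8
          apply hbd.2
          rw [h3, h6, ← Rw_pred]
          exact h.mem _ (by omega) (by omega)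
        have h8 := key (m + 3) (by omega) (by omega)
        rw [h.cl_W.1, ← h6] at h8
        rw [h7, Rw_zero] at e
        rw [← e] at h8
        omega

lemma pr_e : Pr P d a m (a, d) := (h.pr_iff h.bd_e).2 (by
  rw [(plane.glu P).pos_self]; exact Nat.zero_le _)

lemma pr_f : Pr P d a m (Rw d a m, d) := (h.pr_iff h.bd_f).2 le_rfl

/-- the next proper end -/
theorem pr_next {u : Half (ℤ × ℤ)} (hu : Pr P d a m u) (hf : u ≠ (Rw d a m, d)) :
    Pr P d a m (next (plane.glue P) u) ∧
      bpos (plane.glue P) (a, d) (next (plane.glue P) u) = bpos (plane.glue P) (a, d) u + 1 := by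
  have hG := plane.glu P
  have h1 := (h.pr_iff hu.1).1 hu
  have h2 : bpos (plane.glue P) (a, d) u ≠ sM P d a m := by
    intro h3
    exact hf (hG.pos_inj h.sc h.bd_e (h.on' hu.1) (h.on' h.bd_f) h3)
  have h3 := hG.pos_spec h.sc h.bd_e (h.on' hu.1)
  have h4 : (next (plane.glue P))^[bpos (plane.glue P) (a, d) u + 1] (a, d) =
      next (plane.glue P) u := by rw [iterate_succ_apply', h3]
  have h5 : bpos (plane.glue P) (a, d) (next (plane.glue P) u) =
      bpos (plane.glue P) (a, d) u + 1 := by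
    rw [← h4]
    exact hG.pos_iter (by rw [h.period]; omega)
  refine ⟨(h.pr_iff (hG.next_bd hu.1)).2 (by rw [h5]; omega), h5⟩

/-- the sides `d` at the beginning of the row -/
theorem iter_left (i : ℕ) (hi : i ≤ m) (hw : ∀ j : ℤ, 0 ≤ j → j ≤ i → Rw d a j + d.vec ∉ P) :
    (next (plane.glue P))^[i] (a, d) = (Rw d a i, d) ∧ lb (plane.glue P) (a, d) i = 0 := by
  induction i with
  | zero => exact ⟨by simp [Rw_zero], lb_zero _ _⟩
  | succ i ih =>
    obtain ⟨h1, h2⟩ := ih (by omega) fun j h3 h4 => hw j h3 (by push_cast; omega)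
    have h3 : next (plane.glue P) (Rw d a i, d) = (Rw d a (i + 1), d) ∧
        bt (plane.glue P) (Rw d a i, d) = 0 := by
      have := bt_flat (P := P) (t := Rw d a i) (d := d) (h.mem i (by omega) (by omega))
        (hw i (by omega) (by push_cast; omega)) (by
          rw [← Rw_succ]; exact h.mem _ (by omega) (by push_cast at hi; omega))
        (by rw [← Rw_succ]; exact hw _ (by omega) (by push_cast; omega))
      rw [← Rw_succ] at this
      exact this
    refine ⟨?_, ?_⟩
    · rw [iterate_succ_apply', h1, h3.1]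
      push_cast
      rfl
    · rw [lb_succ, h1, h2, h3.2]
      norm_num

/-- the sides `d` at the end of the row -/
theorem iter_right (i : ℕ) (hi : i ≤ m)
    (hw : ∀ j : ℤ, (m : ℤ) - i ≤ j → j ≤ m → Rw d a j + d.vec ∉ P) :
    (next (plane.glue P))^[i] (Rw d a (m - i), d) = (Rw d a m, d) ∧
      lb (plane.glue P) (Rw d a (m - i), d) i = 0 := by
  induction i with
  | zero => exact ⟨by simp, lb_zero _ _⟩
  | succ i ih =>
    obtain ⟨h1, h2⟩ := ih (by omega) fun j h3 h4 => hw j (by push_cast; omega) h4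
    have e : (m : ℤ) - ((i + 1 : ℕ) : ℤ) + 1 = m - i := by push_cast; ring
    have h3 : next (plane.glue P) (Rw d a (m - ((i + 1 : ℕ) : ℤ)), d) = (Rw d a (m - i), d) ∧
        bt (plane.glue P) (Rw d a (m - ((i + 1 : ℕ) : ℤ)), d) = 0 := by
      have := bt_flat (P := P) (t := Rw d a (m - ((i + 1 : ℕ) : ℤ))) (d := d)
        (h.mem _ (by push_cast; omega) (by push_cast; omega))
        (hw _ le_rfl (by push_cast; omega)) (by
          rw [← Rw_succ, e]; exact h.mem _ (by omega) (by omega))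
        (by rw [← Rw_succ, e]; exact hw _ (by push_cast; omega) (by omega))
      rw [← Rw_succ, e] at this
      exact this
    refine ⟨?_, ?_⟩
    · rw [iterate_succ_apply, h3.1, h1]
    · have e2 : lb (plane.glue P) (Rw d a (m - ((i + 1 : ℕ) : ℤ)), d) (1 + i) = 0 := by
        rw [lb_add, lb_one, iterate_one, h3.1, h3.2, h2]
        norm_num
      rw [Nat.add_comm 1 i] at e2
      exact e2

end Strip

end Full.X3
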