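import Pool.Agent.Full.X3.ThSide
import Pool.Agent.Full.X3.LabOk

/-!
# The labels of the walls: definition and admissibility

`Slab.lab D` and `Sheets.ok : D.lab.Ok D a D.nL D.nU`.
-/

set_option autoImplicit false

namespace Full.Slab
open Function Relation Full Full.Turn Full.X3

variable {D : Slab} {x y a : ℤ}

/-- position on the lower sheet with one row -/
noncomputable def pL (D : Slab) (u : Half (ℤ × ℤ)) : ℕ :=
  bpos (plane.glue (D.TL (D.b + 1))) ((D.l, D.b), .S) u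

/-- direction on the lower sheet with one row -/
noncomputable def tL (D : Slab) (u : Half (ℤ × ℤ)) : ℤ :=
  lb (plane.glue (D.TL (D.b + 1))) ((D.l, D.b), .S) (D.pL u)

/-- position on the upper sheet with one row -/
noncomputable def pU (D : Slab) (u : Half (ℤ × ℤ)) : ℕ :=
  bpos (plane.glue (D.TU (D.t - 1))) ((D.r - 1, D.t - 1), .N) u

/-- direction on the upper sheet with one row -/
noncomputable def tU (D : Slab) (u : Half (ℤ × ℤ)) : ℤ :=
  lb (plane.glue (D.TU (D.t - 1))) ((D.r - 1, D.t - 1), .N) (D.pU u)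

/-- number of walls of the lower part -/
noncomputable def nL (D : Slab) : ℤ := sM (D.TL (D.b + 1)) .S (D.l, D.b) D.mL + 1
/-- number of walls of the upper part -/
noncomputable def nU (D : Slab) : ℤ := sM (D.TU (D.t - 1)) .N (D.r - 1, D.t - 1) D.mU + 1

/-- position of the first ceiling half edge -/
noncomputable def labP (D : Slab) : ℤ := D.nL + (D.t - D.b)

/-- the positions -/
noncomputable def labPos (D : Slab) : Half ZT → ℤ
  | (.inl t, d) => if d = .W ∧ t.1 = D.l ∧ D.b ≤ t.2 ∧ t.2 < D.t then D.b - 1 - t.2 else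
      if d = .E ∧ t.1 = D.r ∧ D.b ≤ t.2 ∧ t.2 < D.t then D.nL + (t.2 - D.b) else D.pL (t, d)
  | (.inr t, d) => if d = .W ∧ t.1 = D.l ∧ D.b ≤ t.2 ∧ t.2 < D.t then D.labP + D.nU + (D.t - 1 - t.2) else
      if d = .E ∧ t.1 = D.r - 1 ∧ D.b ≤ t.2 ∧ t.2 < D.t then D.nL + (t.2 - D.b) else D.labP + D.pU (t, d)

/-- the directions -/
noncomputable def labTh (D : Slab) : Half ZT → ℤ
  | (.inl t, d) => if d = .W ∧ t.1 = D.l ∧ D.b ≤ t.2 ∧ t.2 < D.t then -1 else
      if d = .E ∧ t.1 = D.r ∧ D.b ≤ t.2 ∧ t.2 < D.t then 1 else D.tL (t, d)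
  | (.inr t, d) => if d = .W ∧ t.1 = D.l ∧ D.b ≤ t.2 ∧ t.2 < D.t then 3 else
      if d = .E ∧ t.1 = D.r - 1 ∧ D.b ≤ t.2 ∧ t.2 < D.t then 1 else 2 + D.tU (t, d)

/-- **the labels** -/
noncomputable def lab (D : Slab) : Lab := ⟨D.labPos, D.labTh, D.labP⟩

lemma lab_lowW {v : ℤ} (h1 : D.b ≤ v) (h2 : v < D.t) : D.labPos (.inl (D.l, v), .W) = D.b - 1 - v ∧
    D.labTh (.inl (D.l, v), .W) = -1 :=
  ⟨if_pos ⟨rfl, rfl, h1, h2⟩, if_pos ⟨rfl, rfl, h1, h2⟩⟩

lemma lab_upW {v : ℤ} (h1 : D.b ≤ v) (h2 : v < D.t) :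
    D.labPos (.inr (D.l, v), .W) = D.labP + D.nU + (D.t - 1 - v) ∧ D.labTh (.inr (D.l, v), .W) = 3 :=
  ⟨if_pos ⟨rfl, rfl, h1, h2⟩, if_pos ⟨rfl, rfl, h1, h2⟩⟩

lemma lab_lowE {v : ℤ} (h1 : D.b ≤ v) (h2 : v < D.t) : D.labPos (.inl (D.r, v), .E) = D.nL + (v - D.b) ∧
    D.labTh (.inl (D.r, v), .E) = 1 := by
  have n : ¬ (Dir.E = Dir.W ∧ ((D.r, v) : ℤ × ℤ).1 = D.l ∧ D.b ≤ ((D.r, v) : ℤ × ℤ).2 ∧
    ((D.r, v) : ℤ × ℤ).2 < D.t) := fun h => Dir.noConfusion h.1
  constructor
  · rw [labPos, if_neg n, if_pos ⟨rfl, rfl, h1, h2⟩]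
  · rw [labTh, if_neg n, if_pos ⟨rfl, rfl, h1, h2⟩]

lemma lab_upE {v : ℤ} (h1 : D.b ≤ v) (h2 : v < D.t) :
    D.labPos (.inr (D.r - 1, v), .E) = D.nL + (v - D.b) ∧ D.labTh (.inr (D.r - 1, v), .E) = 1 := by
  have n : ¬ (Dir.E = Dir.W ∧ ((D.r - 1, v) : ℤ × ℤ).1 = D.l ∧ D.b ≤ ((D.r - 1, v) : ℤ × ℤ).2 ∧
    ((D.r - 1, v) : ℤ × ℤ).2 < D.t) := fun h => Dir.noConfusion h.1
  constructor
  · rw [labPos, if_neg n, if_pos ⟨rfl, rfl, h1, h2⟩]
  · rw [labTh, if_neg n, if_pos ⟨rfl, rfl, h1, h2⟩]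

lemma lab_low {u : Half (ℤ × ℤ)} (hu : D.IsW (hm Sum.inl u)) :
    D.labPos (hm Sum.inl u) = D.pL u ∧ D.labTh (hm Sum.inl u) = D.tL u := by
  obtain ⟨t, d⟩ := u
  have hlr := D.hlr
  have n1 : ¬ (d = .W ∧ t.1 = D.l ∧ D.b ≤ t.2 ∧ t.2 < D.t) := fun h => by
    obtain ⟨i, j⟩ := t
    simp only at h
    exact not_isW_low (D := D) (i := i) (v := j) (d := d) (by omega) (by omega) h.2.2.1 h.2.2.2
      (by rw [h.1]; decide) hu
  have n2 : ¬ (d = .E ∧ t.1 = D.r ∧ D.b ≤ t.2 ∧ t.2 < D.t) := fun h => by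
    obtain ⟨i, j⟩ := t
    simp only at h
    exact not_isW_low (D := D) (i := i) (v := j) (d := d) (by omega) (by omega) h.2.2.1 h.2.2.2
      (by rw [h.1]; decide) hu
  constructor
  · show D.labPos (_, _) = _
    rw [labPos, if_neg n1, if_neg n2]
  · show D.labTh (_, _) = _
    rw [labTh, if_neg n1, if_neg n2]

lemma lab_up {u : Half (ℤ × ℤ)} (hu : D.IsW (hm Sum.inr u)) :
    D.labPos (hm Sum.inr u) = D.labP + D.pU u ∧ D.labTh (hm Sum.inr u) = 2 + D.tU u := by
  obtain ⟨t, d⟩ := u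
  have hlr := D.hlr
  have n1 : ¬ (d = .W ∧ t.1 = D.l ∧ D.b ≤ t.2 ∧ t.2 < D.t) := fun h => by
    obtain ⟨i, j⟩ := t
    simp only at h
    exact not_isW_up (D := D) (i := i) (v := j) (d := d) (by omega) (by omega) h.2.2.1 h.2.2.2
      (by rw [h.1]; decide) hu
  have n2 : ¬ (d = .E ∧ t.1 = D.r - 1 ∧ D.b ≤ t.2 ∧ t.2 < D.t) := fun h => by
    obtain ⟨i, j⟩ := t
    simp only at h
    exact not_isW_up (D := D) (i := i) (v := j) (d := d) (by omega) (by omega) h.2.2.1 h.2.2.2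
      (by rw [h.1]; decide) hu
  constructor
  · show D.labPos (_, _) = _
    rw [labPos, if_neg n1, if_neg n2]
  · show D.labTh (_, _) = _
    rw [labTh, if_neg n1, if_neg n2]

namespace Sheets
variable (h : D.Sheets a)
include h

lemma f0 : ((Rw .S (D.l, D.b) D.mL, Dir.S) : Half (ℤ × ℤ)) = ((D.r, D.b), .S) := by
  rw [Rw_S, mL_eq, show D.l + (D.r - D.l) = D.r by ring]

lemma f1 : ((Rw .N (D.r - 1, D.t - 1) D.mU, Dir.N) : Half (ℤ × ℤ)) = ((D.l, D.t - 1), .N) := by
  rw [Rw_N, mU_eq, show D.r - 1 - (D.r - 1 - D.l) = D.l by ring]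

/-- the last wall of the lower part -/
lemma lab_f0 : D.IsW (.inl (D.r, D.b), .S) ∧ D.labPos (.inl (D.r, D.b), .S) = D.nL - 1 ∧
    D.labTh (.inl (D.r, D.b), .S) = 0 := by
  have hpr := h.stripL.pr_f
  rw [h.f0] at hpr
  have hw := h.pr_low.1 hpr
  refine ⟨hw, ?_, ?_⟩
  · rw [show ((Sum.inl (D.r, D.b), Dir.S) : Half ZT) = hm Sum.inl ((D.r, D.b), .S) from rfl,
      (lab_low hw).1, ← h.f0]
    unfold pL nL sM
    push_cast
    ring
  · rw [show ((Sum.inl (D.r, D.b), Dir.S) : Half ZT) = hm Sum.inl ((D.r, D.b), .S) from rfl,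
      (lab_low hw).2, ← h.f0]
    exact h.stripL.lb_M

/-- the last wall of the upper part -/
lemma lab_f1 : D.IsW (.inr (D.l, D.t - 1), .N) ∧
    D.labPos (.inr (D.l, D.t - 1), .N) = D.labP + D.nU - 1 ∧
    D.labTh (.inr (D.l, D.t - 1), .N) = 2 := by
  have hpr := h.stripU.pr_f
  rw [h.f1] at hpr
  have hw := h.pr_up.1 hpr
  refine ⟨hw, ?_, ?_⟩
  · rw [show ((Sum.inr (D.l, D.t - 1), Dir.N) : Half ZT) = hm Sum.inr ((D.l, D.t - 1), .N) from rfl,
      (lab_up hw).1, ← h.f1]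
    unfold pU nU sM
    push_cast
    ring
  · rw [show ((Sum.inr (D.l, D.t - 1), Dir.N) : Half ZT) = hm Sum.inr ((D.l, D.t - 1), .N) from rfl,
      (lab_up hw).2, ← h.f1]
    have := h.stripU.lb_M
    have e : D.tU (Rw .N (D.r - 1, D.t - 1) D.mU, .N) = 0 := this
    rw [e]
    norm_num

/-- the first wall of the lower part -/
lemma lab_e0 : D.IsW (.inl (D.l, D.b), .S) ∧ D.labPos (.inl (D.l, D.b), .S) = 0 ∧
    D.labTh (.inl (D.l, D.b), .S) = 0 := by
  have hw := h.pr_low.1 h.stripL.pr_e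
  have hp : D.pL ((D.l, D.b), .S) = 0 := (plane.glu _).pos_self
  refine ⟨hw, ?_, ?_⟩
  · rw [show ((Sum.inl (D.l, D.b), Dir.S) : Half ZT) = hm Sum.inl ((D.l, D.b), .S) from rfl,
      (lab_low hw).1, hp]
    rfl
  · rw [show ((Sum.inl (D.l, D.b), Dir.S) : Half ZT) = hm Sum.inl ((D.l, D.b), .S) from rfl,
      (lab_low hw).2]
    unfold tL
    rw [hp, lb_zero]

/-- the first wall of the upper part -/
lemma lab_e1 : D.IsW (.inr (D.r - 1, D.t - 1), .N) ∧
    D.labPos (.inr (D.r - 1, D.t - 1), .N) = D.labP ∧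
    D.labTh (.inr (D.r - 1, D.t - 1), .N) = 2 := by
  have hw := h.pr_up.1 h.stripU.pr_e
  have hp : D.pU ((D.r - 1, D.t - 1), .N) = 0 := (plane.glu _).pos_self
  refine ⟨hw, ?_, ?_⟩
  · rw [show ((Sum.inr (D.r - 1, D.t - 1), Dir.N) : Half ZT) =
      hm Sum.inr ((D.r - 1, D.t - 1), .N) from rfl, (lab_up hw).1, hp]
    simp
  · rw [show ((Sum.inr (D.r - 1, D.t - 1), Dir.N) : Half ZT) =
      hm Sum.inr ((D.r - 1, D.t - 1), .N) from rfl, (lab_up hw).2]
    unfold tU
    rw [hp, lb_zero]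
    norm_num

/-- **one step along the boundary of the open domain** -/
theorem step (hl : D.l < x) (hr : x < D.r) (hb : D.b < y) (ht : y < D.t) {u : Half ZT}
    (hu : Bd (D.T y) (D.go x y) u) (hz : u ≠ Slab.z x y) (hW : u ≠ (.inr (D.l, y), .W)) :
    D.labPos (next (D.go x y) u) = D.labPos u + 1 ∧
      D.labTh (next (D.go x y) u) = D.labTh u + Turn.bt (D.go x y) u := by
  have ha := h.a1
  have har := h.ar
  have hbt := h.hbt
  rcases (isW_go hl.le hr.le hb ht).1 ⟨hu, hz⟩ with hw | hs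
  · obtain ⟨t | t, d⟩ := u
    · -- a wall of the lower part
      have hw' : D.IsW (hm Sum.inl (t, d)) := hw
      obtain ⟨hn, hbt'⟩ := next_go_low (x := x) hb ht hw'
      have hpr := h.pr_low.2 hw'
      show D.labPos (next (D.go x y) (hm Sum.inl (t, d))) = D.labPos (hm Sum.inl (t, d)) + 1 ∧
        D.labTh (next (D.go x y) (hm Sum.inl (t, d))) =
          D.labTh (hm Sum.inl (t, d)) + Turn.bt (D.go x y) (hm Sum.inl (t, d))
      rw [hn, hbt']
      by_cases hf : ((t, d) : Half (ℤ × ℤ)) = ((D.r, D.b), .S)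
      · obtain ⟨f1, f2, f3⟩ := h.lab_f0
        have hnf := h.stripL.n_f
        rw [h.f0] at hnf
        have e1 : Rw .S (D.l, D.b) D.mL = (D.r, D.b) := congrArg Prod.fst h.f0
        rw [e1] at hnf
        rw [hf, hnf.1, hnf.2]
        obtain ⟨k1, k2⟩ := lab_lowE (D := D) (v := D.b) le_rfl hbt
        show D.labPos (.inl (D.r, D.b), .E) = D.labPos (.inl (D.r, D.b), .S) + 1 ∧
          D.labTh (.inl (D.r, D.b), .E) = D.labTh (.inl (D.r, D.b), .S) + 1
        rw [f2, f3, k1, k2]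
        constructor <;> ring
      · obtain ⟨h1, h2, h3⟩ := h.stripL.step hpr (by rw [h.f0]; exact hf)
        have hw2 := h.pr_low.1 h1
        rw [(lab_low hw').1, (lab_low hw').2, (lab_low hw2).1, (lab_low hw2).2]
        refine ⟨?_, h3⟩
        have : D.pL (next (plane.glue (D.TL (D.b + 1))) (t, d)) = D.pL (t, d) + 1 := h2
        rw [this]
        push_cast
        rfl
    · -- a wall of the upper part
      have hw' : D.IsW (hm Sum.inr (t, d)) := hw
      obtain ⟨hn, hbt'⟩ := next_go_up (x := x) hb ht hw'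
      have hpr := h.pr_up.2 hw'
      show D.labPos (next (D.go x y) (hm Sum.inr (t, d))) = D.labPos (hm Sum.inr (t, d)) + 1 ∧
        D.labTh (next (D.go x y) (hm Sum.inr (t, d))) =
          D.labTh (hm Sum.inr (t, d)) + Turn.bt (D.go x y) (hm Sum.inr (t, d))
      rw [hn, hbt']
      by_cases hf : ((t, d) : Half (ℤ × ℤ)) = ((D.l, D.t - 1), .N)
      · obtain ⟨f1, f2, f3⟩ := h.lab_f1
        have hnf := h.stripU.n_f
        rw [h.f1] at hnf
        have e1 : Rw .N (D.r - 1, D.t - 1) D.mU = (D.l, D.t - 1) := congrArg Prod.fst h.f1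
        rw [e1] at hnf
        rw [hf, hnf.1, hnf.2]
        obtain ⟨k1, k2⟩ := lab_upW (D := D) (v := D.t - 1) (by omega) (by omega)
        show D.labPos (.inr (D.l, D.t - 1), .W) = D.labPos (.inr (D.l, D.t - 1), .N) + 1 ∧
          D.labTh (.inr (D.l, D.t - 1), .W) = D.labTh (.inr (D.l, D.t - 1), .N) + 1
        rw [f2, f3, k1, k2]
        constructor <;> ring
      · obtain ⟨h1, h2, h3⟩ := h.stripU.step hpr (by rw [h.f1]; exact hf)
        have hw2 := h.pr_up.1 h1
        rw [(lab_up hw').1, (lab_up hw').2, (lab_up hw2).1, (lab_up hw2).2]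
        constructor
        · have : D.pU (next (plane.glue (D.TU (D.t - 1))) (t, d)) = D.pU (t, d) + 1 := h2
          rw [this]
          push_cast
          ring
        · have : D.tU (next (plane.glue (D.TU (D.t - 1))) (t, d)) =
              D.tU (t, d) + bt (plane.glue (D.TU (D.t - 1))) (t, d) := h3
          rw [this]
          ring
  · rcases hs with ⟨v, h1, h2, rfl | rfl⟩ | ⟨v, h1, h2, rfl | rfl⟩
    · obtain ⟨k1, k2⟩ := lab_lowW (D := D) (v := v) h1 (by omega)
      by_cases hv : v = D.b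
      · subst hv
        obtain ⟨n1, n2⟩ := next_W_bot (x := x) hb ht (h.dead.low D.l (Or.inl ⟨le_rfl, by omega⟩))
        obtain ⟨-, e1, e2⟩ := h.lab_e0
        rw [n1, n2, k1, k2, e1, e2]
        constructor <;> ring
      · obtain ⟨n1, n2⟩ := next_W_low (x := x) hb ht (v := v) (by omega) h2
        obtain ⟨e1, e2⟩ := lab_lowW (D := D) (v := v - 1) (by omega) (by omega)
        rw [n1, n2, k1, k2, e1, e2]
        constructor <;> ring
    · obtain ⟨k1, k2⟩ := lab_lowE (D := D) (v := v) h1 (by omega)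
      by_cases hv : v = y - 1
      · subst hv
        obtain ⟨n1, n2⟩ := next_lowE hb ht hl.le hr
        obtain ⟨e1, e2⟩ := lab_upE (D := D) (v := y) (by omega) ht
        rw [n1, n2, k1, k2, e1, e2]
        constructor <;> ring
      · obtain ⟨n1, n2⟩ := next_E_low (x := x) hb ht h1 (by omega)
        obtain ⟨e1, e2⟩ := lab_lowE (D := D) (v := v + 1) (by omega) (by omega)
        rw [n1, n2, k1, k2, e1, e2]
        constructor <;> ring
    · obtain ⟨k1, k2⟩ := lab_upW (D := D) (v := v) (by omega) h2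
      by_cases hv : v = y
      · exact absurd (by rw [hv]) hW
      · obtain ⟨n1, n2⟩ := next_W_up (x := x) hb ht (v := v) (by omega) h2
        obtain ⟨e1, e2⟩ := lab_upW (D := D) (v := v - 1) (by omega) (by omega)
        rw [n1, n2, k1, k2, e1, e2]
        constructor <;> ring
    · obtain ⟨k1, k2⟩ := lab_upE (D := D) (v := v) (by omega) h2
      by_cases hv : v = D.t - 1
      · subst hv
        obtain ⟨n1, n2⟩ := next_E_top (x := x) hb ht
          (h.dead.up (D.r - 1) (Or.inr ⟨by omega, by omega⟩))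
        obtain ⟨-, e1, e2⟩ := h.lab_e1
        rw [n1, n2, k1, k2, e1, e2]
        refine ⟨?_, by ring⟩
        show D.labP = D.nL + (D.t - 1 - D.b) + 1
        unfold labP
        ring
      · obtain ⟨n1, n2⟩ := next_E_up (x := x) hb ht (v := v) h1 (by omega)
        obtain ⟨e1, e2⟩ := lab_upE (D := D) (v := v + 1) (by omega) (by omega)
        rw [n1, n2, k1, k2, e1, e2]
        constructor <;> ring

/-- **the labels are admissible** -/
theorem ok : D.lab.Ok D a D.nL D.nU where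
  P_eq := rfl
  lowW := fun v h1 h2 => lab_lowW h1 h2
  upW := fun v h1 h2 => lab_upW h1 h2
  lowE := fun v h1 h2 => lab_lowE h1 h2
  upE := fun v h1 h2 => lab_upE h1 h2
  floorL := fun i h1 h2 => by
    have har := h.ar
    have hm' := D.mL_eq
    obtain ⟨k, rfl⟩ := Int.eq_ofNat_of_zero_le h1
    have hwall : ∀ j : ℤ, 0 ≤ j → j ≤ k → Rw .S (D.l, D.b) j + Dir.S.vec ∉ D.TL (D.b + 1) := by
      intro j h3 h4
      rw [Rw_S, mk_add, mem_TL]
      simp only [Dir.vec, add_zero]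
      rintro (h5 | h5)
      · exact h.dead.low (D.l + j) (Or.inl ⟨by omega, by omega⟩) h5
      · omega
    obtain ⟨p1, p2⟩ := h.stripL.pos_left k (by omega) hwall
    have hw : D.IsW (hm Sum.inl ((D.l + k, D.b), .S)) := by
      refine (isW_inl h.hbt).2 (Or.inr ⟨by simp only; omega, rfl, rfl, ?_⟩)
      rw [mk_add]
      simp only [Dir.vec, add_zero]
      exact h.dead.low (D.l + k) (Or.inl ⟨by omega, by omega⟩)
    rw [Rw_S] at p1
    refine ⟨hw, ?_, ?_⟩
    · show D.labPos (hm Sum.inl ((D.l + k, D.b), .S)) = _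
      rw [(lab_low hw).1]
      exact congrArg Nat.cast p1
    · show D.labTh (hm Sum.inl ((D.l + k, D.b), .S)) = _
      rw [(lab_low hw).2]
      unfold tL pL
      rw [p1]
      exact p2
  floorR := fun i h1 h2 => by
    have har := h.ar
    have hm' := D.mL_eq
    obtain ⟨k, rfl⟩ := Int.eq_ofNat_of_zero_le h1
    have hwall : ∀ j : ℤ, (D.mL : ℤ) - k ≤ j → j ≤ D.mL →
        Rw .S (D.l, D.b) j + Dir.S.vec ∉ D.TL (D.b + 1) := by
      intro j h3 h4
      rw [Rw_S, mk_add, mem_TL]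
      simp only [Dir.vec, add_zero]
      rintro (h5 | h5)
      · exact h.dead.low (D.l + j) (Or.inr ⟨by omega, by omega⟩) h5
      · omega
    obtain ⟨p1, p2⟩ := h.stripL.pos_right k (by omega) hwall
    have hw : D.IsW (hm Sum.inl ((D.r - k, D.b), .S)) := by
      refine (isW_inl h.hbt).2 (Or.inr ⟨by simp only; omega, rfl, rfl, ?_⟩)
      rw [mk_add]
      simp only [Dir.vec, add_zero]
      exact h.dead.low (D.r - k) (Or.inr ⟨by omega, by omega⟩)
    rw [Rw_S, hm', show D.l + (D.r - D.l - k) = D.r - k by ring] at p1 p2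
    refine ⟨hw, ?_, ?_⟩
    · show D.labPos (hm Sum.inl ((D.r - k, D.b), .S)) = _
      rw [(lab_low hw).1]
      unfold pL nL
      omega
    · show D.labTh (hm Sum.inl ((D.r - k, D.b), .S)) = _
      rw [(lab_low hw).2]
      exact p2
  ceilR := fun i h1 h2 => by
    have har := h.ar
    have hm' := D.mU_eq
    obtain ⟨k, rfl⟩ := Int.eq_ofNat_of_zero_le h1
    have hwall : ∀ j : ℤ, 0 ≤ j → j ≤ k →
        Rw .N (D.r - 1, D.t - 1) j + Dir.N.vec ∉ D.TU (D.t - 1) := by
      intro j h3 h4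
      rw [Rw_N, mk_add, mem_TU]
      simp only [Dir.vec, add_zero, sub_add_cancel]
      rintro (h5 | h5)
      · exact h.dead.up (D.r - 1 - j) (Or.inr ⟨by omega, by omega⟩) h5
      · omega
    obtain ⟨p1, p2⟩ := h.stripU.pos_left k (by omega) hwall
    have hw : D.IsW (hm Sum.inr ((D.r - 1 - k, D.t - 1), .N)) := by
      refine (isW_inr h.hbt).2 (Or.inr ⟨by simp only; omega, rfl, rfl, ?_⟩)
      rw [mk_add]
      simp only [Dir.vec, add_zero, sub_add_cancel]
      exact h.dead.up (D.r - 1 - k) (Or.inr ⟨by omega, by omega⟩)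
    rw [Rw_N] at p1
    refine ⟨hw, ?_, ?_⟩
    · show D.labPos (hm Sum.inr ((D.r - 1 - k, D.t - 1), .N)) = D.labP + k
      rw [(lab_up hw).1]
      unfold pU
      rw [p1]
    · show D.labTh (hm Sum.inr ((D.r - 1 - k, D.t - 1), .N)) = _
      rw [(lab_up hw).2]
      unfold tU pU
      rw [p1, p2]
      norm_num
  ceilL := fun i h1 h2 => by
    have har := h.ar
    have hm' := D.mU_eq
    obtain ⟨k, rfl⟩ := Int.eq_ofNat_of_zero_le h1
    have hwall : ∀ j : ℤ, (D.mU : ℤ) - k ≤ j → j ≤ D.mU →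
        Rw .N (D.r - 1, D.t - 1) j + Dir.N.vec ∉ D.TU (D.t - 1) := by
      intro j h3 h4
      rw [Rw_N, mk_add, mem_TU]
      simp only [Dir.vec, add_zero, sub_add_cancel]
      rintro (h5 | h5)
      · exact h.dead.up (D.r - 1 - j) (Or.inl ⟨by omega, by omega⟩) h5
      · omega
    obtain ⟨p1, p2⟩ := h.stripU.pos_right k (by omega) hwall
    have hw : D.IsW (hm Sum.inr ((D.l + k, D.t - 1), .N)) := by
      refine (isW_inr h.hbt).2 (Or.inr ⟨by simp only; omega, rfl, rfl, ?_⟩)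
      rw [mk_add]
      simp only [Dir.vec, add_zero, sub_add_cancel]
      exact h.dead.up (D.l + k) (Or.inl ⟨by omega, by omega⟩)
    rw [Rw_N, hm', show D.r - 1 - (D.r - 1 - D.l - k) = D.l + k by ring] at p1 p2
    refine ⟨hw, ?_, ?_⟩
    · show D.labPos (hm Sum.inr ((D.l + k, D.t - 1), .N)) = D.labP + D.nU - 1 - k
      rw [(lab_up hw).1]
      unfold pU nU
      omega
    · show D.labTh (hm Sum.inr ((D.l + k, D.t - 1), .N)) = _
      rw [(lab_up hw).2]
      have e : D.tU ((D.l + k, D.t - 1), .N) = 0 := p2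
      rw [e]
      norm_num
  low := fun t d hw => by
    have hw' : D.IsW (hm Sum.inl (t, d)) := hw
    have h1 := h.pr_low.2 hw'
    have h2 := (h.stripL.pr_iff h1.1).1 h1
    show 0 ≤ D.labPos (hm Sum.inl (t, d)) ∧ D.labPos (hm Sum.inl (t, d)) < D.nL
    rw [(lab_low hw').1]
    unfold pL nL
    omega
  up := fun t d hw => by
    have hw' : D.IsW (hm Sum.inr (t, d)) := hw
    have h1 := h.pr_up.2 hw'
    have h2 := (h.stripU.pr_iff h1.1).1 h1
    show D.labP ≤ D.labPos (hm Sum.inr (t, d)) ∧ D.labPos (hm Sum.inr (t, d)) < D.labP + D.nU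
    rw [(lab_up hw').1]
    unfold pU nU
    omega
  inj := by
    have hlow : ∀ t d, D.IsW (.inl t, d) → 0 ≤ D.labPos (.inl t, d) ∧ D.labPos (.inl t, d) < D.nL := by
      intro t d hw
      have hw' : D.IsW (hm Sum.inl (t, d)) := hw
      have h1 := h.pr_low.2 hw'
      have h2 := (h.stripL.pr_iff h1.1).1 h1
      show 0 ≤ D.labPos (hm Sum.inl (t, d)) ∧ D.labPos (hm Sum.inl (t, d)) < D.nL
      rw [(lab_low hw').1]
      unfold pL nL
      omega
    have hup : ∀ t d, D.IsW (.inr t, d) → D.labP ≤ D.labPos (.inr t, d) := by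
      intro t d hw
      have hw' : D.IsW (hm Sum.inr (t, d)) := hw
      show D.labP ≤ D.labPos (hm Sum.inr (t, d))
      rw [(lab_up hw').1]
      omega
    have hP : D.nL ≤ D.labP := by
      have := h.hbt
      unfold labP
      omega
    rintro ⟨t | t, d⟩ ⟨t' | t', d'⟩ hu hv he
    · have hu' : D.IsW (hm Sum.inl (t, d)) := hu
      have hv' : D.IsW (hm Sum.inl (t', d')) := hv
      have he' : D.labPos (hm Sum.inl (t, d)) = D.labPos (hm Sum.inl (t', d')) := he
      rw [(lab_low hu').1, (lab_low hv').1] at he'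
      have h1 := (plane.glu _).pos_inj h.stripL.sc h.stripL.bd_e (h.stripL.on' (h.pr_low.2 hu').1)
        (h.stripL.on' (h.pr_low.2 hv').1) (by
          have : D.pL (t, d) = D.pL (t', d') := by exact_mod_cast he'
          exact this)
      obtain ⟨rfl, rfl⟩ := Prod.mk.inj h1
      rfl
    · have h1 := hlow _ _ hu
      have h2 := hup _ _ hv
      have h3 : D.labPos (.inl t, d) = D.labPos (.inr t', d') := he
      omega
    · have h1 := hup _ _ hu
      have h2 := hlow _ _ hv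
      have h3 : D.labPos (.inr t, d) = D.labPos (.inl t', d') := he
      omega
    · have hu' : D.IsW (hm Sum.inr (t, d)) := hu
      have hv' : D.IsW (hm Sum.inr (t', d')) := hv
      have he' : D.labPos (hm Sum.inr (t, d)) = D.labPos (hm Sum.inr (t', d')) := he
      rw [(lab_up hu').1, (lab_up hv').1] at he'
      have h1 := (plane.glu _).pos_inj h.stripU.sc h.stripU.bd_e (h.stripU.on' (h.pr_up.2 hu').1)
        (h.stripU.on' (h.pr_up.2 hv').1) (by
          have : D.pU (t, d) = D.pU (t', d') := by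
            have := add_left_cancel he'
            exact_mod_cast this
          exact this)
      obtain ⟨rfl, rfl⟩ := Prod.mk.inj h1
      rfl
  surj := by
    rintro p (hp | hp)
    · obtain ⟨k, rfl⟩ := Int.eq_ofNat_of_zero_le hp.1
      obtain ⟨h1, h2⟩ := h.stripL.surj (k := k) (by
        have := hp.2
        unfold nL at this
        omega)
      have hw := h.pr_low.1 h1
      refine ⟨_, hw, ?_⟩
      show D.labPos (hm Sum.inl ((next (plane.glue (D.TL (D.b + 1))))^[k] ((D.l, D.b), .S))) = _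
      rw [(lab_low hw).1]
      exact congrArg Nat.cast h2
    · obtain ⟨k, hk⟩ := Int.eq_ofNat_of_zero_le (show 0 ≤ p - D.labP by
        have : D.labP ≤ p := hp.1
        omega)
      obtain ⟨h1, h2⟩ := h.stripU.surj (k := k) (by
        have h3 : p < D.labP + D.nU := hp.2
        unfold nU at h3
        omega)
      have hw := h.pr_up.1 h1
      refine ⟨_, hw, ?_⟩
      show D.labPos (hm Sum.inr ((next (plane.glue (D.TU (D.t - 1))))^[k]
        ((D.r - 1, D.t - 1), .N))) = _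
      rw [(lab_up hw).1]
      have : D.pU ((next (plane.glue (D.TU (D.t - 1))))^[k] ((D.r - 1, D.t - 1), .N)) = k := h2
      rw [this]
      omega
  dir := by
    rintro ⟨t | t, d⟩ hu
    · have hu' : D.IsW (hm Sum.inl (t, d)) := hu
      show (4 : ℤ) ∣ D.labTh (hm Sum.inl (t, d)) - d.num
      rw [(lab_low hu').2]
      have h1 := h.stripL.dir (h.pr_low.2 hu').1
      rw [dn_eq, dn_eq] at h1
      simpa [Dir.num, tL, pL] using h1
    · have hu' : D.IsW (hm Sum.inr (t, d)) := hu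
      show (4 : ℤ) ∣ D.labTh (hm Sum.inr (t, d)) - d.num
      rw [(lab_up hu').2]
      have h1 := h.stripU.dir (h.pr_up.2 hu').1
      rw [dn_eq, dn_eq] at h1
      obtain ⟨c, hc⟩ := h1
      refine ⟨c, ?_⟩
      have h2 : D.tU (t, d) - (d.num - Dir.N.num) = 4 * c := hc
      have h3 : Dir.N.num = 2 := rfl
      rw [h3] at h2
      linarith
  step := fun x y h1 h2 h3 h4 u h5 h6 h7 => h.step h1 h2 h3 h4 h5 h6 h7

/-- **existence of admissible labels** -/
theorem exists_lab : ∃ (W : Lab) (nL nU : ℤ), W.Ok D a nL nU := ⟨D.lab, D.nL, D.nU, h.ok⟩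

end Sheets

end Full.Slab
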