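import Pool.Agent.Full.X3.ThSide
import Pool.Agent.Full.X3.LabOk

/-!
# One step along the walls, in terms of the plane regions

`next_isW_low`, `next_isW_up`: the next wall of the lower (upper) part and its labels, for arbitrary
admissible labels.  `seamL_steps`, `seamU_steps`: the rotation to the next wall does not meet the sides
at the ends of the rows.
-/

set_option autoImplicit false

namespace Full.Slab
open Function Relation Full Full.Turn Full.X3

variable {D : Slab} {W : Lab} {a nL nU x y : ℤ}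

/-- **the next wall of the lower part** -/
theorem next_isW_low (hW : W.Ok D a nL nU) (ha : 1 ≤ a) (hlr : D.l + 2 < D.r) (hbt : D.b + 1 < D.t)
    {v : Half (ℤ × ℤ)} (hv : D.IsW (hm Sum.inl v)) (hne : v ≠ ((D.r, D.b), .S)) :
    D.IsW (hm Sum.inl (next (plane.glue (D.TL (D.b + 1))) v)) ∧
      W.pos (hm Sum.inl (next (plane.glue (D.TL (D.b + 1))) v)) = W.pos (hm Sum.inl v) + 1 ∧
      W.th (hm Sum.inl (next (plane.glue (D.TL (D.b + 1))) v)) =
        W.th (hm Sum.inl v) + Turn.bt (plane.glue (D.TL (D.b + 1))) v := by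
  set w := next (plane.glue (D.TL (D.b + 1))) v with hw
  obtain ⟨x, hx1, hx2, hx3⟩ : ∃ x, D.l < x ∧ x < D.r ∧ x ≠ w.1.1 := by
    by_cases h : w.1.1 = D.l + 1
    · exact ⟨D.l + 2, by omega, hlr, by omega⟩
    · exact ⟨D.l + 1, by omega, by omega, fun h' => h h'.symm⟩
  obtain ⟨g1, g2⟩ := next_go_low (x := x) (y := D.b + 1) (by omega) hbt hv
  have hbd := (isW_go (x := x) (y := D.b + 1) hx1.le hx2.le (by omega) hbt).2 (Or.inl hv)
  have hst := hW.step x (D.b + 1) hx1 hx2 (by omega) hbt _ hbd.1 hbd.2 (fun h => by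
    have h1 : (Sum.inl v.1 : ZT) = Sum.inr (D.l, D.b + 1) := congrArg Prod.fst h
    exact absurd h1 (by simp))
  have hbd2 : Bd (D.T (D.b + 1)) (D.go x (D.b + 1)) (hm Sum.inl w) := by
    have := (glu_go (D := D) (x := x) (y := D.b + 1)).next_bd hbd.1
    rw [g1] at this
    exact this
  rw [g1, g2] at hst
  refine ⟨?_, hst⟩
  have hz : hm Sum.inl w ≠ Slab.z x (D.b + 1) := fun h => by
    have h1 : (Sum.inl w.1 : ZT) = Sum.inl (x, D.b + 1 - 1) := congrArg Prod.fst h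
    have h2 : w.1 = (x, D.b + 1 - 1) := Sum.inl.inj h1
    apply hx3
    rw [h2]
  obtain ⟨p1, p2⟩ := hW.low _ _ hv
  rcases (isW_go (x := x) (y := D.b + 1) hx1.le hx2.le (by omega) hbt).1 ⟨hbd2, hz⟩ with h | h
  · exact h
  · exfalso
    have hp : W.pos (hm Sum.inl w) = W.pos (hm Sum.inl v) + 1 := hst.1
    have p1' : 0 ≤ W.pos (hm Sum.inl v) := p1
    have p2' : W.pos (hm Sum.inl v) < nL := p2
    rcases h with ⟨j, h1, h2, h3 | h3⟩ | ⟨j, h1, h2, h3 | h3⟩
    · rw [h3, (hW.lowW j h1 (by omega)).1] at hp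
      omega
    · rw [h3, (hW.lowE j h1 (by omega)).1] at hp
      obtain ⟨q1, q2, -⟩ := hW.floorR 0 le_rfl (by omega)
      rw [sub_zero] at q1 q2
      have h4 : hm Sum.inl v = (.inl (D.r, D.b), .S) := hW.inj _ _ hv q1 (by rw [q2]; omega)
      apply hne
      have h5 : (Sum.inl v.1 : ZT) = Sum.inl (D.r, D.b) := congrArg Prod.fst h4
      have h6 : v.2 = .S := congrArg Prod.snd h4
      exact Prod.ext (Sum.inl.inj h5) h6
    · have h4 : (Sum.inl w.1 : ZT) = Sum.inr (D.l, j) := congrArg Prod.fst h3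
      exact absurd h4 (by simp)
    · have h4 : (Sum.inl w.1 : ZT) = Sum.inr (D.r - 1, j) := congrArg Prod.fst h3
      exact absurd h4 (by simp)

/-- **the next wall of the upper part** -/
theorem next_isW_up (hW : W.Ok D a nL nU) (ha : 1 ≤ a) (hlr : D.l + 1 < D.r) (hbt : D.b + 1 < D.t)
    {v : Half (ℤ × ℤ)} (hv : D.IsW (hm Sum.inr v)) (hne : v ≠ ((D.l, D.t - 1), .N)) :
    D.IsW (hm Sum.inr (next (plane.glue (D.TU (D.t - 1))) v)) ∧
      W.pos (hm Sum.inr (next (plane.glue (D.TU (D.t - 1))) v)) = W.pos (hm Sum.inr v) + 1 ∧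
      W.th (hm Sum.inr (next (plane.glue (D.TU (D.t - 1))) v)) =
        W.th (hm Sum.inr v) + Turn.bt (plane.glue (D.TU (D.t - 1))) v := by
  set w := next (plane.glue (D.TU (D.t - 1))) v with hw
  set x := D.l + 1 with hx
  have hy1 : D.b < D.t - 1 := by omega
  have hy2 : D.t - 1 < D.t := by omega
  have hx1 : D.l < x := by omega
  have hx2 : x < D.r := by omega
  obtain ⟨g1, g2⟩ := next_go_up (x := x) (y := D.t - 1) hy1 hy2 hv
  have hbd := (isW_go (x := x) (y := D.t - 1) hx1.le hx2.le hy1 hy2).2 (Or.inl hv)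
  have hst := hW.step x (D.t - 1) hx1 hx2 hy1 hy2 _ hbd.1 hbd.2 (fun h => by
    have h1 : (Sum.inr v.1 : ZT) = Sum.inr (D.l, D.t - 1) := congrArg Prod.fst h
    have h2 : v.2 = .W := congrArg Prod.snd h
    have h3 : v.1 = (D.l, D.t - 1) := Sum.inr.inj h1
    have h4 : v = ((D.l, D.t - 1), .W) := Prod.ext h3 h2
    rw [h4] at hv
    exact not_isW_up (D := D) (i := D.l) (v := D.t - 1) (d := .W) le_rfl (by omega) (by omega)
      (by omega) (by decide) hv)
  have hbd2 : Bd (D.T (D.t - 1)) (D.go x (D.t - 1)) (hm Sum.inr w) := by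
    have := (glu_go (D := D) (x := x) (y := D.t - 1)).next_bd hbd.1
    rw [g1] at this
    exact this
  rw [g1, g2] at hst
  refine ⟨?_, hst⟩
  have hz : hm Sum.inr w ≠ Slab.z x (D.t - 1) := fun h => by
    have h1 : (Sum.inr w.1 : ZT) = Sum.inl (x, D.t - 1 - 1) := congrArg Prod.fst h
    exact absurd h1 (by simp)
  obtain ⟨p1, p2⟩ := hW.up _ _ hv
  rcases (isW_go (x := x) (y := D.t - 1) hx1.le hx2.le hy1 hy2).1 ⟨hbd2, hz⟩ with h | h
  · exact h
  · exfalso
    have hp : W.pos (hm Sum.inr w) = W.pos (hm Sum.inr v) + 1 := hst.1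
    have p1' : W.P ≤ W.pos (hm Sum.inr v) := p1
    have p2' : W.pos (hm Sum.inr v) < W.P + nU := p2
    have hP := hW.P_eq
    rcases h with ⟨j, h1, h2, h3 | h3⟩ | ⟨j, h1, h2, h3 | h3⟩
    · have h4 : (Sum.inr w.1 : ZT) = Sum.inl (D.l, j) := congrArg Prod.fst h3
      exact absurd h4 (by simp)
    · have h4 : (Sum.inr w.1 : ZT) = Sum.inl (D.r, j) := congrArg Prod.fst h3
      exact absurd h4 (by simp)
    · rw [h3, (hW.upW j (by omega) h2).1] at hp
      obtain ⟨q1, q2, -⟩ := hW.ceilL 0 le_rfl (by omega)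
      rw [add_zero] at q1 q2
      have h4 : hm Sum.inr v = (.inr (D.l, D.t - 1), .N) := hW.inj _ _ hv q1 (by rw [q2]; omega)
      apply hne
      have h5 : (Sum.inr v.1 : ZT) = Sum.inr (D.l, D.t - 1) := congrArg Prod.fst h4
      have h6 : v.2 = .N := congrArg Prod.snd h4
      exact Prod.ext (Sum.inr.inj h5) h6
    · rw [h3, (hW.upE j (by omega) h2).1] at hp
      omega

/-! ### the sides at the ends of the rows -/

/-- the sides at the ends of the rows of the upper sheet -/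
def SeamU (D : Slab) (y : ℤ) (w : Half (ℤ × ℤ)) : Prop :=
  ∃ j, y ≤ j ∧ j < D.t ∧ (w = ((D.l, j), .W) ∨ w = ((D.r - 1, j), .E))

/-- the sides at the ends of the rows of the lower sheet -/
def SeamL (D : Slab) (y : ℤ) (w : Half (ℤ × ℤ)) : Prop :=
  ∃ j, D.b ≤ j ∧ j < y ∧ (w = ((D.l, j), .W) ∨ w = ((D.r, j), .E))

lemma SeamU.cases {t : ℤ × ℤ} {d : Dir} (h : D.SeamU y (t, d)) : (y ≤ t.2 ∧ t.2 < D.t) ∧
    ((t.1 = D.l ∧ d = .W) ∨ (t.1 = D.r - 1 ∧ d = .E)) := by
  obtain ⟨j, h1, h2, h3 | h3⟩ := h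
  · obtain ⟨rfl, rfl⟩ := Prod.mk.inj h3
    exact ⟨⟨h1, h2⟩, Or.inl ⟨rfl, rfl⟩⟩
  · obtain ⟨rfl, rfl⟩ := Prod.mk.inj h3
    exact ⟨⟨h1, h2⟩, Or.inr ⟨rfl, rfl⟩⟩

lemma SeamL.cases {t : ℤ × ℤ} {d : Dir} (h : D.SeamL y (t, d)) : (D.b ≤ t.2 ∧ t.2 < y) ∧
    ((t.1 = D.l ∧ d = .W) ∨ (t.1 = D.r ∧ d = .E)) := by
  obtain ⟨j, h1, h2, h3 | h3⟩ := h
  · obtain ⟨rfl, rfl⟩ := Prod.mk.inj h3
    exact ⟨⟨h1, h2⟩, Or.inl ⟨rfl, rfl⟩⟩
  · obtain ⟨rfl, rfl⟩ := Prod.mk.inj h3
    exact ⟨⟨h1, h2⟩, Or.inr ⟨rfl, rfl⟩⟩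

/-- the rotation to the next wall of the upper part does not meet the ends of the rows -/
theorem seamU_steps (hb : D.b ≤ y) (ht : y < D.t) (hU : (D.l, D.t) ∉ D.U) {t : ℤ × ℤ} {d : Dir}
    (hw : D.IsW (hm Sum.inr (t, d))) (hne : ((t, d) : Half (ℤ × ℤ)) ≠ ((D.l, D.t - 1), .N)) :
    ¬ D.SeamU y (t, d) ∧ ¬ D.SeamU y (t, d.ccw) ∧
      (t + d.ccw.vec ∈ D.TU y → ¬ D.SeamU y (t + d.ccw.vec, d)) ∧
      (t + d.ccw.vec ∈ D.TU y → t + d.ccw.vec + d.vec ∈ D.TU y →
        ¬ D.SeamU y (t + d.ccw.vec + d.vec, d.cw)) := by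
  obtain ⟨i, j⟩ := t
  have hlr := D.hlr
  have hmem : (i, j) ∈ D.TU y := by
    have h1 : Bd (D.TU y) (plane.glue (D.TU y)) ((i, j), d) :=
      (bd_TU_iff (by omega) hb ht).2 (Or.inl hw)
    exact h1.1
  have hstrip : D.l - 1 ≤ i → i ≤ D.r → D.b - 1 ≤ j → j < D.t →
      (D.l ≤ i ∧ i < D.r) ∧ y ≤ j ∧ j < D.t := by
    intro h1 h2 h3 h4
    rcases mem_TU.1 hmem with h | h
    · exact absurd h (D.hU i j h1 h2 h3 h4)
    · exact h
  have hno : (D.l ≤ i ∧ i < D.r) ∧ D.b ≤ j ∧ j < D.t → d = .N ∧ j = D.t - 1 := by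
    intro h
    constructor
    · by_contra h1
      exact not_isW_up (D := D) h.1.1 h.1.2 h.2.1 h.2.2 h1 hw
    · by_contra h1
      by_cases h2 : d = .N
      · subst h2
        exact not_isW_upN (D := D) h.1.1 h.1.2 h.2.1 (by omega) hw
      · exact not_isW_up (D := D) h.1.1 h.1.2 h.2.1 h.2.2 h2 hw
  refine ⟨?_, ?_, ?_, ?_⟩
  · intro h
    obtain ⟨⟨h1, h2⟩, ⟨h3, rfl⟩ | ⟨h3, rfl⟩⟩ := h.cases
    · simp only at h1 h2 h3
      exact absurd (hno ⟨by omega, by omega, h2⟩).1 (by decide)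
    · simp only at h1 h2 h3
      exact absurd (hno ⟨by omega, by omega, h2⟩).1 (by decide)
  · intro h
    obtain ⟨⟨h1, h2⟩, ⟨h3, h4⟩ | ⟨h3, h4⟩⟩ := h.cases
    · simp only at h1 h2 h3
      obtain ⟨rfl, h5⟩ := hno ⟨by omega, by omega, h2⟩
      apply hne
      rw [h5, h3]
    · simp only at h1 h2 h3
      obtain ⟨rfl, h5⟩ := hno ⟨by omega, by omega, h2⟩
      exact absurd h4 (by decide)
  · intro _ h
    obtain ⟨⟨h1, h2⟩, ⟨h3, rfl⟩ | ⟨h3, rfl⟩⟩ := h.cases
    · rw [show Dir.W.ccw = Dir.S from rfl, addS] at h1 h2 h3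
      simp only at h1 h2 h3
      by_cases h4 : j < D.t
      · exact absurd (hno ⟨by omega, by omega, h4⟩).1 (by decide)
      · have h5 : j = D.t := by omega
        subst h5 h3
        rcases mem_TU.1 hmem with h6 | h6
        · exact hU h6
        · omega
    · rw [show Dir.E.ccw = Dir.N from rfl, addN] at h1 h2 h3
      simp only at h1 h2 h3
      have := hstrip (by omega) (by omega) (by omega) (by omega)
      exact absurd (hno ⟨by omega, by omega, by omega⟩).1 (by decide)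
  · intro hm1 _ h
    obtain ⟨⟨h1, h2⟩, ⟨h3, h4⟩ | ⟨h3, h4⟩⟩ := h.cases
    · obtain rfl : d = .S := by
        cases d <;> simp only [Dir.cw, reduceCtorEq] at h4 ⊢
      rw [show Dir.S.ccw = Dir.E from rfl, addE] at hm1 h1 h2 h3
      rw [addS] at h1 h2 h3
      simp only at h1 h2 h3
      by_cases h4 : j < D.t
      · have := hstrip (by omega) (by omega) (by omega) (by omega)
        omega
      · have h5 : j = D.t := by omega
        rcases mem_TU.1 hm1 with h6 | h6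
        · rw [h3, h5] at h6
          exact hU h6
        · omega
    · obtain rfl : d = .N := by
        cases d <;> simp only [Dir.cw, reduceCtorEq] at h4 ⊢
      rw [show Dir.N.ccw = Dir.W from rfl, addW] at hm1 h1 h2 h3
      rw [addN] at h1 h2 h3
      simp only at h1 h2 h3
      have := hstrip (by omega) (by omega) (by omega) (by omega)
      omega

/-- the rotation to the next wall of the lower part does not meet the ends of the rows -/
theorem seamL_steps (hb : D.b < y) (ht : y ≤ D.t) (hL : (D.r, D.b - 1) ∉ D.L) {t : ℤ × ℤ} {d : Dir}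
    (hw : D.IsW (hm Sum.inl (t, d))) (hne : ((t, d) : Half (ℤ × ℤ)) ≠ ((D.r, D.b), .S)) :
    ¬ D.SeamL y (t, d) ∧ ¬ D.SeamL y (t, d.ccw) ∧
      (t + d.ccw.vec ∈ D.TL y → ¬ D.SeamL y (t + d.ccw.vec, d)) ∧
      (t + d.ccw.vec ∈ D.TL y → t + d.ccw.vec + d.vec ∈ D.TL y →
        ¬ D.SeamL y (t + d.ccw.vec + d.vec, d.cw)) := by
  obtain ⟨i, j⟩ := t
  have hlr := D.hlr
  have hmem : (i, j) ∈ D.TL y := by
    have h1 : Bd (D.TL y) (plane.glue (D.TL y)) ((i, j), d) :=
      (bd_TL_iff (by omega) hb ht).2 (Or.inl hw)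
    exact h1.1
  have hstrip : D.l - 1 ≤ i → i ≤ D.r + 1 → D.b ≤ j → j ≤ D.t →
      (D.l ≤ i ∧ i ≤ D.r) ∧ D.b ≤ j ∧ j < y := by
    intro h1 h2 h3 h4
    rcases mem_TL.1 hmem with h | h
    · exact absurd h (D.hL i j h1 h2 h3 h4)
    · exact h
  have hno : (D.l ≤ i ∧ i ≤ D.r) ∧ D.b ≤ j ∧ j < D.t → d = .S ∧ j = D.b := by
    intro h
    constructor
    · by_contra h1
      exact not_isW_low (D := D) h.1.1 h.1.2 h.2.1 h.2.2 h1 hw
    · by_contra h1
      by_cases h2 : d = .S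
      · subst h2
        exact not_isW_lowS (D := D) h.1.1 h.1.2 (by omega) h.2.2 hw
      · exact not_isW_low (D := D) h.1.1 h.1.2 h.2.1 h.2.2 h2 hw
  refine ⟨?_, ?_, ?_, ?_⟩
  · intro h
    obtain ⟨⟨h1, h2⟩, ⟨h3, rfl⟩ | ⟨h3, rfl⟩⟩ := h.cases
    · simp only at h1 h2 h3
      exact absurd (hno ⟨by omega, by omega, by omega⟩).1 (by decide)
    · simp only at h1 h2 h3
      exact absurd (hno ⟨by omega, by omega, by omega⟩).1 (by decide)
  · intro h
    obtain ⟨⟨h1, h2⟩, ⟨h3, h4⟩ | ⟨h3, h4⟩⟩ := h.cases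
    · simp only at h1 h2 h3
      obtain ⟨rfl, h5⟩ := hno ⟨by omega, by omega, by omega⟩
      exact absurd h4 (by decide)
    · simp only at h1 h2 h3
      obtain ⟨rfl, h5⟩ := hno ⟨by omega, by omega, by omega⟩
      apply hne
      rw [h5, h3]
  · intro _ h
    obtain ⟨⟨h1, h2⟩, ⟨h3, rfl⟩ | ⟨h3, rfl⟩⟩ := h.cases
    · rw [show Dir.W.ccw = Dir.S from rfl, addS] at h1 h2 h3
      simp only at h1 h2 h3
      have := hstrip (by omega) (by omega) (by omega) (by omega)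
      exact absurd (hno ⟨by omega, by omega, by omega⟩).1 (by decide)
    · rw [show Dir.E.ccw = Dir.N from rfl, addN] at h1 h2 h3
      simp only at h1 h2 h3
      by_cases h4 : D.b ≤ j
      · exact absurd (hno ⟨by omega, h4, by omega⟩).1 (by decide)
      · have h5 : j = D.b - 1 := by omega
        rcases mem_TL.1 hmem with h6 | h6
        · rw [h3, h5] at h6
          exact hL h6
        · omega
  · intro hm1 _ h
    obtain ⟨⟨h1, h2⟩, ⟨h3, h4⟩ | ⟨h3, h4⟩⟩ := h.cases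
    · obtain rfl : d = .S := by
        cases d <;> simp only [Dir.cw, reduceCtorEq] at h4 ⊢
      rw [show Dir.S.ccw = Dir.E from rfl, addE] at hm1 h1 h2 h3
      rw [addS] at h1 h2 h3
      simp only at h1 h2 h3
      have := hstrip (by omega) (by omega) (by omega) (by omega)
      omega
    · obtain rfl : d = .N := by
        cases d <;> simp only [Dir.cw, reduceCtorEq] at h4 ⊢
      rw [show Dir.N.ccw = Dir.W from rfl, addW] at hm1 h1 h2 h3
      rw [addN] at h1 h2 h3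
      simp only at h1 h2 h3
      by_cases h4 : D.b ≤ j
      · have := hstrip (by omega) (by omega) h4 (by omega)
        omega
      · have h5 : j = D.b - 1 := by omega
        rcases mem_TL.1 hm1 with h6 | h6
        · rw [h3, h5] at h6
          exact hL h6
        · omega

end Full.Slab
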