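import Pool.Agent.Full.X3.Th

/-!
# Steps along the vertical sides of the open domain
-/

set_option autoImplicit false

namespace Full.Slab
open Function Relation Full Full.Turn Full.X3

variable {D : Slab} {x y a : ℤ}

lemma addE (i j : ℤ) : ((i, j) : ℤ × ℤ) + Dir.E.vec = (i + 1, j) := by
  rw [mk_add]; simp only [Dir.vec, add_zero]
lemma addN (i j : ℤ) : ((i, j) : ℤ × ℤ) + Dir.N.vec = (i, j + 1) := by
  rw [mk_add]; simp only [Dir.vec, add_zero]
lemma addW (i j : ℤ) : ((i, j) : ℤ × ℤ) + Dir.W.vec = (i - 1, j) := by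
  rw [mk_add]; simp only [Dir.vec, add_zero, sub_eq_add_neg]
lemma addS (i j : ℤ) : ((i, j) : ℤ × ℤ) + Dir.S.vec = (i, j - 1) := by
  rw [mk_add]; simp only [Dir.vec, add_zero, sub_eq_add_neg]

/-- upwards along the right side of the lower sheet -/
lemma next_E_low (hb : D.b < y) (ht : y < D.t) {v : ℤ} (h1 : D.b ≤ v) (h2 : v < y - 1) :
    next (D.go x y) (.inl (D.r, v), .E) = (.inl (D.r, v + 1), .E) ∧
      bt (D.go x y) (.inl (D.r, v), .E) = 0 := by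
  have hlr := D.hlr
  have hbd : Bd (D.TL y) (plane.glue (D.TL y)) ((D.r, v), .E) :=
    (bd_TL_iff (by omega) hb ht.le).2 (Or.inr ⟨by simp only; omega, Or.inl ⟨rfl, rfl⟩⟩)
  have m1 : ((D.r, v) : ℤ × ℤ) ∈ D.TL y := mem_TL.2 (Or.inr (by omega))
  have m2 : ((D.r, v) : ℤ × ℤ) + Dir.E.ccw.vec ∈ D.TL y := by
    show ((D.r, v) : ℤ × ℤ) + Dir.N.vec ∈ D.TL y
    rw [addN]
    exact mem_TL.2 (Or.inr (by omega))
  have m3 : ((D.r, v) : ℤ × ℤ) + Dir.E.ccw.vec + Dir.E.vec ∉ D.TL y := by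
    show ((D.r, v) : ℤ × ℤ) + Dir.N.vec + Dir.E.vec ∉ D.TL y
    rw [addN, addE]
    exact right_TL (by omega) (by omega)
  have hf := bt_flat (P := D.TL y) (t := (D.r, v)) (d := .E) m1 (Shp.bd_plane.1 hbd).2 m2 m3
  have hn := next_low (x := x) hb ht.le hbd (fun h => Dir.noConfusion h.1) (fun h => by
    have := congrArg (fun u : Half (ℤ × ℤ) => u.1.2) h
    simp only at this
    omega)
  rw [hf.1, hf.2] at hn
  have e : ((D.r, v) : ℤ × ℤ) + Dir.E.ccw.vec = (D.r, v + 1) := addN _ _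
  rw [e] at hn
  exact hn

/-- upwards along the right side of the upper sheet -/
lemma next_E_up (hb : D.b < y) (ht : y < D.t) {v : ℤ} (h1 : y ≤ v) (h2 : v + 1 < D.t) :
    next (D.go x y) (.inr (D.r - 1, v), .E) = (.inr (D.r - 1, v + 1), .E) ∧
      bt (D.go x y) (.inr (D.r - 1, v), .E) = 0 := by
  have hlr := D.hlr
  have hbd : Bd (D.TU y) (plane.glue (D.TU y)) ((D.r - 1, v), .E) :=
    (bd_TU_iff (by omega) hb.le ht).2 (Or.inr ⟨by simp only; omega, Or.inl ⟨rfl, rfl⟩⟩)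
  have m1 : ((D.r - 1, v) : ℤ × ℤ) ∈ D.TU y := mem_TU.2 (Or.inr (by omega))
  have m2 : ((D.r - 1, v) : ℤ × ℤ) + Dir.E.ccw.vec ∈ D.TU y := by
    show ((D.r - 1, v) : ℤ × ℤ) + Dir.N.vec ∈ D.TU y
    rw [addN]
    exact mem_TU.2 (Or.inr (by omega))
  have m3 : ((D.r - 1, v) : ℤ × ℤ) + Dir.E.ccw.vec + Dir.E.vec ∉ D.TU y := by
    show ((D.r - 1, v) : ℤ × ℤ) + Dir.N.vec + Dir.E.vec ∉ D.TU y
    rw [addN, addE, sub_add_cancel]
    exact right_TU (by omega) (by omega)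
  have hf := bt_flat (P := D.TU y) (t := (D.r - 1, v)) (d := .E) m1 (Shp.bd_plane.1 hbd).2 m2 m3
  have hn := next_up (x := x) hb.le ht hbd (fun h => Dir.noConfusion h.1) (fun h => by
    have := congrArg (fun u : Half (ℤ × ℤ) => u.2) h
    exact Dir.noConfusion this)
  rw [hf.1, hf.2] at hn
  have e : ((D.r - 1, v) : ℤ × ℤ) + Dir.E.ccw.vec = (D.r - 1, v + 1) := addN _ _
  rw [e] at hn
  exact hn

/-- the upper right corner -/
lemma next_E_top (hb : D.b < y) (ht : y < D.t) (hw : (D.r - 1, D.t) ∉ D.U) :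
    next (D.go x y) (.inr (D.r - 1, D.t - 1), .E) = (.inr (D.r - 1, D.t - 1), .N) ∧
      bt (D.go x y) (.inr (D.r - 1, D.t - 1), .E) = 1 := by
  have hlr := D.hlr
  have hbd : Bd (D.TU y) (plane.glue (D.TU y)) ((D.r - 1, D.t - 1), .E) :=
    (bd_TU_iff (by omega) hb.le ht).2 (Or.inr ⟨by simp only; omega, Or.inl ⟨rfl, rfl⟩⟩)
  have m3 : ((D.r - 1, D.t - 1) : ℤ × ℤ) + Dir.E.ccw.vec ∉ D.TU y := by
    show ((D.r - 1, D.t - 1) : ℤ × ℤ) + Dir.N.vec ∉ D.TU y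
    rw [addN, sub_add_cancel, mem_TU]
    rintro (h | h)
    · exact hw h
    · omega
  have hf := bt_cvx (P := D.TU y) (t := (D.r - 1, D.t - 1)) (d := .E) (Shp.bd_plane.1 hbd).2 m3
  have hn := next_up (x := x) hb.le ht hbd (fun h => Dir.noConfusion h.1) (fun h => by
    have := congrArg (fun u : Half (ℤ × ℤ) => u.2) h
    exact Dir.noConfusion this)
  rw [hf.1, hf.2] at hn
  exact hn

/-- downwards along the left side of the upper sheet -/
lemma next_W_up (hb : D.b < y) (ht : y < D.t) {v : ℤ} (h1 : y < v) (h2 : v < D.t) :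
    next (D.go x y) (.inr (D.l, v), .W) = (.inr (D.l, v - 1), .W) ∧
      bt (D.go x y) (.inr (D.l, v), .W) = 0 := by
  have hlr := D.hlr
  have hbd : Bd (D.TU y) (plane.glue (D.TU y)) ((D.l, v), .W) :=
    (bd_TU_iff (by omega) hb.le ht).2 (Or.inr ⟨by simp only; omega, Or.inr (Or.inl ⟨rfl, rfl⟩)⟩)
  have m1 : ((D.l, v) : ℤ × ℤ) ∈ D.TU y := mem_TU.2 (Or.inr (by omega))
  have m2 : ((D.l, v) : ℤ × ℤ) + Dir.W.ccw.vec ∈ D.TU y := by
    show ((D.l, v) : ℤ × ℤ) + Dir.S.vec ∈ D.TU y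
    rw [addS]
    exact mem_TU.2 (Or.inr (by omega))
  have m3 : ((D.l, v) : ℤ × ℤ) + Dir.W.ccw.vec + Dir.W.vec ∉ D.TU y := by
    show ((D.l, v) : ℤ × ℤ) + Dir.S.vec + Dir.W.vec ∉ D.TU y
    rw [addS, addW]
    exact left_TU (by omega) (by omega)
  have hf := bt_flat (P := D.TU y) (t := (D.l, v)) (d := .W) m1 (Shp.bd_plane.1 hbd).2 m2 m3
  have hn := next_up (x := x) hb.le ht hbd (fun h => Dir.noConfusion h.1) (fun h => by
    have := congrArg (fun u : Half (ℤ × ℤ) => u.1.2) h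
    simp only at this
    omega)
  rw [hf.1, hf.2] at hn
  have e : ((D.l, v) : ℤ × ℤ) + Dir.W.ccw.vec = (D.l, v - 1) := addS _ _
  rw [e] at hn
  exact hn

/-- downwards along the left side of the lower sheet -/
lemma next_W_low (hb : D.b < y) (ht : y < D.t) {v : ℤ} (h1 : D.b < v) (h2 : v < y) :
    next (D.go x y) (.inl (D.l, v), .W) = (.inl (D.l, v - 1), .W) ∧
      bt (D.go x y) (.inl (D.l, v), .W) = 0 := by
  have hlr := D.hlr
  have hbd : Bd (D.TL y) (plane.glue (D.TL y)) ((D.l, v), .W) :=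
    (bd_TL_iff (by omega) hb ht.le).2 (Or.inr ⟨by simp only; omega, Or.inr (Or.inl ⟨rfl, rfl⟩)⟩)
  have m1 : ((D.l, v) : ℤ × ℤ) ∈ D.TL y := mem_TL.2 (Or.inr (by omega))
  have m2 : ((D.l, v) : ℤ × ℤ) + Dir.W.ccw.vec ∈ D.TL y := by
    show ((D.l, v) : ℤ × ℤ) + Dir.S.vec ∈ D.TL y
    rw [addS]
    exact mem_TL.2 (Or.inr (by omega))
  have m3 : ((D.l, v) : ℤ × ℤ) + Dir.W.ccw.vec + Dir.W.vec ∉ D.TL y := by
    show ((D.l, v) : ℤ × ℤ) + Dir.S.vec + Dir.W.vec ∉ D.TL y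
    rw [addS, addW]
    exact left_TL (by omega) (by omega)
  have hf := bt_flat (P := D.TL y) (t := (D.l, v)) (d := .W) m1 (Shp.bd_plane.1 hbd).2 m2 m3
  have hn := next_low (x := x) hb ht.le hbd (fun h => Dir.noConfusion h.1) (fun h => by
    have := congrArg (fun u : Half (ℤ × ℤ) => u.2) h
    exact Dir.noConfusion this)
  rw [hf.1, hf.2] at hn
  have e : ((D.l, v) : ℤ × ℤ) + Dir.W.ccw.vec = (D.l, v - 1) := addS _ _
  rw [e] at hn
  exact hn

/-- the lower left corner -/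
lemma next_W_bot (hb : D.b < y) (ht : y < D.t) (hw : (D.l, D.b - 1) ∉ D.L) :
    next (D.go x y) (.inl (D.l, D.b), .W) = (.inl (D.l, D.b), .S) ∧
      bt (D.go x y) (.inl (D.l, D.b), .W) = 1 := by
  have hlr := D.hlr
  have hbd : Bd (D.TL y) (plane.glue (D.TL y)) ((D.l, D.b), .W) :=
    (bd_TL_iff (by omega) hb ht.le).2 (Or.inr ⟨by simp only; omega, Or.inr (Or.inl ⟨rfl, rfl⟩)⟩)
  have m3 : ((D.l, D.b) : ℤ × ℤ) + Dir.W.ccw.vec ∉ D.TL y := by
    show ((D.l, D.b) : ℤ × ℤ) + Dir.S.vec ∉ D.TL y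
    rw [addS, mem_TL]
    rintro (h | h)
    · exact hw h
    · omega
  have hf := bt_cvx (P := D.TL y) (t := (D.l, D.b)) (d := .W) (Shp.bd_plane.1 hbd).2 m3
  have hn := next_low (x := x) hb ht.le hbd (fun h => Dir.noConfusion h.1) (fun h => by
    have := congrArg (fun u : Half (ℤ × ℤ) => u.2) h
    exact Dir.noConfusion this)
  rw [hf.1, hf.2] at hn
  exact hn

end Full.Slab
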