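import Pool.Agent.Full.Loc1.Chain
import Pool.Agent.Full.Def.Geo

/-!
# A strand between two chains of different colours

In a box of the plane let a chain of diagonals of one colour join the floor to the ceiling, and, to the
right of it, a chain of diagonals of the other colour.  Then some strand joins the floor to the ceiling
between the left end of the first and the right end of the second chain.
-/

set_option autoImplicit false

namespace Full
open Finset Function

/-- prefix sums of a function on the line which is constant on the dimers around the corners of one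
colour -/
theorem sum_pairs {f : ℤ → ZMod 2} {a b r : ℤ} (hr : r = 0 ∨ r = 1) (hl : ∀ i, i < a → f i = 0)
    (hp : ∀ x, (x + b) % 2 ≠ r → f (x - 1) = f x) (X : ℤ) (hX : a ≤ X) :
    ∑ i ∈ Finset.Ico a X, f i = if (X + b) % 2 = r then 0 else f (X - 1) := by
  obtain ⟨n, rfl⟩ : ∃ n : ℕ, X = a + n := ⟨(X - a).toNat, by omega⟩
  clear hX
  induction n with
  | zero =>
    simp only [Nat.cast_zero, add_zero, Finset.Ico_self, Finset.sum_empty]
    split_ifs
    · rfl
    · exact (hl _ (by omega)).symm
  | succ n ih =>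
    have e1 : Finset.Ico a (a + ((n + 1 : ℕ) : ℤ)) = insert (a + (n : ℤ)) (Finset.Ico a (a + (n : ℤ))) := by
      ext y
      simp only [Finset.mem_Ico, Finset.mem_insert]
      omega
    rw [e1, Finset.sum_insert (by simp), ih]
    by_cases h : (a + (n : ℤ) + b) % 2 = r
    · rw [if_pos h, if_neg (by push_cast; omega), add_zero]
      congr 1
      push_cast
      ring
    · rw [if_neg h, if_pos (by push_cast; omega), hp _ h]
      exact CharTwo.add_self_eq_zero _

/-- the boundary half edges of a box -/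
theorem box_end {c d b t : ℤ} {x : Half (ℤ × ℤ)} (hx : Bd (box c d b t) (plane.glue (box c d b t)) x) :
    (x = ((c, x.1.2), .W) ∧ b ≤ x.1.2 ∧ x.1.2 < t) ∨ (x = ((d - 1, x.1.2), .E) ∧ b ≤ x.1.2 ∧ x.1.2 < t) ∨
      (x = ((x.1.1, b), .S) ∧ c ≤ x.1.1 ∧ x.1.1 < d) ∨ (x = ((x.1.1, t - 1), .N) ∧ c ≤ x.1.1 ∧ x.1.1 < d) := by
  obtain ⟨⟨i, j⟩, e⟩ := x
  obtain ⟨h1, h2⟩ := hx
  rw [plane_glue] at h2
  have h3 : ((i, j) : ℤ × ℤ) + e.vec ∉ box c d b t := by
    intro h3
    rw [if_pos ⟨h1, h3⟩] at h2
    exact Dir.opp_ne e (congrArg Prod.snd h2)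
  rw [mem_box] at h1
  cases e with
  | E =>
    right; left
    have h4 : ((i + 1, j + 0) : ℤ × ℤ) ∉ box c d b t := h3
    rw [mem_box] at h4
    have : i = d - 1 := by omega
    subst this
    exact ⟨rfl, h1.2⟩
  | W =>
    left
    have h4 : ((i + -1, j + 0) : ℤ × ℤ) ∉ box c d b t := h3
    rw [mem_box] at h4
    have : i = c := by omega
    subst this
    exact ⟨rfl, h1.2⟩
  | N =>
    right; right; right
    have h4 : ((i + 0, j + 1) : ℤ × ℤ) ∉ box c d b t := h3
    rw [mem_box] at h4
    have : j = t - 1 := by omega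
    subst this
    exact ⟨rfl, h1.1⟩
  | S =>
    right; right; left
    have h4 : ((i + 0, j + -1) : ℤ × ℤ) ∉ box c d b t := h3
    rw [mem_box] at h4
    have : j = b := by omega
    subst this
    exact ⟨rfl, h1.1⟩

/-- the floor half edges are boundary half edges -/
theorem bd_floor {c d b t i : ℤ} (h1 : c ≤ i) (h2 : i < d) (h3 : b < t) :
    Bd (box c d b t) (plane.glue (box c d b t)) ((i, b), .S) := by
  refine ⟨mem_box.2 ⟨⟨h1, h2⟩, le_refl _, h3⟩, ?_⟩
  rw [plane_glue, if_neg]
  rintro ⟨-, h4⟩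
  have h5 : ((i + 0, b + -1) : ℤ × ℤ) ∈ box c d b t := h4
  rw [mem_box] at h5
  omega

/-- the potential of a chain in a larger box is constant along the strands -/
theorem Block.sep_conn {r c d b t c' d' : ℤ} {S Q : Finset (ℤ × ℤ)} (hr : r = 0 ∨ r = 1)
    (h : Block r c d b t S Q) {x y : Half (ℤ × ℤ)}
    (hc : Conn (mate S) (plane.glue (box c' d' b t)) x y) : sep r Q y = sep r Q x := by
  induction hc with
  | refl => rfl
  | @tail y z _ h2 ih =>
    rw [← ih]
    rcases h2 with rfl | rfl
    · exact h.sep_mate y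
    · obtain ⟨⟨i, j⟩, e⟩ := y
      rw [plane_glue]
      split_ifs with h3
      · obtain ⟨h3, h4⟩ := h3
        rw [mem_box] at h3
        cases e with
        | E =>
          show sep r Q ((i + 1, j + 0), .W) = _
          rw [add_zero]
          exact (Block.sep_h r Q i j).symm
        | W =>
          show sep r Q ((i + -1, j + 0), .E) = _
          rw [add_zero, Block.sep_h r Q (i + -1) j, neg_add_cancel_right]
        | N =>
          have h5 : ((i + 0, j + 1) : ℤ × ℤ) ∈ box c' d' b t := h4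
          rw [mem_box] at h5
          show sep r Q ((i + 0, j + 1), .S) = _
          rw [add_zero]
          exact (h.sep_v hr h3.2.1 h5.2.2).symm
        | S =>
          have h5 : ((i + 0, j + -1) : ℤ × ℤ) ∈ box c' d' b t := h4
          rw [mem_box] at h5
          show sep r Q ((i + 0, j + -1), .N) = _
          have h6 := h.sep_v (i := i) (j := j + -1) hr h5.2.1 (by omega)
          rw [add_zero, h6, neg_add_cancel_right]
      · rfl

/-- a strand from the floor to the ceiling between two chains of different colours, with the values of the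
potentials -/
theorem exists_through_sep {e c d b t c1 d1 c2 d2 : ℤ} {S Q1 Q2 : Finset (ℤ × ℤ)} (he : e = 0 ∨ e = 1)
    (hbt : b < t) (hc : c ≤ c1) (h12 : d1 ≤ c2) (hd : d2 ≤ d) (h1 : Block e c1 d1 b t S Q1)
    (h2 : Block (1 - e) c2 d2 b t S Q2) :
    ∃ i i' : ℤ, (c1 ≤ i ∧ i < d2) ∧ (c1 ≤ i' ∧ i' < d2) ∧ sep e Q1 ((i, b), .S) = 1 ∧
      sep (1 - e) Q2 ((i, b), .S) = 0 ∧
      other (mate S) (plane.glue (box c d b t)) ((i, b), .S) = ((i', t - 1), .N) := by
  classical
  have he' : (1 - e) = 0 ∨ (1 - e) = 1 := by omega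
  have hG := plane.glu (box c d b t)
  -- the chains are not empty
  have n1 : c1 < d1 := by
    have h3 := h1.odd b (le_refl _) hbt
    have h4 : (Q1.filter fun p => p.2 = b).Nonempty := by
      rw [Finset.nonempty_iff_ne_empty]
      intro h5
      rw [h5, Finset.card_empty, Nat.cast_zero] at h3
      exact zero_ne_one h3
    obtain ⟨p, hp⟩ := h4
    have h5 := h1.sub p (Finset.mem_filter.1 hp).1
    omega
  have n2 : c2 < d2 := by
    have h3 := h2.odd b (le_refl _) hbt
    have h4 : (Q2.filter fun p => p.2 = b).Nonempty := by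
      rw [Finset.nonempty_iff_ne_empty]
      intro h5
      rw [h5, Finset.card_empty, Nat.cast_zero] at h3
      exact zero_ne_one h3
    obtain ⟨p, hp⟩ := h4
    have h5 := h2.sub p (Finset.mem_filter.1 hp).1
    omega
  -- the values of the potentials at the sides of the box
  have vS1 : ∀ i, i < c1 → sep e Q1 ((i, b), .S) = 0 := by
    intro i hi
    show (if (i + b) % 2 = e then cum Q1 b (i + 1) else cum Q1 b i) = 0
    split_ifs
    · exact h1.left (by omega)
    · exact h1.left (by omega)
  have vS1' : ∀ i, d1 ≤ i → sep e Q1 ((i, b), .S) = 1 := by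
    intro i hi
    show (if (i + b) % 2 = e then cum Q1 b (i + 1) else cum Q1 b i) = 1
    split_ifs
    · exact h1.right (by omega) (le_refl _) hbt
    · exact h1.right (by omega) (le_refl _) hbt
  have vS2 : ∀ i, i < c2 → sep (1 - e) Q2 ((i, b), .S) = 0 := by
    intro i hi
    show (if (i + b) % 2 = 1 - e then cum Q2 b (i + 1) else cum Q2 b i) = 0
    split_ifs
    · exact h2.left (by omega)
    · exact h2.left (by omega)
  have vS2' : ∀ i, d2 ≤ i → sep (1 - e) Q2 ((i, b), .S) = 1 := by
    intro i hi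
    show (if (i + b) % 2 = 1 - e then cum Q2 b (i + 1) else cum Q2 b i) = 1
    split_ifs
    · exact h2.right (by omega) (le_refl _) hbt
    · exact h2.right (by omega) (le_refl _) hbt
  have vN1 : ∀ i, i < c1 → sep e Q1 ((i, t - 1), .N) = 0 := by
    intro i hi
    show (if (i + (t - 1)) % 2 = e then cum Q1 (t - 1) i else cum Q1 (t - 1) (i + 1)) = 0
    split_ifs
    · exact h1.left (by omega)
    · exact h1.left (by omega)
  have vN2' : ∀ i, d2 ≤ i → sep (1 - e) Q2 ((i, t - 1), .N) = 1 := by
    intro i hi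
    show (if (i + (t - 1)) % 2 = 1 - e then cum Q2 (t - 1) i else cum Q2 (t - 1) (i + 1)) = 1
    split_ifs
    · exact h2.right (by omega) (by omega) (by omega)
    · exact h2.right (by omega) (by omega) (by omega)
  have vW1 : ∀ j, sep e Q1 ((c, j), .W) = 0 := fun j => h1.left hc
  have vE2 : ∀ j, b ≤ j → j < t → sep (1 - e) Q2 ((d - 1, j), .E) = 1 := by
    intro j hj hj'
    show cum Q2 j (d - 1 + 1) = 1
    exact h2.right (by omega) hj hj'
  -- the number of floor half edges with potentials (1, 0) is odd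
  have hodd : ∑ i ∈ Finset.Ico c d, sep e Q1 ((i, b), .S) * (1 + sep (1 - e) Q2 ((i, b), .S)) = 1 := by
    have p1 := sum_pairs (f := fun i => sep e Q1 ((i, b), .S)) (b := b) he
      (fun i (hi : i < c) => vS1 i (by omega)) (fun x hx => Block.sep_floor he hx) c2 (by omega)
    have p2 := sum_pairs (f := fun i => sep (1 - e) Q2 ((i, b), .S)) (a := c2) (b := b) he'
      (fun i hi => vS2 i hi) (fun x hx => Block.sep_floor he' hx) d (by omega)
    have p3 : ∑ i ∈ Finset.Ico c2 d, (1 : ZMod 2) = ((d - c2 : ℤ) : ZMod 2) := by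
      rw [Finset.sum_const, Int.card_Ico, nsmul_eq_mul, mul_one]
      obtain ⟨n, hn⟩ : ∃ n : ℕ, d - c2 = n := ⟨(d - c2).toNat, by omega⟩
      rw [hn, Int.toNat_natCast, Int.cast_natCast]
    have hsplit : Finset.Ico c d = Finset.Ico c c2 ∪ Finset.Ico c2 d := by
      rw [Finset.Ico_union_Ico_eq_Ico (by omega) (by omega)]
    have hdisj : Disjoint (Finset.Ico c c2) (Finset.Ico c2 d) := Finset.Ico_disjoint_Ico_consecutive c c2 d
    rw [hsplit, Finset.sum_union hdisj]
    have q1 : ∑ i ∈ Finset.Ico c c2, sep e Q1 ((i, b), .S) * (1 + sep (1 - e) Q2 ((i, b), .S)) =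
        ∑ i ∈ Finset.Ico c c2, sep e Q1 ((i, b), .S) := by
      refine Finset.sum_congr rfl fun i hi => ?_
      rw [Finset.mem_Ico] at hi
      rw [vS2 i hi.2, add_zero, mul_one]
    have q2 : ∑ i ∈ Finset.Ico c2 d, sep e Q1 ((i, b), .S) * (1 + sep (1 - e) Q2 ((i, b), .S)) =
        ∑ i ∈ Finset.Ico c2 d, (1 : ZMod 2) + ∑ i ∈ Finset.Ico c2 d, sep (1 - e) Q2 ((i, b), .S) := by
      rw [← Finset.sum_add_distrib]
      refine Finset.sum_congr rfl fun i hi => ?_
      rw [Finset.mem_Ico] at hi
      rw [vS1' i (by omega), one_mul]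
    rw [q1, q2, p3]
    beta_reduce at p1 p2
    have p1' : ∑ i ∈ Finset.Ico c c2, sep e Q1 ((i, b), .S) = if (c2 + b) % 2 = e then 0 else 1 := by
      rw [p1]
      split_ifs with h3
      · rfl
      · rw [show c2 - 1 = (c2 - 1) from rfl]
        by_cases h4 : d1 ≤ c2 - 1
        · exact vS1' _ h4
        · have h5 : c2 = d1 := by omega
          have h6 := Block.sep_floor (b := b) (Q := Q1) he h3
          rw [h6]
          exact vS1' _ (by omega)
    have p2' : ∑ i ∈ Finset.Ico c2 d, sep (1 - e) Q2 ((i, b), .S) = if (d + b) % 2 = 1 - e then 0 else 1 := by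
      rw [p2]
      split_ifs with h3
      · rfl
      · have h6 := Block.sep_floor (b := b) (Q := Q2) he' h3
        rw [h6]
        exact vS2' _ (by omega)
    rw [p1', p2']
    have p4 : ∀ n : ℤ, ((n : ℤ) : ZMod 2) = if n % 2 = 0 then 0 else 1 := by
      intro n
      split_ifs with h3
      · exact (ZMod.intCast_zmod_eq_zero_iff_dvd n 2).2 (Int.dvd_of_emod_eq_zero h3)
      · obtain ⟨k, hk⟩ : ∃ k, n = 2 * k + 1 := ⟨n / 2, by omega⟩
        rw [hk]
        push_cast
        rw [show (2 : ZMod 2) = 0 from rfl]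
        ring
    rw [p4]
    rcases he with rfl | rfl <;> split_ifs <;> first | rfl | omega
  -- pair the half edges with potentials (1, 0)
  by_contra hno
  push Not at hno
  set P : Finset ℤ := (Finset.Ico c d).filter fun i =>
    sep e Q1 ((i, b), .S) = 1 ∧ sep (1 - e) Q2 ((i, b), .S) = 0 with hP
  have hcard : (P.card : ZMod 2) = 1 := by
    rw [← hodd, hP, Finset.card_filter, Nat.cast_sum]
    refine Finset.sum_congr rfl fun i _ => ?_
    have hz : ∀ a : ZMod 2, a = 0 ∨ a = 1 := by decide
    rcases hz (sep e Q1 ((i, b), .S)) with h3 | h3 <;> rcases hz (sep (1 - e) Q2 ((i, b), .S)) with h4 | h4 <;>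
      rw [h3, h4] <;> decide
  have key : ∀ i ∈ P, ∃ k ∈ P, other (mate S) (plane.glue (box c d b t)) ((i, b), .S) = ((k, b), .S) := by
    intro i hi
    rw [hP, Finset.mem_filter, Finset.mem_Ico] at hi
    obtain ⟨⟨hi1, hi2⟩, hi3, hi4⟩ := hi
    have hb := bd_floor (t := t) hi1 hi2 hbt
    have hb2 := hG.other_bd (ω := S) hb
    have hcn : Conn (mate S) (plane.glue (box c d b t)) ((i, b), .S)
        (other (mate S) (plane.glue (box c d b t)) ((i, b), .S)) := Two.conn_other _
    have u1 := h1.sep_conn he hcn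
    have u2 := h2.sep_conn he' hcn
    rw [hi3] at u1
    rw [hi4] at u2
    have i1 : c1 ≤ i := by
      by_contra h3
      rw [vS1 i (by omega)] at hi3
      exact zero_ne_one hi3
    have i2 : i < d2 := by
      by_contra h3
      rw [vS2' i (by omega)] at hi4
      exact one_ne_zero hi4
    rcases box_end hb2 with ⟨h3, h4, h5⟩ | ⟨h3, h4, h5⟩ | ⟨h3, h4, h5⟩ | ⟨h3, h4, h5⟩
    · exfalso
      rw [h3, vW1] at u1
      exact zero_ne_one u1
    · exfalso
      rw [h3, vE2 _ h4 h5] at u2
      exact one_ne_zero u2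
    · refine ⟨_, ?_, h3⟩
      rw [hP, Finset.mem_filter, Finset.mem_Ico]
      rw [h3] at u1 u2
      exact ⟨⟨h4, h5⟩, u1, u2⟩
    · exfalso
      rw [h3] at u1 u2
      refine hno i _ ⟨i1, i2⟩ ⟨?_, ?_⟩ hi3 hi4 h3
      · by_contra h6
        rw [vN1 _ (by omega)] at u1
        exact zero_ne_one u1
      · by_contra h6
        rw [vN2' _ (by omega)] at u2
        exact one_ne_zero u2
  choose! φ hφ1 hφ2 using key
  have hsum : ∑ _i ∈ P, (1 : ZMod 2) = 0 := by
    refine Finset.sum_involution (fun i _ => φ i) ?_ ?_ (fun i hi => hφ1 i hi) ?_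
    · intro i _
      rfl
    · intro i hi _ h3
      have hi' := hi
      rw [hP, Finset.mem_filter, Finset.mem_Ico] at hi'
      have hb := bd_floor (t := t) hi'.1.1 hi'.1.2 hbt
      have h4 := hφ2 i hi
      rw [h3] at h4
      exact hG.other_ne hb h4
    · intro i hi
      have hi' := hi
      rw [hP, Finset.mem_filter, Finset.mem_Ico] at hi'
      have hb := bd_floor (t := t) hi'.1.1 hi'.1.2 hbt
      have h4 := hG.other_other (ω := S) hb
      rw [hφ2 i hi, hφ2 (φ i) (hφ1 i hi)] at h4
      exact congrArg (fun x : Half (ℤ × ℤ) => x.1.1) h4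
  rw [Finset.sum_const, nsmul_eq_mul, mul_one, hcard] at hsum
  exact one_ne_zero hsum

/-- **a strand from the floor to the ceiling between two chains of different colours** -/
theorem exists_through {e c d b t c1 d1 c2 d2 : ℤ} {S Q1 Q2 : Finset (ℤ × ℤ)} (he : e = 0 ∨ e = 1)
    (hbt : b < t) (hc : c ≤ c1) (h12 : d1 ≤ c2) (hd : d2 ≤ d) (h1 : Block e c1 d1 b t S Q1)
    (h2 : Block (1 - e) c2 d2 b t S Q2) :
    ∃ i i' : ℤ, (c1 ≤ i ∧ i < d2) ∧ (c1 ≤ i' ∧ i' < d2) ∧
      other (mate S) (plane.glue (box c d b t)) ((i, b), .S) = ((i', t - 1), .N) := by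
  obtain ⟨i, i', h3, h4, -, -, h5⟩ := exists_through_sep he hbt hc h12 hd h1 h2
  exact ⟨i, i', h3, h4, h5⟩

end Full
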